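import Pool.Agent.EWC.Rdef

/-!
# Project EWC, Ari: the number of records

PROOFS.
* `lin_le_exp`: for `δ > 0` there is `C` with `k + 2 ≤ C * 2 ^ (δ * k)` for all `k : ℕ`: e.g.
  `2 ^ x ≥ 1 + x log 2` (`Real.add_one_le_exp`), so `C = 2 + 1 / (δ log 2)` works.
* `nrec_le`: let `m ≥ 1` be an integer with `1 / m ≤ ε / 2`.  `2 ^ (k / m + 1) ≤ 2 * 2 ^ (k / m : ℝ) ≤
  2 * 2 ^ (ε / 2 * k)` (`Nat.cast_div_le`) and `k + 1 ≤ C 2 ^ (ε / 2 * k)`.  With `l = Nat.log 2 n`,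
  `2 ^ l ≤ n`: `2 ^ (l / m + 1) ≤ 2 * 2 ^ (ε / 2 * l) = 2 * (2 ^ l) ^ (ε / 2) ≤ 2 * n ^ (ε / 2)` and
  `l + 2 ≤ C * 2 ^ (ε / 2 * l) ≤ C * n ^ (ε / 2)`.  `nrec` is the minimum of the two products.
* `slice_le`: `ε = 1 / (c + 1)`, so `ε c ≤ 1` and `ε c log 2 ≤ 1`.  First case, `k ≤ c log log n`:
  `2 ^ (ε k) = exp (ε k log 2) ≤ exp (ε c log 2 * log log n) ≤ exp (log log n) = log n` because
  `log log n ≥ 0` (`n ≥ 3`, `log 3 ≥ 1`: `Real.exp_one_lt_d9`), and `log n ≤ (l + 1) log 2 ≤ 2 l`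
  for `l = Nat.log 2 n ≥ 1`.  Second case, `n ≤ k ^ c`: then `k ≥ 1` (if `k = 0` then
  `0 ^ c = 0 < n`), and `n ^ ε ≤ k ^ (c ε) ≤ k`.  `C' ≥ 1 + 2 |C|`.
-/

set_option autoImplicit false

namespace EWC

theorem lin_le_exp (δ : ℝ) (hδ : 0 < δ) :
    ∃ C : ℝ, 0 < C ∧ ∀ k : ℕ, (k : ℝ) + 2 ≤ C * (2 : ℝ) ^ (δ * k) := by
  have hl : 0 < Real.log 2 := Real.log_pos (by norm_num)
  have hd : 0 < δ * Real.log 2 := mul_pos hδ hl
  refine ⟨2 + 1 / (δ * Real.log 2), by positivity, fun k => ?_⟩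
  have h1 : 1 + δ * Real.log 2 * k ≤ (2 : ℝ) ^ (δ * k) := by
    rw [Real.rpow_def_of_pos (by norm_num)]
    have := Real.add_one_le_exp (Real.log 2 * (δ * k))
    linarith
  have hk : (0 : ℝ) ≤ k := Nat.cast_nonneg k
  have h2 : (2 + 1 / (δ * Real.log 2)) * (1 + δ * Real.log 2 * k) =
      k + 2 + (2 * (δ * Real.log 2 * k) + 1 / (δ * Real.log 2)) := by
    field_simp
    ring
  calc (k : ℝ) + 2 ≤ k + 2 + (2 * (δ * Real.log 2 * k) + 1 / (δ * Real.log 2)) := by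
        have : 0 ≤ 2 * (δ * Real.log 2 * k) + 1 / (δ * Real.log 2) := by positivity
        linarith
    _ = (2 + 1 / (δ * Real.log 2)) * (1 + δ * Real.log 2 * k) := h2.symm
    _ ≤ _ := mul_le_mul_of_nonneg_left h1 (by positivity)

/-- The common part of the two estimates of `nrec_le`. -/
private theorem pow_div_le (ε : ℝ) (m : ℕ) (hm : 1 ≤ m) (h : 1 / (m : ℝ) ≤ ε / 2) (k : ℕ) :
    ((2 ^ (k / m + 1) : ℕ) : ℝ) ≤ 2 * (2 : ℝ) ^ (ε / 2 * k) := by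
  have hk : (0 : ℝ) ≤ k := Nat.cast_nonneg k
  have h1 : ((k / m : ℕ) : ℝ) ≤ ε / 2 * k := by
    calc ((k / m : ℕ) : ℝ) ≤ (k : ℝ) / m := Nat.cast_div_le
      _ = 1 / (m : ℝ) * k := by ring
      _ ≤ ε / 2 * k := mul_le_mul_of_nonneg_right h hk
  push_cast
  rw [pow_succ, mul_comm]
  refine mul_le_mul_of_nonneg_left ?_ (by norm_num)
  rw [← Real.rpow_natCast]
  exact Real.rpow_le_rpow_of_exponent_le (by norm_num) h1

theorem nrec_le (ε : ℝ) (hε : 0 < ε) : ∃ m : ℕ, 1 ≤ m ∧ ∃ C : ℝ, ∀ k n : ℕ, 3 ≤ n →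
    (nrec m k (Nat.log 2 n) : ℝ) ≤ C * min ((2 : ℝ) ^ (ε * k)) ((n : ℝ) ^ ε) := by
  obtain ⟨C, hC, hlin⟩ := lin_le_exp (ε / 2) (by positivity)
  have hm0 : 0 < ⌈2 / ε⌉₊ := Nat.ceil_pos.mpr (by positivity)
  have hm : 1 / ((⌈2 / ε⌉₊ : ℕ) : ℝ) ≤ ε / 2 := by
    have h1 : 2 / ε ≤ ((⌈2 / ε⌉₊ : ℕ) : ℝ) := Nat.le_ceil _
    have h2 : (0 : ℝ) < 2 / ε := by positivity
    calc 1 / ((⌈2 / ε⌉₊ : ℕ) : ℝ) ≤ 1 / (2 / ε) := one_div_le_one_div_of_le h2 h1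
      _ = ε / 2 := by field_simp
  refine ⟨⌈2 / ε⌉₊, hm0, 2 * C, fun k n hn => ?_⟩
  set m := ⌈2 / ε⌉₊
  set l := Nat.log 2 n
  have hn0 : (0 : ℝ) ≤ n := Nat.cast_nonneg n
  have hsq : ∀ x : ℝ, (2 : ℝ) ^ (ε / 2 * x) * (2 : ℝ) ^ (ε / 2 * x) = (2 : ℝ) ^ (ε * x) := fun x => by
    rw [← Real.rpow_add (by norm_num)]
    congr 1
    ring
  rw [mul_min_of_nonneg _ _ (by positivity)]
  refine le_min ?_ ?_
  · have h1 : nrec m k l ≤ 2 ^ (k / m + 1) * (k + 1) := min_le_left _ _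
    have h2 : (nrec m k l : ℝ) ≤ ((2 ^ (k / m + 1) : ℕ) : ℝ) * ((k : ℝ) + 1) := by exact_mod_cast h1
    have h3 : (k : ℝ) + 1 ≤ C * (2 : ℝ) ^ (ε / 2 * k) := by linarith [hlin k]
    calc (nrec m k l : ℝ) ≤ _ := h2
      _ ≤ (2 * (2 : ℝ) ^ (ε / 2 * k)) * (C * (2 : ℝ) ^ (ε / 2 * k)) :=
          mul_le_mul (pow_div_le ε m hm0 hm k) h3 (by positivity) (by positivity)
      _ = 2 * C * ((2 : ℝ) ^ (ε / 2 * k) * (2 : ℝ) ^ (ε / 2 * k)) := by ring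
      _ = 2 * C * (2 : ℝ) ^ (ε * k) := by rw [hsq]
  · have h1 : nrec m k l ≤ 2 ^ (l / m + 1) * (l + 2) := min_le_right _ _
    have h2 : (nrec m k l : ℝ) ≤ ((2 ^ (l / m + 1) : ℕ) : ℝ) * ((l : ℝ) + 2) := by exact_mod_cast h1
    have h4 : (2 : ℝ) ^ (ε * l) ≤ (n : ℝ) ^ ε := by
      have h5 : ((2 : ℝ) ^ l) ≤ n := by exact_mod_cast Nat.pow_log_le_self 2 (by omega : n ≠ 0)
      calc (2 : ℝ) ^ (ε * l) = ((2 : ℝ) ^ l) ^ ε := by
            rw [mul_comm, Real.rpow_mul (by norm_num), Real.rpow_natCast]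
        _ ≤ _ := Real.rpow_le_rpow (by positivity) h5 hε.le
    calc (nrec m k l : ℝ) ≤ _ := h2
      _ ≤ (2 * (2 : ℝ) ^ (ε / 2 * l)) * (C * (2 : ℝ) ^ (ε / 2 * l)) :=
          mul_le_mul (pow_div_le ε m hm0 hm l) (hlin l) (by positivity) (by positivity)
      _ = 2 * C * ((2 : ℝ) ^ (ε / 2 * l) * (2 : ℝ) ^ (ε / 2 * l)) := by ring
      _ = 2 * C * (2 : ℝ) ^ (ε * l) := by rw [hsq]
      _ ≤ _ := mul_le_mul_of_nonneg_left h4 (by positivity)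

theorem slice_le (c : ℝ) (hc : 0 < c) : ∃ ε : ℝ, 0 < ε ∧ ∀ C : ℝ, ∃ C' : ℕ, ∀ k n : ℕ, 3 ≤ n →
    ((k : ℝ) ≤ c * Real.log (Real.log n) ∨ (n : ℝ) ≤ (k : ℝ) ^ c) →
    (k : ℝ) + C * min ((2 : ℝ) ^ (ε * k)) ((n : ℝ) ^ ε) ≤ C' * (k + Nat.log 2 n) := by
  refine ⟨1 / (c + 1), by positivity, fun C => ⟨⌈1 + 2 * |C|⌉₊, fun k n hn h => ?_⟩⟩
  set ε := 1 / (c + 1) with hε
  have hε0 : 0 < ε := by positivity
  have hεc : ε * c ≤ 1 := by
    rw [hε, div_mul_eq_mul_div, one_mul, div_le_one (by positivity)]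
    linarith
  set l := Nat.log 2 n with hl
  have hn3 : (3 : ℝ) ≤ n := by exact_mod_cast hn
  have hn0 : (0 : ℝ) < n := by linarith
  have hk : (0 : ℝ) ≤ k := Nat.cast_nonneg k
  have hl0 : (0 : ℝ) ≤ l := Nat.cast_nonneg l
  have hM0 : 0 ≤ min ((2 : ℝ) ^ (ε * k)) ((n : ℝ) ^ ε) := le_min (by positivity) (by positivity)
  have hl1 : 1 ≤ l := by
    rw [hl]
    exact Nat.log_pos (by norm_num) (by omega)
  have hlog2 : Real.log 2 ≤ 1 := by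
    have := Real.log_two_lt_d9
    linarith
  have hlog20 : 0 ≤ Real.log 2 := Real.log_nonneg (by norm_num)
  have hM : min ((2 : ℝ) ^ (ε * k)) ((n : ℝ) ^ ε) ≤ 2 * (k + l) := by
    rcases h with h | h
    · refine (min_le_left _ _).trans ?_
      have h1 : 1 ≤ Real.log n := by
        rw [Real.le_log_iff_exp_le hn0]
        have := Real.exp_one_lt_d9
        linarith
      have h2 : 0 ≤ Real.log (Real.log n) := Real.log_nonneg h1
      have h3 : (2 : ℝ) ^ (ε * k) ≤ Real.log n := by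
        rw [Real.rpow_def_of_pos (by norm_num)]
        have h4 : Real.log 2 * (ε * k) ≤ Real.log (Real.log n) := by
          calc Real.log 2 * (ε * k) ≤ 1 * (ε * k) :=
                mul_le_mul_of_nonneg_right hlog2 (by positivity)
            _ = ε * k := one_mul _
            _ ≤ ε * (c * Real.log (Real.log n)) := mul_le_mul_of_nonneg_left h hε0.le
            _ = (ε * c) * Real.log (Real.log n) := by ring
            _ ≤ 1 * Real.log (Real.log n) := mul_le_mul_of_nonneg_right hεc h2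
            _ = _ := one_mul _
        calc Real.exp (Real.log 2 * (ε * k)) ≤ Real.exp (Real.log (Real.log n)) :=
              Real.exp_le_exp.mpr h4
          _ = Real.log n := Real.exp_log (by linarith)
      have h5 : Real.log n ≤ (l + 1) * Real.log 2 := by
        have h6 : (n : ℝ) ≤ (2 : ℝ) ^ (l + 1) := by
          have := (Nat.lt_pow_succ_log_self (b := 2) (by norm_num) n).le
          exact_mod_cast this
        calc Real.log n ≤ Real.log ((2 : ℝ) ^ (l + 1)) := Real.log_le_log hn0 h6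
          _ = ((l + 1 : ℕ) : ℝ) * Real.log 2 := Real.log_pow _ _
          _ = _ := by push_cast; ring
      have hl1' : (1 : ℝ) ≤ l := by exact_mod_cast hl1
      have h7 : ((l : ℝ) + 1) * Real.log 2 ≤ ((l : ℝ) + 1) * 1 :=
        mul_le_mul_of_nonneg_left hlog2 (by positivity)
      linarith
    · refine (min_le_right _ _).trans ?_
      have hk1 : (1 : ℝ) ≤ k := by
        rcases Nat.eq_zero_or_pos k with h0 | h0
        · exfalso
          rw [h0, Nat.cast_zero, Real.zero_rpow hc.ne'] at h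
          linarith
        · exact_mod_cast h0
      calc (n : ℝ) ^ ε ≤ ((k : ℝ) ^ c) ^ ε := Real.rpow_le_rpow hn0.le h hε0.le
        _ = (k : ℝ) ^ (c * ε) := (Real.rpow_mul hk c ε).symm
        _ ≤ (k : ℝ) ^ (1 : ℝ) := Real.rpow_le_rpow_of_exponent_le hk1 (by linarith)
        _ = k := Real.rpow_one _
        _ ≤ 2 * (k + l) := by linarith
  have hC' : 1 + 2 * |C| ≤ ((⌈1 + 2 * |C|⌉₊ : ℕ) : ℝ) := Nat.le_ceil _
  have hC0 : C * min ((2 : ℝ) ^ (ε * k)) ((n : ℝ) ^ ε) ≤ |C| * (2 * (k + l)) :=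
    (mul_le_mul_of_nonneg_right (le_abs_self C) hM0).trans
      (mul_le_mul_of_nonneg_left hM (abs_nonneg C))
  calc (k : ℝ) + C * min ((2 : ℝ) ^ (ε * k)) ((n : ℝ) ^ ε) ≤ (k + l) + |C| * (2 * (k + l)) := by
        linarith
    _ = (1 + 2 * |C|) * (k + l) := by ring
    _ ≤ _ := mul_le_mul_of_nonneg_right hC' (by positivity)

/-- The time bound. -/
theorem time_le (d C : ℕ) : ∃ C' : ℕ, ∀ k w n : ℕ, w ≤ d →
    (n * (w + 2) ^ k + 2) ^ C ≤ 2 ^ (C' * k) * (n + 2) ^ C' := by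
  refine ⟨(d + 2) * C, fun k w n hw => ?_⟩
  have h1 : (w + 2) ^ k ≤ 2 ^ ((d + 2) * k) := by
    rw [pow_mul]
    refine Nat.pow_le_pow_left ?_ k
    calc w + 2 ≤ d + 2 := by omega
      _ ≤ 2 ^ (d + 2) := (Nat.lt_two_pow_self).le
  have h2 : n * (w + 2) ^ k + 2 ≤ 2 ^ ((d + 2) * k) * (n + 2) := by
    have h3 : 1 ≤ 2 ^ ((d + 2) * k) := Nat.one_le_two_pow
    have h4 : n * (w + 2) ^ k ≤ n * 2 ^ ((d + 2) * k) := Nat.mul_le_mul_left n h1
    nlinarith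
  calc (n * (w + 2) ^ k + 2) ^ C ≤ (2 ^ ((d + 2) * k) * (n + 2)) ^ C := Nat.pow_le_pow_left h2 C
    _ = 2 ^ ((d + 2) * C * k) * (n + 2) ^ C := by
        rw [mul_pow, ← pow_mul]
        congr 2
        ring
    _ ≤ 2 ^ ((d + 2) * C * k) * (n + 2) ^ ((d + 2) * C) := by
        refine Nat.mul_le_mul_left _ (Nat.pow_le_pow_right (by omega) ?_)
        nlinarith

end EWC
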