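import Pool.Agent.EWC.PBm

/-!
# Project EWC, PBe: equality, codes and sizes

* `eqP`: compares the two top words.  `scP A`, `scP B` move the words of `x` and `y` to `A` and `B`
  (`ru_scA`, `ru_scB`).  Then `loop A`: pop a symbol of `A`, `cas B`: if `B` is empty, or if its
  symbol is different, push a symbol on `C`.  Then `loop B` (rest): push a symbol on `C` for each.
  At the end `C = []` if and only if the words are equal (words of equal length and equal symbols;
  if `B` is longer the rest is nonempty, if `A` is longer `B` is empty at some point).  Finally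
  `cas C`: empty: push the word of `true`; otherwise clear `C` and push the word of `false`.
  State after the loops: `C = List.replicate n true` with `n = 0 ↔ x.enc = y.enc`
  (`Tr.enc_inj`, `List.reverse` injective).
* `PB.beq`: duplicate the argument, compute both values, `eqP`: the program for the pair
  `(f a, g a)` of `PB.pair`, then `caseP .skip eqP` splits it.  `tr` is injective.
* `quoP`: `scP A` moves the word of `x` to `A` (reversed); push `code ([] : List Bool) = [false]` on
  `M`; then `loop A`: for the symbol `s` push `true :: code s` on `M`.  At the end `M` has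
  `code x.enc` on top (`code (s :: w) = true :: (code s ++ code w)`), a word of length at most
  `4 * x.enc.length + 1`.
* `PB.codeOf` from `quoP`; `PB.szOf`: `sz (f a) = (code (f a)).length`, `PB.length`.
* `PB.mem`: `(l a).any fun b => decide (f a = b)`; `PB.any` with the pair `(f a, b)`.
-/

set_option autoImplicit false

namespace EWC

open Pool.Agent.Helper64.Stk

/-- Compare the two top words. -/
def eqP : Prog :=
  .seq (scP .A) (.seq (scP .B) (.seq
    (.loop .A (fun _ => false) fun s => .cas .B (.push .C true) fun s' =>
      if s = s' then .skip else .push .C true) (.seq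
    (.loop .B (fun _ => false) fun _ => .push .C true)
    (.cas .C (pushP (code true)) fun _ =>
      .seq (.loop .C (fun _ => false) fun _ => .skip) (pushP (code false))))))

/-- The rest of `B` and the stack `C` after the first loop. -/
private def cmp : List Bool → List Bool → List Bool → List Bool × List Bool
  | [], b, c => (b, c)
  | _ :: a, [], c => cmp a [] (true :: c)
  | s :: a, s' :: b, c => cmp a b (if s = s' then c else true :: c)

private theorem ru_l1 (m f : List Bool) : ∀ a b c : List Bool,
    Ru (.loop .A (fun _ => false) fun s => .cas .B (.push .C true) fun s' =>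
      if s = s' then .skip else .push .C true) (st m a b c f)
      (st m [] (cmp a b c).1 (cmp a b c).2 f) (3 * a.length + 1) := by
  intro a
  induction a with
  | nil => intro b c; exact Ru.loop_nil rfl
  | cons s a ih =>
    intro b c
    rcases b with _ | ⟨s', b⟩
    · refine (Ru.loop_step (a := s) (l := a) rfl rfl (n := 2) ?_
        (ih [] (true :: c))).conv rfl (by simp; omega)
      rw [st_A]
      refine Ru.cas_nil rfl ((Ru.push .C true _).conv ?_ le_rfl)
      rw [st_C]; rfl
    · refine (Ru.loop_step (a := s) (l := a) rfl rfl (n := 2) ?_
        (ih b (if s = s' then c else true :: c))).conv rfl (by simp; omega)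
      rw [st_A]
      refine (Ru.cas_cons (a := s') (l := b) rfl (n := 1) ?_)
      rw [st_B]
      by_cases h : s = s'
      · rw [if_pos h, if_pos h]
        exact Ru.skip _
      · rw [if_neg h, if_neg h]
        refine (Ru.push .C true _).conv ?_ le_rfl
        rw [st_C]; rfl

private theorem ru_l2 (m f : List Bool) : ∀ b c : List Bool,
    Ru (.loop .B (fun _ => false) fun _ => .push .C true) (st m [] b c f)
      (st m [] [] (List.replicate b.length true ++ c) f) (2 * b.length + 1) := by
  intro b
  induction b with
  | nil => intro c; exact Ru.loop_nil rfl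
  | cons s b ih =>
    intro c
    refine (Ru.loop_step (a := s) (l := b) rfl rfl (n := 1) ?_
      (ih (true :: c))).conv ?_ (by simp; omega)
    · rw [st_B]
      refine (Ru.push .C true _).conv ?_ le_rfl
      rw [st_C]; rfl
    · congr 1
      rw [List.length_cons, List.replicate_succ', List.append_assoc]
      rfl

private theorem ru_l3 (m f : List Bool) : ∀ c : List Bool,
    Ru (.loop .C (fun _ => false) fun _ => .skip) (st m [] [] c f)
      (st m [] [] [] f) (2 * c.length + 1) := by
  intro c
  induction c with
  | nil => exact Ru.loop_nil rfl
  | cons s c ih =>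
    refine (Ru.loop_step (a := s) (l := c) rfl rfl (n := 1) ?_ ih).conv rfl (by simp; omega)
    rw [st_C]
    exact Ru.skip _

private theorem cmp_len : ∀ a b c : List Bool,
    (cmp a b c).1.length + (cmp a b c).2.length ≤ a.length + b.length + c.length := by
  intro a
  induction a with
  | nil => intro b c; simp [cmp]
  | cons s a ih =>
    intro b c
    rcases b with _ | ⟨s', b⟩
    · have := ih [] (true :: c)
      simp only [cmp, List.length_cons, List.length_nil] at this ⊢
      omega
    · have := ih b (if s = s' then c else true :: c)
      have h2 : (if s = s' then c else true :: c).length ≤ c.length + 1 := by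
        split_ifs <;> simp
      simp only [cmp, List.length_cons] at this ⊢
      omega

private theorem cmp_c : ∀ a b c : List Bool, c ≠ [] → (cmp a b c).2 ≠ [] := by
  intro a
  induction a with
  | nil => intro b c h; exact h
  | cons s a ih =>
    intro b c h
    rcases b with _ | ⟨s', b⟩
    · exact ih [] (true :: c) (by simp)
    · refine ih b _ ?_
      split_ifs
      · exact h
      · simp

private theorem cmp_eq : ∀ a b : List Bool,
    List.replicate (cmp a b []).1.length true ++ (cmp a b []).2 = [] ↔ a = b := by
  intro a
  induction a with
  | nil =>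
    intro b
    cases b <;> simp [cmp, List.replicate_succ]
  | cons s a ih =>
    intro b
    rcases b with _ | ⟨s', b⟩
    · have h1 := cmp_c a [] [true] (by simp)
      simp only [cmp, List.append_eq_nil_iff]
      constructor
      · rintro ⟨-, h⟩
        exact absurd h h1
      · intro h
        simp at h
    · by_cases h : s = s'
      · subst h
        simp only [cmp, if_true, List.cons.injEq, true_and]
        exact ih b
      · have h1 := cmp_c a b [true] (by simp)
        simp only [cmp, if_neg h, List.append_eq_nil_iff]
        constructor
        · rintro ⟨-, h'⟩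
          exact absurd h' h1
        · intro h'
          exact absurd (List.cons.inj h').1 h

theorem ru_eq (x y : Tr) (m f : List Bool) :
    Ru eqP (st (x.enc ++ (y.enc ++ m)) [] [] [] f) (st (code (decide (x = y)) ++ m) [] [] [] f)
      (40 * (x.enc.length + y.enc.length) + 40) := by
  have h1 := ru_scA x (y.enc ++ m) [] [] f
  have h2 := ru_scB y m x.enc.reverse [] f
  have h3 := ru_l1 m f x.enc.reverse y.enc.reverse []
  have h4 := ru_l2 m f (cmp x.enc.reverse y.enc.reverse []).1 (cmp x.enc.reverse y.enc.reverse []).2
  have h5 := cmp_len x.enc.reverse y.enc.reverse []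
  have h6 := cmp_eq x.enc.reverse y.enc.reverse
  simp only [List.append_nil, List.length_reverse, List.length_nil, Nat.add_zero] at h1 h2 h3 h4 h5
  have h7 : (x.enc.reverse = y.enc.reverse) ↔ x = y := by
    rw [List.reverse_inj]
    exact ⟨fun h => Tr.enc_inj h, fun h => by rw [h]⟩
  rw [h7] at h6
  obtain ⟨b', hb'⟩ : ∃ b', b' = (cmp x.enc.reverse y.enc.reverse []).1 := ⟨_, rfl⟩
  obtain ⟨c', hc'⟩ : ∃ c', c' = (cmp x.enc.reverse y.enc.reverse []).2 := ⟨_, rfl⟩
  rw [← hb', ← hc'] at h3 h4 h5 h6
  have h8 : Ru (.cas .C (pushP (code true)) fun _ =>
      .seq (.loop .C (fun _ => false) fun _ => .skip) (pushP (code false)))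
      (st m [] [] (List.replicate b'.length true ++ c') f)
      (st (code (decide (x = y)) ++ m) [] [] [] f) (2 * (b'.length + c'.length) + 10) := by
    rcases h9 : List.replicate b'.length true ++ c' with _ | ⟨s, c''⟩
    · have h10 : x = y := h6.1 h9
      rw [decide_eq_true h10]
      refine (Ru.cas_nil rfl (ru_push (code true) m [] [] [] f)).mono ?_
      rw [code_true]
      simp only [List.length_cons, List.length_nil]
      omega
    · have h10 : ¬ x = y := fun h => by
        have := h6.2 h
        rw [h9] at this
        simp at this
      rw [decide_eq_false h10]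
      have h11 : b'.length + c'.length = c''.length + 1 := by
        have := congrArg List.length h9
        rw [List.length_append, List.length_replicate, List.length_cons] at this
        exact this
      refine (Ru.cas_cons (a := s) (l := c'') rfl (n := (2 * c''.length + 1) + 2) ?_).mono
        (by omega)
      rw [st_C]
      exact (ru_l3 m f c'').seq (ru_push (code false) m [] [] [] f)
  exact (h1.seq (h2.seq (h3.seq (h4.seq h8)))).mono (by omega)

/-- Replace the top word `w` by the code of the list `w`. -/
def quoP : Prog :=
  .seq (scP .A) (.seq (.push .M false) (.loop .A (fun _ => false) fun s =>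
    .seq (pushP (code s)) (.push .M true)))

theorem ru_quo (x : Tr) (m f : List Bool) :
    Ru quoP (st (x.enc ++ m) [] [] [] f) (st (code x.enc ++ m) [] [] [] f)
      (40 * x.enc.length + 40) := by
  have key : ∀ (a w : List Bool),
      Ru (.loop .A (fun _ => false) fun s => .seq (pushP (code s)) (.push .M true))
        (st (code w ++ m) a [] [] f) (st (code (a.reverse ++ w) ++ m) [] [] [] f)
        (6 * a.length + 1) := by
    intro a
    induction a with
    | nil => intro w; exact Ru.loop_nil rfl
    | cons s a ih =>
      intro w
      refine (Ru.loop_step (a := s) (l := a) rfl rfl (n := 5) ?_ (ih (s :: w))).conv ?_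
        (by simp; omega)
      · rw [st_A]
        have h0 : (code s).length ≤ 3 := sz_bool s
        refine ((ru_push (code s) (code w ++ m) a [] [] f).seq (Ru.push .M true _)).conv ?_
          (by omega)
        rw [st_M]
        simp [st, code_cons]
      · simp
  have h1 := ru_scA x m [] [] f
  have h2 := key x.enc.reverse []
  simp only [List.append_nil, List.reverse_reverse, List.length_reverse] at h1 h2
  refine (h1.seq (Ru.seq (n := 1) ?_ h2)).mono (by omega)
  refine (Ru.push .M false _).conv ?_ le_rfl
  rw [st_M]; rfl

theorem sz_word (w : List Bool) : sz w ≤ 4 * w.length + 1 := by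
  have := sz_list_le (l := w) (B := 3) fun b _ => sz_bool b
  omega

variable {α β γ δ : Type} [Dat α] [Dat β] [Dat γ] [Dat δ]

variable {μ : α → ℕ}

theorem PB.beq [DecidableEq β] {f g : α → β} (hf : PB μ f) (hg : PB μ g) :
    PB μ fun a => decide (f a = g a) := by
  obtain ⟨p, T, hT, hp⟩ := (hf.pair hg).elim
  refine PB.intro hf.1 (.seq p (caseP .skip eqP))
    (fun a => T a + (40 * (sz (f a) + sz (g a)) + 41)) ?_ ?_
  · exact hT.add (((PLe.const _ 40).mul (hf.size.add hg.size)).add (PLe.const _ 41))
  · intro a m s
    have h1 := ru_case_cons (q := .skip) (ru_eq (tr (f a)) (tr (g a)) m s)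
    have h2 : decide (tr (f a) = tr (g a)) = decide (f a = g a) :=
      decide_eq_decide.2 ⟨fun h => Dat.tr_inj h, fun h => by rw [h]⟩
    rw [h2] at h1
    exact (hp a m s).seq h1

theorem PB.codeOf {f : α → β} (hf : PB μ f) : PB μ fun a => code (f a) := by
  obtain ⟨p, T, hT, hp⟩ := hf.elim
  refine PB.intro hf.1 (.seq p quoP) (fun a => T a + (40 * sz (f a) + 40)) ?_ ?_
  · exact hT.add (((PLe.const _ 40).mul hf.size).add (PLe.const _ 40))
  · intro a m s
    exact (hp a m s).seq (ru_quo (tr (f a)) m s)

theorem PB.szOf {f : α → β} (hf : PB μ f) : PB μ fun a => sz (f a) :=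
  hf.codeOf.length

theorem PB.mem [DecidableEq β] {f : α → β} {l : α → List β} (hf : PB μ f) (hl : PB μ l) :
    PB μ fun a => decide (f a ∈ l a) := by
  have h0 : ∀ p : α × β, sz p ≤ μ p.1 + sz p := fun p => Nat.le_add_left _ _
  have hid : PB (fun p : α × β => μ p.1 + sz p) fun p => p := PB.id h0
  have h1 : PB (fun p : α × β => μ p.1 + sz p) fun p => f p.1 :=
    (PB.fst hid).comp hf (PLe.of_le fun p => Nat.le_add_right _ _)
  have h2 : PB (fun p : α × β => μ p.1 + sz p) fun p => decide (f p.1 = p.2) :=
    h1.beq (PB.snd hid)
  refine (hl.any h2 ?_).congr fun a => ?_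
  · obtain ⟨C, hC⟩ := ((PLe.self μ).add (hl.szle.add hl.size)).add (PLe.const _ 1)
    refine ⟨C, fun a b hb => le_trans ?_ (hC a)⟩
    have h3 := sz_le_of_mem hb
    show μ a + sz (a, b) ≤ μ a + (sz a + sz (l a)) + 1
    rw [sz_pair]
    omega
  · rw [Bool.eq_iff_iff, List.any_eq_true, decide_eq_true_iff]
    constructor
    · rintro ⟨b, hb, h⟩
      rw [decide_eq_true_iff] at h
      rw [h]
      exact hb
    · intro h
      exact ⟨f a, h, decide_eq_true rfl⟩

end EWC
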