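import Pool.Agent.EWC.Defs

/-!
# Project EWC, Rdef: the reduction

`φ : Fm (s + 3)` is a formula of depth `s + 3` all of whose literals have the sign `sg`.  Its
subformulas of depth `1` (`leaves`) are lists `γ` of clauses, a clause is a list of at most `d`
literals.  A list `A` of names hits a clause if it contains a variable of the clause, it hits `γ` if
it hits all clauses of `γ`.  So if `S` is the set of the true variables, a leaf `γ` is true (`sg =
true`) or false (`sg = false`) if and only if `S` hits `γ`.

New variables: `yv u` for every variable `u`, and `wv b A` for `b < N` and `A ∈ AA` (meaning: the `b`-th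
record is `A`), where `AA` is a list of lists of names.
-/

set_option autoImplicit false

namespace EWC

/-- The leaves: all subformulas of depth one. -/
def leaves : (t : ℕ) → Fm (t + 1) → List (Fm 1)
  | 0, φ => [φ]
  | t + 1, φ => φ.flatMap (leaves t)

/-- The clause contains a variable of `A`. -/
def hit (A : List Name) (D : Fm 0) : Bool := D.any fun l => decide (l.2 ∈ A)

/-- All clauses contain a variable of `A`. -/
def hits (A : List Name) (γ : Fm 1) : Bool := γ.all (hit A)

/-- The same for finite sets. -/
def Hf (γ : Fm 1) (S : Finset Name) : Prop := ∀ D ∈ γ, ∃ l ∈ D, l.2 ∈ S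

/-- One step of the search tree: if `A` has less than `k` members and there is a clause which is
not hit by `A`, add the variables of the first such clause, in all possible ways. -/
def exp1 (k : ℕ) (γ : Fm 1) (A : List Name) : List (List Name) :=
  if k ≤ A.length then [A] else
    match γ.filter (fun D => !hit A D) with
    | [] => [A]
    | D :: _ => D.map fun l => l.2 :: A

/-- The search tree: all ways to extend `A`, with at most `k` members, so that it hits `γ`. -/
def extn (k : ℕ) (γ : Fm 1) (A : List Name) : List (List Name) :=
  (fun L : List (List Name) => L.flatMap (exp1 k γ))^[k] [A]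

/-- Sets of at most `k` variables which hit `γ`; all minimal ones are in the list. -/
def hs (k : ℕ) (γ : Fm 1) : List (List Name) := (extn k γ []).filter fun T => hits T γ

/-- Union. -/
def un (A T : List Name) : List Name := A ++ T.filter fun u => !decide (u ∈ A)

/-- Unions of at most `r` members of `TT`. -/
def uns (TT : List (List Name)) (r : ℕ) : List (List Name) :=
  (fun L : List (List Name) => L ++ L.flatMap fun A => TT.map (un A))^[r] [[]]

/-- Chains of at most `r` extensions. -/
def chn (k : ℕ) (G : List (Fm 1)) (r : ℕ) : List (List Name) :=
  (fun L : List (List Name) => L ++ L.flatMap fun A => G.flatMap fun γ => extn k γ A)^[r] [[]]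

/-- The numbers below `n`. -/
def rng : ℕ → List ℕ
  | 0 => []
  | n + 1 => n :: rng n

/-- The new variable of a variable. -/
def yv (u : Name) : Name := false :: u

/-- The new variable which says that record `b` is `A`. -/
def wv (b : ℕ) (A : List Name) : Name := true :: code (b, A)

/-- The records. -/
def recs (N : ℕ) (AA : List (List Name)) : List (ℕ × List Name) :=
  (rng N).flatMap fun b => AA.map fun A => (b, A)

/-- The transformation of the formula: a subformula `β` of depth two becomes the list of the
variables of the records which hit a member of `β`. -/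
def tf (sg : Bool) (W : List (ℕ × List Name)) : (t : ℕ) → Fm (t + 2) → Fm (t + 1)
  | 0, β => (W.filter fun w => β.any (hits w.2)).map fun w => [(sg, wv w.1 w.2)]
  | t + 1, φ => φ.map (tf sg W t)

/-- A literal as a formula of depth `s`. -/
def up : (s : ℕ) → Lit → Fm s
  | 0, l => [l]
  | s + 1, l => [up s l]

/-- The additional clauses. -/
def cls (k N : ℕ) (AA : List (List Name)) (G : List (Fm 1)) (V : List Name) : List (List Lit) :=
  ((rng N).map fun b => AA.map fun A => (true, wv b A)) ++
  (((rng N).flatMap fun b => AA.flatMap fun A =>
    (AA.filter fun A' => !decide (A = A')).map fun A' => [(false, wv b A), (false, wv b A')]) ++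
  (((rng N).flatMap fun b => AA.flatMap fun A => A.map fun u => [(false, wv b A), (true, yv u)]) ++
  ((G.flatMap fun γ => (hs k γ).map fun T => (T.map fun u => (false, yv u)) ++
    ((recs N AA).filter fun w => hits w.2 γ).map fun w => (true, wv w.1 w.2)) ++
  V.map fun u => [(true, yv u), (false, yv u)])))

/-- The variables in order. -/
def names (t : ℕ) (φ : Fm t) : List Name := (lits t φ).map Prod.snd

/-- The new formula. -/
def red (sg : Bool) (s : ℕ) (φ : Fm (s + 3)) (k N : ℕ) (AA : List (List Name)) : Fm (s + 2) :=
  tf sg (recs N AA) (s + 1) φ ++
    (cls k N AA (leaves (s + 2) φ) (names (s + 3) φ)).map fun c => c.map (up s)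

/-- The number of steps in `uns`. -/
def r1 (m : ℕ) : ℕ := 32 * m

/-- The number of steps in `chn`; `l` is the logarithm of the length of the instance. -/
def r2 (m k l : ℕ) : ℕ := 32 * m * (k / l + 1)

/-- The number of records. -/
def nrec (m k l : ℕ) : ℕ := min (2 ^ (k / m + 1) * (k + 1)) (2 ^ (l / m + 1) * (l + 2))

/-- The list of the possible records. -/
def allA (m k l : ℕ) (G : List (Fm 1)) : List (List Name) :=
  uns (G.flatMap (hs k)) (r1 m) ++ chn k G (r2 m k l)

/-- The reduction. -/
def redF (sg : Bool) (s m : ℕ) (x : Fm (s + 3) × ℕ) : Fm (s + 2) × ℕ :=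
  (red sg s x.1 x.2 (nrec m x.2 (Nat.log 2 (sz x)))
      (allA m x.2 (Nat.log 2 (sz x)) (leaves (s + 2) x.1)),
    x.2 + nrec m x.2 (Nat.log 2 (sz x)))

end EWC
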