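import Pool.Agent.EWC.PBn
import Pool.Agent.EWC.PBe
import Pool.Agent.EWC.Rdef

/-!
# Project EWC, Cp1: the simple functions are computable in polynomial time

`PB sz f` means: `f` is computed in time polynomial in the size of the argument.  All proofs are
compositions of the lemmas of `PBa`, `PBm`, `PBe`: write the function in the form required by the
lemma (`(l a).any (fun b => p (a, b))` etc.; use `PB.congr` or `show` for the definitional
rewriting), projections `PB.fst`, `PB.snd` of `PB.id (fun _ => le_rfl)`.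

* `pf_hit`: `D.any fun l => decide (l.2 ∈ A)`: `PB.any'` and `PB.mem`.
* `pf_hits`: `γ.all (hit A)`: `PB.all'`.
* `pf_exp1`: `PB.cond` with the test `decide (k ≤ A.length)` (`PB.natLe`, `PB.length`; an
  `if k ≤ n` is the same as `if decide (k ≤ n) = true`), `PB.lcase` on the filtered list, `PB.map'`.
* `pf_un`: `PB.append`, `PB.filter'`, `PB.not`, `PB.mem`.
* `pf_leaves`, `pf_lits`: induction on `t`, `PB.flatMap'`; `Fm (t + 1)` is `List (Fm t)` and its code
  is that of the list (definitionally; `datFm (t + 1)` unfolds to the instance for lists).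
* `pf_uns`: the number `r` of iterations is constant: induction on `r`
  (`Function.iterate_succ_apply'`), the step `L ↦ L ++ L.flatMap ...` is computed by a function of
  the pair `(TT, L)`.
* `pf_tf`, `pf_up`: induction on `t`.
-/

set_option autoImplicit false

namespace EWC

private theorem id0 {α : Type} [Dat α] : PB (sz : α → ℕ) fun x => x := PB.id fun _ => le_rfl

private theorem lcase1 {α β δ : Type} [Dat α] [Dat β] [Dat δ] {μ : α → ℕ} {l : α → List β}
    {g : α → δ} {h : α × (β × List β) → δ} (hl : PB μ l) (hg : PB μ g) (hh : PB sz h) :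
    PB μ fun a => match l a with
      | [] => g a
      | b :: t => h (a, (b, t)) := by
  refine PB.lcase hl hg hh ?_
  obtain ⟨C, hC⟩ := (hl.szle.add hl.size).add (PLe.const _ 1)
  refine ⟨C, fun a b t h => le_trans ?_ (hC a)⟩
  show _ ≤ sz a + sz (l a) + 1
  rw [sz_pair, h, sz_cons, sz_pair]

theorem pf_hit : PB sz fun x : List Name × Fm 0 => hit x.1 x.2 := by
  have h1 : PB sz fun p : (List Name × Fm 0) × Lit => decide (p.2.2 ∈ p.1.1) :=
    (PB.mem id0.snd.snd id0.fst.fst).congr fun _ => decide_eq_decide.2 Iff.rfl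
  exact PB.any' (l := fun x : List Name × Fm 0 => x.2) id0.snd h1

theorem pf_hits : PB sz fun x : List Name × Fm 1 => hits x.1 x.2 := by
  have h1 : PB sz fun p : (List Name × Fm 1) × Fm 0 => hit p.1.1 p.2 :=
    pf_hit.comp' (id0.fst.fst.pair id0.snd)
  exact PB.all' (l := fun x : List Name × Fm 1 => x.2) id0.snd h1

theorem pf_exp1 : PB sz fun x : (ℕ × Fm 1) × List Name => exp1 x.1.1 x.1.2 x.2 := by
  have h0 : PB sz fun x : (ℕ × Fm 1) × List Name => decide (x.1.1 ≤ x.2.length) :=
    PB.natLe id0.fst.fst id0.snd.length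
  have h1 : PB sz fun x : (ℕ × Fm 1) × List Name => [x.2] :=
    PB.cons id0.snd (PB.const (fun _ => le_rfl) [])
  have h2 : PB sz fun p : ((ℕ × Fm 1) × List Name) × Fm 0 => !hit p.1.2 p.2 :=
    PB.not (pf_hit.comp' (id0.fst.snd.pair id0.snd))
  have h3 : PB sz fun x : (ℕ × Fm 1) × List Name => x.1.2.filter fun D => !hit x.2 D :=
    PB.filter' (l := fun x : (ℕ × Fm 1) × List Name => x.1.2) id0.fst.snd h2
  have h4 : PB sz fun q : (((ℕ × Fm 1) × List Name) × (Fm 0 × List (Fm 0))) × Lit =>
      q.2.2 :: q.1.1.2 := PB.cons id0.snd.snd id0.fst.fst.snd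
  have h5 : PB sz fun p : ((ℕ × Fm 1) × List Name) × (Fm 0 × List (Fm 0)) =>
      p.2.1.map fun l => l.2 :: p.1.2 :=
    PB.map' (l := fun p : ((ℕ × Fm 1) × List Name) × (Fm 0 × List (Fm 0)) => p.2.1)
      id0.snd.fst h4
  refine (PB.cond h0 h1 (lcase1 h3 h1 h5)).congr fun x => ?_
  unfold exp1
  by_cases h : x.1.1 ≤ x.2.length
  · rw [if_pos h, if_pos (decide_eq_true h)]
  · rw [if_neg h, if_neg (by rw [decide_eq_true_iff]; exact h)]
    rcases x.1.2.filter (fun D => !hit x.2 D) with _ | ⟨D, t⟩ <;> rfl

theorem pf_un : PB sz fun x : List Name × List Name => un x.1 x.2 := by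
  have h1 : PB sz fun p : (List Name × List Name) × Name => !decide (p.2 ∈ p.1.1) :=
    PB.not ((PB.mem id0.snd id0.fst.fst).congr fun _ => decide_eq_decide.2 Iff.rfl)
  exact PB.append id0.fst (PB.filter' (l := fun x : List Name × List Name => x.2) id0.snd h1)

theorem pf_leaves (t : ℕ) : PB sz fun φ : Fm (t + 1) => leaves t φ := by
  induction t with
  | zero => exact PB.cons id0 (PB.const (fun _ => le_rfl) [])
  | succ t ih =>
    have h1 : PB sz fun p : Fm (t + 2) × Fm (t + 1) => leaves t p.2 := ih.comp' id0.snd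
    exact PB.flatMap' (l := fun φ : Fm (t + 2) => φ) id0 h1

private theorem pf_lits (t : ℕ) : PB sz fun φ : Fm t => lits t φ := by
  induction t with
  | zero => exact id0
  | succ t ih =>
    have h1 : PB sz fun p : Fm (t + 1) × Fm t => lits t p.2 := ih.comp' id0.snd
    exact PB.flatMap' (l := fun φ : Fm (t + 1) => φ) id0 h1

theorem pf_names (t : ℕ) : PB sz fun φ : Fm t => names t φ := by
  have h1 : PB sz fun p : Fm t × Lit => p.2.2 := id0.snd.snd
  exact PB.map' (l := fun φ : Fm t => lits t φ) (pf_lits t) h1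

theorem pf_yv : PB sz yv := PB.cons (PB.const (fun _ => le_rfl) false) id0

theorem pf_wv : PB sz fun x : ℕ × List Name => wv x.1 x.2 :=
  PB.cons (PB.const (fun _ => le_rfl) true) (PB.codeOf (id0.fst.pair id0.snd))

theorem pf_uns (r : ℕ) : PB sz fun TT : List (List Name) => uns TT r := by
  have h1 : PB sz fun q : ((List (List Name) × List (List Name)) × List Name) × List Name =>
      un q.1.2 q.2 := pf_un.comp' (id0.fst.snd.pair id0.snd)
  have h2 : PB sz fun p : (List (List Name) × List (List Name)) × List Name =>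
      p.1.1.map fun T => un p.2 T :=
    PB.map' (l := fun p : (List (List Name) × List (List Name)) × List Name => p.1.1)
      id0.fst.fst h1
  have h3 : PB sz fun x : List (List Name) × List (List Name) =>
      x.2 ++ x.2.flatMap fun A => x.1.map fun T => un A T :=
    PB.append id0.snd (PB.flatMap' (l := fun x : List (List Name) × List (List Name) => x.2)
      id0.snd h2)
  induction r with
  | zero => exact PB.const (fun _ => le_rfl) [[]]
  | succ r ih =>
    refine (h3.comp' (id0.pair ih)).congr fun TT => ?_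
    unfold uns
    rw [Function.iterate_succ_apply']

theorem pf_recs : PB sz fun x : ℕ × List (List Name) => recs x.1 x.2 := by
  have h1 : PB sz fun q : ((ℕ × List (List Name)) × ℕ) × List Name => (q.1.2, q.2) :=
    id0.fst.snd.pair id0.snd
  have h2 : PB sz fun p : (ℕ × List (List Name)) × ℕ => p.1.2.map fun A => (p.2, A) :=
    PB.map' (l := fun p : (ℕ × List (List Name)) × ℕ => p.1.2) id0.fst.snd h1
  exact PB.flatMap' (l := fun x : ℕ × List (List Name) => rng x.1) (PB.rng id0.fst) h2

theorem pf_tf (sg : Bool) (t : ℕ) :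
    PB sz fun x : List (ℕ × List Name) × Fm (t + 2) => tf sg x.1 t x.2 := by
  induction t with
  | zero =>
    have h1 : PB sz fun q : ((List (ℕ × List Name) × Fm 2) × (ℕ × List Name)) × Fm 1 =>
        hits q.1.2.2 q.2 := pf_hits.comp' (id0.fst.snd.snd.pair id0.snd)
    have h2 : PB sz fun p : (List (ℕ × List Name) × Fm 2) × (ℕ × List Name) =>
        p.1.2.any fun γ => hits p.2.2 γ :=
      PB.any' (l := fun p : (List (ℕ × List Name) × Fm 2) × (ℕ × List Name) => p.1.2)
        id0.fst.snd h1
    have h3 : PB sz fun x : List (ℕ × List Name) × Fm 2 =>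
        x.1.filter fun w => x.2.any fun γ => hits w.2 γ :=
      PB.filter' (l := fun x : List (ℕ × List Name) × Fm 2 => x.1) id0.fst h2
    have h4 : PB sz fun q : (List (ℕ × List Name) × Fm 2) × (ℕ × List Name) =>
        [(sg, wv q.2.1 q.2.2)] :=
      PB.cons ((PB.const (fun _ => le_rfl) sg).pair (pf_wv.comp' id0.snd))
        (PB.const (fun _ => le_rfl) [])
    exact PB.map' (l := fun x : List (ℕ × List Name) × Fm 2 =>
        x.1.filter fun w => x.2.any fun γ => hits w.2 γ) h3 h4
  | succ t ih =>
    have h1 : PB sz fun p : (List (ℕ × List Name) × Fm (t + 3)) × Fm (t + 2) =>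
        tf sg p.1.1 t p.2 := ih.comp' (id0.fst.fst.pair id0.snd)
    exact PB.map' (l := fun x : List (ℕ × List Name) × Fm (t + 3) => x.2) id0.snd h1

theorem pf_up (s : ℕ) : PB sz fun l : Lit => up s l := by
  induction s with
  | zero => exact PB.cons id0 (PB.const (fun _ => le_rfl) [])
  | succ s ih => exact PB.cons ih (PB.const (fun _ => le_rfl) [])

end EWC
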