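import Pool.Agent.EWC.Rext

/-!
# Project EWC, Rsz: sizes of the lists of the reduction

`mxw t φ`: the maximal length of an innermost list.  `pot W k L = ∑_{A ∈ L} W ^ (k - |A|)`.

PROOFS.
* `pot_exp1`: `exp1 k γ A` is `[A]` or (if `A.length < k`) a list of at most `W` lists of length
  `A.length + 1`: `W * W ^ (k - (A.length + 1)) = W ^ (k - A.length)`.
* `pot_extj`: sum over the list (`List.sum_flatMap`-like, induction on `L`) and iterate.
* `pot_chnj`: `pot (L ++ L') = pot L + pot L'`, and `pot` of the `flatMap` over `G` is at most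
  `G.length * pot L`.
* `length_le_pot`: each summand is at least `1` (`W ≥ 1`).
* `sz_extj`, `sz_chnj`: an element `A'` has at most `k` members (`A.length ≤ k`), each of size at
  most `B` (the names occur in `γ` or `A`: `extn_vars`-like, sizes `sz_le_of_mem` twice), so
  `sz A' ≤ k * (B + 1) + 1` (`sz_list_le`); then `sz_list_le` for the list.
* `pow_r2`: `(2^(l+1))^(32 m (k / l + 1)) = 2^(32 m (l + 1) (k / l + 1))` and
  `(l + 1) (k / l + 1) ≤ 2 l (k / l + 1) ≤ 2 (k + l)`.
-/

set_option autoImplicit false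

namespace EWC

/-- The maximal length of an innermost list. -/
def mxw : (t : ℕ) → Fm t → ℕ
  | 0, φ => φ.length
  | t + 1, φ => (φ.map (mxw t)).foldr max 0

theorem le_foldr_max {l : List ℕ} {a : ℕ} (h : a ∈ l) : a ≤ l.foldr max 0 := by
  induction l with
  | nil => simp at h
  | cons b l ih =>
    rw [List.foldr_cons]
    rcases List.mem_cons.mp h with rfl | h
    · exact le_max_left _ _
    · exact (ih h).trans (le_max_right _ _)

theorem foldr_max_le {l : List ℕ} {b : ℕ} (h : ∀ a ∈ l, a ≤ b) : l.foldr max 0 ≤ b := by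
  induction l with
  | nil => simp
  | cons a l ih =>
    rw [List.foldr_cons]
    exact max_le (h a (by simp)) (ih fun c hc => h c (by simp [hc]))

theorem mxw_le_of_mem {t : ℕ} {φ : Fm (t + 1)} {ψ : Fm t} (h : ψ ∈ φ) :
    mxw t ψ ≤ mxw (t + 1) φ :=
  le_foldr_max (List.mem_map_of_mem h)

theorem mxw_le_of_wid {d t : ℕ} {φ : Fm t} (h : wid d t φ) : mxw t φ ≤ d := by
  induction t with
  | zero => exact h
  | succ t ih =>
    refine foldr_max_le fun a ha => ?_
    obtain ⟨ψ, hψ, rfl⟩ := List.mem_map.mp ha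
    exact ih (h ψ hψ)

theorem mxw_leaf {t : ℕ} {φ : Fm (t + 1)} {γ : Fm 1} (h : γ ∈ leaves t φ) :
    mxw 1 γ ≤ mxw (t + 1) φ := by
  induction t with
  | zero =>
    have h1 : γ = φ := List.mem_singleton.mp h
    rw [h1]
  | succ t ih =>
    obtain ⟨ψ, hψ, h1⟩ := List.mem_flatMap.mp h
    exact (ih h1).trans (mxw_le_of_mem hψ)

/-- A leaf is not larger than the formula. -/
theorem sz_leaf {t : ℕ} {φ : Fm (t + 1)} {γ : Fm 1} (h : γ ∈ leaves t φ) : sz γ ≤ sz φ := by
  induction t with
  | zero =>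
    have h1 : γ = φ := List.mem_singleton.mp h
    rw [h1]
  | succ t ih =>
    obtain ⟨ψ, hψ, h1⟩ := List.mem_flatMap.mp h
    exact (ih h1).trans ((Nat.le_add_right _ 2).trans (sz_le_of_mem (l := φ) hψ))

/-- A name occurring in `γ` is not larger than `γ`. -/
theorem sz_occ {γ : Fm 1} {u : Name} (h : Occ γ u) : sz u ≤ sz γ := by
  obtain ⟨D, hD, l, hl, rfl⟩ := h
  have h1 : sz D + 2 ≤ sz γ := sz_le_of_mem (l := γ) hD
  have h2 : sz l + 2 ≤ sz D := sz_le_of_mem (l := D) hl
  have h3 : sz l = sz l.1 + sz l.2 + 1 := sz_pair l.1 l.2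
  omega

def pot (W k : ℕ) (L : List (List Name)) : ℕ := (L.map fun A => W ^ (k - A.length)).sum

theorem pot_nil (W k : ℕ) : pot W k [] = 0 := rfl

theorem pot_cons (W k : ℕ) (A : List Name) (L : List (List Name)) :
    pot W k (A :: L) = W ^ (k - A.length) + pot W k L := by
  simp [pot]

theorem pot_append (W k : ℕ) (L L' : List (List Name)) :
    pot W k (L ++ L') = pot W k L + pot W k L' := by
  simp [pot]

theorem length_le_pot {W k : ℕ} (hW : 1 ≤ W) (L : List (List Name)) : L.length ≤ pot W k L := by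
  induction L with
  | nil => simp
  | cons A L ih =>
    rw [pot_cons, List.length_cons]
    have := Nat.one_le_pow (k - A.length) W hW
    omega

/-- The potential of a `flatMap`. -/
theorem pot_flatMap {W k c : ℕ} {L : List (List Name)} {f : List Name → List (List Name)}
    (h : ∀ A ∈ L, pot W k (f A) ≤ c * W ^ (k - A.length)) :
    pot W k (L.flatMap f) ≤ c * pot W k L := by
  induction L with
  | nil => simp [pot_nil]
  | cons A L ih =>
    rw [List.flatMap_cons, pot_append, pot_cons, mul_add]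
    exact add_le_add (h A (by simp)) (ih fun B hB => h B (by simp [hB]))

theorem pot_flatMap_const {β : Type} {W k c : ℕ} {G : List β} {f : β → List (List Name)}
    (h : ∀ γ ∈ G, pot W k (f γ) ≤ c) : pot W k (G.flatMap f) ≤ G.length * c := by
  induction G with
  | nil => simp [pot_nil]
  | cons γ G ih =>
    rw [List.flatMap_cons, pot_append, List.length_cons, add_mul, one_mul, add_comm]
    exact add_le_add (ih fun B hB => h B (by simp [hB])) (h γ (by simp))

theorem pot_map_cons (W k : ℕ) (D : Fm 0) (A : List Name) :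
    pot W k (D.map fun l => l.2 :: A) = D.length * W ^ (k - (A.length + 1)) := by
  induction D with
  | nil => simp [pot_nil]
  | cons l D ih =>
    rw [List.map_cons, pot_cons, ih, List.length_cons, List.length_cons]
    ring

theorem exp1_of_le {k : ℕ} {γ : Fm 1} {A : List Name} (h : k ≤ A.length) :
    exp1 k γ A = [A] := by
  unfold exp1
  rw [if_pos h]

/-- Either nothing is done or `A` is short and is extended in all ways by a clause. -/
theorem exp1_cases (k : ℕ) (γ : Fm 1) (A : List Name) : exp1 k γ A = [A] ∨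
    (A.length < k ∧ ∃ D ∈ γ, exp1 k γ A = D.map fun l => l.2 :: A) := by
  by_cases h : k ≤ A.length
  · exact Or.inl (exp1_of_le h)
  · unfold exp1
    rw [if_neg h]
    cases hf : γ.filter (fun D => !hit A D) with
    | nil => exact Or.inl rfl
    | cons D t =>
      refine Or.inr ⟨by omega, D, ?_, rfl⟩
      have h1 : D ∈ γ.filter (fun D => !hit A D) := by rw [hf]; simp
      exact (List.mem_filter.mp h1).1

theorem pot_exp1 {W k : ℕ} {γ : Fm 1} (hW : 1 ≤ W) (hγ : mxw 1 γ ≤ W) (A : List Name)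
    (hA : A.length ≤ k) :
    pot W k (exp1 k γ A) ≤ W ^ (k - A.length) ∧ ∀ A' ∈ exp1 k γ A, A'.length ≤ k := by
  have _ := hW
  rcases exp1_cases k γ A with h | ⟨h1, D, hD, h⟩
  · rw [h]
    refine ⟨by rw [pot_cons, pot_nil]; exact le_rfl, fun A' hA' => ?_⟩
    rw [List.mem_singleton.mp hA']
    exact hA
  · rw [h]
    constructor
    · rw [pot_map_cons]
      have h2 : D.length ≤ W := (mxw_le_of_mem (t := 0) hD).trans hγ
      have h3 : k - A.length = k - (A.length + 1) + 1 := by omega
      rw [h3, pow_succ, mul_comm (W ^ _) W]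
      exact Nat.mul_le_mul_right _ h2
    · intro A' hA'
      obtain ⟨l, _, rfl⟩ := List.mem_map.mp hA'
      rw [List.length_cons]
      omega

/-- The iterates in the definition of `extn`. -/
def extj (k : ℕ) (γ : Fm 1) (A : List Name) (j : ℕ) : List (List Name) :=
  (fun L : List (List Name) => L.flatMap (exp1 k γ))^[j] [A]

theorem extj_zero (k : ℕ) (γ : Fm 1) (A : List Name) : extj k γ A 0 = [A] := rfl

theorem extj_succ (k : ℕ) (γ : Fm 1) (A : List Name) (j : ℕ) :
    extj k γ A (j + 1) = (extj k γ A j).flatMap (exp1 k γ) := by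
  unfold extj
  rw [Function.iterate_succ_apply']

theorem pot_extj {W k : ℕ} {γ : Fm 1} (hW : 1 ≤ W) (hγ : mxw 1 γ ≤ W) (A : List Name)
    (hA : A.length ≤ k) (j : ℕ) :
    pot W k (extj k γ A j) ≤ W ^ (k - A.length) ∧ ∀ A' ∈ extj k γ A j, A'.length ≤ k := by
  induction j with
  | zero =>
    rw [extj_zero]
    refine ⟨by rw [pot_cons, pot_nil]; exact le_rfl, fun A' hA' => ?_⟩
    rw [List.mem_singleton.mp hA']
    exact hA
  | succ j ih =>
    rw [extj_succ]
    constructor
    · have h1 := pot_flatMap (c := 1) (L := extj k γ A j) (f := exp1 k γ) (W := W) (k := k)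
        (fun B hB => by
          rw [one_mul]
          exact (pot_exp1 hW hγ B (ih.2 B hB)).1)
      rw [one_mul] at h1
      exact h1.trans ih.1
    · intro A' hA'
      obtain ⟨B, hB, h1⟩ := List.mem_flatMap.mp hA'
      exact (pot_exp1 hW hγ B (ih.2 B hB)).2 A' h1

/-- Without the hypothesis `A.length ≤ k` nothing is extended. -/
theorem extj_of_lt {k : ℕ} {γ : Fm 1} {A : List Name} (hA : k ≤ A.length) (j : ℕ) :
    extj k γ A j = [A] := by
  induction j with
  | zero => rfl
  | succ j ih => rw [extj_succ, ih, List.flatMap_cons, List.flatMap_nil, exp1_of_le hA]; rfl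

theorem extj_vars {k : ℕ} {γ : Fm 1} {A A' : List Name} {j : ℕ} (h : A' ∈ extj k γ A j)
    (u : Name) (hu : u ∈ A') : u ∈ A ∨ Occ γ u := by
  induction j generalizing A' with
  | zero =>
    rw [extj_zero, List.mem_singleton] at h
    rw [h] at hu
    exact Or.inl hu
  | succ j ih =>
    rw [extj_succ] at h
    obtain ⟨B, hB, h1⟩ := List.mem_flatMap.mp h
    rcases exp1_vars h1 u hu with h2 | h2
    · exact ih hB h2
    · exact Or.inr h2

/-- Sizes of the iterates: polynomial in the sizes of the arguments and `W ^ k`. -/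
theorem sz_extj (k : ℕ) (γ : Fm 1) (A : List Name) (j : ℕ) :
    sz (extj k γ A j) ≤ (mxw 1 γ + 1) ^ k * ((k + 1) * (sz A + sz γ + 1) + 3) + 1 := by
  have hP : 1 ≤ (mxw 1 γ + 1) ^ k := Nat.one_le_pow _ _ (by omega)
  rcases Nat.le_total k A.length with hA | hA
  · rw [extj_of_lt hA, sz_cons, sz_nil]
    have h1 : sz A + 1 ≤ (k + 1) * (sz A + sz γ + 1) + 3 := by
      have h2 : 1 * (sz A + sz γ + 1) ≤ (k + 1) * (sz A + sz γ + 1) :=
        Nat.mul_le_mul_right _ (by omega)
      omega
    have h3 := Nat.mul_le_mul_right ((k + 1) * (sz A + sz γ + 1) + 3) hP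
    omega
  · have h1 := pot_extj (W := mxw 1 γ + 1) (by omega) (Nat.le_succ _) A hA j
    have h2 : (extj k γ A j).length ≤ (mxw 1 γ + 1) ^ k :=
      ((length_le_pot (by omega) _).trans h1.1).trans
        (Nat.pow_le_pow_right (by omega) (Nat.sub_le _ _))
    have h3 : ∀ A' ∈ extj k γ A j, sz A' ≤ k * (sz A + sz γ + 1) + 1 := by
      intro A' hA'
      have h4 : ∀ u ∈ A', sz u ≤ sz A + sz γ := by
        intro u hu
        rcases extj_vars hA' u hu with h5 | h5
        · have := sz_le_of_mem h5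
          omega
        · have := sz_occ h5
          omega
      exact (sz_list_le h4).trans (Nat.add_le_add_right
        (Nat.mul_le_mul_right _ (h1.2 A' hA')) 1)
    refine (sz_list_le h3).trans (Nat.add_le_add_right (Nat.mul_le_mul h2 ?_) 1)
    have h5 : (k + 1) * (sz A + sz γ + 1) = k * (sz A + sz γ + 1) + (sz A + sz γ + 1) := by ring
    omega

/-- The iterates in the definition of `chn`. -/
def chnj (k : ℕ) (G : List (Fm 1)) (j : ℕ) : List (List Name) :=
  (fun L : List (List Name) => L ++ L.flatMap fun A => G.flatMap fun γ => extn k γ A)^[j] [[]]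

theorem chnj_succ (k : ℕ) (G : List (Fm 1)) (j : ℕ) :
    chnj k G (j + 1) = chnj k G j ++
      (chnj k G j).flatMap fun A => G.flatMap fun γ => extn k γ A := by
  unfold chnj
  rw [Function.iterate_succ_apply']

theorem pot_chnj {W k : ℕ} {G : List (Fm 1)} (hW : 1 ≤ W) (hG : ∀ γ ∈ G, mxw 1 γ ≤ W) (j : ℕ) :
    pot W k (chnj k G j) ≤ (G.length + 1) ^ j * W ^ k ∧ ∀ A' ∈ chnj k G j, A'.length ≤ k := by
  induction j with
  | zero =>
    have h0 : chnj k G 0 = [[]] := rfl
    rw [h0]
    constructor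
    · rw [pot_cons, pot_nil, pow_zero, one_mul]
      exact le_rfl
    · intro A' hA'
      rw [List.mem_singleton.mp hA']
      exact Nat.zero_le _
  | succ j ih =>
    rw [chnj_succ]
    constructor
    · rw [pot_append]
      have h1 := pot_flatMap (c := G.length) (L := chnj k G j)
        (f := fun A => G.flatMap fun γ => extn k γ A) (W := W) (k := k)
        (fun B hB => pot_flatMap_const fun γ hγ => (pot_extj hW (hG γ hγ) B (ih.2 B hB) k).1)
      calc pot W k (chnj k G j) +
          pot W k ((chnj k G j).flatMap fun A => G.flatMap fun γ => extn k γ A)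
          ≤ pot W k (chnj k G j) + G.length * pot W k (chnj k G j) :=
            Nat.add_le_add_left h1 _
        _ = (G.length + 1) * pot W k (chnj k G j) := by ring
        _ ≤ (G.length + 1) * ((G.length + 1) ^ j * W ^ k) := Nat.mul_le_mul_left _ ih.1
        _ = _ := by ring
    · intro A' hA'
      rcases List.mem_append.mp hA' with h1 | h1
      · exact ih.2 A' h1
      · obtain ⟨B, hB, h2⟩ := List.mem_flatMap.mp h1
        obtain ⟨γ, hγ, h3⟩ := List.mem_flatMap.mp h2
        exact (pot_extj hW (hG γ hγ) B (ih.2 B hB) k).2 A' h3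

theorem chnj_vars {k : ℕ} {G : List (Fm 1)} {A : List Name} {j : ℕ} (h : A ∈ chnj k G j)
    (u : Name) (hu : u ∈ A) : ∃ γ ∈ G, Occ γ u := by
  induction j generalizing A with
  | zero =>
    have h0 : chnj k G 0 = [[]] := rfl
    rw [h0, List.mem_singleton] at h
    rw [h] at hu
    simp at hu
  | succ j ih =>
    rw [chnj_succ] at h
    rcases List.mem_append.mp h with h1 | h1
    · exact ih h1 hu
    · obtain ⟨B, hB, h2⟩ := List.mem_flatMap.mp h1
      obtain ⟨γ, hγ, h3⟩ := List.mem_flatMap.mp h2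
      rcases extn_vars h3 u hu with h4 | h4
      · exact ih hB h4
      · exact ⟨γ, hγ, h4⟩

theorem sz_chnj {W k : ℕ} {G : List (Fm 1)} (hW : 1 ≤ W) (hG : ∀ γ ∈ G, mxw 1 γ ≤ W) (j : ℕ) :
    sz (chnj k G j) ≤ (G.length + 1) ^ j * W ^ k * (k * (sz G + 1) + 2) + 1 := by
  have h1 := pot_chnj (k := k) hW hG j
  have h2 : (chnj k G j).length ≤ (G.length + 1) ^ j * W ^ k := (length_le_pot hW _).trans h1.1
  have h3 : ∀ A' ∈ chnj k G j, sz A' ≤ k * (sz G + 1) + 1 := by
    intro A' hA'
    have h4 : ∀ u ∈ A', sz u ≤ sz G := by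
      intro u hu
      obtain ⟨γ, hγ, h5⟩ := chnj_vars hA' u hu
      have h6 := sz_occ h5
      have h7 := sz_le_of_mem hγ
      omega
    exact (sz_list_le h4).trans (Nat.add_le_add_right
      (Nat.mul_le_mul_right _ (h1.2 A' hA')) 1)
  exact (sz_list_le h3).trans (Nat.add_le_add_right (Nat.mul_le_mul h2 le_rfl) 1)

theorem pow_r2 {m k l : ℕ} (hl : 1 ≤ l) {g : ℕ} (hg : g + 1 ≤ 2 ^ (l + 1)) {j : ℕ}
    (hj : j ≤ r2 m k l) : (g + 1) ^ j ≤ (2 ^ k * 2 ^ l) ^ (64 * m) := by
  have h1 : (l + 1) * (k / l + 1) ≤ 2 * (k + l) := by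
    have h2 : l * (k / l) ≤ k := Nat.mul_div_le k l
    have h3 : k / l ≤ l * (k / l) := Nat.le_mul_of_pos_left _ hl
    have h4 : (l + 1) * (k / l + 1) = l * (k / l) + l + k / l + 1 := by ring
    omega
  have h5 : (l + 1) * (32 * m * (k / l + 1)) ≤ (k + l) * (64 * m) := by
    calc (l + 1) * (32 * m * (k / l + 1)) = 32 * m * ((l + 1) * (k / l + 1)) := by ring
      _ ≤ 32 * m * (2 * (k + l)) := Nat.mul_le_mul_left _ h1
      _ = _ := by ring
  calc (g + 1) ^ j ≤ (g + 1) ^ r2 m k l := Nat.pow_le_pow_right (by omega) hj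
    _ ≤ (2 ^ (l + 1)) ^ r2 m k l := Nat.pow_le_pow_left hg _
    _ = 2 ^ ((l + 1) * (32 * m * (k / l + 1))) := by rw [← pow_mul]; rfl
    _ ≤ 2 ^ ((k + l) * (64 * m)) := Nat.pow_le_pow_right (by omega) h5
    _ = (2 ^ k * 2 ^ l) ^ (64 * m) := by rw [← pow_add, ← pow_mul]

end EWC
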