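import Pool.Agent.EWC.Cp1
import Pool.Agent.EWC.Rsz

/-!
# Project EWC, Cp2: the search tree

The measures: `mE` for `extn`, `mH` for `hs`, `mu s` for the functions of the instance.

PROOFS.
* `pb_extn`: `PB.iter'` with `n x = x.1.1`, `s0 x = [x.2]` and the step
  `(x, L) ↦ L.flatMap (exp1 x.1.1 x.1.2)` (`PB.flatMap'` with `pf_exp1`); the iterates are
  `extj x.1.1 x.1.2 x.2 j`, their sizes are bounded by `sz_extj`, which is polynomial in `mE x`
  (`(mxw + 1)^k ≤ mE x`, `k ≤ sz`, `sz A + sz γ ≤ sz x ≤ mE x`).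
* `pb_hs`: `extn` at `((k, γ), [])` (`mE ((k, γ), []) ≤ 2 * ...` is polynomial in `mH (k, γ)`), then
  `PB.filter'` with `pf_hits`.
* `mu_leaf`: for a leaf `γ` of `φ`: `mH (k, γ)` is polynomially bounded in `mu`: `sz (k, γ) ≤
  sz (φ, k)` (`sz_leaf`) and `mxw 1 γ ≤ mxw (s + 3) φ` (`mxw_leaf`).
* `pb_TT`: `PB.flatMap` over `leaves (s + 2) φ` with `f ((φ, k), γ) = hs k γ` and the measure
  `ν ((φ, k), γ) = mH (k, γ) + sz ((φ, k), γ)`.
-/

set_option autoImplicit false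

namespace EWC

/-- The measure for `extn`. -/
def mE (x : (ℕ × Fm 1) × List Name) : ℕ := sz x * (mxw 1 x.1.2 + 2) ^ x.1.1

/-- The measure for `hs`. -/
def mH (x : ℕ × Fm 1) : ℕ := sz x * (mxw 1 x.2 + 2) ^ x.1

/-- The measure for the instance. -/
def mu (s : ℕ) (x : Fm (s + 3) × ℕ) : ℕ := sz x * (mxw (s + 3) x.1 + 2) ^ x.2

private theorem sz_le_mE (x : (ℕ × Fm 1) × List Name) : sz x ≤ mE x :=
  Nat.le_mul_of_pos_right _ (Nat.pos_of_ne_zero (pow_ne_zero _ (by omega)))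

private theorem sz_le_mH (x : ℕ × Fm 1) : sz x ≤ mH x :=
  Nat.le_mul_of_pos_right _ (Nat.pos_of_ne_zero (pow_ne_zero _ (by omega)))

theorem pb_extn : PB mE fun x => extn x.1.1 x.1.2 x.2 := by
  have h0 : PB mE fun x : (ℕ × Fm 1) × List Name => x := PB.id sz_le_mE
  have hid : PB sz fun q : (((ℕ × Fm 1) × List Name) × List (List Name)) × List Name => q :=
    PB.id fun _ => le_rfl
  have hid2 : PB sz fun p : ((ℕ × Fm 1) × List Name) × List (List Name) => p :=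
    PB.id fun _ => le_rfl
  have hf : PB sz fun q : (((ℕ × Fm 1) × List Name) × List (List Name)) × List Name =>
      exp1 q.1.1.1.1 q.1.1.1.2 q.2 :=
    pf_exp1.comp' (hid.fst.fst.fst.pair hid.snd)
  have hstep : PB sz fun p : ((ℕ × Fm 1) × List Name) × List (List Name) =>
      p.2.flatMap fun A => exp1 p.1.1.1 p.1.1.2 A :=
    PB.flatMap' hid2.snd hf
  have hs0 : PB mE fun x : (ℕ × Fm 1) × List Name => [x.2] :=
    PB.cons h0.snd (PB.const sz_le_mE [])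
  have hP : PLe mE fun x : (ℕ × Fm 1) × List Name =>
      mE x * ((mE x + 1) * (mE x + 1) + 3) + 1 := by
    have h1 : PLe mE fun x : (ℕ × Fm 1) × List Name => mE x + 1 :=
      (PLe.self _).add (PLe.const _ 1)
    exact ((PLe.self _).mul ((h1.mul h1).add (PLe.const _ 3))).add (PLe.const _ 1)
  obtain ⟨C, hC⟩ := hP
  have h := PB.iter' (n := fun x : (ℕ × Fm 1) × List Name => x.1.1) h0.fst.fst hs0 hstep
    ⟨C, fun a j _ => by
      refine le_trans ?_ (hC a)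
      have e1 : sz ((fun s : List (List Name) => s.flatMap fun A => exp1 a.1.1 a.1.2 A)^[j]
          [a.2]) = sz (extj a.1.1 a.1.2 a.2 j) := rfl
      refine le_trans (le_of_eq e1) ?_
      refine (sz_extj a.1.1 a.1.2 a.2 j).trans ?_
      have k1 : sz a = sz a.1 + sz a.2 + 1 := sz_pair a.1 a.2
      have k2 : sz a.1 = sz a.1.1 + sz a.1.2 + 1 := sz_pair a.1.1 a.1.2
      have k3 : sz a.1.1 = 2 * a.1.1 + 1 := sz_nat a.1.1
      have k4 := sz_le_mE a
      have k5 : (mxw 1 a.1.2 + 1) ^ a.1.1 ≤ mE a := by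
        have k6 : (mxw 1 a.1.2 + 1) ^ a.1.1 ≤ (mxw 1 a.1.2 + 2) ^ a.1.1 :=
          Nat.pow_le_pow_left (by omega) _
        have k7 : (mxw 1 a.1.2 + 2) ^ a.1.1 ≤ sz a * (mxw 1 a.1.2 + 2) ^ a.1.1 :=
          Nat.le_mul_of_pos_left _ (sz_pos a)
        exact k6.trans k7
      refine Nat.add_le_add_right (Nat.mul_le_mul k5 (Nat.add_le_add_right
        (Nat.mul_le_mul ?_ ?_) 3)) 1
      · omega
      · omega⟩
  exact h

theorem pb_hs : PB mH fun x => hs x.1 x.2 := by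
  have h0 : PB mH fun x : ℕ × Fm 1 => x := PB.id sz_le_mH
  have h1 : PB mH fun x : ℕ × Fm 1 => (x, ([] : List Name)) := h0.pair (PB.const sz_le_mH [])
  have h2 : PLe mH fun x : ℕ × Fm 1 => mE (x, ([] : List Name)) := by
    refine ((PLe.const mH 3).mul (PLe.self mH)).mono fun x => ?_
    have e1 : sz (x, ([] : List Name)) = sz x + 1 + 1 := sz_pair x []
    have e2 := sz_pos x
    show sz (x, ([] : List Name)) * (mxw 1 x.2 + 2) ^ x.1 ≤ 3 * (sz x * (mxw 1 x.2 + 2) ^ x.1)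
    rw [e1, ← mul_assoc]
    exact Nat.mul_le_mul_right _ (by omega)
  have h3 : PB mH fun x : ℕ × Fm 1 => extn x.1 x.2 [] := h1.comp pb_extn h2
  have hid : PB sz fun q : (ℕ × Fm 1) × List Name => q := PB.id fun _ => le_rfl
  have h4 : PB sz fun q : (ℕ × Fm 1) × List Name => hits q.2 q.1.2 :=
    pf_hits.comp' (hid.snd.pair hid.fst.snd)
  exact PB.filter' h3 h4

theorem sz_le_mu (s : ℕ) (x : Fm (s + 3) × ℕ) : sz x ≤ mu s x := by
  exact Nat.le_mul_of_pos_right _ (Nat.pos_of_ne_zero (pow_ne_zero _ (by omega)))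

theorem mu_leaf (s : ℕ) (x : Fm (s + 3) × ℕ) (γ : Fm 1) (hγ : γ ∈ leaves (s + 2) x.1) :
    mH (x.2, γ) ≤ mu s x := by
  have e1 : sz (x.2, γ) = sz x.2 + sz γ + 1 := sz_pair x.2 γ
  have e2 : sz x = sz x.1 + sz x.2 + 1 := sz_pair x.1 x.2
  have e3 : sz γ ≤ sz x.1 := sz_leaf hγ
  have e4 : mxw 1 γ ≤ mxw (s + 3) x.1 := mxw_leaf hγ
  show sz (x.2, γ) * (mxw 1 γ + 2) ^ x.2 ≤ sz x * (mxw (s + 3) x.1 + 2) ^ x.2
  exact Nat.mul_le_mul (by omega) (Nat.pow_le_pow_left (by omega) _)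

/-- The list of all hitting sets. -/
theorem pb_TT (s : ℕ) : PB (mu s) fun x => (leaves (s + 2) x.1).flatMap (hs x.2) := by
  have h0 : PB (mu s) fun x : Fm (s + 3) × ℕ => x := PB.id (sz_le_mu s)
  have h1 : PB (mu s) fun x : Fm (s + 3) × ℕ => leaves (s + 2) x.1 :=
    (pf_leaves (s + 2)).comp' h0.fst
  have hν0 : ∀ q : (Fm (s + 3) × ℕ) × Fm 1, sz q ≤ mH (q.1.2, q.2) + sz q :=
    fun _ => Nat.le_add_left _ _
  have hid : PB (fun q : (Fm (s + 3) × ℕ) × Fm 1 => mH (q.1.2, q.2) + sz q) fun q => q :=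
    PB.id hν0
  have h2 : PB (fun q : (Fm (s + 3) × ℕ) × Fm 1 => mH (q.1.2, q.2) + sz q)
      fun q => hs q.1.2 q.2 :=
    (hid.fst.snd.pair hid.snd).comp pb_hs (PLe.of_le fun _ => Nat.le_add_right _ _)
  refine PB.flatMap h1 h2 ⟨2, fun a b hb => ?_⟩
  have e1 := mu_leaf s a b hb
  have e2 : sz (a, b) = sz a + sz b + 1 := sz_pair a b
  have e3 : sz b ≤ sz a.1 := sz_leaf hb
  have e4 : sz a = sz a.1 + sz a.2 + 1 := sz_pair a.1 a.2
  have e5 := sz_le_mu s a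
  have e6 : (mu s a + 2) ^ 2 = mu s a * mu s a + 4 * mu s a + 4 := by ring
  show mH (a.2, b) + sz (a, b) ≤ (mu s a + 2) ^ 2
  rw [e6]
  omega

end EWC
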