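import Pool.Agent.EWC.Cv2

/-!
# Project EWC, Cv3: the covering lemma

PROOF.  Let `p = 2^{-q}` and let `w` be the weight of `exists_weight` for `V = S`, `A = ∅`
(`∅ ∪ S = S`); for `i ∈ I` the weight of `{B | H i B}` is at least `p` because
`32 S.card / r ≤ q`.  Averaging: for every `J ⊆ I` there is `B`, `Reach H I S r ∅ B`, with
`(J.filter (H · B)).card ≥ p * J.card`: `∑_B w B * #(J.filter (H · B)) = ∑_{i ∈ J} w{H i} ≥ p |J|`
and `∑ w = 1`, so some `B` with `w B ≠ 0` works.  By induction on `n` there are `B_1, ..., B_n`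
such that the set of the `i ∈ I` with no `H i B_b` has at most `(1 - p)^n |I|` elements.  For
`n = N`: `(1 - p)^N |I| ≤ exp(-p N) 2^a ≤ exp(-(a + 1)) 2^a < 1`
(`Real.one_sub_le_exp_neg`/`Real.add_one_le_exp`, `p N ≥ a + 1`), so this set is empty.
-/

set_option autoImplicit false

namespace EWC

open Finset

variable {X ι : Type} [DecidableEq X]

/-- The covering lemma: `2^q (a + 1)` sets, each reached in at most `r` steps, satisfy together all
of the at most `2^a` properties, if `32 |S| ≤ q r`. -/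
theorem exists_cover {H : ι → Finset X → Prop} {I : Finset ι}
    (hup : ∀ i A B, A ⊆ B → H i A → H i B) (S : Finset X) (hS : ∀ i ∈ I, H i S)
    (r a q N : ℕ) (hr : 1 ≤ r) (hI : I.card ≤ 2 ^ a) (hq : 32 * S.card ≤ q * r)
    (hN : 2 ^ q * (a + 1) ≤ N) :
    ∃ L : Fin N → Finset X, (∀ b, Reach H I S r ∅ (L b)) ∧ ∀ i ∈ I, ∃ b, H i (L b) := by
  classical
  obtain ⟨w, hw0, hwR, hw1, hwH⟩ := exists_weight hup r S ∅ hr
  have hp0 : (0 : ℝ) < (1 / 2) ^ q := by positivity
  have hp1 : ((1 : ℝ) / 2) ^ q ≤ 1 := pow_le_one₀ (by norm_num) (by norm_num)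
  obtain ⟨p, hp⟩ : ∃ p : ℝ, p = (1 / 2) ^ q := ⟨_, rfl⟩
  rw [← hp] at hp0 hp1
  have hr0 : (0 : ℝ) < r := by exact_mod_cast hr
  -- the weight of each property
  have key1 : ∀ i ∈ I, p ≤ ∑ B ∈ (∅ ∪ S).powerset with H i B, w B := by
    intro i hi
    refine le_trans ?_ (hwH i hi (by rw [empty_union]; exact hS i hi))
    have h1 : (32 * (S.card : ℝ)) / r ≤ q := by
      rw [div_le_iff₀ hr0]
      exact_mod_cast hq
    rw [hp, one_div, inv_pow, ← Real.rpow_natCast, ← Real.rpow_neg (by norm_num)]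
    exact Real.rpow_le_rpow_of_exponent_le (by norm_num) (by linarith)
  -- averaging
  have key2 : ∀ J ⊆ I, ∃ B, Reach H I S r ∅ B ∧
      p * (J.card : ℝ) ≤ ((J.filter fun i => H i B).card : ℝ) := by
    intro J hJ
    by_contra hcon
    push Not at hcon
    have h1 : ∑ B ∈ (∅ ∪ S).powerset, w B * ((J.filter fun i => H i B).card : ℝ) =
        ∑ i ∈ J, ∑ B ∈ (∅ ∪ S).powerset with H i B, w B := by
      have h2 : ∀ B ∈ (∅ ∪ S).powerset, w B * ((J.filter fun i => H i B).card : ℝ) =
          ∑ i ∈ J, if H i B then w B else 0 := by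
        intro B _
        rw [← Finset.sum_filter, Finset.sum_const, nsmul_eq_mul, mul_comm]
      rw [Finset.sum_congr rfl h2, Finset.sum_comm]
      refine Finset.sum_congr rfl fun i _ => ?_
      rw [Finset.sum_filter]
    have h3 : p * (J.card : ℝ) ≤ ∑ B ∈ (∅ ∪ S).powerset,
        w B * ((J.filter fun i => H i B).card : ℝ) := by
      rw [h1, mul_comm, ← nsmul_eq_mul, ← Finset.sum_const]
      exact Finset.sum_le_sum fun i hi => key1 i (hJ hi)
    have h4 : ∑ B ∈ (∅ ∪ S).powerset, w B * ((J.filter fun i => H i B).card : ℝ) <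
        ∑ B ∈ (∅ ∪ S).powerset, w B * (p * (J.card : ℝ)) := by
      obtain ⟨B0, hB0, hB1⟩ : ∃ B ∈ (∅ ∪ S).powerset, w B ≠ 0 := by
        by_contra hc
        push Not at hc
        rw [Finset.sum_eq_zero hc] at hw1
        exact zero_ne_one hw1
      refine Finset.sum_lt_sum (fun B _ => ?_) ⟨B0, hB0, ?_⟩
      · by_cases h5 : w B = 0
        · rw [h5, zero_mul, zero_mul]
        · exact mul_le_mul_of_nonneg_left (hcon B (hwR B h5)).le (hw0 B)
      · exact mul_lt_mul_of_pos_left (hcon B0 (hwR B0 hB1)) (lt_of_le_of_ne (hw0 B0) hB1.symm)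
    rw [← Finset.sum_mul, hw1, one_mul] at h4
    exact absurd h3 (not_le.2 h4)
  -- induction
  have key3 : ∀ n : ℕ, ∃ L : Fin n → Finset X, (∀ b, Reach H I S r ∅ (L b)) ∧
      ((I.filter fun i => ∀ b, ¬ H i (L b)).card : ℝ) ≤ (1 - p) ^ n * I.card := by
    intro n
    induction n with
    | zero =>
      refine ⟨Fin.elim0, fun b => b.elim0, ?_⟩
      rw [pow_zero, one_mul]
      exact_mod_cast Finset.card_filter_le _ _
    | succ n ih =>
      obtain ⟨L, hL, hc⟩ := ih
      obtain ⟨B, hB, hBc⟩ := key2 (I.filter fun i => ∀ b, ¬ H i (L b)) (Finset.filter_subset _ _)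
      refine ⟨Fin.cons B L, ?_, ?_⟩
      · intro b
        refine Fin.cases ?_ (fun b => ?_) b
        · rw [Fin.cons_zero]
          exact hB
        · rw [Fin.cons_succ]
          exact hL b
      · have h1 : (I.filter fun i => ∀ b : Fin (n + 1),
            ¬ H i ((Fin.cons B L : Fin (n + 1) → Finset X) b)) =
            (I.filter fun i => ∀ b, ¬ H i (L b)) \
              ((I.filter fun i => ∀ b, ¬ H i (L b)).filter fun i => H i B) := by
          ext i
          simp only [Finset.mem_filter, Finset.mem_sdiff, Fin.forall_fin_succ, Fin.cons_zero,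
            Fin.cons_succ]
          tauto
        rw [h1, Finset.cast_card_sdiff (Finset.filter_subset _ _)]
        have h2 : (1 - p) ^ (n + 1) * (I.card : ℝ) = (1 - p) * ((1 - p) ^ n * I.card) := by ring
        rw [h2]
        have h3 := mul_le_mul_of_nonneg_left hc (by linarith : (0 : ℝ) ≤ 1 - p)
        linarith
  obtain ⟨L, hL, hc⟩ := key3 N
  refine ⟨L, hL, ?_⟩
  have hIr : (I.card : ℝ) ≤ 2 ^ a := by exact_mod_cast hI
  have hpN : (a : ℝ) + 1 ≤ p * N := by
    have h1 : ((2 : ℝ) ^ q * (a + 1)) ≤ N := by exact_mod_cast hN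
    have h2 : p * 2 ^ q = 1 := by
      rw [hp, ← mul_pow]
      norm_num
    calc (a : ℝ) + 1 = p * (2 ^ q * (a + 1)) := by rw [← mul_assoc, h2, one_mul]
      _ ≤ p * N := mul_le_mul_of_nonneg_left h1 hp0.le
  have h1 : (1 - p) ^ N ≤ (1 / 2) ^ (a + 1) := by
    have h2 : (1 - p) ≤ Real.exp (-p) := by
      have := Real.add_one_le_exp (-p)
      linarith
    calc (1 - p) ^ N ≤ (Real.exp (-p)) ^ N := pow_le_pow_left₀ (by linarith) h2 N
      _ = Real.exp (-(p * N)) := by
        rw [← Real.exp_nat_mul]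
        congr 1
        ring
      _ ≤ Real.exp (-((a : ℝ) + 1)) := Real.exp_le_exp.2 (by linarith)
      _ = (Real.exp (-1)) ^ (a + 1) := by
        rw [← Real.exp_nat_mul]
        congr 1
        push_cast
        ring
      _ ≤ (1 / 2) ^ (a + 1) := by
        refine pow_le_pow_left₀ (Real.exp_pos _).le ?_ _
        have h3 : (2 : ℝ) ≤ Real.exp 1 := by
          have := Real.add_one_le_exp (1 : ℝ)
          linarith
        rw [Real.exp_neg, one_div]
        exact inv_anti₀ (by norm_num) h3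
  have h2 : ((I.filter fun i => ∀ b, ¬ H i (L b)).card : ℝ) < 1 := by
    refine lt_of_le_of_lt hc ?_
    calc (1 - p) ^ N * (I.card : ℝ) ≤ (1 / 2) ^ (a + 1) * 2 ^ a :=
          mul_le_mul h1 hIr (by positivity) (by positivity)
      _ = 1 / 2 := by
        rw [pow_succ, mul_right_comm, ← mul_pow]
        norm_num
      _ < 1 := by norm_num
  have h3 : (I.filter fun i => ∀ b, ¬ H i (L b)).card = 0 := by
    have h4 : (I.filter fun i => ∀ b, ¬ H i (L b)).card < 1 := by exact_mod_cast h2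
    omega
  intro i hi
  by_contra hcon
  push Not at hcon
  have h5 : i ∈ I.filter fun i => ∀ b, ¬ H i (L b) := Finset.mem_filter.2 ⟨hi, hcon⟩
  rw [Finset.card_eq_zero.1 h3] at h5
  exact absurd h5 (Finset.notMem_empty i)

end EWC
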