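import Pool.Agent.EWC.Rext
import Pool.Agent.EWC.Cv3

/-!
# Project EWC, Rcov: the records cover all true leaves

PROOFS.
* `cover_uns`: `exists_cover` with `ι = Finset Name`, `H T A := T ⊆ A`, `I` = the sets `T.toFinset`,
  `T ∈ G.flatMap (hs k)`, which are subsets of `S` (`I ⊆ S.powerset`, so `I.card ≤ 2 ^ k`),
  `a = k`, `q = k / m + 1`, `r = r1 m = 32 m` (`32 k ≤ (k / m + 1) * (32 * m)`,
  `Nat.lt_div_mul_add`/`Nat.div_add_mod`), `uns_complete` for the lists (choice), `Reach.subset`.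
  For `γ ∈ G` with `Hf γ S` take `T ∈ hs k γ` with `T.toFinset ⊆ S` (`hs_complete`); it is a subset
  of some `L b`; `hs_hits`, `hits_iff`, `Hf.mono`.
* `cover_chn`: `exists_cover` with `ι = Fm 1`, `H γ A := Hf γ A`,
  `I = G.toFinset.filter (Hf · S)` (classical), `a = l + 1`, `q = l / m + 1`, `r = r2 m k l`;
  `32 k ≤ (l / m + 1) * (32 * m * (k / l + 1))` because `l ≤ (l / m + 1) * m` and
  `k ≤ l * (k / l + 1)`; `chn_complete`.
* `cover_all`: `nrec` is the minimum of the two numbers (`min_choice`); the lists of `allA` contain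
  both; `(leaves (s + 2) φ).length < 2 ^ (l + 1)` for `l = Nat.log 2 (sz (φ, k))`
  (`Nat.lt_pow_succ_log_self`, `length_leaves_le`), and `1 ≤ l` because `sz (φ, k) ≥ 3`
  (`Nat.log_pos`).
* `length_leaves_le`: by induction on `t`, `(leaves t φ).length ≤ sz φ` (`sz_cons`; for `t = 0` use
  `sz_pos`).
-/

set_option autoImplicit false

namespace EWC

theorem length_leaves_le (t : ℕ) (φ : Fm (t + 1)) : (leaves t φ).length ≤ sz φ := by
  induction t with
  | zero => exact sz_pos φ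
  | succ t ih =>
    have h : ∀ l : List (Fm (t + 1)), (l.flatMap (leaves t)).length ≤ sz l := by
      intro l
      induction l with
      | nil => simp
      | cons a l ih2 =>
        rw [List.flatMap_cons, List.length_append, sz_cons]
        have := ih a
        omega
    exact h φ

theorem cover_uns (m k : ℕ) (hm : 1 ≤ m) (G : List (Fm 1)) (S : Finset Name) (hS : S.card = k)
    (N : ℕ) (hN : 2 ^ (k / m + 1) * (k + 1) ≤ N) :
    ∃ L : Fin N → List Name, (∀ b, L b ∈ uns (G.flatMap (hs k)) (r1 m) ∧ (L b).toFinset ⊆ S) ∧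
      ∀ γ ∈ G, Hf γ S → ∃ b, hits (L b) γ = true := by
  classical
  obtain ⟨I, hI⟩ : ∃ I : Finset (Finset Name),
      I = ((G.flatMap (hs k)).map List.toFinset).toFinset.filter fun T => T ⊆ S := ⟨_, rfl⟩
  have hmem : ∀ T, T ∈ I ↔ (∃ T' ∈ G.flatMap (hs k), T'.toFinset = T) ∧ T ⊆ S := by
    intro T
    rw [hI, Finset.mem_filter, List.mem_toFinset, List.mem_map]
  have hc1 : I.card ≤ 2 ^ k := by
    have h2 : I ⊆ S.powerset := fun T hT => Finset.mem_powerset.2 ((hmem T).1 hT).2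
    have h3 := Finset.card_le_card h2
    rwa [Finset.card_powerset, hS] at h3
  have hc2 : 32 * S.card ≤ (k / m + 1) * r1 m := by
    rw [hS]
    unfold r1
    have h2 := Nat.lt_mul_div_succ k (show 0 < m by omega)
    nlinarith
  obtain ⟨L, hL1, hL2⟩ := exists_cover (H := fun (T : Finset Name) (A : Finset Name) => T ⊆ A)
    (I := I) (fun i A B hAB hi => hi.trans hAB) S (fun i hi => ((hmem i).1 hi).2) (r1 m) k
    (k / m + 1) N (by unfold r1; omega) hc1 hc2 hN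
  have h1 : ∀ b, ∃ A ∈ uns (G.flatMap (hs k)) (r1 m), A.toFinset = L b := fun b =>
    uns_complete _ I (fun T hT => ((hmem T).1 hT).1) S _ _ (hL1 b)
  choose A hA1 hA2 using h1
  refine ⟨A, fun b => ⟨hA1 b, ?_⟩, ?_⟩
  · rw [hA2 b]
    have := (hL1 b).subset
    rwa [Finset.empty_union] at this
  · intro γ hγ hf
    obtain ⟨T, hT1, hT2⟩ := hs_complete k γ S hS.le hf
    obtain ⟨b, hb⟩ := hL2 T.toFinset ((hmem _).2 ⟨⟨T, List.mem_flatMap.2 ⟨γ, hγ, hT1⟩, rfl⟩, hT2⟩)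
    refine ⟨b, ?_⟩
    rw [hits_iff, hA2 b]
    exact ((hits_iff T γ).1 (hs_hits hT1)).mono hb

theorem cover_chn (m k l : ℕ) (hm : 1 ≤ m) (hl : 1 ≤ l) (G : List (Fm 1))
    (hG : G.length ≤ 2 ^ (l + 1)) (S : Finset Name) (hS : S.card = k)
    (N : ℕ) (hN : 2 ^ (l / m + 1) * (l + 2) ≤ N) :
    ∃ L : Fin N → List Name, (∀ b, L b ∈ chn k G (r2 m k l) ∧ (L b).toFinset ⊆ S) ∧
      ∀ γ ∈ G, Hf γ S → ∃ b, hits (L b) γ = true := by
  classical
  obtain ⟨I, hI⟩ : ∃ I : Finset (Fm 1), I = G.toFinset.filter fun γ => Hf γ S := ⟨_, rfl⟩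
  have hmem : ∀ γ, γ ∈ I ↔ γ ∈ G ∧ Hf γ S := by
    intro γ
    rw [hI, Finset.mem_filter, List.mem_toFinset]
  have hc0 : 1 ≤ r2 m k l := by
    unfold r2
    have : 1 ≤ m * (k / l + 1) := Nat.mul_pos (by omega) (Nat.succ_pos _)
    nlinarith
  have hc1 : I.card ≤ 2 ^ (l + 1) := by
    refine le_trans ?_ hG
    rw [hI]
    exact (Finset.card_filter_le _ _).trans (List.toFinset_card_le G)
  have hc2 : 32 * S.card ≤ (l / m + 1) * r2 m k l := by
    rw [hS]
    unfold r2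
    have h2 := Nat.lt_mul_div_succ l (show 0 < m by omega)
    have h3 := Nat.lt_mul_div_succ k (show 0 < l by omega)
    calc 32 * k ≤ 32 * (l * (k / l + 1)) := Nat.mul_le_mul_left _ h3.le
      _ ≤ 32 * ((m * (l / m + 1)) * (k / l + 1)) :=
        Nat.mul_le_mul_left _ (Nat.mul_le_mul_right _ h2.le)
      _ = (l / m + 1) * (32 * m * (k / l + 1)) := by ring
  obtain ⟨L, hL1, hL2⟩ := exists_cover (H := fun (γ : Fm 1) (A : Finset Name) => Hf γ A)
    (I := I) (fun i A B hAB hi => Hf.mono hi hAB) S (fun i hi => ((hmem i).1 hi).2) (r2 m k l)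
    (l + 1) (l / m + 1) N hc0 hc1 hc2 hN
  have h1 : ∀ b, ∃ A ∈ chn k G (r2 m k l), A.Nodup ∧ A.toFinset = L b := fun b =>
    chn_complete k G I (fun γ hγ => ((hmem γ).1 hγ).1) S hS.le _ _ (hL1 b)
  choose A hA1 _ hA2 using h1
  refine ⟨A, fun b => ⟨hA1 b, ?_⟩, ?_⟩
  · rw [hA2 b]
    have := (hL1 b).subset
    rwa [Finset.empty_union] at this
  · intro γ hγ hf
    obtain ⟨b, hb⟩ := hL2 γ ((hmem _).2 ⟨hγ, hf⟩)
    refine ⟨b, ?_⟩
    rw [hits_iff, hA2 b]
    exact hb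

theorem cover_all (s m : ℕ) (hm : 1 ≤ m) (φ : Fm (s + 3)) (k : ℕ) (S : Finset Name)
    (hS : S.card = k) :
    ∃ L : Fin (nrec m k (Nat.log 2 (sz (φ, k)))) → List Name,
      (∀ b, L b ∈ allA m k (Nat.log 2 (sz (φ, k))) (leaves (s + 2) φ) ∧ (L b).toFinset ⊆ S) ∧
      ∀ γ ∈ leaves (s + 2) φ, Hf γ S → ∃ b, hits (L b) γ = true := by
  obtain ⟨n, hn⟩ : ∃ n, n = sz (φ, k) := ⟨_, rfl⟩
  have hsz : n = sz φ + sz k + 1 := by rw [hn, sz_pair]
  rw [← hn]
  have h1 : (leaves (s + 2) φ).length ≤ 2 ^ (Nat.log 2 n + 1) := by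
    have h2 := length_leaves_le (s + 2) φ
    have h3 := Nat.lt_pow_succ_log_self (b := 2) (by norm_num) n
    have h4 : sz φ ≤ n := by omega
    have h5 : 2 ^ (Nat.log 2 n).succ = 2 ^ (Nat.log 2 n + 1) := rfl
    omega
  have hl : 1 ≤ Nat.log 2 n := by
    have h2 := sz_pos φ
    have h3 := sz_pos k
    exact Nat.log_pos (by norm_num) (by omega)
  rcases min_choice (2 ^ (k / m + 1) * (k + 1))
    (2 ^ (Nat.log 2 n / m + 1) * (Nat.log 2 n + 2)) with h | h
  · obtain ⟨L, hL1, hL2⟩ := cover_uns m k hm (leaves (s + 2) φ) S hS (nrec m k (Nat.log 2 n))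
      (by unfold nrec; rw [h])
    exact ⟨L, fun b => ⟨List.mem_append.2 (Or.inl (hL1 b).1), (hL1 b).2⟩, hL2⟩
  · obtain ⟨L, hL1, hL2⟩ := cover_chn m k (Nat.log 2 n) hm hl (leaves (s + 2) φ) h1 S hS
      (nrec m k (Nat.log 2 n)) (by unfold nrec; rw [h])
    exact ⟨L, fun b => ⟨List.mem_append.2 (Or.inr (hL1 b).1), (hL1 b).2⟩, hL2⟩

/-- The variables of the records are variables of the formula. -/
theorem allA_vars (s m k l : ℕ) (φ : Fm (s + 3)) {A : List Name}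
    (hA : A ∈ allA m k l (leaves (s + 2) φ)) (u : Name) (hu : u ∈ A) : u ∈ vars (s + 3) φ := by
  have key : ∀ γ ∈ leaves (s + 2) φ, Occ γ u → u ∈ vars (s + 3) φ := by
    rintro γ hγ ⟨D, hD, x, hx, rfl⟩
    have h1 := mem_names_of_leaf (s + 2) φ γ hγ D hD x hx
    unfold vars
    rw [List.mem_toFinset, List.mem_map]
    exact ⟨x, h1, rfl⟩
  unfold allA at hA
  rw [List.mem_append] at hA
  rcases hA with hA | hA
  · obtain ⟨T, hT, huT⟩ := uns_vars hA u hu
    obtain ⟨γ, hγ, hT2⟩ := List.mem_flatMap.1 hT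
    exact key γ hγ (hs_vars hT2 u huT)
  · obtain ⟨γ, hγ, h1⟩ := chn_vars hA u hu
    exact key γ hγ h1

end EWC
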