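import Pool.Agent.EWC.Cp2
import Pool.Agent.EWC.Rcov

/-!
# Project EWC, Cp3: the chains, the number of records

PROOFS.
* `pb_lg`: `PB.szOf`, `PB.log`.
* `pb_nrec`: `PB.natMin`, `PB.natMul`, `PB.twoPow`, `PB.natDiv` with the constant `m`, `PB.succ`.
  `2 ^ (k / m + 1) ≤ 2 * 2 ^ k` and `2 ^ k ≤ (mxw + 2) ^ k ≤ mu`; `2 ^ (l / m + 1) ≤ 2 * 2 ^ l`,
  `2 ^ l ≤ sz x` (`Nat.pow_log_le_self`, `sz x ≠ 0`).  (For `m = 0`, `k / 0 = 0`.)
* `pb_r2`: `PB.natMul`, `PB.natDiv`.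
* `pb_chn`: `PB.iter` with the given `n`, `s0 x = [[]]`, step
  `(x, L) ↦ L ++ L.flatMap fun A => (leaves (s + 2) x.1).flatMap fun γ => extn x.2 γ A` and the
  measure `ν (x, L) = mu s x + sz L + mx` where the inner functions `extn x.2 γ A`, `γ` a leaf of
  `φ`, `A ∈ L`, have measure `mE ((x.2, γ), A) = sz ((x.2, γ), A) * (mxw 1 γ + 2) ^ x.2`, which is
  polynomially bounded in `mu s x + sz (x, L)` (`sz_leaf`, `mxw_leaf`, `sz_le_of_mem`).  The iterates are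
  `chnj x.2 (leaves (s + 2) x.1) j`, `j < n x`; their sizes by `sz_chnj` with
  `W = mxw (s + 3) x.1 + 2`, the hypothesis `hC`,
  `W ^ k ≤ mu`, `k ≤ sz x`, `sz (leaves ..)` is polynomial in `sz x` by `(pf_leaves _).size`.
* `pow_leaves_r2`: `pow_r2` for `g = (leaves ..).length` (`length_leaves_le`, `g + 1 ≤ sz x <
  2 ^ (l + 1)`, here `sz x = sz (φ, k) ≥ sz φ + 2`, `Nat.lt_pow_succ_log_self`; `1 ≤ l` because
  `sz x ≥ 3`), `2 ^ k ≤ mu`, `2 ^ l ≤ sz x ≤ mu`.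
* `pb_allA`: `PB.append` of `pf_uns` after `pb_TT` (`PB.comp'`) and `pb_chn`.
-/

set_option autoImplicit false

namespace EWC

theorem pb_lg (s : ℕ) : PB (mu s) fun x : Fm (s + 3) × ℕ => Nat.log 2 (sz x) :=
  PB.log (PB.szOf (PB.id (sz_le_mu s)))

theorem pb_kk (s : ℕ) : PB (mu s) fun x : Fm (s + 3) × ℕ => x.2 := (PB.id (sz_le_mu s)).snd

theorem two_pow_k_le (s : ℕ) (x : Fm (s + 3) × ℕ) : 2 ^ x.2 ≤ mu s x := by
  unfold mu
  calc 2 ^ x.2 ≤ (mxw (s + 3) x.1 + 2) ^ x.2 := Nat.pow_le_pow_left (by omega) _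
    _ ≤ sz x * (mxw (s + 3) x.1 + 2) ^ x.2 := Nat.le_mul_of_pos_left _ (sz_pos x)

theorem two_pow_l_le (s : ℕ) (x : Fm (s + 3) × ℕ) : 2 ^ Nat.log 2 (sz x) ≤ mu s x :=
  (Nat.pow_log_le_self 2 (by have := sz_pos x; omega)).trans (sz_le_mu s x)

theorem pb_nrec (s m : ℕ) :
    PB (mu s) fun x : Fm (s + 3) × ℕ => nrec m x.2 (Nat.log 2 (sz x)) := by
  have hk := pb_kk s
  have hl := pb_lg s
  have hm : PB (mu s) (fun _ : Fm (s + 3) × ℕ => m) := PB.const (sz_le_mu s) m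
  have h1 : PB (mu s) fun x : Fm (s + 3) × ℕ => 2 ^ (x.2 / m + 1) := by
    refine PB.twoPow (PB.succ (PB.natDiv hk hm)) ?_
    refine ((PLe.const (mu s) 2).mul (PLe.self (mu s))).mono fun x => ?_
    have h2 := two_pow_k_le s x
    have h3 : 2 ^ (x.2 / m) ≤ 2 ^ x.2 := Nat.pow_le_pow_right (by omega) (Nat.div_le_self _ _)
    rw [pow_succ]
    omega
  have h2 : PB (mu s) fun x : Fm (s + 3) × ℕ => 2 ^ (Nat.log 2 (sz x) / m + 1) := by
    refine PB.twoPow (PB.succ (PB.natDiv hl hm)) ?_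
    refine ((PLe.const (mu s) 2).mul (PLe.self (mu s))).mono fun x => ?_
    have h2 := two_pow_l_le s x
    have h3 : 2 ^ (Nat.log 2 (sz x) / m) ≤ 2 ^ Nat.log 2 (sz x) :=
      Nat.pow_le_pow_right (by omega) (Nat.div_le_self _ _)
    rw [pow_succ]
    omega
  exact (PB.natMin (PB.natMul h1 (PB.succ hk)) (PB.natMul h2 (PB.succ (PB.succ hl)))).congr
    fun x => rfl

theorem pb_r2 (s m : ℕ) :
    PB (mu s) fun x : Fm (s + 3) × ℕ => r2 m x.2 (Nat.log 2 (sz x)) :=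
  (PB.natMul (PB.const (sz_le_mu s) (32 * m)) (PB.succ (PB.natDiv (pb_kk s) (pb_lg s)))).congr
    fun _ => rfl

/-- The measure for the innermost function. -/
def nu3 (s : ℕ) (p : (((Fm (s + 3) × ℕ) × List (List Name)) × List Name) × Fm 1) : ℕ :=
  mE ((p.1.1.1.2, p.2), p.1.2) + sz p

/-- The measure for one list of names. -/
def nu2 (s : ℕ) (p : ((Fm (s + 3) × ℕ) × List (List Name)) × List Name) : ℕ :=
  mu s p.1.1 + sz p

/-- The measure for one step. -/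
def nu1 (s : ℕ) (p : (Fm (s + 3) × ℕ) × List (List Name)) : ℕ :=
  mu s p.1 + sz p

theorem pb_f3 (s : ℕ) : PB (nu3 s) fun p : (((Fm (s + 3) × ℕ) × List (List Name)) × List Name) ×
    Fm 1 => extn p.1.1.1.2 p.2 p.1.2 := by
  have hid : PB (nu3 s) fun p : (((Fm (s + 3) × ℕ) × List (List Name)) × List Name) × Fm 1 => p :=
    PB.id fun _ => Nat.le_add_left _ _
  have h1 : PB (nu3 s) fun p : (((Fm (s + 3) × ℕ) × List (List Name)) × List Name) × Fm 1 =>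
      ((p.1.1.1.2, p.2), p.1.2) := PB.pair (PB.pair hid.fst.fst.fst.snd hid.snd) hid.fst.snd
  exact h1.comp pb_extn (PLe.of_le fun _ => Nat.le_add_right _ _)

theorem mE_le (s : ℕ) (x : Fm (s + 3) × ℕ) (γ : Fm 1) (hγ : γ ∈ leaves (s + 2) x.1)
    (A : List Name) : mE ((x.2, γ), A) ≤ (sz A + 2) * mu s x := by
  unfold mE mu
  have h1 : sz ((x.2, γ), A) ≤ sz x + sz A + 1 := by
    have h2 : sz x = sz x.1 + sz x.2 + 1 := sz_pair x.1 x.2
    have h3 := sz_leaf hγ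
    rw [sz_pair, sz_pair]
    omega
  have h2 : (mxw 1 γ + 2) ^ x.2 ≤ (mxw (s + 3) x.1 + 2) ^ x.2 :=
    Nat.pow_le_pow_left (Nat.add_le_add_right (mxw_leaf hγ) 2) _
  have h3 : sz x + sz A + 1 ≤ (sz A + 2) * sz x := by
    have := sz_pos x
    nlinarith
  calc sz ((x.2, γ), A) * (mxw 1 γ + 2) ^ x.2
      ≤ ((sz A + 2) * sz x) * (mxw (s + 3) x.1 + 2) ^ x.2 := Nat.mul_le_mul (h1.trans h3) h2
    _ = _ := by ring

theorem pb_f2 (s : ℕ) : PB (nu2 s) fun p : ((Fm (s + 3) × ℕ) × List (List Name)) × List Name =>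
    (leaves (s + 2) p.1.1.1).flatMap fun γ => extn p.1.1.2 γ p.2 := by
  have hid : PB (nu2 s) fun p : ((Fm (s + 3) × ℕ) × List (List Name)) × List Name => p :=
    PB.id fun _ => Nat.le_add_left _ _
  have hl : PB (nu2 s) fun p : ((Fm (s + 3) × ℕ) × List (List Name)) × List Name =>
      leaves (s + 2) p.1.1.1 := (pf_leaves (s + 2)).comp' hid.fst.fst.fst
  refine PB.flatMap hl (pb_f3 s) ⟨3, ?_⟩
  rintro ⟨⟨x, L⟩, A⟩ γ hγ
  have h1 := mE_le s x γ hγ A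
  have h2 := sz_leaf hγ
  have h3 : sz x = sz x.1 + sz x.2 + 1 := sz_pair x.1 x.2
  have h4 : nu3 s (((x, L), A), γ) = mE ((x.2, γ), A) + (sz ((x, L), A) + sz γ + 1) := by
    unfold nu3
    rw [sz_pair]
  have h5 : nu2 s ((x, L), A) = mu s x + sz ((x, L), A) := rfl
  have h6 : sz ((x, L), A) = sz x + sz L + 1 + sz A + 1 := by rw [sz_pair, sz_pair]
  have h7 := sz_le_mu s x
  change sz γ ≤ sz x.1 at h2
  rw [h4]
  have h8 : mE ((x.2, γ), A) ≤ (nu2 s ((x, L), A) + 2) * (nu2 s ((x, L), A) + 2) :=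
    h1.trans (Nat.mul_le_mul (by omega) (by omega))
  have h9 : sz ((x, L), A) + sz γ + 1 ≤ nu2 s ((x, L), A) + 2 + (nu2 s ((x, L), A) + 2) := by
    omega
  have h10 : nu2 s ((x, L), A) + 2 + (nu2 s ((x, L), A) + 2) ≤
      (nu2 s ((x, L), A) + 2) * (nu2 s ((x, L), A) + 2) := by nlinarith
  calc mE ((x.2, γ), A) + (sz ((x, L), A) + sz γ + 1)
      ≤ (nu2 s ((x, L), A) + 2) * (nu2 s ((x, L), A) + 2) +
        (nu2 s ((x, L), A) + 2) * (nu2 s ((x, L), A) + 2) := by omega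
    _ = (nu2 s ((x, L), A) + 2) * (nu2 s ((x, L), A) + 2) * 2 := by ring
    _ ≤ (nu2 s ((x, L), A) + 2) * (nu2 s ((x, L), A) + 2) * (nu2 s ((x, L), A) + 2) :=
        Nat.mul_le_mul_left _ (by omega)
    _ = _ := by ring

/-- One step. -/
theorem pb_f1 (s : ℕ) : PB (nu1 s) fun p : (Fm (s + 3) × ℕ) × List (List Name) =>
    p.2 ++ p.2.flatMap fun A => (leaves (s + 2) p.1.1).flatMap fun γ => extn p.1.2 γ A := by
  have hid : PB (nu1 s) fun p : (Fm (s + 3) × ℕ) × List (List Name) => p :=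
    PB.id fun _ => Nat.le_add_left _ _
  refine PB.append hid.snd (PB.flatMap hid.snd (pb_f2 s) ⟨2, ?_⟩)
  rintro ⟨x, L⟩ A hA
  have h1 := sz_le_of_mem hA
  have h2 : nu2 s ((x, L), A) = mu s x + (sz (x, L) + sz A + 1) := by
    unfold nu2
    rw [sz_pair]
  have h3 : nu1 s (x, L) = mu s x + sz (x, L) := rfl
  have h4 : sz (x, L) = sz x + sz L + 1 := sz_pair _ _
  change sz A + 2 ≤ sz L at h1
  rw [h2]
  calc mu s x + (sz (x, L) + sz A + 1) ≤ (nu1 s (x, L) + 2) * 2 := by omega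
    _ ≤ (nu1 s (x, L) + 2) * (nu1 s (x, L) + 2) := Nat.mul_le_mul_left _ (by omega)
    _ = _ := by ring

/-- Chains of any computable number of steps. -/
theorem pb_chn (s : ℕ) {n : Fm (s + 3) × ℕ → ℕ} (hn : PB (mu s) n)
    (hC : ∃ C : ℕ, ∀ x, ((leaves (s + 2) x.1).length + 1) ^ n x ≤ (mu s x + 2) ^ C) :
    PB (mu s) fun x : Fm (s + 3) × ℕ => chn x.2 (leaves (s + 2) x.1) (n x) := by
  have hG : PB (mu s) fun x : Fm (s + 3) × ℕ => leaves (s + 2) x.1 :=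
    (pf_leaves (s + 2)).comp' (PB.id (sz_le_mu s)).fst
  have hP : PLe (mu s) fun x => mu s x + (sz x + (((leaves (s + 2) x.1).length + 1) ^ n x *
      mu s x * (x.2 * (sz (leaves (s + 2) x.1) + 1) + 2) + 1) + 1) :=
    (PLe.self _).add ((((PB.id (sz_le_mu s)).szle).add (((PLe.mul (PLe.mul hC (PLe.self _))
      ((PLe.mul (pb_kk s).val (hG.size.add (PLe.const _ 1))).add (PLe.const _ 2))).add
      (PLe.const _ 1)))).add (PLe.const _ 1))
  obtain ⟨E, hE⟩ := hP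
  have h := PB.iter hn (PB.const (sz_le_mu s) ([[]] : List (List Name))) (pb_f1 s) (by
    refine ⟨E, fun x j hj => le_trans ?_ (hE x)⟩
    have h1 : nu1 s (x, chnj x.2 (leaves (s + 2) x.1) j) =
        mu s x + (sz x + sz (chnj x.2 (leaves (s + 2) x.1) j) + 1) := by
      unfold nu1
      rw [sz_pair]
    change nu1 s (x, chnj x.2 (leaves (s + 2) x.1) j) ≤ _
    rw [h1]
    have h2 := sz_chnj (W := mxw (s + 3) x.1 + 2) (k := x.2) (G := leaves (s + 2) x.1) (by omega)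
      (fun γ hγ => (mxw_leaf hγ).trans (Nat.le_add_right _ 2)) j
    have h3 : ((leaves (s + 2) x.1).length + 1) ^ j ≤ ((leaves (s + 2) x.1).length + 1) ^ n x :=
      Nat.pow_le_pow_right (by omega) hj.le
    have h4 : (mxw (s + 3) x.1 + 2) ^ x.2 ≤ mu s x :=
      Nat.le_mul_of_pos_left _ (sz_pos x)
    have h5 := Nat.mul_le_mul_right (x.2 * (sz (leaves (s + 2) x.1) + 1) + 2)
      (Nat.mul_le_mul h3 h4)
    beta_reduce
    have h6 := h2.trans (Nat.add_le_add_right h5 1)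
    omega)
  exact h.congr fun x => rfl

/-- The number of chains is polynomially bounded. -/
theorem pow_leaves_r2 (s m : ℕ) : ∃ C : ℕ, ∀ x : Fm (s + 3) × ℕ,
    ((leaves (s + 2) x.1).length + 1) ^ r2 m x.2 (Nat.log 2 (sz x)) ≤ (mu s x + 2) ^ C := by
  refine ⟨2 * (64 * m), fun x => ?_⟩
  have h1 : sz x = sz x.1 + sz x.2 + 1 := sz_pair x.1 x.2
  have h2 := sz_pos x.1
  have h3 := sz_pos x.2
  have hl : 1 ≤ Nat.log 2 (sz x) := Nat.log_pos (by omega) (by omega)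
  have h4 := length_leaves_le (s + 2) x.1
  have h5 : sz x < 2 ^ (Nat.log 2 (sz x) + 1) := Nat.lt_pow_succ_log_self (by omega) _
  have hg : (leaves (s + 2) x.1).length + 1 ≤ 2 ^ (Nat.log 2 (sz x) + 1) := by
    change (leaves (s + 2) x.1).length ≤ sz x.1 at h4
    omega
  refine (pow_r2 hl hg (le_refl (r2 m x.2 (Nat.log 2 (sz x))))).trans ?_
  rw [pow_mul (mu s x + 2) 2 (64 * m)]
  refine Nat.pow_le_pow_left ?_ _
  rw [pow_two]
  have h6 := two_pow_k_le s x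
  have h7 := two_pow_l_le s x
  exact Nat.mul_le_mul (by omega) (by omega)

theorem pb_allA (s m : ℕ) :
    PB (mu s) fun x : Fm (s + 3) × ℕ =>
      allA m x.2 (Nat.log 2 (sz x)) (leaves (s + 2) x.1) :=
  (PB.append ((pf_uns (r1 m)).comp' (pb_TT s)) (pb_chn s (pb_r2 s m) (pow_leaves_r2 s m))).congr
    fun _ => rfl

end EWC
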