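import Pool.Agent.EWC.Cp3

/-!
# Project EWC, Cp4: the reduction is computable

The additional clauses are computed from the data `y = (((N, AA), G), V)`; only the fourth group
uses the number `k` and the lists `hs k γ`.

PROOFS.
* `pf_cls1`, `pf_cls2`, `pf_cls3`, `pf_cls5`: compositions of `PB.map'`, `PB.flatMap'`,
  `PB.filter'`, `PB.rng`, `pf_wv`, `pf_yv`, `PB.beq`, `PB.cons`, `PB.const`, `PB.pair`.
* `pb_cls4`: `PB.flatMap` over the leaves `γ` of `φ` with
  `f ((x, (N, AA)), γ) = (hs x.2 γ).map fun T => ...` and a measure in which `mH (x.2, γ)` is a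
  summand; here `N` and `AA` are functions of the instance with measure `mu s`.  State it for
  arbitrary `N`, `AA` computed with the measure `mu s`.
* `pb_red`: `PB.append`, `pf_tf`, `pf_recs`, `PB.map'` with `pf_up`, `pb_cls`.
* `pb_redF`: `pb_red` with `pb_nrec`, `pb_allA`; `PB.pair`, `PB.natAdd`.
-/

set_option autoImplicit false

namespace EWC

section aux

variable {α β γ δ : Type} [Dat α] [Dat β] [Dat γ] [Dat δ] {μ : α → ℕ}

private theorem pid : PB (sz : α → ℕ) fun a => a := PB.id fun _ => le_rfl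

private theorem wbd {l : α → List β} (hl : PB μ l) :
    ∃ C : ℕ, ∀ a, ∀ b ∈ l a, μ a + sz (a, b) ≤ (μ a + 2) ^ C := by
  obtain ⟨C, hC⟩ := ((PLe.self μ).add (hl.szle.add hl.size)).add (PLe.const _ 1)
  refine ⟨C, fun a b hb => le_trans ?_ (hC a)⟩
  have h3 := sz_le_of_mem hb
  show μ a + sz (a, b) ≤ μ a + (sz a + sz (l a)) + 1
  rw [sz_pair]
  omega

private theorem lift1 {f : α → γ} (hf : PB μ f) :
    PB (fun p : α × β => μ p.1 + sz p) fun p => f p.1 :=
  (PB.fst (PB.id fun _ => Nat.le_add_left _ _)).comp hf (PLe.of_le fun _ => Nat.le_add_right _ _)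

private theorem wmap {l : α → List β} {f : α × β → γ} (hl : PB μ l)
    (hf : PB (fun p : α × β => μ p.1 + sz p) f) : PB μ fun a => (l a).map fun b => f (a, b) :=
  PB.map hl hf (wbd hl)

end aux

theorem pf_cls1 : PB sz fun y : ℕ × List (List Name) =>
    (rng y.1).map fun b => y.2.map fun A => (true, wv b A) := by
  have h1 : PB sz fun q : ((ℕ × List (List Name)) × ℕ) × List Name => (true, wv q.1.2 q.2) :=
    PB.pair (PB.const (fun _ => le_rfl) true) (PB.comp2 pf_wv pid.fst.snd pid.snd)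
  have h2 : PB sz fun p : (ℕ × List (List Name)) × ℕ =>
      p.1.2.map fun A => (true, wv p.2 A) := PB.map' pid.fst.snd h1
  exact PB.map' (PB.rng pid.fst) h2

theorem pf_cls2 : PB sz fun y : ℕ × List (List Name) =>
    (rng y.1).flatMap fun b => y.2.flatMap fun A =>
      (y.2.filter fun A' => !decide (A = A')).map fun A' => [(false, wv b A), (false, wv b A')] := by
  have h1 : PB sz fun r : (((ℕ × List (List Name)) × ℕ) × List Name) × List Name =>
      [(false, wv r.1.1.2 r.1.2), (false, wv r.1.1.2 r.2)] :=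
    PB.cons (PB.pair (PB.const (fun _ => le_rfl) false)
      (PB.comp2 pf_wv pid.fst.fst.snd pid.fst.snd))
      (PB.cons (PB.pair (PB.const (fun _ => le_rfl) false)
        (PB.comp2 pf_wv pid.fst.fst.snd pid.snd)) (PB.const (fun _ => le_rfl) []))
  have h2 : PB sz fun r : (((ℕ × List (List Name)) × ℕ) × List Name) × List Name =>
      !decide (r.1.2 = r.2) := PB.not (PB.beq pid.fst.snd pid.snd)
  have h3 : PB sz fun q : ((ℕ × List (List Name)) × ℕ) × List Name =>
      q.1.1.2.filter fun A' => !decide (q.2 = A') := PB.filter' pid.fst.fst.snd h2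
  have h4 : PB sz fun q : ((ℕ × List (List Name)) × ℕ) × List Name =>
      (q.1.1.2.filter fun A' => !decide (q.2 = A')).map fun A' =>
        [(false, wv q.1.2 q.2), (false, wv q.1.2 A')] := PB.map' h3 h1
  have h5 : PB sz fun p : (ℕ × List (List Name)) × ℕ => p.1.2.flatMap fun A =>
      (p.1.2.filter fun A' => !decide (A = A')).map fun A' =>
        [(false, wv p.2 A), (false, wv p.2 A')] := PB.flatMap' pid.fst.snd h4
  exact PB.flatMap' (PB.rng pid.fst) h5

theorem pf_cls3 : PB sz fun y : ℕ × List (List Name) =>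
    (rng y.1).flatMap fun b => y.2.flatMap fun A => A.map fun u =>
      [(false, wv b A), (true, yv u)] := by
  have h1 : PB sz fun r : (((ℕ × List (List Name)) × ℕ) × List Name) × Name =>
      [(false, wv r.1.1.2 r.1.2), (true, yv r.2)] :=
    PB.cons (PB.pair (PB.const (fun _ => le_rfl) false)
      (PB.comp2 pf_wv pid.fst.fst.snd pid.fst.snd))
      (PB.cons (PB.pair (PB.const (fun _ => le_rfl) true)
        (PB.comp' pf_yv pid.snd)) (PB.const (fun _ => le_rfl) []))
  have h4 : PB sz fun q : ((ℕ × List (List Name)) × ℕ) × List Name =>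
      q.2.map fun u => [(false, wv q.1.2 q.2), (true, yv u)] := PB.map' pid.snd h1
  have h5 : PB sz fun p : (ℕ × List (List Name)) × ℕ => p.1.2.flatMap fun A =>
      A.map fun u => [(false, wv p.2 A), (true, yv u)] := PB.flatMap' pid.fst.snd h4
  exact PB.flatMap' (PB.rng pid.fst) h5

theorem pf_cls5 : PB sz fun V : List Name => V.map fun u => [(true, yv u), (false, yv u)] := by
  have h1 : PB sz fun r : List Name × Name => [(true, yv r.2), (false, yv r.2)] :=
    PB.cons (PB.pair (PB.const (fun _ => le_rfl) true) (PB.comp' pf_yv pid.snd))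
      (PB.cons (PB.pair (PB.const (fun _ => le_rfl) false) (PB.comp' pf_yv pid.snd))
        (PB.const (fun _ => le_rfl) []))
  exact PB.map' pid h1

/-- The measure for one leaf. -/
private def nuG (s : ℕ) (p : (Fm (s + 3) × ℕ) × Fm 1) : ℕ := mH (p.1.2, p.2) + mu s p.1 + sz p

private theorem pf_neg : PB sz fun T : List Name => T.map fun u => (false, yv u) := by
  have h1 : PB sz fun r : List Name × Name => (false, yv r.2) :=
    PB.pair (PB.const (fun _ => le_rfl) false) (PB.comp' pf_yv pid.snd)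
  exact PB.map' pid h1

private theorem pf_wvs : PB sz fun L : List (ℕ × List Name) =>
    L.map fun w => (true, wv w.1 w.2) := by
  have h1 : PB sz fun r : List (ℕ × List Name) × (ℕ × List Name) => (true, wv r.2.1 r.2.2) :=
    PB.pair (PB.const (fun _ => le_rfl) true) (PB.comp2 pf_wv pid.snd.fst pid.snd.snd)
  exact PB.map' pid h1

private theorem pf_fil : PB sz fun y : List (ℕ × List Name) × Fm 1 =>
    y.1.filter fun w => hits w.2 y.2 := by
  have h1 : PB sz fun r : (List (ℕ × List Name) × Fm 1) × (ℕ × List Name) =>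
      hits r.2.2 r.1.2 := PB.comp2 pf_hits pid.snd.snd pid.fst.snd
  exact PB.filter' pid.fst h1

private theorem pb_g4 (s : ℕ) {W : Fm (s + 3) × ℕ → List (ℕ × List Name)} (hW : PB (mu s) W) :
    PB (nuG s) fun p : (Fm (s + 3) × ℕ) × Fm 1 => (hs p.1.2 p.2).map fun T =>
      (T.map fun u => (false, yv u)) ++
        ((W p.1).filter fun w => hits w.2 p.2).map fun w => (true, wv w.1 w.2) := by
  have hid : PB (nuG s) fun p : (Fm (s + 3) × ℕ) × Fm 1 => p :=
    PB.id fun _ => Nat.le_add_left _ _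
  have hWp : PB (nuG s) fun p : (Fm (s + 3) × ℕ) × Fm 1 => W p.1 :=
    hid.fst.comp hW (PLe.of_le fun _ => (Nat.le_add_left _ _).trans (Nat.le_add_right _ _))
  have hhs : PB (nuG s) fun p : (Fm (s + 3) × ℕ) × Fm 1 => hs p.1.2 p.2 :=
    (PB.pair hid.fst.snd hid.snd).comp pb_hs
      (PLe.of_le fun _ => (Nat.le_add_right _ _).trans (Nat.le_add_right _ _))
  have hR : PB (nuG s) fun p : (Fm (s + 3) × ℕ) × Fm 1 =>
      ((W p.1).filter fun w => hits w.2 p.2).map fun w => (true, wv w.1 w.2) :=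
    pf_wvs.comp' (pf_fil.comp2 hWp hid.snd)
  have hN : PB (fun q : ((Fm (s + 3) × ℕ) × Fm 1) × List Name => nuG s q.1 + sz q)
      fun q => q.2.map fun u => (false, yv u) :=
    pf_neg.comp' (PB.id fun _ => Nat.le_add_left _ _).snd
  exact wmap hhs (PB.append hN (lift1 hR))

theorem pb_cls4 (s : ℕ) {W : Fm (s + 3) × ℕ → List (ℕ × List Name)} (hW : PB (mu s) W) :
    PB (mu s) fun x => (leaves (s + 2) x.1).flatMap fun γ => (hs x.2 γ).map fun T =>
      (T.map fun u => (false, yv u)) ++
        ((W x).filter fun w => hits w.2 γ).map fun w => (true, wv w.1 w.2) := by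
  have hl : PB (mu s) fun x : Fm (s + 3) × ℕ => leaves (s + 2) x.1 :=
    (pf_leaves (s + 2)).comp' (PB.id (sz_le_mu s)).fst
  refine PB.flatMap hl (pb_g4 s hW) ⟨3, ?_⟩
  intro x γ hγ
  have h1 := mu_leaf s x γ hγ
  have h2 := sz_leaf hγ
  have h3 : sz x = sz x.1 + sz x.2 + 1 := sz_pair x.1 x.2
  have h4 : nuG s (x, γ) = mH (x.2, γ) + mu s x + (sz x + sz γ + 1) := by
    unfold nuG
    rw [sz_pair]
  have h5 := sz_le_mu s x
  change sz γ ≤ sz x.1 at h2
  rw [h4]
  calc mH (x.2, γ) + mu s x + (sz x + sz γ + 1) ≤ (mu s x + 2) * (2 * 2) := by omega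
    _ ≤ (mu s x + 2) * ((mu s x + 2) * (mu s x + 2)) :=
        Nat.mul_le_mul_left _ (Nat.mul_le_mul (by omega) (by omega))
    _ = _ := by ring

theorem pb_cls (s : ℕ) {N : Fm (s + 3) × ℕ → ℕ} {AA : Fm (s + 3) × ℕ → List (List Name)}
    (hN : PB (mu s) N) (hA : PB (mu s) AA) :
    PB (mu s) fun x => cls x.2 (N x) (AA x) (leaves (s + 2) x.1) (names (s + 3) x.1) := by
  have hW : PB (mu s) fun x => recs (N x) (AA x) := PB.comp2 pf_recs hN hA
  have hV : PB (mu s) fun x : Fm (s + 3) × ℕ => names (s + 3) x.1 :=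
    (pf_names (s + 3)).comp' (PB.id (sz_le_mu s)).fst
  exact PB.append (PB.comp2 pf_cls1 hN hA) (PB.append (PB.comp2 pf_cls2 hN hA)
    (PB.append (PB.comp2 pf_cls3 hN hA) (PB.append (pb_cls4 s hW) (PB.comp' pf_cls5 hV))))

private theorem pf_ups (s : ℕ) : PB sz fun C : List (List Lit) =>
    C.map fun c => c.map (up s) := by
  have h1 : PB sz fun r : (List (List Lit) × List Lit) × Lit => up s r.2 :=
    (pf_up s).comp' pid.snd
  have h2 : PB sz fun q : List (List Lit) × List Lit => q.2.map fun l => up s l :=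
    PB.map' pid.snd h1
  exact PB.map' pid h2

/-- The new formula is computable if the records are. -/
theorem pb_red (sg : Bool) (s : ℕ) {N : Fm (s + 3) × ℕ → ℕ}
    {AA : Fm (s + 3) × ℕ → List (List Name)} (hN : PB (mu s) N) (hA : PB (mu s) AA) :
    PB (mu s) fun x => red sg s x.1 x.2 (N x) (AA x) := by
  have hW : PB (mu s) fun x => recs (N x) (AA x) := PB.comp2 pf_recs hN hA
  have h1 : PB (mu s) fun x : Fm (s + 3) × ℕ => tf sg (recs (N x) (AA x)) (s + 1) x.1 :=
    PB.comp2 (pf_tf sg (s + 1)) hW (PB.id (sz_le_mu s)).fst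
  have h2 := PB.comp' (pf_ups s) (pb_cls s hN hA)
  exact PB.append h1 h2

theorem pb_redF (sg : Bool) (s m : ℕ) : PB (mu s) (redF sg s m) :=
  PB.pair (pb_red sg s (pb_nrec s m) (pb_allA s m))
    (PB.natAdd (pb_kk s) (pb_nrec s m))

end EWC
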