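import Mathlib

/-!
# Project EWC, Cv1: greedy extension

`H i` (`i : ι`) are monotone properties of finite sets.  A step adds to the current set `A` a set
`B ⊆ V` which is minimal with `H i (A ∪ B)`, for some index `i ∈ I`.  `Reach H I V n A A'`: `A'` is
obtained from `A` by at most `n` steps.

PROOF of `exists_greedy`.  For `i ∈ I` with `H i (A ∪ V)` (feasible) and a set `A' ⊇ A` reached
from `A` let `g A' i` be the least cardinality of a `B ⊆ V` with `H i (A' ∪ B)` (it exists, `V`
works).  A `B` of least cardinality is minimal and disjoint from `A'` (otherwise `B \ A'` is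
smaller).  Claim, by induction on `j`: there are `A'`, `q` with `Reach H I V j A A'`,
`g A' i ≤ q` for all feasible `i`, and `j * q ≤ (A' \ A).card`, `A' \ A ⊆ V`.
`j = 0`: `A' = A`, `q = V.card`.  `j + 1`: if there is no feasible index then take the same `A'` and
`q = 0`.  Otherwise let `i` be a feasible index with `q' = g A' i` maximal, `q' ≤ q`
(`Finset.exists_max_image` on `I.filter feasible`), `B` of cardinality `q'`; `A'' = A' ∪ B`:
`(A'' \ A).card = (A' \ A).card + q' ≥ (j + 1) * q'` and `g A'' i' ≤ g A' i' ≤ q'` by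
monotonicity.  At `j = ρ`: `ρ * q ≤ (A' \ A).card ≤ V.card`; take for `B` a set of least
cardinality `≤ q`.
-/

set_option autoImplicit false

namespace EWC

open Finset

variable {X ι : Type} [DecidableEq X]

/-- `A'` is obtained from `A` by at most `n` steps: a step adds a set `B ⊆ V` which is minimal with
`H i (A ∪ B)`, for some `i ∈ I`. -/
inductive Reach (H : ι → Finset X → Prop) (I : Finset ι) (V : Finset X) :
    ℕ → Finset X → Finset X → Prop
  | refl (n : ℕ) (A : Finset X) : Reach H I V n A A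
  | step {n : ℕ} {A A' : Finset X} (h : Reach H I V n A A') (i : ι) (hi : i ∈ I) (B : Finset X)
      (hB : B ⊆ V) (hH : H i (A' ∪ B)) (hmin : ∀ B', B' ⊂ B → ¬ H i (A' ∪ B')) :
      Reach H I V (n + 1) A (A' ∪ B)

variable {H : ι → Finset X → Prop} {I : Finset ι}

theorem Reach.mono {V : Finset X} {n n' : ℕ} {A A' : Finset X} (h : Reach H I V n A A')
    (hn : n ≤ n') : Reach H I V n' A A' := by
  induction h generalizing n' with
  | refl n A => exact .refl n' A
  | @step n A A' h i hi B hB hH hmin ih =>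
    obtain ⟨m, rfl⟩ : ∃ m, n' = m + 1 := ⟨n' - 1, by omega⟩
    exact .step (ih (by omega)) i hi B hB hH hmin

theorem Reach.mono_set {V V' : Finset X} {n : ℕ} {A A' : Finset X} (h : Reach H I V n A A')
    (hV : V ⊆ V') : Reach H I V' n A A' := by
  induction h with
  | refl n A => exact .refl n A
  | step h i hi B hB hH hmin ih => exact .step ih i hi B (hB.trans hV) hH hmin

theorem Reach.trans {V : Finset X} {n n' : ℕ} {A A' A'' : Finset X} (h : Reach H I V n A A')
    (h' : Reach H I V n' A' A'') : Reach H I V (n + n') A A'' := by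
  induction h' with
  | refl n' A' => exact h.mono (Nat.le_add_right n n')
  | step h' i hi B hB hH hmin ih => exact .step (ih h) i hi B hB hH hmin

theorem Reach.subset {V : Finset X} {n : ℕ} {A A' : Finset X} (h : Reach H I V n A A') :
    A' ⊆ A ∪ V := by
  induction h with
  | refl n A => exact Finset.subset_union_left
  | step h i hi B hB hH hmin ih =>
    exact Finset.union_subset ih (hB.trans Finset.subset_union_right)

theorem Reach.superset {V : Finset X} {n : ℕ} {A A' : Finset X} (h : Reach H I V n A A') :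
    A ⊆ A' := by
  induction h with
  | refl n A => exact Finset.Subset.refl A
  | step h i hi B hB hH hmin ih => exact ih.trans Finset.subset_union_left

private theorem min_ext (V A' : Finset X) (i : ι) (h : H i (A' ∪ V)) :
    ∃ B, B ⊆ V ∧ H i (A' ∪ B) ∧ ∀ B', B' ⊆ V → H i (A' ∪ B') → B.card ≤ B'.card := by
  classical
  obtain ⟨B, hB, hmin⟩ := Finset.exists_min_image
    (V.powerset.filter (fun B => H i (A' ∪ B))) Finset.card
    ⟨V, by
      rw [Finset.mem_filter, Finset.mem_powerset]
      exact ⟨Finset.Subset.refl V, h⟩⟩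
  rw [Finset.mem_filter, Finset.mem_powerset] at hB
  refine ⟨B, hB.1, hB.2, fun B' h1 h2 => hmin B' ?_⟩
  rw [Finset.mem_filter, Finset.mem_powerset]
  exact ⟨h1, h2⟩

private theorem greedy_aux (hup : ∀ i A B, A ⊆ B → H i A → H i B) (V A : Finset X) (j : ℕ) :
    ∃ (A' : Finset X) (q : ℕ), Reach H I V j A A' ∧
      (∀ i ∈ I, H i (A ∪ V) → ∃ B, B ⊆ V ∧ H i (A' ∪ B) ∧ B.card ≤ q) ∧
      j * q ≤ (A' \ A).card ∧ A' \ A ⊆ V := by
  classical
  induction j with
  | zero =>
    refine ⟨A, V.card, .refl 0 A, fun i _ h => ⟨V, Finset.Subset.refl V, h, le_rfl⟩, ?_, ?_⟩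
    · rw [zero_mul]
      exact Nat.zero_le _
    · rw [Finset.sdiff_self]
      exact Finset.empty_subset V
  | succ j ih =>
    obtain ⟨A', q, hR, hq, hc, hV⟩ := ih
    rcases (I.filter (fun i => H i (A ∪ V))).eq_empty_or_nonempty with hE | hE
    · refine ⟨A', 0, hR.mono (Nat.le_succ j), fun i hi h => ?_, ?_, hV⟩
      · have : i ∈ I.filter (fun i => H i (A ∪ V)) := Finset.mem_filter.2 ⟨hi, h⟩
        rw [hE] at this
        exact absurd this (Finset.notMem_empty i)
      · rw [mul_zero]
        exact Nat.zero_le _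
    · have hAA' := hR.superset
      have hfe : ∀ i, H i (A ∪ V) → H i (A' ∪ V) := fun i h =>
        hup i _ _ (Finset.union_subset_union hAA' (Finset.Subset.refl V)) h
      have hex : ∀ i, ∃ B, H i (A ∪ V) → B ⊆ V ∧ H i (A' ∪ B) ∧
          ∀ B', B' ⊆ V → H i (A' ∪ B') → B.card ≤ B'.card := by
        intro i
        by_cases h : H i (A ∪ V)
        · obtain ⟨B, hB⟩ := min_ext V A' i (hfe i h)
          exact ⟨B, fun _ => hB⟩
        · exact ⟨∅, fun h' => absurd h' h⟩
      choose f hf using hex
      obtain ⟨i0, hi0, hmax⟩ := Finset.exists_max_image _ (fun i => (f i).card) hE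
      obtain ⟨hi0I, hi0V⟩ := Finset.mem_filter.1 hi0
      obtain ⟨hBV, hBH, hBmin⟩ := hf i0 hi0V
      have hmin : ∀ B', B' ⊂ f i0 → ¬ H i0 (A' ∪ B') := fun B' hB' hH' =>
        absurd (hBmin B' (hB'.subset.trans hBV) hH') (not_le_of_gt (Finset.card_lt_card hB'))
      have hdisj : Disjoint (f i0) A' := by
        rw [← Finset.sdiff_eq_self_iff_disjoint]
        by_contra hne
        refine hmin (f i0 \ A') (Finset.sdiff_subset.ssubset_of_ne hne) ?_
        rw [Finset.union_sdiff_self_eq_union]
        exact hBH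
      have hq' : (f i0).card ≤ q := by
        obtain ⟨B1, hB1, hB2, hB3⟩ := hq i0 hi0I hi0V
        exact (hBmin B1 hB1 hB2).trans hB3
      have hsd : (A' ∪ f i0) \ A = (A' \ A) ∪ f i0 := by
        rw [Finset.union_sdiff_distrib]
        congr 1
        exact Finset.sdiff_eq_self_of_disjoint (hdisj.mono_right hAA')
      refine ⟨A' ∪ f i0, (f i0).card, .step hR i0 hi0I (f i0) hBV hBH hmin, fun i hi h => ?_,
        ?_, ?_⟩
      · obtain ⟨h1, h2, -⟩ := hf i h
        refine ⟨f i, h1, hup i _ _ (Finset.union_subset_union Finset.subset_union_left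
          (Finset.Subset.refl _)) h2, hmax i (Finset.mem_filter.2 ⟨hi, h⟩)⟩
      · rw [hsd, Finset.card_union_of_disjoint (hdisj.symm.mono_left Finset.sdiff_subset),
          Nat.succ_mul]
        exact Nat.add_le_add_right ((Nat.mul_le_mul_left j hq').trans hc) _
      · rw [hsd]
        exact Finset.union_subset hV hBV

/-- Greedy extension in `ρ` steps. -/
theorem exists_greedy (hup : ∀ i A B, A ⊆ B → H i A → H i B) (V A : Finset X) (ρ : ℕ) :
    ∃ A', Reach H I V ρ A A' ∧ ∀ i ∈ I, H i (A ∪ V) →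
      ∃ B, B ⊆ V ∧ H i (A' ∪ B) ∧ (∀ B', B' ⊂ B → ¬ H i (A' ∪ B')) ∧ ρ * B.card ≤ V.card := by
  obtain ⟨A', q, hR, hq, hc, hV⟩ := greedy_aux (I := I) hup V A ρ
  refine ⟨A', hR, fun i hi h => ?_⟩
  obtain ⟨B, h1, h2, h3⟩ := min_ext V A' i
    (hup i _ _ (Finset.union_subset_union hR.superset (Finset.Subset.refl V)) h)
  obtain ⟨B1, hB1, hB2, hB3⟩ := hq i hi h
  refine ⟨B, h1, h2, fun B' hB' hH' =>
    absurd (h3 B' (hB'.subset.trans h1) hH') (not_le_of_gt (Finset.card_lt_card hB')), ?_⟩
  exact (Nat.mul_le_mul_left ρ ((h3 B1 hB1 hB2).trans hB3)).trans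
    (hc.trans (Finset.card_le_card hV))

end EWC
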