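import Pool.Agent.EWC.Cv1

/-!
# Project EWC, Cv2: random extension

PROOF of `card_super`.  `B ⊆ V`, `g = B.card`, `4 * h ≥ V.card + 3 * g`, `h ≤ V.card`: the number of
`h`-element subsets of `V` containing `B` is `C(v - g, h - g)` (bijection `V' ↦ V' \ B` with
`powersetCard (h - g) (V \ B)`; note `g ≤ h` because `4 h ≥ v + 3 g ≥ 4 g`), and
`C(v, h) ≤ 4^g C(v - g, h - g)` by induction on `g`: for `1 ≤ h ≤ v`,
`h * C(v, h) = v * C(v - 1, h - 1)` (`Nat.succ_mul_choose_eq`) and `v ≤ 4 * h`, so
`C(v, h) ≤ 4 * C(v - 1, h - 1)`; the hypothesis passes to `(v - 1, h - 1, g - 1)`.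

PROOF of `exists_weight`.  Strong induction on `r`, for all `V, A`.
(Base) `r ≤ 32`: let `n = V.card`; the weight is `2^{-n}` for each subset `V' ⊆ V`, transported by
the map `V' ↦ A ∪ V'` if `V'` is minimal with `H i (A ∪ V')` for some `i ∈ I`, and `V' ↦ A`
otherwise (this is a set `φ V'` with `Reach H I V 1 A (φ V')`): `w B = ∑_{V' ∈ V.powerset, φ V' = B}
2^{-n}`.  If `i ∈ I` is feasible, there is a minimal `B ⊆ V` with `H i (A ∪ B)`
(`Finset.exists_minimal` or least cardinality), `φ B = A ∪ B`, so the weight of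
`{C | H i C}` is at least `2^{-n} ≥ 2^{-32 n / r}`.
(Step) `r > 32`: `ρ = r / 4`, `r' = r - ρ` (`1 ≤ r' < r`), `ρ ≥ 8`, `5 ρ ≥ r`, `4 r' ≥ 3 r`.  Take
`A₁` from `exists_greedy` with `ρ`.  If `V.card < ρ` then `B = ∅` in `exists_greedy`, so `H i A₁`
for all feasible `i`: the weight concentrated at `A₁` works (`2^{-x} ≤ 1`).  Otherwise `v = V.card ≥
8`, `h = v / 2`; for each `V' ∈ powersetCard h V` take the weight `w_{V'}` of the induction
hypothesis for `r'`, `V'`, `A₁`; `w C = (∑_{V'} w_{V'} C) / C(v, h)`.  It is supported on sets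
reached (`Reach.mono_set`, `Reach.trans`, `ρ + r' = r`) and has total weight `1` (sums over all
`C ∈ (A ∪ V).powerset`; the support of `w_{V'}` is in `(A₁ ∪ V').powerset ⊆ (A ∪ V).powerset`).
For a feasible `i` let `B` be from `exists_greedy`, `g = B.card`, `ρ g ≤ v`; for the `V'` with
`B ⊆ V'`: `H i (A₁ ∪ V')`, so `w_{V'}{H i} ≥ 2^{-32 h / r'}`.  Hence
`w{H i} ≥ 4^{-g} 2^{-32 h / r'}` by `card_super` (`4 h ≥ 2 v - 2 ≥ v + 3 g` as `g ≤ v / 8`, `v ≥ 8`).
Exponents: `2 g + 32 h / r' ≤ 2 v / ρ + 16 v / r' ≤ 10 v / r + (64/3) v / r ≤ 32 v / r`.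
-/

set_option autoImplicit false

namespace EWC

open Finset

variable {X ι : Type} [DecidableEq X]

theorem choose_le_aux (g : ℕ) : ∀ v h : ℕ, h ≤ v → v + 3 * g ≤ 4 * h →
    v.choose h ≤ 4 ^ g * (v - g).choose (h - g) := by
  induction g with
  | zero => intro v h _ _; simp
  | succ g ih =>
    intro v h hv h4
    obtain ⟨h', rfl⟩ : ∃ h', h = h' + 1 := ⟨h - 1, by omega⟩
    obtain ⟨v', rfl⟩ : ∃ v', v = v' + 1 := ⟨v - 1, by omega⟩
    have e := Nat.add_one_mul_choose_eq v' h'
    have i1 := ih v' h' (by omega) (by omega)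
    have i2 : (v' + 1).choose (h' + 1) ≤ 4 * v'.choose h' := by
      have i3 : (v' + 1).choose (h' + 1) * (h' + 1) ≤ 4 * v'.choose h' * (h' + 1) := by
        have i4 : (v' + 1).choose (h' + 1) * (h' + 1) = (v' + 1) * v'.choose h' := e.symm
        rw [i4]
        have i5 : v' + 1 ≤ 4 * (h' + 1) := by omega
        calc (v' + 1) * v'.choose h' ≤ 4 * (h' + 1) * v'.choose h' := Nat.mul_le_mul_right _ i5
          _ = 4 * v'.choose h' * (h' + 1) := by ring
      exact Nat.le_of_mul_le_mul_right i3 (Nat.succ_pos _)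
    rw [show v' + 1 - (g + 1) = v' - g by omega, show h' + 1 - (g + 1) = h' - g by omega, pow_succ]
    calc (v' + 1).choose (h' + 1) ≤ 4 * v'.choose h' := i2
      _ ≤ 4 * (4 ^ g * (v' - g).choose (h' - g)) := Nat.mul_le_mul_left _ i1
      _ = 4 ^ g * 4 * (v' - g).choose (h' - g) := by ring

theorem card_super (V B : Finset X) (hB : B ⊆ V) (h : ℕ) (hh : h ≤ V.card)
    (h4 : V.card + 3 * B.card ≤ 4 * h) :
    (V.card.choose h) ≤ 4 ^ B.card * ((powersetCard h V).filter fun V' => B ⊆ V').card := by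
  refine (choose_le_aux B.card V.card h hh h4).trans (Nat.mul_le_mul_left _ ?_)
  have hcard : (V \ B).card = V.card - B.card := card_sdiff_of_subset hB
  have hBh : B.card ≤ h := by
    have := card_le_card hB
    omega
  rw [← hcard, ← card_powersetCard]
  refine card_le_card_of_injOn (fun W => B ∪ W) ?_ ?_
  · intro W hW
    have hW' := mem_powersetCard.1 hW
    have hd : Disjoint B W := disjoint_of_subset_right hW'.1 disjoint_sdiff
    simp only [coe_filter, Set.mem_ofPred_eq, mem_powersetCard]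
    refine ⟨⟨union_subset hB (hW'.1.trans sdiff_subset), ?_⟩, subset_union_left⟩
    rw [card_union_of_disjoint hd, hW'.2]
    omega
  · intro W hW W' hW' e
    have hd : Disjoint B W := disjoint_of_subset_right (mem_powersetCard.1 hW).1 disjoint_sdiff
    have hd' : Disjoint B W' := disjoint_of_subset_right (mem_powersetCard.1 hW').1 disjoint_sdiff
    have e1 : (B ∪ W) \ B = W := union_sdiff_cancel_left hd
    have e2 : (B ∪ W') \ B = W' := union_sdiff_cancel_left hd'
    simp only at e
    rw [← e1, ← e2, e]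

section weights

variable {H : ι → Finset X → Prop} {I : Finset ι}

open Classical in
/-- the conclusion of `exists_weight` -/
def WT (H : ι → Finset X → Prop) (I : Finset ι) (r : ℕ) (V A : Finset X) (w : Finset X → ℝ) : Prop :=
  (∀ B, 0 ≤ w B) ∧ (∀ B, w B ≠ 0 → Reach H I V r A B) ∧
      ∑ B ∈ (A ∪ V).powerset, w B = 1 ∧
      ∀ i ∈ I, H i (A ∪ V) →
        (2 : ℝ) ^ (-(32 * (V.card : ℝ) / r)) ≤ ∑ B ∈ (A ∪ V).powerset with H i B, w B

open Classical in
theorem weight_base (r : ℕ) (V A : Finset X) (hr : 1 ≤ r) (hr32 : r ≤ 32) :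
    ∃ w : Finset X → ℝ, WT H I r V A w := by
  set φ : Finset X → Finset X := fun V' =>
    if ∃ i ∈ I, H i (A ∪ V') ∧ ∀ B', B' ⊂ V' → ¬ H i (A ∪ B') then A ∪ V' else A with hφ
  have hφ1 : ∀ V' ∈ V.powerset, Reach H I V r A (φ V') := by
    intro V' hV'
    rw [mem_powerset] at hV'
    simp only [hφ]
    split_ifs with h
    · obtain ⟨i, hi, h1, h2⟩ := h
      exact (Reach.step (Reach.refl 0 A) i hi V' hV' h1 h2).mono hr
    · exact Reach.refl _ _
  have hφ2 : ∀ V' ∈ V.powerset, φ V' ∈ (A ∪ V).powerset := fun V' hV' =>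
    mem_powerset.2 (hφ1 V' hV').subset
  refine ⟨fun B => ((V.powerset.filter fun V' => φ V' = B).card : ℝ) / 2 ^ V.card, ?_, ?_, ?_, ?_⟩
  · intro B
    positivity
  · intro B hB
    have h0 : (V.powerset.filter fun V' => φ V' = B).card ≠ 0 := by
      intro h
      apply hB
      simp only
      rw [h]
      simp
    obtain ⟨V', hV'⟩ := card_ne_zero.1 h0
    rw [mem_filter] at hV'
    rw [← hV'.2]
    exact hφ1 V' hV'.1
  · rw [← sum_div, ← Nat.cast_sum, ← card_eq_sum_card_fiberwise hφ2, card_powerset]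
    push_cast
    exact div_self (by positivity)
  · intro i hi hfe
    obtain ⟨B, hB, hmin⟩ := (V.powerset.filter fun B => H i (A ∪ B)).exists_min_image card
      ⟨V, mem_filter.2 ⟨mem_powerset.2 (Subset.refl _), hfe⟩⟩
    rw [mem_filter, mem_powerset] at hB
    have hB2 : ∀ B', B' ⊂ B → ¬ H i (A ∪ B') := by
      intro B' hB' h1
      have h2 := hmin B' (mem_filter.2 ⟨mem_powerset.2 (hB'.1.trans hB.1), h1⟩)
      exact absurd (card_lt_card hB') (not_lt.2 h2)
    have hφB : φ B = A ∪ B := by
      simp only [hφ]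
      exact if_pos ⟨i, hi, hB.2, hB2⟩
    have hmem : A ∪ B ∈ (A ∪ V).powerset.filter fun B => H i B :=
      mem_filter.2 ⟨mem_powerset.2 (union_subset_union_right hB.1), hB.2⟩
    refine le_trans ?_ (single_le_sum (f := fun B =>
      ((V.powerset.filter fun V' => φ V' = B).card : ℝ) / 2 ^ V.card) 
      (fun C _ => div_nonneg (Nat.cast_nonneg _) (pow_nonneg zero_le_two _)) hmem)
    have h3 : (1 : ℝ) ≤ ((V.powerset.filter fun V' => φ V' = A ∪ B).card : ℝ) := by
      have : 0 < (V.powerset.filter fun V' => φ V' = A ∪ B).card :=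
        card_pos.2 ⟨B, mem_filter.2 ⟨mem_powerset.2 hB.1, hφB⟩⟩
      exact_mod_cast this
    have h4 : (2 : ℝ) ^ (-(32 * (V.card : ℝ) / r)) ≤ (2 : ℝ) ^ (-(V.card : ℝ)) := by
      refine Real.rpow_le_rpow_of_exponent_le one_le_two ?_
      have hr0 : (0 : ℝ) < r := by exact_mod_cast hr
      have hr1 : (r : ℝ) ≤ 32 := by exact_mod_cast hr32
      have : (V.card : ℝ) ≤ 32 * (V.card : ℝ) / r := by
        rw [le_div_iff₀ hr0]
        have := mul_le_mul_of_nonneg_left hr1 (Nat.cast_nonneg (α := ℝ) V.card)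
        linarith
      linarith
    refine h4.trans ?_
    rw [Real.rpow_neg zero_le_two, Real.rpow_natCast, ← one_div]
    exact div_le_div_of_nonneg_right h3 (by positivity)

open Classical in
theorem weight_step (hup : ∀ i A B, A ⊆ B → H i A → H i B) (r : ℕ) (hr : 32 < r)
    (ih : ∀ V A : Finset X, ∃ w : Finset X → ℝ, WT H I (r - r / 4) V A w) (V A : Finset X) :
    ∃ w : Finset X → ℝ, WT H I r V A w := by
  set ρ := r / 4 with hρ
  have hρ8 : 8 ≤ ρ := by omega
  have hρ5 : r ≤ 5 * ρ := by omega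
  have hρ4 : 4 * ρ ≤ r := by omega
  obtain ⟨A₁, hA1, hA2⟩ := exists_greedy (I := I) hup V A ρ
  have hAV : A₁ ⊆ A ∪ V := hA1.subset
  rcases lt_or_ge V.card ρ with hlt | hge
  · refine ⟨fun B => if B = A₁ then 1 else 0, ?_, ?_, ?_, ?_⟩
    · intro B
      dsimp only
      split_ifs <;> norm_num
    · intro B hB
      dsimp only at hB
      split_ifs at hB with h
      · subst h
        exact hA1.mono (by omega)
      · exact absurd rfl hB
    · rw [sum_ite_eq', if_pos (mem_powerset.2 hAV)]
    · intro i hi hf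
      obtain ⟨B, hB, h1, h2, h3⟩ := hA2 i hi hf
      have hB0 : B = ∅ := by
        rw [← card_eq_zero]
        by_contra h
        have : 1 ≤ B.card := Nat.one_le_iff_ne_zero.2 h
        nlinarith
      subst hB0
      rw [union_empty] at h1
      rw [sum_ite_eq', if_pos (mem_filter.2 ⟨mem_powerset.2 hAV, h1⟩)]
      refine Real.rpow_le_one_of_one_le_of_nonpos one_le_two ?_
      have : (0 : ℝ) ≤ 32 * V.card / r := by positivity
      linarith
  · choose w hw using fun V' => ih V' A₁
    set h := V.card / 2 with hh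
    have hhv : h ≤ V.card := Nat.div_le_self _ _
    have hN : 0 < (V.card.choose h : ℝ) := by exact_mod_cast Nat.choose_pos hhv
    have hsub : ∀ V' ∈ powersetCard h V, (A₁ ∪ V').powerset ⊆ (A ∪ V).powerset := by
      intro V' hV'
      refine powerset_mono.2 (union_subset hAV ?_)
      exact (mem_powersetCard.1 hV').1.trans subset_union_right
    have hsum0 : ∀ V' B, B ∉ (A₁ ∪ V').powerset → w V' B = 0 := by
      intro V' B hB
      by_contra h0
      exact hB (mem_powerset.2 ((hw V').2.1 B h0).subset)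
    refine ⟨fun C => (∑ V' ∈ powersetCard h V, w V' C) / V.card.choose h, ?_, ?_, ?_, ?_⟩
    · intro B
      exact div_nonneg (sum_nonneg fun V' _ => (hw V').1 B) hN.le
    · intro B hB
      have hex : ∃ V' ∈ powersetCard h V, w V' B ≠ 0 := by
        by_contra hn
        push Not at hn
        apply hB
        simp only
        rw [sum_eq_zero hn, zero_div]
      obtain ⟨V', hV', hne⟩ := hex
      have h1 := (hw V').2.1 B hne
      have h2 := hA1.trans (h1.mono_set (mem_powersetCard.1 hV').1)
      rwa [show ρ + (r - ρ) = r by omega] at h2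
    · rw [← sum_div, sum_comm]
      have h1 : ∀ V' ∈ powersetCard h V, ∑ C ∈ (A ∪ V).powerset, w V' C = 1 := by
        intro V' hV'
        rw [← (hw V').2.2.1]
        exact (sum_subset (hsub V' hV') fun C _ hC => hsum0 V' C hC).symm
      rw [sum_congr rfl h1, sum_const, card_powersetCard, nsmul_eq_mul, mul_one, div_self hN.ne']
    · intro i hi hf
      obtain ⟨B, hB, h1, h2, h3⟩ := hA2 i hi hf
      have hg8 : 8 * B.card ≤ V.card := (Nat.mul_le_mul_right _ hρ8).trans h3
      have hcs := card_super V B hB h hhv (by omega)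
      rw [← sum_div, le_div_iff₀ hN, sum_comm]
      set q : ℝ := (2 : ℝ) ^ (-(32 * (h : ℝ) / ((r - ρ : ℕ) : ℝ))) with hq
      have hq0 : 0 < q := Real.rpow_pos_of_pos two_pos _
      have k1 : ∀ V' ∈ (powersetCard h V).filter (fun V' => B ⊆ V'),
          q ≤ ∑ C ∈ (A ∪ V).powerset with H i C, w V' C := by
        intro V' hV'
        rw [mem_filter, mem_powersetCard] at hV'
        obtain ⟨⟨hV1, hV2⟩, hV3⟩ := hV'
        have k2 := (hw V').2.2.2 i hi (hup i _ _ (union_subset_union_right hV3) h1)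
        rw [hV2] at k2
        refine k2.trans ?_
        refine sum_le_sum_of_subset_of_nonneg ?_ fun C _ _ => (hw V').1 C
        exact filter_subset_filter _ (hsub V' (mem_powersetCard.2 ⟨hV1, hV2⟩))
      have k3 : (((powersetCard h V).filter fun V' => B ⊆ V').card : ℝ) * q ≤
          ∑ V' ∈ powersetCard h V, ∑ C ∈ (A ∪ V).powerset with H i C, w V' C := by
        refine le_trans ?_ (sum_le_sum_of_subset_of_nonneg (filter_subset (fun V' => B ⊆ V') _)
          fun V' _ _ => sum_nonneg fun C _ => (hw V').1 C)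
        have := card_nsmul_le_sum _ _ q k1
        rwa [nsmul_eq_mul] at this
      refine le_trans ?_ k3
      have hcs' : (V.card.choose h : ℝ) ≤
          4 ^ B.card * (((powersetCard h V).filter fun V' => B ⊆ V').card : ℝ) := by
        exact_mod_cast hcs
      have h2p : (0 : ℝ) < (2 : ℝ) ^ (-(32 * (V.card : ℝ) / r)) := Real.rpow_pos_of_pos two_pos _
      refine (mul_le_mul_of_nonneg_left hcs' h2p.le).trans ?_
      have k4 : (2 : ℝ) ^ (-(32 * (V.card : ℝ) / r)) * 4 ^ B.card ≤ q := by
        have e4 : (4 : ℝ) ^ B.card = (2 : ℝ) ^ (2 * (B.card : ℝ)) := by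
          rw [Real.rpow_mul zero_le_two, Real.rpow_natCast]
          norm_num
        rw [e4, hq, ← Real.rpow_add two_pos]
        refine Real.rpow_le_rpow_of_exponent_le one_le_two ?_
        have hr0 : (0 : ℝ) < r := by
          have : 0 < r := by omega
          exact_mod_cast this
        have hr'0 : (0 : ℝ) < ((r - ρ : ℕ) : ℝ) := by
          have : 0 < r - ρ := by omega
          exact_mod_cast this
        have b1 : (2 * (B.card : ℝ)) ≤ 10 * (V.card : ℝ) / r := by
          rw [le_div_iff₀ hr0]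
          have c1 : (ρ : ℝ) * B.card ≤ V.card := by exact_mod_cast h3
          have c2 : (r : ℝ) ≤ 5 * ρ := by exact_mod_cast hρ5
          have c3 := mul_le_mul_of_nonneg_left c2 (Nat.cast_nonneg (α := ℝ) B.card)
          linarith
        have b2 : 32 * (h : ℝ) / ((r - ρ : ℕ) : ℝ) ≤ 64 / 3 * (V.card : ℝ) / r := by
          rw [div_le_div_iff₀ hr'0 hr0]
          have c1 : 2 * (h : ℝ) ≤ V.card := by
            have : 2 * h ≤ V.card := by omega
            exact_mod_cast this
          have c2 : 3 * (r : ℝ) ≤ 4 * ((r - ρ : ℕ) : ℝ) := by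
            have : 3 * r ≤ 4 * (r - ρ) := by omega
            exact_mod_cast this
          have c3 := mul_le_mul_of_nonneg_right c1 hr0.le
          have c4 := mul_le_mul_of_nonneg_left c2 (Nat.cast_nonneg (α := ℝ) V.card)
          linarith
        have b3 : 10 * (V.card : ℝ) / r + 64 / 3 * (V.card : ℝ) / r ≤ 32 * (V.card : ℝ) / r := by
          rw [← add_div]
          refine div_le_div_of_nonneg_right ?_ hr0.le
          have := Nat.cast_nonneg (α := ℝ) V.card
          linarith
        linarith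
      have k5 := mul_le_mul_of_nonneg_right k4
        (Nat.cast_nonneg (α := ℝ) ((powersetCard h V).filter fun V' => B ⊆ V').card)
      linarith

end weights

open Classical in
/-- There is a probability distribution on the sets which are reached from `A` in at most `r`
steps, with probability at least `2 ^ (- 32 |V| / r)` for each feasible property. -/
theorem exists_weight {H : ι → Finset X → Prop} {I : Finset ι}
    (hup : ∀ i A B, A ⊆ B → H i A → H i B) (r : ℕ) : ∀ (V A : Finset X), 1 ≤ r →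
    ∃ w : Finset X → ℝ, (∀ B, 0 ≤ w B) ∧ (∀ B, w B ≠ 0 → Reach H I V r A B) ∧
      ∑ B ∈ (A ∪ V).powerset, w B = 1 ∧
      ∀ i ∈ I, H i (A ∪ V) →
        (2 : ℝ) ^ (-(32 * (V.card : ℝ) / r)) ≤ ∑ B ∈ (A ∪ V).powerset with H i B, w B := by
  induction r using Nat.strong_induction_on with
  | _ r ih =>
    intro V A hr
    rcases le_or_gt r 32 with h32 | h32
    · exact weight_base r V A hr h32
    · exact weight_step hup r h32 (fun V A => ih (r - r / 4) (by omega) V A (by omega)) V A

end EWC
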