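import Pool.Agent.EWC.Cv3

/-!
# Project EWC, Cv4: the covering lemma for properties with small witnesses

PROOF of `card_super2`: as `card_super` in Cv2: the number of `r`-element subsets of `V` which contain
`B`, `B.card = g`, is `C(v - g, r - g)`, and `C(v, r) ≤ c^g C(v - g, r - g)` by induction on `g`
from `r * C(v, r) = v * C(v - 1, r - 1)` and `v ≤ c * r`; the hypothesis `v ≤ c * (r - s)`,
`g ≤ s`, gives `v - j ≤ c * (r - j)` for `j < g`.

PROOF of `exists_cover2`.  For a set `V' ⊆ S` with at most `r` elements take `A_{V'}` from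
`exists_greedy` with `V = V'`, `A = ∅`, `ρ = r + 1`: `(r + 1) * B.card ≤ V'.card ≤ r` forces
`B = ∅`, so `H i A_{V'}` for all `i ∈ I` with `H i V'`; `Reach H I S (r + 1) ∅ A_{V'}` by
`Reach.mono_set`.  If `S.card ≤ r` take `V' = S`; all slots are equal (`N ≥ 1` if `I` is nonempty,
as `c ^ s ≥ 1`; if `c = 0` then `S.card = 0`... use `hc1 : 1 ≤ c`).  Otherwise `r < S.card`.
Averaging: for every `J ⊆ I` there is `V' ∈ powersetCard r S` such that at least `c^{-s} |J|` of
the `i ∈ J` have `T i ⊆ V'` (`card_super2`: each `i` has at least `c^{-s} C(k, r)` such `V'`;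
double counting).  By induction on `n` there are `n` such sets with at most `(1 - c^{-s})^n |I|`
uncovered indices; `n = N ≥ c^s (a + 1)` gives less than `1` (exactly as in Cv3).
-/

set_option autoImplicit false

namespace EWC

open Finset

variable {X ι : Type} [DecidableEq X]

private theorem choose_aux2 (c : ℕ) (g : ℕ) : ∀ v r s : ℕ, r ≤ v → g ≤ s → s ≤ r → v ≤ c * (r - s) →
    v.choose r ≤ c ^ g * (v - g).choose (r - g) := by
  induction g with
  | zero => intro v r s _ _ _ _; simp
  | succ g ih =>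
    intro v r s hr hg hs hc
    obtain ⟨r', rfl⟩ : ∃ r', r = r' + 1 := ⟨r - 1, by omega⟩
    obtain ⟨v', rfl⟩ : ∃ v', v = v' + 1 := ⟨v - 1, by omega⟩
    obtain ⟨s', rfl⟩ : ∃ s', s = s' + 1 := ⟨s - 1, by omega⟩
    have e := Nat.add_one_mul_choose_eq v' r'
    have e2 : r' + 1 - (s' + 1) = r' - s' := by omega
    rw [e2] at hc
    have i1 := ih v' r' s' (by omega) (by omega) (by omega) (by omega)
    have i2 : (v' + 1).choose (r' + 1) ≤ c * v'.choose r' := by
      have i3 : (v' + 1).choose (r' + 1) * (r' + 1) ≤ c * v'.choose r' * (r' + 1) := by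
        have i4 : (v' + 1).choose (r' + 1) * (r' + 1) = (v' + 1) * v'.choose r' := e.symm
        rw [i4]
        have i5 : v' + 1 ≤ c * (r' + 1) := hc.trans (Nat.mul_le_mul_left _ (by omega))
        calc (v' + 1) * v'.choose r' ≤ c * (r' + 1) * v'.choose r' := Nat.mul_le_mul_right _ i5
          _ = c * v'.choose r' * (r' + 1) := by ring
      exact Nat.le_of_mul_le_mul_right i3 (Nat.succ_pos _)
    rw [show v' + 1 - (g + 1) = v' - g by omega, show r' + 1 - (g + 1) = r' - g by omega, pow_succ]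
    calc (v' + 1).choose (r' + 1) ≤ c * v'.choose r' := i2
      _ ≤ c * (c ^ g * (v' - g).choose (r' - g)) := Nat.mul_le_mul_left _ i1
      _ = c ^ g * c * (v' - g).choose (r' - g) := by ring

theorem card_super2 (V B : Finset X) (hB : B ⊆ V) (r s c : ℕ) (hs : B.card ≤ s) (hsr : s ≤ r)
    (hr : r ≤ V.card) (hc : V.card ≤ c * (r - s)) :
    (V.card.choose r) ≤ c ^ B.card * ((powersetCard r V).filter fun V' => B ⊆ V').card := by
  refine (choose_aux2 c B.card V.card r s hr hs hsr hc).trans (Nat.mul_le_mul_left _ ?_)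
  have hcard : (V \ B).card = V.card - B.card := card_sdiff_of_subset hB
  rw [← hcard, ← card_powersetCard]
  refine card_le_card_of_injOn (fun W => B ∪ W) ?_ ?_
  · intro W hW
    have hW' := mem_powersetCard.1 hW
    have hd : Disjoint B W := disjoint_of_subset_right hW'.1 disjoint_sdiff
    simp only [coe_filter, Set.mem_ofPred_eq, mem_powersetCard]
    refine ⟨⟨union_subset hB (hW'.1.trans sdiff_subset), ?_⟩, subset_union_left⟩
    rw [card_union_of_disjoint hd, hW'.2]
    omega
  · intro W hW W' hW' e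
    have hd : Disjoint B W := disjoint_of_subset_right (mem_powersetCard.1 hW).1 disjoint_sdiff
    have hd' : Disjoint B W' := disjoint_of_subset_right (mem_powersetCard.1 hW').1 disjoint_sdiff
    have e1 : (B ∪ W) \ B = W := union_sdiff_cancel_left hd
    have e2 : (B ∪ W') \ B = W' := union_sdiff_cancel_left hd'
    simp only at e
    rw [← e1, ← e2, e]

omit [DecidableEq X] in
/-- Iteration of an averaging step. -/
private theorem cover_iter {H : ι → Finset X → Prop} {I : Finset ι} {R : Finset X → Prop}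
    (p : ℝ) (hp1 : p ≤ 1) (a N : ℕ) (hI : I.card ≤ 2 ^ a)
    (hpN : (a : ℝ) + 1 ≤ p * N)
    (key2 : ∀ J ⊆ I, ∃ B, R B ∧ ∃ F : Finset ι, (∀ i, i ∈ F ↔ i ∈ J ∧ H i B) ∧
      p * (J.card : ℝ) ≤ (F.card : ℝ)) :
    ∃ L : Fin N → Finset X, (∀ b, R (L b)) ∧ ∀ i ∈ I, ∃ b, H i (L b) := by
  classical
  have key3 : ∀ n : ℕ, ∃ L : Fin n → Finset X, (∀ b, R (L b)) ∧
      ((I.filter fun i => ∀ b, ¬ H i (L b)).card : ℝ) ≤ (1 - p) ^ n * I.card := by
    intro n
    induction n with
    | zero =>
      refine ⟨Fin.elim0, fun b => b.elim0, ?_⟩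
      rw [pow_zero, one_mul]
      exact_mod_cast Finset.card_filter_le _ _
    | succ n ih =>
      obtain ⟨L, hL, hc⟩ := ih
      obtain ⟨B, hB, F, hF, hBc⟩ := key2 (I.filter fun i => ∀ b, ¬ H i (L b))
        (Finset.filter_subset _ _)
      refine ⟨Fin.cons B L, ?_, ?_⟩
      · intro b
        refine Fin.cases ?_ (fun b => ?_) b
        · rw [Fin.cons_zero]
          exact hB
        · rw [Fin.cons_succ]
          exact hL b
      · have h1 : (I.filter fun i => ∀ b : Fin (n + 1),
            ¬ H i ((Fin.cons B L : Fin (n + 1) → Finset X) b)) =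
            (I.filter fun i => ∀ b, ¬ H i (L b)) \ F := by
          ext i
          rw [Finset.mem_sdiff, hF]
          simp only [Finset.mem_filter, Fin.forall_fin_succ, Fin.cons_zero,
            Fin.cons_succ]
          tauto
        have h0 : F ⊆ (I.filter fun i => ∀ b, ¬ H i (L b)) := fun i hi => ((hF i).1 hi).1
        rw [h1, Finset.cast_card_sdiff h0]
        have h2 : (1 - p) ^ (n + 1) * (I.card : ℝ) = (1 - p) * ((1 - p) ^ n * I.card) := by ring
        rw [h2]
        have h3 := mul_le_mul_of_nonneg_left hc (by linarith : (0 : ℝ) ≤ 1 - p)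
        linarith
  obtain ⟨L, hL, hc⟩ := key3 N
  refine ⟨L, hL, ?_⟩
  have hIr : (I.card : ℝ) ≤ 2 ^ a := by exact_mod_cast hI
  have h1 : (1 - p) ^ N ≤ (1 / 2) ^ (a + 1) := by
    have h2 : (1 - p) ≤ Real.exp (-p) := by
      have := Real.add_one_le_exp (-p)
      linarith
    calc (1 - p) ^ N ≤ (Real.exp (-p)) ^ N := pow_le_pow_left₀ (by linarith) h2 N
      _ = Real.exp (-(p * N)) := by
        rw [← Real.exp_nat_mul]
        congr 1
        ring
      _ ≤ Real.exp (-((a : ℝ) + 1)) := Real.exp_le_exp.2 (by linarith)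
      _ = (Real.exp (-1)) ^ (a + 1) := by
        rw [← Real.exp_nat_mul]
        congr 1
        push_cast
        ring
      _ ≤ (1 / 2) ^ (a + 1) := by
        refine pow_le_pow_left₀ (Real.exp_pos _).le ?_ _
        have h3 : (2 : ℝ) ≤ Real.exp 1 := by
          have := Real.add_one_le_exp (1 : ℝ)
          linarith
        rw [Real.exp_neg, one_div]
        exact inv_anti₀ (by norm_num) h3
  have h2 : ((I.filter fun i => ∀ b, ¬ H i (L b)).card : ℝ) < 1 := by
    refine lt_of_le_of_lt hc ?_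
    calc (1 - p) ^ N * (I.card : ℝ) ≤ (1 / 2) ^ (a + 1) * 2 ^ a :=
          mul_le_mul h1 hIr (by positivity) (by positivity)
      _ = 1 / 2 := by
        rw [pow_succ, mul_right_comm, ← mul_pow]
        norm_num
      _ < 1 := by norm_num
  have h3 : (I.filter fun i => ∀ b, ¬ H i (L b)).card = 0 := by
    have h4 : (I.filter fun i => ∀ b, ¬ H i (L b)).card < 1 := by exact_mod_cast h2
    omega
  intro i hi
  by_contra hcon
  push Not at hcon
  have h5 : i ∈ I.filter fun i => ∀ b, ¬ H i (L b) := Finset.mem_filter.2 ⟨hi, hcon⟩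
  rw [Finset.card_eq_zero.1 h3] at h5
  exact absurd h5 (Finset.notMem_empty i)

/-- The covering lemma for properties with witnesses of size at most `s`. -/
theorem exists_cover2 {H : ι → Finset X → Prop} {I : Finset ι}
    (hup : ∀ i A B, A ⊆ B → H i A → H i B) (S : Finset X) (s : ℕ)
    (hS : ∀ i ∈ I, ∃ T, T ⊆ S ∧ T.card ≤ s ∧ H i T)
    (r a c N : ℕ) (hsr : s ≤ r) (hc1 : 1 ≤ c) (hI : I.card ≤ 2 ^ a)
    (hc : S.card ≤ c * (r - s)) (hN : c ^ s * (a + 1) ≤ N) :
    ∃ L : Fin N → Finset X, (∀ b, Reach H I S (r + 1) ∅ (L b)) ∧ ∀ i ∈ I, ∃ b, H i (L b) := by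
  classical
  have hcs : (1 : ℝ) ≤ (c : ℝ) ^ s := one_le_pow₀ (by exact_mod_cast hc1)
  have hcs0 : (0 : ℝ) < (c : ℝ) ^ s := by linarith
  have hp1 : 1 / (c : ℝ) ^ s ≤ 1 := by
    rw [div_le_one hcs0]
    exact hcs
  have hpN : (a : ℝ) + 1 ≤ 1 / (c : ℝ) ^ s * N := by
    rw [div_mul_eq_mul_div, one_mul, le_div_iff₀ hcs0]
    have h1 : ((c : ℝ) ^ s * ((a : ℝ) + 1)) ≤ N := by exact_mod_cast hN
    linarith
  -- the sets attached to the subsets of `S` with at most `r` elements
  have hex : ∀ V' : Finset X, V' ⊆ S → V'.card ≤ r → ∃ B, Reach H I S (r + 1) ∅ B ∧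
      ∀ i ∈ I, H i V' → H i B := by
    intro V' hV' hcard
    obtain ⟨A', h1, h2⟩ := exists_greedy (I := I) hup V' ∅ (r + 1)
    refine ⟨A', h1.mono_set hV', ?_⟩
    intro i hi hH
    obtain ⟨B, -, h4, -, h6⟩ := h2 i hi (by rwa [Finset.empty_union])
    have hB0 : B = ∅ := by
      rw [← Finset.card_eq_zero]
      by_contra h
      have h7 : 1 ≤ B.card := Nat.one_le_iff_ne_zero.2 h
      have h8 : (r + 1) * 1 ≤ (r + 1) * B.card := Nat.mul_le_mul_left _ h7
      omega
    rwa [hB0, Finset.union_empty] at h4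
  refine cover_iter (1 / (c : ℝ) ^ s) hp1 a N hI hpN ?_
  intro J hJ
  rcases le_or_gt S.card r with hSr | hSr
  · obtain ⟨B, hB1, hB2⟩ := hex S (Finset.Subset.refl S) hSr
    refine ⟨B, hB1, J, ?_, ?_⟩
    · intro i
      refine ⟨fun hi => ⟨hi, hB2 i (hJ hi) ?_⟩, fun h => h.1⟩
      obtain ⟨T, hT1, -, hT3⟩ := hS i (hJ hi)
      exact hup i T S hT1 hT3
    · have := mul_le_mul_of_nonneg_right hp1 (Nat.cast_nonneg (α := ℝ) J.card)
      linarith
  · choose! T hT1 hT2 hT3 using hS
    -- a good subset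
    obtain ⟨V', hV', hgood⟩ : ∃ V' ∈ powersetCard r S, 1 / (c : ℝ) ^ s * (J.card : ℝ) ≤
        ((J.filter fun i => T i ⊆ V').card : ℝ) := by
      by_contra hcon
      push Not at hcon
      have hchoose : 0 < S.card.choose r := Nat.choose_pos hSr.le
      have h1 : ∑ V' ∈ powersetCard r S, ((J.filter fun i => T i ⊆ V').card : ℝ) =
          ∑ i ∈ J, (((powersetCard r S).filter fun V' => T i ⊆ V').card : ℝ) := by
        have h2 : ∀ V' ∈ powersetCard r S, ((J.filter fun i => T i ⊆ V').card : ℝ) =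
            ∑ i ∈ J, if T i ⊆ V' then (1 : ℝ) else 0 := by
          intro V' _
          rw [← Finset.sum_filter, Finset.sum_const, nsmul_eq_mul, mul_one]
        rw [Finset.sum_congr rfl h2, Finset.sum_comm]
        refine Finset.sum_congr rfl fun i _ => ?_
        rw [← Finset.sum_filter, Finset.sum_const, nsmul_eq_mul, mul_one]
      have h3 : ∑ V' ∈ powersetCard r S, ((J.filter fun i => T i ⊆ V').card : ℝ) <
          ∑ _V' ∈ powersetCard r S, 1 / (c : ℝ) ^ s * (J.card : ℝ) := by
        refine Finset.sum_lt_sum_of_nonempty ?_ hcon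
        rw [← Finset.card_pos, Finset.card_powersetCard]
        exact hchoose
      rw [h1, Finset.sum_const, Finset.card_powersetCard, nsmul_eq_mul] at h3
      have h4 : ∀ i ∈ J, (S.card.choose r : ℝ) / (c : ℝ) ^ s ≤
          (((powersetCard r S).filter fun V' => T i ⊆ V').card : ℝ) := by
        intro i hi
        have h5 := card_super2 S (T i) (hT1 i (hJ hi)) r s c (hT2 i (hJ hi)) hsr hSr.le hc
        have h6 : S.card.choose r ≤ c ^ s *
            ((powersetCard r S).filter fun V' => T i ⊆ V').card :=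
          h5.trans (Nat.mul_le_mul_right _ (Nat.pow_le_pow_right hc1 (hT2 i (hJ hi))))
        rw [div_le_iff₀ hcs0, mul_comm]
        exact_mod_cast h6
      have h5 := Finset.card_nsmul_le_sum J _ _ h4
      rw [nsmul_eq_mul] at h5
      have h6 : (J.card : ℝ) * ((S.card.choose r : ℝ) / (c : ℝ) ^ s) =
          (S.card.choose r : ℝ) * (1 / (c : ℝ) ^ s * (J.card : ℝ)) := by ring
      linarith
    rw [mem_powersetCard] at hV'
    obtain ⟨B, hB1, hB2⟩ := hex V' hV'.1 hV'.2.le
    refine ⟨B, hB1, J.filter fun i => H i B, fun i => Finset.mem_filter, ?_⟩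
    refine hgood.trans ?_
    have h7 : (J.filter fun i => T i ⊆ V').card ≤ (J.filter fun i => H i B).card := by
      apply Finset.card_le_card
      intro i hi
      rw [Finset.mem_filter] at hi ⊢
      exact ⟨hi.1, hB2 i (hJ hi.1) (hup i _ _ hi.2 (hT3 i (hJ hi.1)))⟩
    exact_mod_cast h7

end EWC
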