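import Pool.Agent.EWC.Tree

/-!
# Project EWC (MP_27e0e0_lc): the objects of the problem

Propositional formulas of the classes `Γ_{t,d}` and `Δ_{t,d}`, weighted satisfiability,
parameterized problems, ept-reductions and the class `EW[t]`.
-/

set_option autoImplicit false

namespace EWC

/-- Names of propositional variables are words. -/
abbrev Name : Type := List Bool

/-- Literals: `(true, x)` is the variable `x` and `(false, x)` is its negation. -/
abbrev Lit : Type := Bool × Name

/-- Formulas of depth `t`: for `t = 0` a list of literals, for `t + 1` a list of formulas of depth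
`t`.  Read as a member of `Γ` the outermost list is a conjunction, read as a member of `Δ` it is a
disjunction; conjunctions and disjunctions alternate. -/
@[reducible] def Fm : ℕ → Type
  | 0 => List Lit
  | t + 1 => List (Fm t)

/-- Truth of a literal if the variables in `S` are true and all others are false. -/
def holds (S : Finset Name) (l : Lit) : Prop := l.2 ∈ S ↔ l.1 = true

/-- Truth of a formula of depth `t`; the outermost list is a conjunction if `g = true` (class
`Γ_t`) and a disjunction if `g = false` (class `Δ_t`). -/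
def ev : (t : ℕ) → (g : Bool) → Fm t → Finset Name → Prop
  | 0, true, φ, S => ∀ l ∈ φ, holds S l
  | 0, false, φ, S => ∃ l ∈ φ, holds S l
  | t + 1, true, φ, S => ∀ ψ ∈ φ, ev t false ψ S
  | t + 1, false, φ, S => ∃ ψ ∈ φ, ev t true ψ S

/-- The innermost lists have at most `d` members. -/
def wid (d : ℕ) : (t : ℕ) → Fm t → Prop
  | 0, φ => φ.length ≤ d
  | t + 1, φ => ∀ ψ ∈ φ, wid d t ψ

/-- All literals of a formula. -/
def lits : (t : ℕ) → Fm t → List Lit
  | 0, φ => φ
  | t + 1, φ => φ.flatMap (lits t)

/-- The variables of a formula. -/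
def vars (t : ℕ) (φ : Fm t) : Finset Name := ((lits t φ).map Prod.snd).toFinset

/-- The class `Γ_{t,d}` (`sg = none`), its subclass `Γ⁺_{t,d}` of formulas without negated
variables (`sg = some true`) and its subclass `Γ⁻_{t,d}` of formulas all of whose literals are
negated variables (`sg = some false`). -/
def Gam (sg : Option Bool) (t d : ℕ) (φ : Fm t) : Prop :=
  wid d t φ ∧ ∀ b, sg = some b → ∀ l ∈ lits t φ, l.1 = b

/-- Weighted satisfiability: the formula, read as a member of `Γ_t`, has a satisfying assignment
which makes exactly `k` of its variables true. -/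
def WSat (t : ℕ) (φ : Fm t) (k : ℕ) : Prop :=
  ∃ S : Finset Name, S ⊆ vars t φ ∧ S.card = k ∧ ev t true φ S

instance datFm : (t : ℕ) → Dat (Fm t)
  | 0 => inferInstanceAs (Dat (List Lit))
  | t + 1 =>
    haveI := datFm t
    inferInstanceAs (Dat (List (Fm t)))

/-- A parameterized problem: instances, their codes over `{true, false}`, the parameter, and the
yes-instances. -/
structure PProb where
  X : Type
  enc : X → List Bool
  enc_inj : Function.Injective enc
  par : X → ℕ
  yes : X → Prop

/-- The length of the code of an instance. -/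
def PProb.len (P : PProb) (x : P.X) : ℕ := (P.enc x).length

/-- The problem `p-WSAT(Γ)` for `Γ = Γ_{t,d}`, `Γ⁺_{t,d}` or `Γ⁻_{t,d}`: instances are the pairs of
a formula in `Γ` and a number `k` (in unary), the parameter is `k`. -/
def pWSAT (sg : Option Bool) (t d : ℕ) : PProb where
  X := {φ : Fm t // Gam sg t d φ} × ℕ
  enc x := code (x.1.1, x.2)
  enc_inj := by
    rintro ⟨⟨φ, h⟩, k⟩ ⟨⟨φ', h'⟩, k'⟩ he
    have h1 := code_inj he
    simp only [Prod.mk.injEq] at h1
    obtain ⟨rfl, rfl⟩ := h1
    rfl
  par x := x.2
  yes x := WSat t x.1.1 x.2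

/-- The map `R`, from objects coded by `ea` to objects coded by `eb`, is computed by a
deterministic multi-stack Turing machine over finite alphabets, and the computation for `x` takes
at most `T x` steps. -/
def CompIn {A B : Type} (ea : A → List Bool) (eb : B → List Bool) (R : A → B) (T : A → ℕ) :
    Prop :=
  ∃ (M : Turing.FinTM2) (i : M.Γ M.k₀ ≃ Bool) (o : M.Γ M.k₁ ≃ Bool),
    (∀ s : M.K, Finite (M.Γ s)) ∧
    ∀ x, Nonempty (Turing.TM2OutputsInTime M ((ea x).map i.symm)
      (some ((eb (R x)).map o.symm)) (T x))

/-- `R` is a reduction from `P` to `Q` computable in time `2^{O(κ(x))} |x|^{O(1)}`. -/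
def EptComp (P Q : PProb) (R : P.X → Q.X) : Prop :=
  (∀ x, P.yes x ↔ Q.yes (R x)) ∧
    ∃ C : ℕ, CompIn P.enc Q.enc R fun x => 2 ^ (C * P.par x) * (P.len x + 2) ^ C

/-- ept-reducibility: the reduction is computable in time `2^{O(κ(x))} |x|^{O(1)}` and the
parameter of the image is `O(κ(x) + log |x|)`. -/
def EptRed (P Q : PProb) : Prop :=
  ∃ R : P.X → Q.X, EptComp P Q R ∧
    ∃ C : ℕ, ∀ x, Q.par (R x) ≤ C * (P.par x + Nat.log 2 (P.len x))

/-- The class `EW[t]`, `t ≥ 2`. -/
def EW (t : ℕ) (P : PProb) : Prop := EptRed P (pWSAT none t 1)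

/-- The restriction of a parameterized problem to the instances with a property. -/
def PProb.restrict (P : PProb) (s : P.X → Prop) : PProb where
  X := {x : P.X // s x}
  enc x := P.enc x.1
  enc_inj := P.enc_inj.comp Subtype.val_injective
  par x := P.par x.1
  yes x := P.yes x.1

end EWC
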