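import Pool.Agent.EWC.Rcov

/-!
# Project EWC, Rcor: correctness of the reduction

PROOF of `red_iff`.  Write `G = leaves (s + 2) φ`, `W = recs N AA`.
(→) Let `S ⊆ vars φ`, `S.card = k`, `ev φ S`.  Take `L` from `hcov`.
`S' = S.image yv ∪ univ.image (fun b : Fin N => wv b (L b))`.  `yv` is injective, `wv` is injective
in the pair (`code_inj`), the two parts are disjoint (first symbol), so `S'.card = k + N`.
`S' ⊆ vars (s + 2) (red ...)`: `yv u` occurs in the clause `[(true, yv u), (false, yv u)]` of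
`cls`, `wv b (L b)` in the first group of clauses; the literals of `red` contain those of the
clauses (`lits_up`).  Truth: the members of `tf ...` are true by `ev_tf` with `pol_eq` (the
formula `tf sg W (s + 1) φ : Fm (s + 2)` is a list; `ev (s + 2) true` of a concatenation is the
conjunction), where for `γ ∈ G`: if `w ∈ W` hits `γ` and `wv w.1 w.2 ∈ S'` then `w.2 = L b`, so
`(L b).toFinset ⊆ S` and `Hf γ S` by monotonicity; conversely `hcov`.  The clauses (`ev_clause`):
first group: `wv b (L b)`.  Second group: `wv b A ∈ S'` implies `A = L b`.  Third group: `A = L b ⊆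
S`.  Fourth group: if `yv u ∈ S'` for all `u ∈ T` then `T.toFinset ⊆ S`, `Hf γ S` (`hs_hits`), so
some `L b` hits `γ`, and `(b, L b) ∈ W`.  Last group: trivial.
(←) Let `S' ⊆ vars (red ...)`, `S'.card = k + N`, `ev (red ...) S'`.  All variables of `red` are
`yv u` with `u ∈ vars φ` or `wv b A` with `b < N`, `A ∈ AA` (`mem_lits_tf`, `lits_up`, `hAA`,
`hs_vars` and `mem_names_of_leaf`).  By the first two groups of clauses for every `b < N` there is
exactly one `A ∈ AA` with `wv b A ∈ S'`, call it `R b`.  So `S' = (S.image yv) ∪ univ.image (fun b :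
Fin N => wv b (R b))` for `S = (vars φ).filter (fun u => yv u ∈ S')`, hence `S.card = k`.
`ev φ S` by `ev_tf`: for `γ ∈ G`: if `w ∈ W` hits `γ` and `wv w.1 w.2 ∈ S'` then by the third group
`yv u ∈ S'` for all `u ∈ w.2`, i.e. `w.2.toFinset ⊆ S` (`hAA`), so `Hf γ S`.  If `Hf γ S` take
`T ∈ hs k γ`, `T.toFinset ⊆ S` (`hs_complete`); by the fourth group some record which hits `γ` is
true.
-/

set_option autoImplicit false

namespace EWC

theorem yv_inj : Function.Injective yv := by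
  intro a b h
  simpa [yv] using h

theorem wv_inj {b b' : ℕ} {A A' : List Name} (h : wv b A = wv b' A') : b = b' ∧ A = A' := by
  unfold wv at h
  have h1 := code_inj (List.cons.inj h).2
  exact ⟨congrArg Prod.fst h1, congrArg Prod.snd h1⟩

theorem yv_ne_wv (u : Name) (b : ℕ) (A : List Name) : yv u ≠ wv b A := by
  unfold yv wv
  intro h
  exact Bool.noConfusion (List.cons.inj h).1

theorem mem_names (t : ℕ) (φ : Fm t) (u : Name) : u ∈ names t φ ↔ u ∈ vars t φ := by
  unfold names vars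
  rw [List.mem_toFinset]

theorem ev_red (sg : Bool) (s : ℕ) (φ : Fm (s + 3)) (k N : ℕ) (AA : List (List Name))
    (S' : Finset Name) : ev (s + 2) true (red sg s φ k N AA) S' ↔
      ev (s + 2) true (tf sg (recs N AA) (s + 1) φ) S' ∧
      ∀ c ∈ cls k N AA (leaves (s + 2) φ) (names (s + 3) φ), ∃ l ∈ c, holds S' l := by
  have h1 : ∀ (P Q : Fm (s + 2)), ev (s + 2) true (P ++ Q : List (Fm (s + 1))) S' ↔
      ev (s + 2) true P S' ∧ ev (s + 2) true Q S' := by
    intro P Q
    constructor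
    · intro h
      exact ⟨fun ψ hψ => h ψ (List.mem_append.2 (Or.inl hψ)),
        fun ψ hψ => h ψ (List.mem_append.2 (Or.inr hψ))⟩
    · rintro ⟨h1, h2⟩ ψ hψ
      rcases List.mem_append.1 hψ with h | h
      · exact h1 ψ h
      · exact h2 ψ h
  unfold red
  rw [h1]
  refine and_congr Iff.rfl ?_
  constructor
  · intro h c hc
    have h2 := h _ (List.mem_map.2 ⟨c, hc, rfl⟩)
    exact (ev_clause S' s c).1 h2
  · intro h ψ hψ
    obtain ⟨c, hc, rfl⟩ := List.mem_map.1 hψ
    exact (ev_clause S' s c).2 (h c hc)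

theorem lits_cl (s : ℕ) (c : List Lit) : lits (s + 1) (c.map (up s) : List (Fm s)) = c := by
  show (c.map (up s)).flatMap (lits s) = c
  induction c with
  | nil => rfl
  | cons a c ih =>
    rw [List.map_cons, List.flatMap_cons, ih, lits_up]
    rfl

theorem mem_lits_red (sg : Bool) (s : ℕ) (φ : Fm (s + 3)) (k N : ℕ) (AA : List (List Name))
    (l : Lit) : l ∈ lits (s + 2) (red sg s φ k N AA) ↔
      l ∈ lits (s + 2) (tf sg (recs N AA) (s + 1) φ) ∨
      ∃ c ∈ cls k N AA (leaves (s + 2) φ) (names (s + 3) φ), l ∈ c := by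
  have h0 : lits (s + 2) (red sg s φ k N AA) =
      (tf sg (recs N AA) (s + 1) φ : List (Fm (s + 1))).flatMap (lits (s + 1)) ++
      ((cls k N AA (leaves (s + 2) φ) (names (s + 3) φ)).map
        fun c => (c.map (up s) : List (Fm s))).flatMap (lits (s + 1)) := by
    show (_ ++ _ : List (Fm (s + 1))).flatMap (lits (s + 1)) = _
    exact List.flatMap_append
  rw [h0, List.mem_append]
  refine or_congr Iff.rfl ?_
  rw [List.mem_flatMap]
  constructor
  · rintro ⟨ψ, hψ, hl⟩
    obtain ⟨c, hc, rfl⟩ := List.mem_map.1 hψ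
    rw [lits_cl] at hl
    exact ⟨c, hc, hl⟩
  · rintro ⟨c, hc, hl⟩
    exact ⟨_, List.mem_map.2 ⟨c, hc, rfl⟩, by rw [lits_cl]; exact hl⟩

theorem cls_iff (k N : ℕ) (AA : List (List Name)) (G : List (Fm 1)) (V : List Name)
    (S' : Finset Name) : (∀ c ∈ cls k N AA G V, ∃ l ∈ c, holds S' l) ↔
      (∀ b, b < N → ∃ A ∈ AA, wv b A ∈ S') ∧
      (∀ b, b < N → ∀ A ∈ AA, ∀ A' ∈ AA, A ≠ A' → wv b A ∉ S' ∨ wv b A' ∉ S') ∧
      (∀ b, b < N → ∀ A ∈ AA, ∀ u ∈ A, wv b A ∉ S' ∨ yv u ∈ S') ∧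
      (∀ γ ∈ G, ∀ T ∈ hs k γ, (∃ u ∈ T, yv u ∉ S') ∨
        ∃ w ∈ recs N AA, hits w.2 γ = true ∧ wv w.1 w.2 ∈ S') := by
  unfold cls
  constructor
  · intro h
    refine ⟨?_, ?_, ?_, ?_⟩
    · intro b hb
      obtain ⟨l, hl, hh⟩ := h _ (List.mem_append.2 (Or.inl
        (List.mem_map.2 ⟨b, (mem_rng b N).2 hb, rfl⟩)))
      obtain ⟨A, hA, rfl⟩ := List.mem_map.1 hl
      exact ⟨A, hA, (holds_true _ _).1 hh⟩
    · intro b hb A hA A' hA' hne
      obtain ⟨l, hl, hh⟩ := h [(false, wv b A), (false, wv b A')]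
        (List.mem_append.2 (Or.inr (List.mem_append.2 (Or.inl (List.mem_flatMap.2
          ⟨b, (mem_rng b N).2 hb, List.mem_flatMap.2 ⟨A, hA, List.mem_map.2
            ⟨A', List.mem_filter.2 ⟨hA', by simpa using hne⟩, rfl⟩⟩⟩)))))
      simp only [List.mem_cons, List.not_mem_nil, or_false] at hl
      rcases hl with rfl | rfl
      · exact Or.inl ((holds_false _ _).1 hh)
      · exact Or.inr ((holds_false _ _).1 hh)
    · intro b hb A hA u hu
      obtain ⟨l, hl, hh⟩ := h [(false, wv b A), (true, yv u)]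
        (List.mem_append.2 (Or.inr (List.mem_append.2 (Or.inr (List.mem_append.2 (Or.inl
          (List.mem_flatMap.2 ⟨b, (mem_rng b N).2 hb, List.mem_flatMap.2 ⟨A, hA, List.mem_map.2
            ⟨u, hu, rfl⟩⟩⟩)))))))
      simp only [List.mem_cons, List.not_mem_nil, or_false] at hl
      rcases hl with rfl | rfl
      · exact Or.inl ((holds_false _ _).1 hh)
      · exact Or.inr ((holds_true _ _).1 hh)
    · intro γ hγ T hT
      obtain ⟨l, hl, hh⟩ := h _
        (List.mem_append.2 (Or.inr (List.mem_append.2 (Or.inr (List.mem_append.2 (Or.inr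
          (List.mem_append.2 (Or.inl (List.mem_flatMap.2 ⟨γ, hγ, List.mem_map.2
            ⟨T, hT, rfl⟩⟩)))))))))
      rcases List.mem_append.1 hl with hl | hl
      · obtain ⟨u, hu, rfl⟩ := List.mem_map.1 hl
        exact Or.inl ⟨u, hu, (holds_false _ _).1 hh⟩
      · obtain ⟨w, hw, rfl⟩ := List.mem_map.1 hl
        obtain ⟨hw1, hw2⟩ := List.mem_filter.1 hw
        exact Or.inr ⟨w, hw1, hw2, (holds_true _ _).1 hh⟩
  · rintro ⟨h1, h2, h3, h4⟩ c hc
    rcases List.mem_append.1 hc with hc | hc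
    · obtain ⟨b, hb, rfl⟩ := List.mem_map.1 hc
      obtain ⟨A, hA, hh⟩ := h1 b ((mem_rng b N).1 hb)
      exact ⟨_, List.mem_map.2 ⟨A, hA, rfl⟩, (holds_true _ _).2 hh⟩
    rcases List.mem_append.1 hc with hc | hc
    · obtain ⟨b, hb, hc⟩ := List.mem_flatMap.1 hc
      obtain ⟨A, hA, hc⟩ := List.mem_flatMap.1 hc
      obtain ⟨A', hA', rfl⟩ := List.mem_map.1 hc
      obtain ⟨hA1, hA2⟩ := List.mem_filter.1 hA'
      have hne : A ≠ A' := by simpa using hA2
      rcases h2 b ((mem_rng b N).1 hb) A hA A' hA1 hne with hh | hh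
      · exact ⟨(false, wv b A), by simp, (holds_false _ _).2 hh⟩
      · exact ⟨(false, wv b A'), by simp, (holds_false _ _).2 hh⟩
    rcases List.mem_append.1 hc with hc | hc
    · obtain ⟨b, hb, hc⟩ := List.mem_flatMap.1 hc
      obtain ⟨A, hA, hc⟩ := List.mem_flatMap.1 hc
      obtain ⟨u, hu, rfl⟩ := List.mem_map.1 hc
      rcases h3 b ((mem_rng b N).1 hb) A hA u hu with hh | hh
      · exact ⟨(false, wv b A), by simp, (holds_false _ _).2 hh⟩
      · exact ⟨(true, yv u), by simp, (holds_true _ _).2 hh⟩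
    rcases List.mem_append.1 hc with hc | hc
    · obtain ⟨γ, hγ, hc⟩ := List.mem_flatMap.1 hc
      obtain ⟨T, hT, rfl⟩ := List.mem_map.1 hc
      rcases h4 γ hγ T hT with ⟨u, hu, hh⟩ | ⟨w, hw, hw2, hh⟩
      · exact ⟨_, List.mem_append.2 (Or.inl (List.mem_map.2 ⟨u, hu, rfl⟩)),
          (holds_false _ _).2 hh⟩
      · exact ⟨_, List.mem_append.2 (Or.inr (List.mem_map.2
          ⟨w, List.mem_filter.2 ⟨hw, hw2⟩, rfl⟩)), (holds_true _ _).2 hh⟩
    · obtain ⟨u, hu, rfl⟩ := List.mem_map.1 hc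
      by_cases hy : yv u ∈ S'
      · exact ⟨(true, yv u), by simp, (holds_true _ _).2 hy⟩
      · exact ⟨(false, yv u), by simp, (holds_false _ _).2 hy⟩

/-- the variables of the clauses -/
theorem cls_vars (k N : ℕ) (AA : List (List Name)) (G : List (Fm 1)) (V : List Name)
    (hAA : ∀ A ∈ AA, ∀ u ∈ A, u ∈ V) (hG : ∀ γ ∈ G, ∀ u, Occ γ u → u ∈ V)
    (c : List Lit) (hc : c ∈ cls k N AA G V) (l : Lit) (hl : l ∈ c) :
    (∃ u ∈ V, l.2 = yv u) ∨ ∃ b A, b < N ∧ A ∈ AA ∧ l.2 = wv b A := by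
  unfold cls at hc
  rcases List.mem_append.1 hc with hc | hc
  · obtain ⟨b, hb, rfl⟩ := List.mem_map.1 hc
    obtain ⟨A, hA, rfl⟩ := List.mem_map.1 hl
    exact Or.inr ⟨b, A, (mem_rng b N).1 hb, hA, rfl⟩
  rcases List.mem_append.1 hc with hc | hc
  · obtain ⟨b, hb, hc⟩ := List.mem_flatMap.1 hc
    obtain ⟨A, hA, hc⟩ := List.mem_flatMap.1 hc
    obtain ⟨A', hA', rfl⟩ := List.mem_map.1 hc
    obtain ⟨hA1, hA2⟩ := List.mem_filter.1 hA'
    simp only [List.mem_cons, List.not_mem_nil, or_false] at hl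
    rcases hl with rfl | rfl
    · exact Or.inr ⟨b, A, (mem_rng b N).1 hb, hA, rfl⟩
    · exact Or.inr ⟨b, A', (mem_rng b N).1 hb, hA1, rfl⟩
  rcases List.mem_append.1 hc with hc | hc
  · obtain ⟨b, hb, hc⟩ := List.mem_flatMap.1 hc
    obtain ⟨A, hA, hc⟩ := List.mem_flatMap.1 hc
    obtain ⟨u, hu, rfl⟩ := List.mem_map.1 hc
    simp only [List.mem_cons, List.not_mem_nil, or_false] at hl
    rcases hl with rfl | rfl
    · exact Or.inr ⟨b, A, (mem_rng b N).1 hb, hA, rfl⟩
    · exact Or.inl ⟨u, hAA A hA u hu, rfl⟩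
  rcases List.mem_append.1 hc with hc | hc
  · obtain ⟨γ, hγ, hc⟩ := List.mem_flatMap.1 hc
    obtain ⟨T, hT, rfl⟩ := List.mem_map.1 hc
    rcases List.mem_append.1 hl with hl | hl
    · obtain ⟨u, hu, rfl⟩ := List.mem_map.1 hl
      exact Or.inl ⟨u, hG γ hγ u (hs_vars hT u hu), rfl⟩
    · obtain ⟨w, hw, rfl⟩ := List.mem_map.1 hl
      obtain ⟨hw1, hw2⟩ := List.mem_filter.1 hw
      obtain ⟨hb, hA⟩ := (mem_recs N AA w).1 hw1
      exact Or.inr ⟨w.1, w.2, hb, hA, rfl⟩
  · obtain ⟨u, hu, rfl⟩ := List.mem_map.1 hc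
    simp only [List.mem_cons, List.not_mem_nil, or_false] at hl
    rcases hl with rfl | rfl
    · exact Or.inl ⟨u, hu, rfl⟩
    · exact Or.inl ⟨u, hu, rfl⟩

theorem card_new (S : Finset Name) (N : ℕ) (L : Fin N → List Name) :
    (S.image yv ∪ Finset.univ.image (fun b : Fin N => wv b (L b))).card = S.card + N := by
  have h1 : Disjoint (S.image yv) (Finset.univ.image (fun b : Fin N => wv b (L b))) := by
    rw [Finset.disjoint_left]
    intro x hx hx'
    obtain ⟨u, _, rfl⟩ := Finset.mem_image.1 hx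
    obtain ⟨b, _, hb⟩ := Finset.mem_image.1 hx'
    exact yv_ne_wv _ _ _ hb.symm
  have h2 : Function.Injective (fun b : Fin N => wv b (L b)) := by
    intro b b' h
    exact Fin.ext (wv_inj h).1
  rw [Finset.card_union_of_disjoint h1, Finset.card_image_of_injective _ yv_inj,
    Finset.card_image_of_injective _ h2, Finset.card_univ, Fintype.card_fin]

theorem red_iff (s : ℕ) (φ : Fm (s + 3)) (k N : ℕ) (AA : List (List Name))
    (hφ : ∀ l ∈ lits (s + 3) φ, l.1 = decide (Even (s + 2)))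
    (hAA : ∀ A ∈ AA, ∀ u ∈ A, u ∈ vars (s + 3) φ)
    (hcov : ∀ S : Finset Name, S ⊆ vars (s + 3) φ → S.card = k →
      ∃ L : Fin N → List Name, (∀ b, L b ∈ AA ∧ (L b).toFinset ⊆ S) ∧
        ∀ γ ∈ leaves (s + 2) φ, Hf γ S → ∃ b, hits (L b) γ = true) :
    WSat (s + 3) φ k ↔ WSat (s + 2) (red (decide (Even (s + 2))) s φ k N AA) (k + N) := by
  set sg := decide (Even (s + 2)) with hsg
  have hocc : ∀ γ ∈ leaves (s + 2) φ, ∀ u, Occ γ u → u ∈ names (s + 3) φ := by
    rintro γ hγ u ⟨D, hD, l, hl, rfl⟩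
    exact List.mem_map.2 ⟨l, mem_names_of_leaf (s + 2) φ γ hγ D hD l hl, rfl⟩
  constructor
  · rintro ⟨S, hS, hk, hev⟩
    obtain ⟨L, hL, hLc⟩ := hcov S hS hk
    set S' := S.image yv ∪ Finset.univ.image (fun b : Fin N => wv b (L b)) with hS'
    have hy : ∀ u, yv u ∈ S' ↔ u ∈ S := by
      intro u
      rw [hS', Finset.mem_union]
      constructor
      · rintro (h | h)
        · obtain ⟨v, hv, hvu⟩ := Finset.mem_image.1 h
          exact yv_inj hvu ▸ hv
        · obtain ⟨b, _, hb⟩ := Finset.mem_image.1 h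
          exact absurd hb.symm (yv_ne_wv _ _ _)
      · exact fun h => Or.inl (Finset.mem_image_of_mem _ h)
    have hw : ∀ b A, wv b A ∈ S' → ∃ b' : Fin N, (b' : ℕ) = b ∧ A = L b' := by
      intro b A h
      rw [hS', Finset.mem_union] at h
      rcases h with h | h
      · obtain ⟨u, _, hu⟩ := Finset.mem_image.1 h
        exact absurd hu (yv_ne_wv _ _ _)
      · obtain ⟨b', _, hb'⟩ := Finset.mem_image.1 h
        obtain ⟨h1, h2⟩ := wv_inj hb'
        exact ⟨b', h1, h2.symm⟩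
    have hw' : ∀ b : Fin N, wv b (L b) ∈ S' := fun b =>
      Finset.mem_union_right _ (Finset.mem_image_of_mem _ (Finset.mem_univ b))
    have hleaf : ∀ γ ∈ leaves (s + 1 + 1) φ,
        (∃ w ∈ recs N AA, hits w.2 γ = true ∧ wv w.1 w.2 ∈ S') ↔ Hf γ S := by
      intro γ hγ
      constructor
      · rintro ⟨w, hw1, hw2, hw3⟩
        obtain ⟨b, _, hb2⟩ := hw _ _ hw3
        rw [hb2] at hw2
        exact ((hits_iff _ _).1 hw2).mono (hL b).2
      · intro h
        obtain ⟨b, hb⟩ := hLc γ hγ h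
        exact ⟨((b : ℕ), L b), (mem_recs _ _ _).2 ⟨b.2, (hL b).1⟩, hb, hw' b⟩
    refine ⟨S', ?_, ?_, ?_⟩
    · intro x hx
      have hx0 := hx
      rw [hS', Finset.mem_union] at hx
      rw [← mem_names]
      rcases hx with hx | hx
      · obtain ⟨u, hu, rfl⟩ := Finset.mem_image.1 hx
        refine List.mem_map.2 ⟨(true, yv u), (mem_lits_red _ _ _ _ _ _ _).2 (Or.inr
          ⟨[(true, yv u), (false, yv u)], ?_, by simp⟩), rfl⟩
        unfold cls
        exact List.mem_append.2 (Or.inr (List.mem_append.2 (Or.inr (List.mem_append.2 (Or.inr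
          (List.mem_append.2 (Or.inr (List.mem_map.2
            ⟨u, (mem_names _ _ _).2 (hS hu), rfl⟩))))))))
      · obtain ⟨b, _, rfl⟩ := Finset.mem_image.1 hx
        refine List.mem_map.2 ⟨(true, wv b (L b)), (mem_lits_red _ _ _ _ _ _ _).2 (Or.inr
          ⟨AA.map fun A => (true, wv b A), ?_, List.mem_map.2 ⟨_, (hL b).1, rfl⟩⟩), rfl⟩
        unfold cls
        exact List.mem_append.2 (Or.inl (List.mem_map.2 ⟨b, (mem_rng _ _).2 b.2, rfl⟩))
    · rw [hS', card_new, hk]
    · rw [ev_red, cls_iff]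
      refine ⟨?_, ?_, ?_, ?_, ?_⟩
      · have h1 := ev_tf sg (recs N AA) S S' (s + 1) φ hφ hleaf
        rw [pol_eq s] at h1
        exact h1.2 hev
      · intro b hb
        exact ⟨L ⟨b, hb⟩, (hL ⟨b, hb⟩).1, hw' ⟨b, hb⟩⟩
      · intro b hb A hA A' hA' hne
        by_contra hcon
        push Not at hcon
        obtain ⟨b1, h1, h2⟩ := hw _ _ hcon.1
        obtain ⟨b2, h3, h4⟩ := hw _ _ hcon.2
        have : b1 = b2 := Fin.ext (h1.trans h3.symm)
        exact hne (by rw [h2, h4, this])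
      · intro b hb A hA u hu
        by_cases h : wv b A ∈ S'
        · right
          obtain ⟨b1, h1, h2⟩ := hw _ _ h
          rw [hy]
          exact (hL b1).2 (List.mem_toFinset.2 (h2 ▸ hu))
        · exact Or.inl h
      · intro γ hγ T hT
        by_cases h : ∃ u ∈ T, yv u ∉ S'
        · exact Or.inl h
        · push Not at h
          right
          have hTS : T.toFinset ⊆ S := by
            intro u hu
            exact (hy u).1 (h u (List.mem_toFinset.1 hu))
          exact (hleaf γ hγ).2 (((hits_iff _ _).1 (hs_hits hT)).mono hTS)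
  · rintro ⟨S', hS', hk, hev⟩
    rw [ev_red, cls_iff] at hev
    obtain ⟨htf, h1, h2, h3, h4⟩ := hev
    choose R hR1 hR2 using fun b : Fin N => h1 b b.2
    set S := (vars (s + 3) φ).filter (fun u => yv u ∈ S') with hSd
    have hvars : ∀ x ∈ S', (∃ u ∈ names (s + 3) φ, x = yv u) ∨
        ∃ b A, b < N ∧ A ∈ AA ∧ x = wv b A := by
      intro x hx
      have hx1 := hS' hx
      rw [← mem_names] at hx1
      obtain ⟨l, hl, rfl⟩ := List.mem_map.1 hx1
      rcases (mem_lits_red _ _ _ _ _ _ _).1 hl with hl | ⟨c, hc, hlc⟩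
      · obtain ⟨w, hw, rfl⟩ := mem_lits_tf sg (recs N AA) (s + 1) φ l hl
        obtain ⟨hb, hA⟩ := (mem_recs N AA w).1 hw
        exact Or.inr ⟨w.1, w.2, hb, hA, rfl⟩
      · exact cls_vars k N AA _ _ (fun A hA u hu => (mem_names _ _ _).2 (hAA A hA u hu)) hocc
          c hc l hlc
    have hSe : S' = S.image yv ∪ Finset.univ.image (fun b : Fin N => wv b (R b)) := by
      ext x
      rw [Finset.mem_union]
      constructor
      · intro hx
        rcases hvars x hx with ⟨u, hu, rfl⟩ | ⟨b, A, hb, hA, rfl⟩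
        · left
          exact Finset.mem_image_of_mem _ (Finset.mem_filter.2 ⟨(mem_names _ _ _).1 hu, hx⟩)
        · right
          have : A = R ⟨b, hb⟩ := by
            by_contra hne
            rcases h2 b hb A hA (R ⟨b, hb⟩) (hR1 ⟨b, hb⟩) hne with h | h
            · exact h hx
            · exact h (hR2 ⟨b, hb⟩)
          rw [this]
          exact Finset.mem_image.2 ⟨⟨b, hb⟩, Finset.mem_univ _, rfl⟩
      · rintro (hx | hx)
        · obtain ⟨u, hu, rfl⟩ := Finset.mem_image.1 hx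
          exact (Finset.mem_filter.1 hu).2
        · obtain ⟨b, _, rfl⟩ := Finset.mem_image.1 hx
          exact hR2 b
    have hSk : S.card = k := by
      have := card_new S N R
      rw [← hSe, hk] at this
      omega
    refine ⟨S, Finset.filter_subset _ _, hSk, ?_⟩
    have hleaf : ∀ γ ∈ leaves (s + 1 + 1) φ,
        (∃ w ∈ recs N AA, hits w.2 γ = true ∧ wv w.1 w.2 ∈ S') ↔ Hf γ S := by
      intro γ hγ
      constructor
      · rintro ⟨w, hw1, hw2, hw3⟩
        refine ((hits_iff _ _).1 hw2).mono ?_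
        intro u hu
        have hu' := List.mem_toFinset.1 hu
        obtain ⟨hb, hA⟩ := (mem_recs N AA w).1 hw1
        refine Finset.mem_filter.2 ⟨hAA _ hA u hu', ?_⟩
        rcases h3 w.1 hb w.2 hA u hu' with h | h
        · exact absurd hw3 h
        · exact h
      · intro h
        obtain ⟨T, hT, hTS⟩ := hs_complete k γ S hSk.le h
        rcases h4 γ hγ T hT with ⟨u, hu, hh⟩ | h
        · exact absurd (Finset.mem_filter.1 (hTS (List.mem_toFinset.2 hu))).2 hh
        · exact h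
    have h5 := ev_tf sg (recs N AA) S S' (s + 1) φ hφ hleaf
    rw [pol_eq s] at h5
    exact h5.1 htf

/-- The reduction is correct. -/
theorem redF_iff (s m : ℕ) (hm : 1 ≤ m) (x : Fm (s + 3) × ℕ)
    (hx : ∀ l ∈ lits (s + 3) x.1, l.1 = decide (Even (s + 2))) :
    WSat (s + 3) x.1 x.2 ↔
      WSat (s + 2) (redF (decide (Even (s + 2))) s m x).1 (redF (decide (Even (s + 2))) s m x).2 := by
  exact red_iff s x.1 x.2 _ _ hx (fun A hA u hu => allA_vars s m _ _ x.1 hA u hu)
    (fun S _ hS => cover_all s m hm x.1 x.2 S hS)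

/-- The new formula is in `Γ_{s+2,1}`. -/
theorem redF_gam (sg : Bool) (s m : ℕ) (x : Fm (s + 3) × ℕ) :
    Gam none (s + 2) 1 (redF sg s m x).1 := by
  refine ⟨?_, fun b hb => by cases hb⟩
  show ∀ ψ ∈ (redF sg s m x).1, wid 1 (s + 1) ψ
  intro ψ hψ
  rcases List.mem_append.1 hψ with h | h
  · exact wid_tf sg _ (s + 1) x.1 ψ h
  · obtain ⟨c, _, rfl⟩ := List.mem_map.1 h
    show ∀ χ ∈ c.map (up s), wid 1 s χ
    intro χ hχ
    obtain ⟨l, _, rfl⟩ := List.mem_map.1 hχ
    exact wid_up s l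

end EWC
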