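import Pool.Agent.EWC.PBa
import Pool.Agent.EWC.Defs

/-!
# Project EWC, TM: from programs to Turing machines

PROOF.  The machine is `Pool.Agent.Helper64.Stk.machine .M .M p` for the program `p` of
`hf : PB μ f`; all its alphabets are `Bool`.  The proof is that of
`Pool.Agent.Helper64.Stk.computable_of_runs` (in `Pool/Agent/Helper64/MEE/Cmd.lean`): `t` steps of
the program and one step for halting; `st l [] [] [] [] = only .M l`.  The time bound is
`(μ (r x) + 2) ^ C + 1 ≤ (μ (r x) + 2) ^ (C + 1)`.
-/

set_option autoImplicit false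

namespace EWC

open Pool.Agent.Helper64.Stk

private theorem st_only (l : List Bool) : st l [] [] [] [] = only Key.M l := by
  funext j
  cases j <;> rfl

open Turing in
theorem compIn_of_pb {α β : Type} [Dat α] [Dat β] {μ : α → ℕ} {f : α → β} (hf : PB μ f)
    {A B : Type} (ea : A → List Bool) (eb : B → List Bool) (R : A → B) (r : A → α)
    (hea : ∀ x, ea x = code (r x)) (heb : ∀ x, eb (R x) = code (f (r x))) :
    ∃ C : ℕ, CompIn ea eb R fun x => (μ (r x) + 2) ^ C := by
  obtain ⟨_, p, C, hp⟩ := hf
  refine ⟨C + 1, machine Key.M Key.M p, Equiv.refl _, Equiv.refl _,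
    fun _ => inferInstanceAs (Finite Bool), fun x => ?_⟩
  obtain ⟨t, ht, h1⟩ := hp (r x) [] []
  rw [List.append_nil, List.append_nil, st_only, st_only, ← hea, ← heb] at h1
  obtain ⟨o', h2⟩ := h1.reach (machine Key.M Key.M p).m some none (fun l => rfl) none
  have h3 : Reach (machine Key.M Key.M p).m 1 ⟨some none, o', only Key.M (eb (R x))⟩
      ⟨none, none, only Key.M (eb (R x))⟩ := Reach.one rfl rfl
  have h4 := h2.trans h3
  have e1 : initList (machine Key.M Key.M p) (List.map (Equiv.refl Bool).symm (ea x))
      = ⟨some (some p.entry), none, only Key.M (ea x)⟩ :=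
    (congrArg (initList (machine Key.M Key.M p))
      (by simp : List.map (Equiv.refl Bool).symm (ea x) = ea x)).trans
      (initList_machine Key.M Key.M p (ea x))
  have e2 : haltList (machine Key.M Key.M p) (List.map (Equiv.refl Bool).symm (eb (R x)))
      = ⟨none, none, only Key.M (eb (R x))⟩ :=
    (congrArg (haltList (machine Key.M Key.M p))
      (by simp : List.map (Equiv.refl Bool).symm (eb (R x)) = eb (R x))).trans
      (haltList_machine Key.M Key.M p (eb (R x)))
  refine ⟨{ steps := t + 1, evals_in_steps := ?_, steps_le_m := ?_ }⟩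
  · rw [Option.map_some]
    erw [e1, e2]
    exact h4
  · have h5 : 1 ≤ (μ (r x) + 2) ^ C := Nat.one_le_pow _ _ (by omega)
    have h6 : (μ (r x) + 2) ^ (C + 1) = (μ (r x) + 2) ^ C * (μ (r x) + 2) := pow_succ _ _
    show t + 1 ≤ (μ (r x) + 2) ^ (C + 1)
    rw [h6]
    nlinarith

end EWC
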