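import Pool.Agent.EWC.Cp4
import Pool.Agent.EWC.TM
import Pool.Agent.EWC.Ari
import Pool.Agent.EWC.Rcor

/-!
# Project EWC, Fin: the main theorem

PROOFS.
* `three_le_len`: the code of a pair has length at least `3` (`sz_pair`, `sz_pos`).
* `main`: `t = s + 2`.  Take `m`, `C` from `nrec_le`.  `R x = (⟨(redF sg s m (x.1.1, x.2)).1,
  redF_gam ..⟩, (redF sg s m (x.1.1, x.2)).2)` with `sg = decide (Even (s + 2))`.  Correctness:
  `redF_iff`, the hypothesis on the signs from `Gam (some sg)`.  Time: `compIn_of_pb` with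
  `pb_redF sg s m`, `r x = (x.1.1, x.2)` (the codes agree definitionally), the measure is
  `mu s (x.1.1, x.2) = sz * (mxw .. + 2) ^ k`, `mxw ≤ d` (`mxw_le_of_wid`), `time_le`
  (`CompIn` is monotone in the time bound: `Turing.TM2OutputsInTime` with a larger bound).
  Parameter: `(redF ..).2 = x.2 + nrec m x.2 (Nat.log 2 (sz (x.1.1, x.2)))`, `nrec_le`.
* `main_slice`: `main` with the `ε` of `slice_le`; restrict `R` to the subtype.
-/

set_option autoImplicit false

namespace EWC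

theorem three_le_len (sg : Option Bool) (t d : ℕ) (x : (pWSAT sg t d).X) :
    3 ≤ (pWSAT sg t d).len x := by
  have h : (pWSAT sg t d).len x = sz (x.1.1, x.2) := rfl
  rw [h, sz_pair]
  have h1 := sz_pos x.1.1
  have h2 := sz_pos x.2
  omega

theorem CompIn.mono {A B : Type} {ea : A → List Bool} {eb : B → List Bool} {R : A → B}
    {T T' : A → ℕ} (h : CompIn ea eb R T) (hT : ∀ x, T x ≤ T' x) : CompIn ea eb R T' := by
  obtain ⟨M, i, o, hf, h⟩ := h
  refine ⟨M, i, o, hf, fun x => ?_⟩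
  obtain ⟨e⟩ := h x
  exact ⟨{ toEvalsTo := e.toEvalsTo, steps_le_m := e.steps_le_m.trans (hT x) }⟩

theorem main (t d : ℕ) (ht : 2 ≤ t) (ε : ℝ) (hε : 0 < ε) :
    ∃ R : (pWSAT (some (decide (Even t))) (t + 1) d).X → (pWSAT none t 1).X,
      EptComp (pWSAT (some (decide (Even t))) (t + 1) d) (pWSAT none t 1) R ∧
      ∃ C : ℝ, ∀ x, ((pWSAT none t 1).par (R x) : ℝ) ≤
        ((pWSAT (some (decide (Even t))) (t + 1) d).par x : ℝ) + C * min
          ((2 : ℝ) ^ (ε * (pWSAT (some (decide (Even t))) (t + 1) d).par x))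
          (((pWSAT (some (decide (Even t))) (t + 1) d).len x : ℝ) ^ ε) := by
  obtain ⟨s, rfl⟩ := Nat.exists_eq_add_of_le' ht
  obtain ⟨m, hm, C, hC⟩ := nrec_le ε hε
  refine ⟨fun x => (⟨(redF (decide (Even (s + 2))) s m (x.1.1, x.2)).1,
    redF_gam (decide (Even (s + 2))) s m (x.1.1, x.2)⟩,
    (redF (decide (Even (s + 2))) s m (x.1.1, x.2)).2), ⟨fun x => ?_, ?_⟩, C, fun x => ?_⟩
  · exact redF_iff s m hm (x.1.1, x.2) fun l hl => x.1.2.2 _ rfl l hl
  · obtain ⟨C0, hC0⟩ := compIn_of_pb (pb_redF (decide (Even (s + 2))) s m)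
      (pWSAT (some (decide (Even (s + 2)))) (s + 2 + 1) d).enc (pWSAT none (s + 2) 1).enc
      (fun x => (⟨(redF (decide (Even (s + 2))) s m (x.1.1, x.2)).1,
        redF_gam (decide (Even (s + 2))) s m (x.1.1, x.2)⟩,
        (redF (decide (Even (s + 2))) s m (x.1.1, x.2)).2))
      (fun x : (pWSAT (some (decide (Even (s + 2)))) (s + 2 + 1) d).X => (x.1.1, x.2))
      (fun x => rfl) (fun x => rfl)
    obtain ⟨C', hC'⟩ := time_le d C0
    refine ⟨C', hC0.mono fun x => ?_⟩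
    exact hC' x.2 (mxw (s + 3) x.1.1) (sz (x.1.1, x.2)) (mxw_le_of_wid x.1.2.1)
  · have h1 := hC x.2 ((pWSAT (some (decide (Even (s + 2)))) (s + 2 + 1) d).len x)
      (three_le_len _ _ _ x)
    have h2 : ((x.2 + nrec m x.2
        (Nat.log 2 ((pWSAT (some (decide (Even (s + 2)))) (s + 2 + 1) d).len x)) : ℕ) : ℝ) =
        (x.2 : ℝ) + (nrec m x.2
        (Nat.log 2 ((pWSAT (some (decide (Even (s + 2)))) (s + 2 + 1) d).len x)) : ℝ) := by
      push_cast
      ring
    have h3 := add_le_add_right h1 (x.2 : ℝ)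
    calc _ = ((x.2 + nrec m x.2
        (Nat.log 2 ((pWSAT (some (decide (Even (s + 2)))) (s + 2 + 1) d).len x)) : ℕ) : ℝ) := rfl
      _ = _ := h2
      _ ≤ _ := h3

theorem main_slice (t d : ℕ) (ht : 2 ≤ t) (c : ℝ) (hc : 0 < c) :
    EW t ((pWSAT (some (decide (Even t))) (t + 1) d).restrict fun x =>
      ((pWSAT (some (decide (Even t))) (t + 1) d).par x : ℝ) ≤
        c * Real.log (Real.log ((pWSAT (some (decide (Even t))) (t + 1) d).len x)) ∨
      ((pWSAT (some (decide (Even t))) (t + 1) d).len x : ℝ) ≤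
        ((pWSAT (some (decide (Even t))) (t + 1) d).par x : ℝ) ^ c) := by
  obtain ⟨ε, hε, hs⟩ := slice_le c hc
  obtain ⟨R, ⟨hyes, C0, M, i, o, hf, hcomp⟩, C, hC⟩ := main t d ht ε hε
  obtain ⟨C', hC'⟩ := hs C
  refine ⟨fun x => R x.1, ⟨fun x => hyes x.1, C0, M, i, o, hf, fun x => hcomp x.1⟩, C',
    fun x => ?_⟩
  have h1 := hC x.1
  have h2 := hC' ((pWSAT (some (decide (Even t))) (t + 1) d).par x.1)
    ((pWSAT (some (decide (Even t))) (t + 1) d).len x.1) (three_le_len _ _ _ x.1) x.2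
  have h3 := h1.trans h2
  exact_mod_cast h3

end EWC
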