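import Pool.Agent.EWC.Rcov
import Pool.Agent.EWC.Cv4

/-!
# Project EWC, Rcov2: covers if the leaves are short

`wid1 w t φ`: the subformulas of depth one have at most `w` members.

PROOFS.
* `wit`: for each clause `D ∈ γ` choose the variable of a literal which is in `S`; the set `T` of
  these has at most `γ.length` elements, `T ⊆ S`, `Hf γ T`.
* `cover_uns2`: `exists_cover2` with `ι = Finset Name`, `H T A := T ⊆ A`, `I` = the sets
  `T.toFinset`, `T ∈ G.flatMap (hs k)`, which are subsets of `S` of cardinality at most `w`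
  (`I.card ≤ 2 ^ k`), `a = k`, `s = w`, `r = 2 * w`, `c = k + 1` (`k ≤ (k + 1) * (2 w - w)`),
  `uns_complete`.  For `γ ∈ G` with `Hf γ S`: `wit` gives `T₀`, then `hs_complete k γ T₀` (with
  `T₀.card ≤ S.card = k`) gives `T ∈ hs k γ` with `T.toFinset ⊆ T₀`.
* `cover_chn2`: `exists_cover2` with `ι = Fm 1`, `H γ A := Hf γ A`, `I = G.toFinset.filter (Hf · S)`,
  `a = l + 1`, `s = w`, `r = 2 * w * (k / l + 1)`, `c = l + 1`
  (`k ≤ (l + 1) * (r - w)` since `r - w ≥ w * (k / l + 1) ≥ k / l + 1`), `chn_complete`;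
  `(l + 1) ^ w * (l + 2) ≤ (l + 2) ^ (w + 1)`.
* `cover_all2`: as `cover_all`.
-/

set_option autoImplicit false

namespace EWC

/-- The subformulas of depth one have at most `w` members. -/
def wid1 (w : ℕ) : (t : ℕ) → Fm (t + 1) → Prop
  | 0, φ => φ.length ≤ w
  | t + 1, φ => ∀ ψ ∈ φ, wid1 w t ψ

/-- The number of steps in the chains. -/
def r3 (w k l : ℕ) : ℕ := 2 * w * (k / l + 1) + 1

/-- The number of records. -/
def nrec2 (w k l : ℕ) : ℕ := min ((k + 1) ^ (w + 1)) ((l + 2) ^ (w + 1))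

/-- The list of the possible records. -/
def allA2 (w k l : ℕ) (G : List (Fm 1)) : List (List Name) :=
  uns (G.flatMap (hs k)) (2 * w + 1) ++ chn k G (r3 w k l)

theorem wid1_leaf {w t : ℕ} {φ : Fm (t + 1)} (h : wid1 w t φ) {γ : Fm 1}
    (hγ : γ ∈ leaves t φ) : γ.length ≤ w := by
  induction t with
  | zero =>
    have h1 : γ = φ := by
      have : γ ∈ [φ] := hγ
      rwa [List.mem_singleton] at this
    rw [h1]
    exact h
  | succ t ih =>
    have h2 : γ ∈ List.flatMap (leaves t) φ := hγ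
    obtain ⟨ψ, hψ, h3⟩ := List.mem_flatMap.1 h2
    exact ih (h ψ hψ) h3

theorem wit (γ : Fm 1) (S : Finset Name) (h : Hf γ S) :
    ∃ T, T ⊆ S ∧ T.card ≤ γ.length ∧ Hf γ T := by
  classical
  have key : ∀ L : List (Fm 0), (∀ D ∈ L, ∃ l ∈ D, l.2 ∈ S) →
      ∃ T : Finset Name, T ⊆ S ∧ T.card ≤ L.length ∧ ∀ D ∈ L, ∃ l ∈ D, l.2 ∈ T := by
    intro L
    induction L with
    | nil => intro _; exact ⟨∅, Finset.empty_subset _, le_rfl, fun D hD => by simp at hD⟩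
    | cons D L ih =>
      intro hL
      obtain ⟨T, h1, h2, h3⟩ := ih fun E hE => hL E (List.mem_cons_of_mem _ hE)
      obtain ⟨l, hl, hlS⟩ := hL D List.mem_cons_self
      refine ⟨insert l.2 T, ?_, ?_, ?_⟩
      · intro x hx
        rcases Finset.mem_insert.1 hx with hx | hx
        · rw [hx]; exact hlS
        · exact h1 hx
      · rw [List.length_cons]
        exact (Finset.card_insert_le _ _).trans (by omega)
      · intro E hE
        rcases List.mem_cons.1 hE with hE | hE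
        · subst hE
          exact ⟨l, hl, Finset.mem_insert_self _ _⟩
        · obtain ⟨l', hl', h4⟩ := h3 E hE
          exact ⟨l', hl', Finset.mem_insert_of_mem h4⟩
  exact key γ h

theorem cover_uns2 (w k : ℕ) (hw : 1 ≤ w) (G : List (Fm 1)) (hG : ∀ γ ∈ G, γ.length ≤ w)
    (S : Finset Name) (hS : S.card = k) (N : ℕ) (hN : (k + 1) ^ (w + 1) ≤ N) :
    ∃ L : Fin N → List Name, (∀ b, L b ∈ uns (G.flatMap (hs k)) (2 * w + 1) ∧
      (L b).toFinset ⊆ S) ∧ ∀ γ ∈ G, Hf γ S → ∃ b, hits (L b) γ = true := by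
  classical
  obtain ⟨I, hI⟩ : ∃ I : Finset (Finset Name),
      I = ((G.flatMap (hs k)).map List.toFinset).toFinset.filter
        fun T => T ⊆ S ∧ T.card ≤ w := ⟨_, rfl⟩
  have hmem : ∀ T, T ∈ I ↔ (∃ T' ∈ G.flatMap (hs k), T'.toFinset = T) ∧ T ⊆ S ∧ T.card ≤ w := by
    intro T
    rw [hI, Finset.mem_filter, List.mem_toFinset, List.mem_map]
  have hc1 : I.card ≤ 2 ^ k := by
    have h2 : I ⊆ S.powerset := fun T hT => Finset.mem_powerset.2 ((hmem T).1 hT).2.1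
    have h3 := Finset.card_le_card h2
    rwa [Finset.card_powerset, hS] at h3
  have hc2 : S.card ≤ (k + 1) * (2 * w - w) := by
    rw [hS, show 2 * w - w = w by omega]
    nlinarith
  obtain ⟨L, hL1, hL2⟩ := exists_cover2 (H := fun (T : Finset Name) (A : Finset Name) => T ⊆ A)
    (I := I) (fun i A B hAB hi => hi.trans hAB) S w
    (fun i hi => ⟨i, ((hmem i).1 hi).2.1, ((hmem i).1 hi).2.2, Finset.Subset.refl i⟩)
    (2 * w) k (k + 1) N (by omega) (by omega) hc1 hc2 (by rw [← pow_succ]; exact hN)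
  have h1 : ∀ b, ∃ A ∈ uns (G.flatMap (hs k)) (2 * w + 1), A.toFinset = L b := fun b =>
    uns_complete _ I (fun T hT => ((hmem T).1 hT).1) S _ _ (hL1 b)
  choose A hA1 hA2 using h1
  refine ⟨A, fun b => ⟨hA1 b, ?_⟩, ?_⟩
  · rw [hA2 b]
    have := (hL1 b).subset
    rwa [Finset.empty_union] at this
  · intro γ hγ hf
    obtain ⟨T0, hT0, hT0c, hT0f⟩ := wit γ S hf
    obtain ⟨T, hT1, hT2⟩ := hs_complete k γ T0
      ((Finset.card_le_card hT0).trans hS.le) hT0f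
    obtain ⟨b, hb⟩ := hL2 T.toFinset ((hmem _).2 ⟨⟨T, List.mem_flatMap.2 ⟨γ, hγ, hT1⟩, rfl⟩,
      hT2.trans hT0, (Finset.card_le_card hT2).trans (hT0c.trans (hG γ hγ))⟩)
    refine ⟨b, ?_⟩
    rw [hits_iff, hA2 b]
    exact ((hits_iff T γ).1 (hs_hits hT1)).mono hb

theorem cover_chn2 (w k l : ℕ) (hw : 1 ≤ w) (hl : 1 ≤ l) (G : List (Fm 1))
    (hG : ∀ γ ∈ G, γ.length ≤ w) (hGl : G.length ≤ 2 ^ (l + 1)) (S : Finset Name)
    (hS : S.card = k) (N : ℕ) (hN : (l + 2) ^ (w + 1) ≤ N) :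
    ∃ L : Fin N → List Name, (∀ b, L b ∈ chn k G (r3 w k l) ∧ (L b).toFinset ⊆ S) ∧
      ∀ γ ∈ G, Hf γ S → ∃ b, hits (L b) γ = true := by
  classical
  obtain ⟨I, hI⟩ : ∃ I : Finset (Fm 1), I = G.toFinset.filter fun γ => Hf γ S := ⟨_, rfl⟩
  have hmem : ∀ γ, γ ∈ I ↔ γ ∈ G ∧ Hf γ S := by
    intro γ
    rw [hI, Finset.mem_filter, List.mem_toFinset]
  have hc1 : I.card ≤ 2 ^ (l + 1) := by
    refine le_trans ?_ hGl
    rw [hI]
    exact (Finset.card_filter_le _ _).trans (List.toFinset_card_le G)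
  have hq : w ≤ w * (k / l + 1) := Nat.le_mul_of_pos_right w (Nat.succ_pos _)
  have hc2 : S.card ≤ (l + 1) * (2 * w * (k / l + 1) - w) := by
    rw [hS]
    have h3 := Nat.lt_mul_div_succ k (show 0 < l by omega)
    have h4 : k / l + 1 ≤ 2 * w * (k / l + 1) - w := by
      have h5 : k / l + 1 ≤ w * (k / l + 1) := Nat.le_mul_of_pos_left _ (by omega)
      have h6 : 2 * w * (k / l + 1) = w * (k / l + 1) + w * (k / l + 1) := by ring
      omega
    calc k ≤ l * (k / l + 1) := h3.le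
      _ ≤ (l + 1) * (2 * w * (k / l + 1) - w) := Nat.mul_le_mul (by omega) h4
  have hN' : (l + 1) ^ w * (l + 1 + 1) ≤ N := by
    refine le_trans ?_ hN
    rw [pow_succ]
    exact Nat.mul_le_mul (Nat.pow_le_pow_left (by omega) w) le_rfl
  have hsr : w ≤ 2 * w * (k / l + 1) := by
    have h6 : 2 * w * (k / l + 1) = w * (k / l + 1) + w * (k / l + 1) := by ring
    omega
  obtain ⟨L, hL1, hL2⟩ := exists_cover2 (H := fun (γ : Fm 1) (A : Finset Name) => Hf γ A)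
    (I := I) (fun i A B hAB hi => Hf.mono hi hAB) S w
    (fun i hi => by
      obtain ⟨T, h1, h2, h3⟩ := wit i S ((hmem i).1 hi).2
      exact ⟨T, h1, h2.trans (hG i ((hmem i).1 hi).1), h3⟩)
    (2 * w * (k / l + 1)) (l + 1) (l + 1) N hsr (by omega) hc1 hc2 hN'
  have h1 : ∀ b, ∃ A ∈ chn k G (r3 w k l), A.Nodup ∧ A.toFinset = L b := fun b =>
    chn_complete k G I (fun γ hγ => ((hmem γ).1 hγ).1) S hS.le _ _ (hL1 b)
  choose A hA1 _ hA2 using h1
  refine ⟨A, fun b => ⟨hA1 b, ?_⟩, ?_⟩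
  · rw [hA2 b]
    have := (hL1 b).subset
    rwa [Finset.empty_union] at this
  · intro γ hγ hf
    obtain ⟨b, hb⟩ := hL2 γ ((hmem _).2 ⟨hγ, hf⟩)
    refine ⟨b, ?_⟩
    rw [hits_iff, hA2 b]
    exact hb

theorem cover_all2 (s w : ℕ) (hw : 1 ≤ w) (φ : Fm (s + 3)) (hφ : wid1 w (s + 2) φ) (k : ℕ)
    (S : Finset Name) (hS : S.card = k) :
    ∃ L : Fin (nrec2 w k (Nat.log 2 (sz (φ, k)))) → List Name,
      (∀ b, L b ∈ allA2 w k (Nat.log 2 (sz (φ, k))) (leaves (s + 2) φ) ∧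
        (L b).toFinset ⊆ S) ∧
      ∀ γ ∈ leaves (s + 2) φ, Hf γ S → ∃ b, hits (L b) γ = true := by
  obtain ⟨n, hn⟩ : ∃ n, n = sz (φ, k) := ⟨_, rfl⟩
  have hsz : n = sz φ + sz k + 1 := by rw [hn, sz_pair]
  rw [← hn]
  have h1 : (leaves (s + 2) φ).length ≤ 2 ^ (Nat.log 2 n + 1) := by
    have h2 := length_leaves_le (s + 2) φ
    have h3 := Nat.lt_pow_succ_log_self (b := 2) (by norm_num) n
    have h4 : sz φ ≤ n := by omega
    have h5 : 2 ^ (Nat.log 2 n).succ = 2 ^ (Nat.log 2 n + 1) := rfl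
    omega
  have hl : 1 ≤ Nat.log 2 n := by
    have h2 := sz_pos φ
    have h3 := sz_pos k
    exact Nat.log_pos (by norm_num) (by omega)
  have hG : ∀ γ ∈ leaves (s + 2) φ, γ.length ≤ w := fun γ hγ => wid1_leaf hφ hγ
  rcases min_choice ((k + 1) ^ (w + 1)) ((Nat.log 2 n + 2) ^ (w + 1)) with h | h
  · obtain ⟨L, hL1, hL2⟩ := cover_uns2 w k hw (leaves (s + 2) φ) hG S hS
      (nrec2 w k (Nat.log 2 n)) (by unfold nrec2; rw [h])
    exact ⟨L, fun b => ⟨List.mem_append.2 (Or.inl (hL1 b).1), (hL1 b).2⟩, hL2⟩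
  · obtain ⟨L, hL1, hL2⟩ := cover_chn2 w k (Nat.log 2 n) hw hl (leaves (s + 2) φ) hG h1 S hS
      (nrec2 w k (Nat.log 2 n)) (by unfold nrec2; rw [h])
    exact ⟨L, fun b => ⟨List.mem_append.2 (Or.inr (hL1 b).1), (hL1 b).2⟩, hL2⟩

/-- The variables of the records are variables of the formula. -/
theorem allA2_vars (s w k l : ℕ) (φ : Fm (s + 3)) {A : List Name}
    (hA : A ∈ allA2 w k l (leaves (s + 2) φ)) (u : Name) (hu : u ∈ A) : u ∈ vars (s + 3) φ := by
  have key : ∀ γ ∈ leaves (s + 2) φ, Occ γ u → u ∈ vars (s + 3) φ := by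
    rintro γ hγ ⟨D, hD, x, hx, rfl⟩
    have h1 := mem_names_of_leaf (s + 2) φ γ hγ D hD x hx
    unfold vars
    rw [List.mem_toFinset, List.mem_map]
    exact ⟨x, h1, rfl⟩
  unfold allA2 at hA
  rw [List.mem_append] at hA
  rcases hA with hA | hA
  · obtain ⟨T, hT, huT⟩ := uns_vars hA u hu
    obtain ⟨γ, hγ, hT2⟩ := List.mem_flatMap.1 hT
    exact key γ hγ (hs_vars hT2 u huT)
  · obtain ⟨γ, hγ, h1⟩ := chn_vars hA u hu
    exact key γ hγ h1

end EWC
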