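import Pool.Agent.EWC.Rcov2

/-!
# Project EWC, Rcov3: covers by blocks if the leaves are short

PROOFS.
* `exists_cover3`: divide `S` into `q` blocks of at most `m` elements.  For every choice of `w`
  blocks let `V` be their union, `V.card ≤ w * m`; the greedy extension (`exists_greedy`) in
  `w * m + 1` steps inside `V` gives `A` with `H i A` for all `i` with `H i V`.  A witness of size
  at most `w` lies in the union of `w` blocks.
* `cover_chn3`: `q = min k l + 1`, `m = k / l + 1`.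
-/

set_option autoImplicit false

namespace EWC

open Finset

/-- The number of records. -/
def nrec3 (w k l : ℕ) : ℕ := (min k l + 1) ^ w

section

variable {X ι : Type} [DecidableEq X]

/-- Division into blocks. -/
theorem exists_blocks (S : Finset X) (q m : ℕ) (hq : 1 ≤ q) (h : S.card ≤ q * m) :
    ∃ col : X → Fin q, ∀ c, (S.filter fun x => col x = c).card ≤ m := by
  classical
  obtain ⟨q', rfl⟩ : ∃ q', q = q' + 1 := ⟨q - 1, by omega⟩
  let e := S.equivFin
  let idx : X → ℕ := fun x => if hx : x ∈ S then (e ⟨x, hx⟩).1 else 0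
  have hidx : ∀ x (hx : x ∈ S), idx x = (e ⟨x, hx⟩).1 := fun x hx => dif_pos hx
  have hinj : ∀ x ∈ S, ∀ y ∈ S, idx x = idx y → x = y := by
    intro x hx y hy hxy
    rw [hidx x hx, hidx y hy] at hxy
    have h1 := e.injective (Fin.ext hxy)
    exact congrArg Subtype.val h1
  have hlt : ∀ x ∈ S, idx x < S.card := by
    intro x hx
    rw [hidx x hx]
    exact (e ⟨x, hx⟩).2
  refine ⟨fun x => Fin.ofNat (q' + 1) (idx x / m), fun c => ?_⟩
  have hmap : ∀ x ∈ S.filter (fun x => Fin.ofNat (q' + 1) (idx x / m) = c),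
      idx x ∈ Finset.Ico (c.1 * m) ((c.1 + 1) * m) := by
    intro x hx
    rw [Finset.mem_filter] at hx
    obtain ⟨hxS, hxc⟩ := hx
    have h1 := hlt x hxS
    have hm : 0 < m := by
      rcases Nat.eq_zero_or_pos m with h0 | h0
      · rw [h0, Nat.mul_zero] at h
        omega
      · exact h0
    have h2 : idx x / m < q' + 1 := by
      rw [Nat.div_lt_iff_lt_mul hm]
      omega
    have h3 : idx x / m = c.1 := by
      rw [← hxc]
      exact (Nat.mod_eq_of_lt h2).symm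
    rw [Finset.mem_Ico]
    constructor
    · rw [← h3]
      exact Nat.div_mul_le_self _ _
    · rw [← h3]
      have h4 := Nat.lt_mul_div_succ (idx x) hm
      rw [Nat.mul_comm] at h4
      exact h4
  have h5 := Finset.card_le_card_of_injOn idx hmap (by
    intro x hx y hy hxy
    exact hinj x (Finset.mem_filter.1 hx).1 y (Finset.mem_filter.1 hy).1 hxy)
  rw [Nat.card_Ico] at h5
  have h6 : (c.1 + 1) * m - c.1 * m = m := by
    rw [Nat.add_mul, Nat.one_mul, Nat.add_sub_cancel_left]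
  rwa [h6] at h5

/-- The covering lemma with blocks. -/
theorem exists_cover3 {H : ι → Finset X → Prop} {I : Finset ι}
    (hup : ∀ i A B, A ⊆ B → H i A → H i B) (S : Finset X) (w q m : ℕ) (hq : 1 ≤ q)
    (hS : ∀ i ∈ I, ∃ T, T ⊆ S ∧ T.card ≤ w ∧ H i T) (hqm : S.card ≤ q * m) :
    ∃ L : Fin (q ^ w) → Finset X, (∀ b, Reach H I S (w * m + 1) ∅ (L b)) ∧
      ∀ i ∈ I, ∃ b, H i (L b) := by
  classical
  obtain ⟨col, hcol⟩ := exists_blocks S q m hq hqm
  let V : (Fin w → Fin q) → Finset X := fun t => S.filter fun x => ∃ j, col x = t j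
  have hV : ∀ t, (V t).card ≤ w * m := by
    intro t
    have h1 : V t ⊆ (Finset.univ : Finset (Fin w)).biUnion
        (fun j => S.filter fun x => col x = t j) := by
      intro x hx
      obtain ⟨hxS, j, hj⟩ := Finset.mem_filter.1 hx
      exact Finset.mem_biUnion.2 ⟨j, Finset.mem_univ _, Finset.mem_filter.2 ⟨hxS, hj⟩⟩
    refine (Finset.card_le_card h1).trans (Finset.card_biUnion_le.trans ?_)
    refine (Finset.sum_le_card_nsmul _ _ m fun j _ => hcol (t j)).trans ?_
    rw [Finset.card_univ, Fintype.card_fin, smul_eq_mul]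
  have hex : ∀ t : Fin w → Fin q, ∃ B, Reach H I S (w * m + 1) ∅ B ∧
      ∀ i ∈ I, H i (V t) → H i B := by
    intro t
    obtain ⟨A', h1, h2⟩ := exists_greedy (I := I) hup (V t) ∅ (w * m + 1)
    refine ⟨A', h1.mono_set (Finset.filter_subset _ _), ?_⟩
    intro i hi hH
    obtain ⟨B, -, h4, -, h6⟩ := h2 i hi (by rwa [Finset.empty_union])
    have hB0 : B = ∅ := by
      rw [← Finset.card_eq_zero]
      by_contra h
      have h7 : 1 ≤ B.card := Nat.one_le_iff_ne_zero.2 h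
      have h8 : (w * m + 1) * 1 ≤ (w * m + 1) * B.card := Nat.mul_le_mul_left _ h7
      have h9 := hV t
      omega
    rwa [hB0, Finset.union_empty] at h4
  choose F hF1 hF2 using hex
  let e : Fin (q ^ w) ≃ (Fin w → Fin q) := finFunctionFinEquiv.symm
  refine ⟨fun b => F (e b), fun b => hF1 (e b), fun i hi => ?_⟩
  obtain ⟨T, hTS, hTw, hT⟩ := hS i hi
  -- the blocks of the witness
  obtain ⟨t, ht⟩ : ∃ t : Fin w → Fin q, ∀ x ∈ T, ∃ j, col x = t j := by
    let f := T.equivFin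
    refine ⟨fun j => if hj : j.1 < T.card then col (f.symm ⟨j.1, hj⟩).1 else ⟨0, hq⟩, ?_⟩
    intro x hx
    refine ⟨⟨(f ⟨x, hx⟩).1, (f ⟨x, hx⟩).2.trans_le hTw⟩, ?_⟩
    have h1 : (f ⟨x, hx⟩).1 < T.card := (f ⟨x, hx⟩).2
    simp only [h1, dif_pos, Fin.eta, Equiv.symm_apply_apply]
  refine ⟨e.symm t, ?_⟩
  simp only [Equiv.apply_symm_apply]
  refine hF2 t i hi (hup i T _ ?_ hT)
  intro x hx
  exact Finset.mem_filter.2 ⟨hTS hx, ht x hx⟩

end

theorem cover_chn3 (w k l : ℕ) (hl : 1 ≤ l) (G : List (Fm 1))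
    (hG : ∀ γ ∈ G, γ.length ≤ w) (S : Finset Name) (hS : S.card = k) :
    ∃ L : Fin (nrec3 w k l) → List Name, (∀ b, L b ∈ chn k G (r3 w k l) ∧
      (L b).toFinset ⊆ S) ∧ ∀ γ ∈ G, Hf γ S → ∃ b, hits (L b) γ = true := by
  classical
  obtain ⟨I, hI⟩ : ∃ I : Finset (Fm 1), I = G.toFinset.filter fun γ => Hf γ S := ⟨_, rfl⟩
  have hmem : ∀ γ, γ ∈ I ↔ γ ∈ G ∧ Hf γ S := by
    intro γ
    rw [hI, Finset.mem_filter, List.mem_toFinset]
  have hqm : S.card ≤ (min k l + 1) * (k / l + 1) := by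
    rw [hS]
    rcases le_total k l with h | h
    · rw [min_eq_left h]
      calc k ≤ (k + 1) * 1 := by omega
        _ ≤ (k + 1) * (k / l + 1) := Nat.mul_le_mul_left _ (Nat.succ_pos _)
    · rw [min_eq_right h]
      have h3 := Nat.lt_mul_div_succ k (show 0 < l by omega)
      calc k ≤ l * (k / l + 1) := h3.le
        _ ≤ (l + 1) * (k / l + 1) := Nat.mul_le_mul_right _ (by omega)
  obtain ⟨L, hL1, hL2⟩ := exists_cover3 (H := fun (γ : Fm 1) (A : Finset Name) => Hf γ A)
    (I := I) (fun i A B hAB hi => Hf.mono hi hAB) S w (min k l + 1) (k / l + 1) (by omega)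
    (fun i hi => by
      obtain ⟨T, h1, h2, h3⟩ := wit i S ((hmem i).1 hi).2
      exact ⟨T, h1, h2.trans (hG i ((hmem i).1 hi).1), h3⟩) hqm
  have hr : w * (k / l + 1) + 1 ≤ r3 w k l := by
    unfold r3
    have h6 : 2 * w * (k / l + 1) = w * (k / l + 1) + w * (k / l + 1) := by ring
    omega
  have h1 : ∀ b, ∃ A ∈ chn k G (r3 w k l), A.Nodup ∧ A.toFinset = L b := fun b =>
    chn_complete k G I (fun γ hγ => ((hmem γ).1 hγ).1) S hS.le _ _ ((hL1 b).mono hr)
  choose A hA1 _ hA2 using h1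
  refine ⟨A, fun b => ⟨hA1 b, ?_⟩, ?_⟩
  · rw [hA2 b]
    have := (hL1 b).subset
    rwa [Finset.empty_union] at this
  · intro γ hγ hf
    obtain ⟨b, hb⟩ := hL2 γ ((hmem _).2 ⟨hγ, hf⟩)
    refine ⟨b, ?_⟩
    rw [hits_iff, hA2 b]
    exact hb

theorem cover_all3 (s w : ℕ) (φ : Fm (s + 3)) (hφ : wid1 w (s + 2) φ) (k : ℕ)
    (S : Finset Name) (hS : S.card = k) :
    ∃ L : Fin (nrec3 w k (Nat.log 2 (sz (φ, k)))) → List Name,
      (∀ b, L b ∈ chn k (leaves (s + 2) φ) (r3 w k (Nat.log 2 (sz (φ, k)))) ∧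
        (L b).toFinset ⊆ S) ∧
      ∀ γ ∈ leaves (s + 2) φ, Hf γ S → ∃ b, hits (L b) γ = true := by
  obtain ⟨n, hn⟩ : ∃ n, n = sz (φ, k) := ⟨_, rfl⟩
  have hsz : n = sz φ + sz k + 1 := by rw [hn, sz_pair]
  rw [← hn]
  have hl : 1 ≤ Nat.log 2 n := by
    have h2 := sz_pos φ
    have h3 := sz_pos k
    exact Nat.log_pos (by norm_num) (by omega)
  exact cover_chn3 w k (Nat.log 2 n) hl (leaves (s + 2) φ) (fun γ hγ => wid1_leaf hφ hγ) S hS

end EWC
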