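import Pool.Agent.EWC.Fin2
import Pool.Agent.EWC.Rcov3

/-!
# Project EWC, Fin3: formulas whose subformulas of depth one have bounded length

As `Fin2`, with the better number `nrec3` of records.
-/

set_option autoImplicit false

namespace EWC

/-- The reduction for short leaves. -/
def redF3 (sg : Bool) (s w : ℕ) (x : Fm (s + 3) × ℕ) : Fm (s + 2) × ℕ :=
  (red sg s x.1 x.2 (nrec3 w x.2 (Nat.log 2 (sz x)))
      (chn x.2 (leaves (s + 2) x.1) (r3 w x.2 (Nat.log 2 (sz x)))),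
    x.2 + nrec3 w x.2 (Nat.log 2 (sz x)))

private theorem pb_pow {α : Type} [Dat α] {μ : α → ℕ} (hμ : ∀ a, sz a ≤ μ a) {f : α → ℕ}
    (hf : PB μ f) : ∀ c : ℕ, PB μ fun a => f a ^ c
  | 0 => (PB.const hμ 1).congr fun _ => rfl
  | c + 1 => (PB.natMul (pb_pow hμ hf c) hf).congr fun _ => rfl

theorem pb_nrec3 (s w : ℕ) :
    PB (mu s) fun x : Fm (s + 3) × ℕ => nrec3 w x.2 (Nat.log 2 (sz x)) :=
  (pb_pow (sz_le_mu s) (PB.succ (PB.natMin (pb_kk s) (pb_lg s))) w).congr fun _ => rfl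

private theorem pb_r3 (s w : ℕ) :
    PB (mu s) fun x : Fm (s + 3) × ℕ => r3 w x.2 (Nat.log 2 (sz x)) :=
  (PB.succ (PB.natMul (PB.const (sz_le_mu s) (2 * w))
    (PB.succ (PB.natDiv (pb_kk s) (pb_lg s))))).congr fun _ => rfl

private theorem pow_leaves_r3 (s w : ℕ) : ∃ C : ℕ, ∀ x : Fm (s + 3) × ℕ,
    ((leaves (s + 2) x.1).length + 1) ^ r3 w x.2 (Nat.log 2 (sz x)) ≤ (mu s x + 2) ^ C := by
  obtain ⟨C, hC⟩ := pow_leaves_r2 s (w + 1)
  refine ⟨C, fun x => le_trans (Nat.pow_le_pow_right (by omega) ?_) (hC x)⟩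
  unfold r3 r2
  have h : 1 ≤ x.2 / Nat.log 2 (sz x) + 1 := Nat.le_add_left _ _
  generalize x.2 / Nat.log 2 (sz x) + 1 = q at h ⊢
  have h2 : 2 * w * q ≤ 32 * w * q := Nat.mul_le_mul_right q (by omega)
  have h3 : 32 * (w + 1) * q = 32 * w * q + 32 * q := by ring
  omega

theorem pb_redF3 (sg : Bool) (s w : ℕ) : PB (mu s) (redF3 sg s w) :=
  PB.pair (pb_red sg s (pb_nrec3 s w) (pb_chn s (pb_r3 s w) (pow_leaves_r3 s w)))
    (PB.natAdd (pb_kk s) (pb_nrec3 s w))

private theorem chn_vars3 (s k r : ℕ) (φ : Fm (s + 3)) {A : List Name}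
    (hA : A ∈ chn k (leaves (s + 2) φ) r) (u : Name) (hu : u ∈ A) : u ∈ vars (s + 3) φ := by
  obtain ⟨γ, hγ, D, hD, x, hx, rfl⟩ := chn_vars hA u hu
  have h1 := mem_names_of_leaf (s + 2) φ γ hγ D hD x hx
  unfold vars
  rw [List.mem_toFinset, List.mem_map]
  exact ⟨x, h1, rfl⟩

private theorem redF3_iff (s w : ℕ) (x : Fm (s + 3) × ℕ)
    (hx : ∀ l ∈ lits (s + 3) x.1, l.1 = decide (Even (s + 2))) (hφ : wid1 w (s + 2) x.1) :
    WSat (s + 3) x.1 x.2 ↔
      WSat (s + 2) (redF3 (decide (Even (s + 2))) s w x).1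
        (redF3 (decide (Even (s + 2))) s w x).2 := by
  exact red_iff s x.1 x.2 _ _ hx (fun A hA u hu => chn_vars3 s _ _ x.1 hA u hu)
    (fun S _ hS => cover_all3 s w x.1 hφ x.2 S hS)

private theorem redF3_gam (sg : Bool) (s w : ℕ) (x : Fm (s + 3) × ℕ) :
    Gam none (s + 2) 1 (redF3 sg s w x).1 := by
  refine ⟨?_, fun b hb => by cases hb⟩
  show ∀ ψ ∈ (redF3 sg s w x).1, wid 1 (s + 1) ψ
  intro ψ hψ
  rcases List.mem_append.1 hψ with h | h
  · exact wid_tf sg _ (s + 1) x.1 ψ h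
  · obtain ⟨c, _, rfl⟩ := List.mem_map.1 h
    show ∀ χ ∈ c.map (up s), wid 1 s χ
    intro χ hχ
    obtain ⟨l, _, rfl⟩ := List.mem_map.1 hχ
    exact wid_up s l

theorem main3 (t d w : ℕ) (ht : 2 ≤ t) :
    ∃ R : (pWSATw (some (decide (Even t))) t d w).X → (pWSAT none t 1).X,
      EptComp (pWSATw (some (decide (Even t))) t d w) (pWSAT none t 1) R ∧
      ∀ x, (pWSAT none t 1).par (R x) ≤ (pWSATw (some (decide (Even t))) t d w).par x +
        (min ((pWSATw (some (decide (Even t))) t d w).par x)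
          (Nat.log 2 ((pWSATw (some (decide (Even t))) t d w).len x)) + 1) ^ w := by
  obtain ⟨s, rfl⟩ := Nat.exists_eq_add_of_le' ht
  refine ⟨fun x => (⟨(redF3 (decide (Even (s + 2))) s w (x.1.1.1, x.1.2)).1,
    redF3_gam (decide (Even (s + 2))) s w (x.1.1.1, x.1.2)⟩,
    (redF3 (decide (Even (s + 2))) s w (x.1.1.1, x.1.2)).2), ⟨fun x => ?_, ?_⟩, fun x => ?_⟩
  · exact redF3_iff s w (x.1.1.1, x.1.2) (fun l hl => x.1.1.2.2 _ rfl l hl) x.2
  · obtain ⟨C0, hC0⟩ := compIn_of_pb (pb_redF3 (decide (Even (s + 2))) s w)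
      (pWSATw (some (decide (Even (s + 2)))) (s + 2) d w).enc (pWSAT none (s + 2) 1).enc
      (fun x => (⟨(redF3 (decide (Even (s + 2))) s w (x.1.1.1, x.1.2)).1,
        redF3_gam (decide (Even (s + 2))) s w (x.1.1.1, x.1.2)⟩,
        (redF3 (decide (Even (s + 2))) s w (x.1.1.1, x.1.2)).2))
      (fun x : (pWSATw (some (decide (Even (s + 2)))) (s + 2) d w).X => (x.1.1.1, x.1.2))
      (fun x => rfl) (fun x => rfl)
    obtain ⟨C', hC'⟩ := time_le d C0
    refine ⟨C', hC0.mono fun x => ?_⟩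
    exact hC' x.1.2 (mxw (s + 3) x.1.1.1) (sz (x.1.1.1, x.1.2)) (mxw_le_of_wid x.1.1.2.1)
  · exact le_rfl

theorem main3_slice (t d w c : ℕ) (ht : 2 ≤ t) :
    EW t ((pWSATw (some (decide (Even t))) t d w).restrict fun x =>
      ((pWSATw (some (decide (Even t))) t d w).par x) ^ w ≤
        c * Nat.log 2 ((pWSATw (some (decide (Even t))) t d w).len x) ∨
      (Nat.log 2 ((pWSATw (some (decide (Even t))) t d w).len x)) ^ w ≤
        c * (pWSATw (some (decide (Even t))) t d w).par x) := by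
  obtain ⟨R, ⟨hyes, C0, M, i, o, hf, hcomp⟩, hC⟩ := main3 t d w ht
  refine ⟨fun x => R x.1, ⟨fun x => hyes x.1, C0, M, i, o, hf, fun x => hcomp x.1⟩,
    1 + 2 ^ w * (1 + c), fun x => ?_⟩
  have h1 := hC x.1
  have h3 : 3 ≤ (pWSATw (some (decide (Even t))) t d w).len x.1 := three_le_len _ _ _ x.1.1
  have hx := x.2
  have e1 : ((pWSATw (some (decide (Even t))) t d w).restrict fun x =>
      ((pWSATw (some (decide (Even t))) t d w).par x) ^ w ≤
        c * Nat.log 2 ((pWSATw (some (decide (Even t))) t d w).len x) ∨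
      (Nat.log 2 ((pWSATw (some (decide (Even t))) t d w).len x)) ^ w ≤
        c * (pWSATw (some (decide (Even t))) t d w).par x).par x =
      (pWSATw (some (decide (Even t))) t d w).par x.1 := rfl
  have e2 : ((pWSATw (some (decide (Even t))) t d w).restrict fun x =>
      ((pWSATw (some (decide (Even t))) t d w).par x) ^ w ≤
        c * Nat.log 2 ((pWSATw (some (decide (Even t))) t d w).len x) ∨
      (Nat.log 2 ((pWSATw (some (decide (Even t))) t d w).len x)) ^ w ≤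
        c * (pWSATw (some (decide (Even t))) t d w).par x).len x =
      (pWSATw (some (decide (Even t))) t d w).len x.1 := rfl
  rw [e1, e2]
  refine h1.trans ?_
  change ((pWSATw (some (decide (Even t))) t d w).par x.1) ^ w ≤
        c * Nat.log 2 ((pWSATw (some (decide (Even t))) t d w).len x.1) ∨
      (Nat.log 2 ((pWSATw (some (decide (Even t))) t d w).len x.1)) ^ w ≤
        c * (pWSATw (some (decide (Even t))) t d w).par x.1 at hx
  generalize (pWSATw (some (decide (Even t))) t d w).len x.1 = n at h3 hx ⊢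
  generalize (pWSATw (some (decide (Even t))) t d w).par x.1 = k at hx ⊢
  have hl : 1 ≤ Nat.log 2 n := Nat.log_pos (by omega) (by omega)
  generalize Nat.log 2 n = l at hl hx ⊢
  have h5 : (min k l) ^ w ≤ c * (k + l) := by
    rcases hx with h | h
    · calc (min k l) ^ w ≤ k ^ w := Nat.pow_le_pow_left (min_le_left _ _) _
        _ ≤ c * l := h
        _ ≤ c * (k + l) := Nat.mul_le_mul_left _ (by omega)
    · calc (min k l) ^ w ≤ l ^ w := Nat.pow_le_pow_left (min_le_right _ _) _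
        _ ≤ c * k := h
        _ ≤ c * (k + l) := Nat.mul_le_mul_left _ (by omega)
  have h6 : (min k l + 1) ^ w ≤ 2 ^ w * (1 + (min k l) ^ w) := by
    rcases Nat.eq_zero_or_pos (min k l) with h0 | h0
    · rw [h0, Nat.zero_add]
      calc 1 ^ w ≤ 2 ^ w := Nat.pow_le_pow_left (by omega) _
        _ ≤ 2 ^ w * (1 + 0 ^ w) := Nat.le_mul_of_pos_right _ (by positivity)
    · calc (min k l + 1) ^ w ≤ (2 * min k l) ^ w :=
            Nat.pow_le_pow_left (by omega) _
        _ = 2 ^ w * (min k l) ^ w := mul_pow _ _ _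
        _ ≤ _ := Nat.mul_le_mul_left _ (by omega)
  calc k + (min k l + 1) ^ w ≤ k + 2 ^ w * (1 + (min k l) ^ w) :=
        Nat.add_le_add_left h6 _
    _ ≤ (k + l) + 2 ^ w * ((k + l) + c * (k + l)) :=
        Nat.add_le_add (by omega) (Nat.mul_le_mul_left _ (Nat.add_le_add (by omega) h5))
    _ = (1 + 2 ^ w * (1 + c)) * (k + l) := by ring

end EWC
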