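import Pool.Agent.EWC.Stk

/-!
# Project EWC: functions computed by programs, with polynomial bounds in a measure

`PB μ f`: some program replaces the word of `a` on top of the stack `M` by the word of `f a`, in at
most `(μ a + 2) ^ C` steps; the measure `μ : α → ℕ` is at least the size of `a`.
`PLe μ ν`: the function `ν` is polynomially bounded in `μ`.
-/

set_option autoImplicit false

namespace EWC

open Pool.Agent.Helper64.Stk

variable {α β γ δ : Type}

/-- `ν a ≤ (μ a + 2) ^ C` for a constant `C`. -/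
def PLe (μ ν : α → ℕ) : Prop := ∃ C : ℕ, ∀ a, ν a ≤ (μ a + 2) ^ C

theorem pow_bd {x C D : ℕ} (h : C ≤ D) : (x + 2) ^ C ≤ (x + 2) ^ D :=
  Nat.pow_le_pow_right (by omega) h

/-- `(x + 2) ^ a + (x + 2) ^ b ≤ (x + 2) ^ (max a b + 1)`. -/
theorem add_pow_bd (x a b : ℕ) : (x + 2) ^ a + (x + 2) ^ b ≤ (x + 2) ^ (a + b + 1) := by
  have h1 : (x + 2) ^ a ≤ (x + 2) ^ (a + b) := pow_bd (by omega)
  have h2 : (x + 2) ^ b ≤ (x + 2) ^ (a + b) := pow_bd (by omega)
  calc (x + 2) ^ a + (x + 2) ^ b ≤ (x + 2) ^ (a + b) + (x + 2) ^ (a + b) := add_le_add h1 h2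
    _ = (x + 2) ^ (a + b) * 2 := by ring
    _ ≤ (x + 2) ^ (a + b) * (x + 2) := Nat.mul_le_mul_left _ (by omega)
    _ = (x + 2) ^ (a + b + 1) := by ring

/-- `((x + 2) ^ a + 2) ^ b ≤ (x + 2) ^ ((a + 2) * b)`. -/
theorem pow_pow_bd (x a b : ℕ) : ((x + 2) ^ a + 2) ^ b ≤ (x + 2) ^ ((a + 2) * b) := by
  rw [pow_mul]
  refine Nat.pow_le_pow_left ?_ b
  have h1 : 1 ≤ (x + 2) ^ a := Nat.one_le_pow _ _ (by omega)
  have h2 : (x + 2) ^ (a + 2) = (x + 2) ^ a * ((x + 2) * (x + 2)) := by ring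
  rw [h2]
  have h3 : 4 ≤ (x + 2) * (x + 2) := by nlinarith
  calc (x + 2) ^ a + 2 ≤ (x + 2) ^ a * 4 := by omega
    _ ≤ _ := Nat.mul_le_mul_left _ h3

theorem self_bd (x : ℕ) : x ≤ (x + 2) ^ 1 := by simp

theorem const_bd (x c : ℕ) : c ≤ (x + 2) ^ c := by
  calc c ≤ 2 ^ c := Nat.lt_two_pow_self.le
    _ ≤ (x + 2) ^ c := Nat.pow_le_pow_left (by omega) c

theorem PLe.self (μ : α → ℕ) : PLe μ μ := ⟨1, fun a => self_bd _⟩

theorem PLe.const (μ : α → ℕ) (c : ℕ) : PLe μ fun _ => c := ⟨c, fun _ => const_bd _ _⟩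

theorem PLe.mono {μ ν ν' : α → ℕ} (h : PLe μ ν) (h' : ∀ a, ν' a ≤ ν a) : PLe μ ν' := by
  obtain ⟨C, hC⟩ := h
  exact ⟨C, fun a => (h' a).trans (hC a)⟩

theorem PLe.of_le {μ ν : α → ℕ} (h : ∀ a, ν a ≤ μ a) : PLe μ ν := (PLe.self μ).mono h

theorem PLe.add {μ ν ν' : α → ℕ} (h : PLe μ ν) (h' : PLe μ ν') : PLe μ fun a => ν a + ν' a := by
  obtain ⟨C, hC⟩ := h
  obtain ⟨C', hC'⟩ := h'
  exact ⟨C + C' + 1, fun a => (add_le_add (hC a) (hC' a)).trans (add_pow_bd _ _ _)⟩

theorem PLe.mul {μ ν ν' : α → ℕ} (h : PLe μ ν) (h' : PLe μ ν') : PLe μ fun a => ν a * ν' a := by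
  obtain ⟨C, hC⟩ := h
  obtain ⟨C', hC'⟩ := h'
  refine ⟨C + C', fun a => ?_⟩
  rw [pow_add]
  exact Nat.mul_le_mul (hC a) (hC' a)

theorem PLe.pow {μ ν : α → ℕ} (h : PLe μ ν) (c : ℕ) : PLe μ fun a => ν a ^ c := by
  obtain ⟨C, hC⟩ := h
  refine ⟨C * c, fun a => ?_⟩
  rw [pow_mul]
  exact Nat.pow_le_pow_left (hC a) c

theorem PLe.trans {μ ν ξ : α → ℕ} (h : PLe μ ν) (h' : PLe ν ξ) : PLe μ ξ := by
  obtain ⟨C, hC⟩ := h
  obtain ⟨C', hC'⟩ := h'
  refine ⟨(C + 2) * C', fun a => (hC' a).trans ?_⟩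
  exact (Nat.pow_le_pow_left (Nat.add_le_add_right (hC a) 2) C').trans (pow_pow_bd _ _ _)

theorem PLe.comp {μ : α → ℕ} {ν ξ : β → ℕ} {f : α → β} (h : PLe μ fun a => ν (f a))
    (h' : PLe ν ξ) : PLe μ fun a => ξ (f a) := by
  obtain ⟨C', hC'⟩ := h'
  exact h.trans ⟨C', fun a => hC' (f a)⟩

theorem PLe.max {μ ν ν' : α → ℕ} (h : PLe μ ν) (h' : PLe μ ν') :
    PLe μ fun a => max (ν a) (ν' a) :=
  (h.add h').mono fun a => max_le (Nat.le_add_right _ _) (Nat.le_add_left _ _)

variable [Dat α] [Dat β] [Dat γ] [Dat δ]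

/-- Some program computes `f` in at most `(μ a + 2) ^ C` steps. -/
def PB (μ : α → ℕ) (f : α → β) : Prop :=
  (∀ a, sz a ≤ μ a) ∧ ∃ (p : Prog) (C : ℕ), ∀ (a : α) (m s : List Bool),
    Ru p (st (code a ++ m) [] [] [] s) (st (code (f a) ++ m) [] [] [] s) ((μ a + 2) ^ C)

variable {μ : α → ℕ} {f : α → β}

theorem PB.le (h : PB μ f) (a : α) : sz a ≤ μ a := h.1 a

/-- The basic way to prove `PB`: a time bound `T` which is polynomially bounded. -/
theorem PB.intro (h : ∀ a, sz a ≤ μ a) (p : Prog) (T : α → ℕ) (hT : PLe μ T)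
    (hp : ∀ (a : α) (m s : List Bool),
      Ru p (st (code a ++ m) [] [] [] s) (st (code (f a) ++ m) [] [] [] s) (T a)) : PB μ f := by
  obtain ⟨C, hC⟩ := hT
  exact ⟨h, p, C, fun a m s => (hp a m s).mono (hC a)⟩

/-- The way to use `PB`. -/
theorem PB.elim (h : PB μ f) : ∃ (p : Prog) (T : α → ℕ), PLe μ T ∧
    ∀ (a : α) (m s : List Bool),
      Ru p (st (code a ++ m) [] [] [] s) (st (code (f a) ++ m) [] [] [] s) (T a) := by
  obtain ⟨_, p, C, hp⟩ := h
  exact ⟨p, fun a => (μ a + 2) ^ C, ⟨C, fun a => le_rfl⟩, hp⟩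

theorem PB.congr {g : α → β} (h : PB μ f) (hfg : ∀ a, f a = g a) : PB μ g := by
  have : f = g := funext hfg
  subst this
  exact h

/-- The size of the value is polynomially bounded. -/
theorem PB.size (h : PB μ f) : PLe μ fun a => sz (f a) := by
  obtain ⟨h0, p, C, hp⟩ := h
  refine (((PLe.self μ).add (⟨C, fun a => le_rfl⟩ : PLe μ fun a => (μ a + 2) ^ C))).mono
    fun a => ?_
  have h1 := (hp a [] []).length_le .M
  simp only [st, List.append_nil] at h1
  have h2 := h0 a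
  unfold sz at *
  omega

theorem PB.szle (h : PB μ f) : PLe μ fun a => sz a := PLe.of_le h.1

theorem PB.mono {ν : α → ℕ} (h : PB μ f) (h1 : PLe ν μ) (h2 : ∀ a, sz a ≤ ν a) : PB ν f := by
  obtain ⟨p, T, hT, hp⟩ := h.elim
  exact PB.intro h2 p T (h1.trans hT) hp

theorem PB.id (h : ∀ a, sz a ≤ μ a) : PB μ fun a => a :=
  PB.intro h .skip (fun _ => 1) (PLe.const _ _) fun _ _ _ => Ru.skip _

theorem PB.const (h : ∀ a, sz a ≤ μ a) (b : β) : PB μ fun _ => b := by
  refine PB.intro h (.seq dropP (pushP (code b))) (fun a => (8 * sz a + 3) + (sz b + 1)) ?_ ?_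
  · have h1 : PLe μ fun a => sz a := PLe.of_le h
    exact (((PLe.const _ 8).mul h1).add (PLe.const _ 3)).add (PLe.const _ _)
  · intro a m s
    exact (ru_drop (tr a) m s).seq (ru_push (code b) m [] [] [] s)

theorem PB.comp {ν : β → ℕ} {g : β → γ} (hf : PB μ f) (hg : PB ν g)
    (h : PLe μ fun a => ν (f a)) : PB μ fun a => g (f a) := by
  obtain ⟨p, T, hT, hp⟩ := hf.elim
  obtain ⟨q, U, hU, hq⟩ := hg.elim
  exact PB.intro hf.1 (.seq p q) (fun a => T a + U (f a)) (hT.add (h.comp hU))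
    fun a m s => (hp a m s).seq (hq (f a) m s)

/-- Composition with a polynomial time function. -/
theorem PB.comp' {g : β → γ} (hg : PB sz g) (hf : PB μ f) : PB μ fun a => g (f a) :=
  hf.comp hg hf.size

/-- Functions with the same code. -/
theorem PB.retype {g : α → γ} (h : PB μ f) (hfg : ∀ a, tr (g a) = tr (f a)) : PB μ g := by
  obtain ⟨p, T, hT, hp⟩ := h.elim
  refine PB.intro h.1 p T hT fun a m s => ?_
  have e : code (g a) = code (f a) := by unfold code; rw [hfg]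
  rw [e]
  exact hp a m s

theorem PB.pair {g : α → γ} (hf : PB μ f) (hg : PB μ g) : PB μ fun a => (f a, g a) := by
  obtain ⟨p, T, hT, hp⟩ := hf.elim
  obtain ⟨q, U, hU, hq⟩ := hg.elim
  refine PB.intro hf.1 (.seq dupP (.seq q (.seq swapP (.seq p (.push .M true)))))
    (fun a => (20 * sz a + 20) + (U a + ((20 * (sz (g a) + sz a) + 20) + (T a + 1)))) ?_ ?_
  · have h1 := hf.szle
    have h2 := hg.size
    exact (((PLe.const _ 20).mul h1).add (PLe.const _ 20)).add (hU.add ((((PLe.const _ 20).mul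
      (h2.add h1)).add (PLe.const _ 20)).add (hT.add (PLe.const _ 1))))
  · intro a m s
    refine (ru_dup (tr a) m s).seq ((hq a (code a ++ m) s).seq
      ((ru_swap (tr (g a)) (tr a) m s).seq ((hp a (code (g a) ++ m) s).seq ?_)))
    refine (Ru.push .M true _).conv ?_ le_rfl
    rw [st_M]
    simp [st, code_pair]

theorem PB.fst {f : α → β × γ} (hf : PB μ f) : PB μ fun a => (f a).1 := by
  obtain ⟨p, T, hT, hp⟩ := hf.elim
  refine PB.intro hf.1 (.seq p fstP) (fun a => T a + (20 * sz (f a) + 20)) ?_ ?_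
  · exact hT.add (((PLe.const _ 20).mul hf.size).add (PLe.const _ 20))
  · intro a m s
    refine (hp a m s).seq ((ru_fst (tr (f a).1) (tr (f a).2) m s).mono ?_)
    have : sz (f a) = sz (f a).1 + sz (f a).2 + 1 := sz_pair _ _
    unfold sz code at *
    omega

theorem PB.snd {f : α → β × γ} (hf : PB μ f) : PB μ fun a => (f a).2 := by
  obtain ⟨p, T, hT, hp⟩ := hf.elim
  refine PB.intro hf.1 (.seq p sndP) (fun a => T a + (20 * sz (f a) + 20)) ?_ ?_
  · exact hT.add (((PLe.const _ 20).mul hf.size).add (PLe.const _ 20))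
  · intro a m s
    refine (hp a m s).seq ((ru_snd (tr (f a).1) (tr (f a).2) m s).mono ?_)
    have : sz (f a) = sz (f a).1 + sz (f a).2 + 1 := sz_pair _ _
    unfold sz code at *
    omega

/-- Functions of two arguments. -/
theorem PB.comp2 {g : α → γ} {F : β × γ → δ} (hF : PB sz F) (hf : PB μ f) (hg : PB μ g) :
    PB μ fun a => F (f a, g a) := hF.comp' (hf.pair hg)

theorem PB.cond {t : α → Bool} {g : α → β} (ht : PB μ t) (hf : PB μ f) (hg : PB μ g) :
    PB μ fun a => if t a then f a else g a := by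
  obtain ⟨r, V, hV, hr⟩ := ht.elim
  obtain ⟨p, T, hT, hp⟩ := hf.elim
  obtain ⟨q, U, hU, hq⟩ := hg.elim
  refine PB.intro hf.1 (.seq dupP (.seq r (ifP p q)))
    (fun a => (20 * sz a + 20) + (V a + (T a + U a + 3))) ?_ ?_
  · exact (((PLe.const _ 20).mul hf.szle).add (PLe.const _ 20)).add
      (hV.add ((hT.add hU).add (PLe.const _ 3)))
  · intro a m s
    refine (ru_dup (tr a) m s).seq ((hr a (code a ++ m) s).seq ?_)
    cases h : t a with
    | true =>
      simp only [if_true]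
      exact (ru_if_true (hp a m s)).mono (by omega)
    | false =>
      simp only [Bool.false_eq_true, if_false]
      exact (ru_if_false (hq a m s)).mono (by omega)

/-- Case distinction on a list. -/
theorem PB.lcase {l : α → List β} {g : α → δ} {h : α × (β × List β) → δ}
    {ν : α × (β × List β) → ℕ} (hl : PB μ l) (hg : PB μ g) (hh : PB ν h)
    (hν : ∃ C : ℕ, ∀ a b t, l a = b :: t → ν (a, (b, t)) ≤ (μ a + 2) ^ C) :
    PB μ fun a => match l a with
      | [] => g a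
      | b :: t => h (a, (b, t)) := by
  obtain ⟨r, V, hV, hr⟩ := hl.elim
  obtain ⟨q, U, hU, hq⟩ := hg.elim
  obtain ⟨hle, p, C, hp⟩ := hh
  obtain ⟨D, hD⟩ := hν
  refine PB.intro hl.1 (.seq dupP (.seq r (caseP q (.seq (.push .M true) (.seq swapP
    (.seq (.push .M true) p))))))
    (fun a => (20 * sz a + 20) + (V a + (U a + (20 * (sz (l a) + sz a) + 23 +
      ((μ a + 2) ^ D + 2) ^ C)))) ?_ ?_
  · refine (((PLe.const _ 20).mul hl.szle).add (PLe.const _ 20)).add
      (hV.add (hU.add ((((PLe.const _ 20).mul (hl.size.add hl.szle)).add (PLe.const _ 23)).add ?_)))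
    exact ⟨(D + 2) * C, fun a => pow_pow_bd _ _ _⟩
  · intro a m s
    refine (ru_dup (tr a) m s).seq ((hr a (code a ++ m) s).seq ?_)
    cases h : l a with
    | nil => exact (ru_case_nil (hq a m s)).mono (by omega)
    | cons b t =>
      have h1 : Ru (.push .M true) (st (code b ++ (code t ++ (code a ++ m))) [] [] [] s)
          (st (code (b, t) ++ (code a ++ m)) [] [] [] s) 1 := by
        refine (Ru.push .M true _).conv ?_ le_rfl
        rw [st_M]
        simp [st, code_pair]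
      have h2 := ru_swap (tr (b, t)) (tr a) m s
      have h3 : Ru (.push .M true) (st (code a ++ (code (b, t) ++ m)) [] [] [] s)
          (st (code (a, (b, t)) ++ m) [] [] [] s) 1 := by
        refine (Ru.push .M true _).conv ?_ le_rfl
        rw [st_M]
        simp [st, code_pair]
      have h4 := hp (a, (b, t)) m s
      have h5 := ru_case_cons (q := q) (x := tr b) (y := tr t) (h1.seq (h2.seq (h3.seq h4)))
      refine h5.mono ?_
      have h6 := hD a b t h
      have h7 : (ν (a, (b, t)) + 2) ^ C ≤ ((μ a + 2) ^ D + 2) ^ C :=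
        Nat.pow_le_pow_left (by omega) _
      have h8 : sz (b :: t) = (tr (b, t)).enc.length := by
        rw [sz_cons]
        exact (sz_pair b t).symm
      have h9 : sz a = (tr a).enc.length := rfl
      omega

/-- Prepending an element. -/
theorem PB.cons {l : α → List β} (hf : PB μ f) (hl : PB μ l) : PB μ fun a => f a :: l a :=
  (hf.pair hl).retype fun _ => rfl

end EWC
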