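import Pool.Agent.EWC.PBa

/-!
# Project EWC: loops

`PB.while_loop`: iteration of a function as long as a test is true; `PB.foldl`: folding over a
list; derived functions on lists.  The measure of the intermediate states must be polynomially
bounded in the measure of the input.
-/

set_option autoImplicit false

namespace EWC

open Pool.Agent.Helper64.Stk

variable {α β γ δ : Type} [Dat α] [Dat β] [Dat γ] [Dat δ]

/-- Iterate `f`, starting from `i a`, as long as the test `t` is true. -/
theorem PB.while_from {μ : α → ℕ} {ν : β → ℕ} {i : α → β} {t : β → Bool} {f : β → β}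
    (hi : PB μ i) (ht : PB ν t) (hf : PB ν f)
    (n : α → ℕ) (hn : PLe μ n)
    (h1 : ∀ a, ∀ j < n a, t (f^[j] (i a)) = true) (h2 : ∀ a, t (f^[n a] (i a)) = false)
    (hν : ∃ C : ℕ, ∀ a, ∀ j ≤ n a, ν (f^[j] (i a)) ≤ (μ a + 2) ^ C) :
    PB μ fun a => f^[n a] (i a) := by
  obtain ⟨u, U, hU, hu⟩ := hi.elim
  obtain ⟨hle, q, D, hq⟩ := ht
  obtain ⟨_, p, E, hp⟩ := hf
  obtain ⟨C, hC⟩ := hν
  have hmul : ∀ a (j : ℕ), j ≤ n a → ∀ F, (ν (f^[j] (i a)) + 2) ^ F ≤
      (μ a + 2) ^ ((C + 2) * F) :=
    fun a j hj F => (Nat.pow_le_pow_left (Nat.add_le_add_right (hC a j hj) 2) F).trans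
      (pow_pow_bd _ _ _)
  have hT : PLe μ fun a => (μ a + 2) ^ ((C + 2) * (D + E + 1)) := ⟨_, fun _ => le_rfl⟩
  refine PB.intro hi.1 (.seq u (whileP q p))
    (fun a => U a + (n a + 1) * (40 * (μ a + 2) ^ ((C + 2) * (D + E + 1)) + 40)) ?_ ?_
  · exact hU.add ((hn.add (PLe.const _ 1)).mul (((PLe.const _ 40).mul hT).add (PLe.const _ 40)))
  · intro a m s
    refine (hu a m s).seq (ru_while q p (n a) _ (fun j => tr (f^[j] (i a))) ?_ ?_ ?_ m s)
    · intro j hj m s
      have h3 := (hq (f^[j] (i a)) m s).mono ((hmul a j hj D).trans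
        (pow_bd (Nat.mul_le_mul_left _ (by omega : D ≤ D + E + 1))))
      rcases Nat.lt_or_ge j (n a) with h | h
      · rw [h1 a j h] at h3
        rw [decide_eq_true h]
        exact h3
      · have : j = n a := by omega
        subst this
        rw [h2 a] at h3
        rw [decide_eq_false (lt_irrefl _)]
        exact h3
    · intro j hj m s
      have h3 := (hp (f^[j] (i a)) m s).mono ((hmul a j hj.le E).trans
        (pow_bd (Nat.mul_le_mul_left _ (by omega : E ≤ D + E + 1))))
      rw [Function.iterate_succ_apply']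
      exact h3
    · intro j hj
      refine ((hle (f^[j] (i a))).trans (hC a j hj)).trans (pow_bd ?_)
      nlinarith

/-- Iterate `f` as long as the test `t` is true. -/
theorem PB.while_loop {μ ν : α → ℕ} {t : α → Bool} {f : α → α} (ht : PB ν t) (hf : PB ν f)
    (n : α → ℕ) (h0 : ∀ a, sz a ≤ μ a) (hn : PLe μ n)
    (h1 : ∀ a, ∀ j < n a, t (f^[j] a) = true) (h2 : ∀ a, t (f^[n a] a) = false)
    (hν : ∃ C : ℕ, ∀ a, ∀ j ≤ n a, ν (f^[j] a) ≤ (μ a + 2) ^ C) :
    PB μ fun a => f^[n a] a :=
  PB.while_from (PB.id h0) ht hf n hn h1 h2 hν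

/-- One step of a fold: the state is the environment, the rest of the list and the value. -/
def fstep (step : α × (β × γ) → γ) (s : α × (List β × γ)) : α × (List β × γ) :=
  match s.2.1 with
  | [] => s
  | b :: l => (s.1, (l, step (s.1, (b, s.2.2))))

/-- Is there still an element? -/
def ftest (s : α × (List β × γ)) : Bool :=
  match s.2.1 with
  | [] => false
  | _ :: _ => true

omit [Dat α] [Dat β] [Dat γ] in
theorem fstep_iter (step : α × (β × γ) → γ) (a : α) : ∀ (l1 l2 : List β) (s : γ),
    (fstep step)^[l1.length] (a, (l1 ++ l2, s)) =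
      (a, (l2, l1.foldl (fun s b => step (a, (b, s))) s)) := by
  intro l1
  induction l1 with
  | nil => intro l2 s; rfl
  | cons b l1 ih =>
    intro l2 s
    rw [List.length_cons, Function.iterate_succ_apply]
    exact ih l2 _

/-- Folding over a list. -/
theorem PB.foldl {μ : α → ℕ} {ν : α × (β × γ) → ℕ} {l : α → List β} {s0 : α → γ}
    {step : α × (β × γ) → γ} (hl : PB μ l) (hs : PB μ s0) (hstep : PB ν step)
    (hν : ∃ C : ℕ, ∀ a l1 b l2, l a = l1 ++ b :: l2 →
      ν (a, (b, l1.foldl (fun s b => step (a, (b, s))) (s0 a))) ≤ (μ a + 2) ^ C) :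
    PB μ fun a => (l a).foldl (fun s b => step (a, (b, s))) (s0 a) := by
  obtain ⟨C, hC⟩ := hν
  obtain ⟨D, hD⟩ := hstep.size
  set νs : α × (List β × γ) → ℕ := fun x => (match x.2.1 with
    | [] => 0
    | b :: _ => ν (x.1, (b, x.2.2))) + sz x with hνs
  have h0 : ∀ x, sz x ≤ νs x := fun x => Nat.le_add_left _ _
  have pid : PB νs fun x => x := PB.id h0
  set νh : (α × (List β × γ)) × (β × List β) → ℕ := fun y =>
    ν (y.1.1, (y.2.1, y.1.2.2)) + sz y with hνh
  have pidh : PB νh fun y => y := PB.id fun y => Nat.le_add_left _ _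
  have h1 : PB νh fun y => (y.1.1, (y.2.2, step (y.1.1, (y.2.1, y.1.2.2)))) := by
    refine pidh.fst.fst.pair (pidh.snd.snd.pair ?_)
    exact (pidh.fst.fst.pair (pidh.snd.fst.pair pidh.fst.snd.snd)).comp hstep
      (PLe.of_le fun y => Nat.le_add_right _ _)
  have h2 : PB νs (fstep step) := by
    refine (PB.lcase (l := fun x : α × (List β × γ) => x.2.1) (g := fun x => x)
      (h := fun y => (y.1.1, (y.2.2, step (y.1.1, (y.2.1, y.1.2.2))))) pid.snd.fst pid h1
      ?_).congr ?_
    · have e1 : PLe νs fun x => νs x + (sz x + sz x + 1) :=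
        (PLe.self _).add (((PLe.of_le h0).add (PLe.of_le h0)).add (PLe.const _ 1))
      obtain ⟨E, hE⟩ := e1
      refine ⟨E, fun x b t hx => le_trans ?_ (hE x)⟩
      rcases x with ⟨a, l', s⟩
      simp only at hx
      subst hx
      show ν (a, (b, s)) + sz ((a, (b :: t, s)), (b, t)) ≤
        (ν (a, (b, s)) + sz (a, (b :: t, s))) + (sz (a, (b :: t, s)) + sz (a, (b :: t, s)) + 1)
      have e2 : sz (b, t) = sz (b :: t) := by rw [sz_pair, sz_cons]
      have e3 : sz (b :: t) ≤ sz (a, (b :: t, s)) := by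
        rw [sz_pair, sz_pair]; omega
      rw [sz_pair (a, (b :: t, s)) (b, t), e2]
      omega
    · rintro ⟨a, l', s⟩
      cases l' <;> rfl
  have h3 : PB νs (ftest (α := α) (β := β) (γ := γ)) := by
    refine (PB.lcase (l := fun x : α × (List β × γ) => x.2.1) (g := fun _ => false)
      (h := fun _ => true) pid.snd.fst (PB.const h0 _)
      (PB.const (fun _ => le_rfl) _ : PB sz fun _ : (α × (List β × γ)) × (β × List β) => true)
      ?_).congr ?_
    · have e1 : PLe νs fun x => (sz x + sz x + 1) :=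
        (((PLe.of_le h0).add (PLe.of_le h0)).add (PLe.const _ 1))
      obtain ⟨E, hE⟩ := e1
      refine ⟨E, fun x b t hx => le_trans ?_ (hE x)⟩
      rcases x with ⟨a, l', s⟩
      simp only at hx
      subst hx
      show sz ((a, (b :: t, s)), (b, t)) ≤ sz (a, (b :: t, s)) + sz (a, (b :: t, s)) + 1
      have e2 : sz (b, t) = sz (b :: t) := by rw [sz_pair, sz_cons]
      have e3 : sz (b :: t) ≤ sz (a, (b :: t, s)) := by
        rw [sz_pair, sz_pair]; omega
      rw [sz_pair (a, (b :: t, s)) (b, t), e2]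
      omega
    · rintro ⟨a, l', s⟩
      cases l' <;> rfl
  have hi : PB μ fun a => (a, (l a, s0 a)) := (PB.id hl.1).pair (hl.pair hs)
  have key : ∀ a, ∀ j ≤ (l a).length, (fstep step)^[j] (a, (l a, s0 a)) =
      (a, ((l a).drop j, ((l a).take j).foldl (fun s b => step (a, (b, s))) (s0 a))) := by
    intro a j hj
    have e1 := fstep_iter step a ((l a).take j) ((l a).drop j) (s0 a)
    rw [List.take_append_drop, List.length_take, min_eq_left hj] at e1
    exact e1
  have hw : PB μ fun a => (fstep step)^[(l a).length] (a, (l a, s0 a)) := by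
    refine PB.while_from hi h3 h2 (fun a => (l a).length) ?_ ?_ ?_ ?_
    · exact hl.size.mono fun a => by
        have := length_le_sz (l a)
        omega
    · intro a j hj
      rw [key a j hj.le]
      unfold ftest
      rw [List.drop_eq_getElem_cons hj]
    · intro a
      rw [key a _ le_rfl]
      unfold ftest
      rw [List.drop_length]
    · have e1 : PLe μ fun a => (μ a + 2) ^ C + (sz a + (sz (l a) +
          (sz (s0 a) + ((μ a + 2) ^ C + 2) ^ D + (μ a + 2) ^ C) + 1) + 1) := by
        refine PLe.add ⟨C, fun _ => le_rfl⟩ ((hl.szle.add ((hl.size.add ((hs.size.add ?_).add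
          ⟨C, fun _ => le_rfl⟩)).add (PLe.const _ 1))).add (PLe.const _ 1))
        exact ⟨(C + 2) * D, fun a => pow_pow_bd _ _ _⟩
      obtain ⟨E, hE⟩ := e1
      refine ⟨E, fun a j hj => le_trans ?_ (hE a)⟩
      rw [key a j hj]
      have e2 : sz (((l a).take j).foldl (fun s b => step (a, (b, s))) (s0 a)) ≤
          sz (s0 a) + ((μ a + 2) ^ C + 2) ^ D := by
        rcases List.eq_nil_or_concat ((l a).take j) with h | ⟨l1, b, h⟩
        · rw [h]
          exact Nat.le_add_right _ _
        · rw [h, List.concat_eq_append, List.foldl_append, List.foldl_cons, List.foldl_nil]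
          have e3 : l a = l1 ++ b :: (l a).drop j := by
            conv_lhs => rw [← List.take_append_drop j (l a), h]
            simp
          have e4 := hC a l1 b _ e3
          have e5 : sz (step (a, (b, l1.foldl (fun s b => step (a, (b, s))) (s0 a)))) ≤ _ :=
            hD (a, (b, l1.foldl (fun s b => step (a, (b, s))) (s0 a)))
          have e6 := Nat.pow_le_pow_left (Nat.add_le_add_right e4 2) D
          omega
      have e7 : sz ((l a).drop j) ≤ sz (l a) := sz_le_of_sublist (List.drop_sublist _ _)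
      have e8 : (match (l a).drop j with
          | [] => 0
          | b :: _ => ν (a, (b, ((l a).take j).foldl (fun s b => step (a, (b, s))) (s0 a)))) ≤
          (μ a + 2) ^ C := by
        cases h : (l a).drop j with
        | nil => exact Nat.zero_le _
        | cons b l2 =>
          refine hC a ((l a).take j) b l2 ?_
          rw [← h, List.take_append_drop]
      show (match (l a).drop j with
          | [] => 0
          | b :: _ => ν (a, (b, ((l a).take j).foldl (fun s b => step (a, (b, s))) (s0 a)))) +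
          sz (a, ((l a).drop j, ((l a).take j).foldl (fun s b => step (a, (b, s))) (s0 a))) ≤
          (μ a + 2) ^ C + (sz a + (sz (l a) +
          (sz (s0 a) + ((μ a + 2) ^ C + 2) ^ D + (μ a + 2) ^ C) + 1) + 1)
      rw [sz_pair, sz_pair]
      omega
  refine hw.snd.snd.congr fun a => ?_
  rw [key a _ le_rfl, List.take_length]

/-- Folding over a list, with a bound for the sizes of the values. -/
theorem PB.foldl' {μ : α → ℕ} {l : α → List β} {s0 : α → γ}
    {step : α × (β × γ) → γ} (hl : PB μ l) (hs : PB μ s0) (hstep : PB sz step)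
    (hν : ∃ C : ℕ, ∀ a l1 l2, l a = l1 ++ l2 →
      sz (l1.foldl (fun s b => step (a, (b, s))) (s0 a)) ≤ (μ a + 2) ^ C) :
    PB μ fun a => (l a).foldl (fun s b => step (a, (b, s))) (s0 a) := by
  obtain ⟨C, hC⟩ := hν
  obtain ⟨D, hD⟩ := hl.size
  refine hl.foldl hs hstep ?_
  have h1 : PLe μ fun a => sz a + (sz (l a) + (μ a + 2) ^ C + 1) + 1 :=
    (hl.szle.add ((hl.size.add ⟨C, fun _ => le_rfl⟩).add (PLe.const _ 1))).add (PLe.const _ 1)
  obtain ⟨E, hE⟩ := h1
  refine ⟨E, fun a l1 b l2 h => le_trans ?_ (hE a)⟩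
  show _ ≤ sz a + (sz (l a) + (μ a + 2) ^ C + 1) + 1
  rw [sz_pair, sz_pair]
  have h2 := hC a l1 (b :: l2) h
  have h3 : sz b + 2 ≤ sz (l a) := sz_le_of_mem (by rw [h]; simp)
  omega

end EWC
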