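import Pool.Agent.EWC.PBl

/-!
# Project EWC, PBm: functions on lists

All proofs: write the function as a fold and use `PB.foldl` or `PB.foldl'`; the values in the fold
have polynomially bounded size because they are parts of the final value (`sz_append`,
`sz_le_of_sublist`, `sz_list_le`).

* `PB.reverse`: `l.foldl (fun s b => b :: s) []` (`List.foldl_flip_cons_eq_append`...), sizes: the
  size of a list does not depend on the order (`sz_list`).
* `PB.append`: `(l a).reverse.foldl (fun s b => b :: s) (l' a)`.
* `PB.flatMap`: fold over `(l a).reverse` with `s ↦ f (a, b) ++ s`, starting from `[]`.  For the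
  sizes: with `hf.size` and `hν` the size of `f (a, b)` is at most `(μ a + 2) ^ C` for `b ∈ l a`, so
  the size of the value is at most `(l a).length * ((μ a + 2) ^ C + 1) + 1`.
  The step is a function of `(a, (b, s))`: it is PB for the measure
  `ν (a, b) + sz s + ...` (compose `f` with the map `(a, (b, s)) ↦ (a, b)`, `PB.comp`), then append.
* `PB.map`: `flatMap` with `[f (a, b)]`.
* `PB.filter`: `flatMap` with `if p (a, b) then [b] else []`.
* `PB.any`, `PB.all`: fold with a Boolean value (`List.foldl_or`-like lemma by induction; the value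
  has size at most `3`).
* `PB.length`: fold with `s ↦ s + 1` (`natTr (n + 1) = .cons .nil (natTr n)`, so the successor is
  `PB.cons` with the value `()` up to `PB.retype`).
* `PB.iter`: fold over the list `List.replicate (n a) ()`, which has the same code as `n a`.
* the primed versions: the measure of `f` is `sz`, and `sz (a, b) ≤ sz a + sz (l a) + 1` for
  `b ∈ l a` (`sz_le_of_mem`).
-/

set_option autoImplicit false

namespace EWC

variable {α β γ δ : Type} [Dat α] [Dat β] [Dat γ] [Dat δ]

variable {μ : α → ℕ}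

private theorem sz_reverse' (l : List β) : sz l.reverse = sz l := by
  induction l with
  | nil => rfl
  | cons a l ih =>
    have h1 := sz_append l.reverse [a]
    rw [List.reverse_cons]
    rw [sz_cons, sz_nil, ih] at h1
    rw [sz_cons]
    omega

omit [Dat β] in
private theorem foldl_cons' (l l' : List β) :
    l.foldl (fun s b => b :: s) l' = l.reverse ++ l' := by
  induction l generalizing l' with
  | nil => rfl
  | cons a l ih => rw [List.foldl_cons, ih, List.reverse_cons, List.append_assoc]; rfl

private theorem PB.appendR {l l' : α → List β} (hl : PB μ l) (hl' : PB μ l') :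
    PB μ fun a => (l a).reverse ++ l' a := by
  have hstep : PB sz (fun p : α × (β × List β) => p.2.1 :: p.2.2) :=
    PB.cons ((PB.id fun _ => le_rfl).snd.fst) ((PB.id fun _ => le_rfl).snd.snd)
  have h := PB.foldl' hl hl' hstep (by
    obtain ⟨C, hC⟩ := hl.size.add hl'.size
    refine ⟨C, fun a l1 l2 h => le_trans ?_ (hC a)⟩
    show sz (l1.foldl (fun s b => b :: s) (l' a)) ≤ _
    rw [foldl_cons']
    have h1 := sz_append l1.reverse (l' a)
    have h2 := sz_append l1 l2
    rw [sz_reverse'] at h1
    rw [← h] at h2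
    have h3 := sz_pos l2
    beta_reduce
    omega)
  exact h.congr fun a => foldl_cons' _ _

theorem PB.reverse {l : α → List β} (hl : PB μ l) : PB μ fun a => (l a).reverse :=
  (PB.appendR hl (PB.const hl.1 [])).congr fun a => List.append_nil _

theorem PB.append {l l' : α → List β} (hl : PB μ l) (hl' : PB μ l') :
    PB μ fun a => l a ++ l' a :=
  (PB.appendR hl.reverse hl').congr fun a => by rw [List.reverse_reverse]

omit [Dat β] [Dat γ] in
private theorem foldl_flat (g : β → List γ) (l : List β) (s : List γ) :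
    l.foldl (fun s b => g b ++ s) s = l.reverse.flatMap g ++ s := by
  induction l generalizing s with
  | nil => rfl
  | cons a l ih =>
    rw [List.foldl_cons, ih, List.reverse_cons, List.flatMap_append, List.append_assoc]
    simp

omit [Dat β] in
private theorem sz_flatMap_le {g : β → List γ} {l : List β} {B : ℕ} (h : ∀ b ∈ l, sz (g b) ≤ B) :
    sz (l.flatMap g) ≤ l.length * B + 1 := by
  induction l with
  | nil => simp [sz_nil]
  | cons b l ih =>
    rw [List.flatMap_cons, List.length_cons]
    have h1 := h b (by simp)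
    have h2 := ih fun a ha => h a (by simp [ha])
    have h3 := sz_append (g b) (l.flatMap g)
    have : (l.length + 1) * B = l.length * B + B := by ring
    omega

private theorem step_meas {ν : α × β → ℕ} {f : α × β → δ} (hf : PB ν f) :
    PB (fun p : α × (β × γ) => ν (p.1, p.2.1) + sz p) (fun p => f (p.1, p.2.1)) := by
  have h1 : PB (fun p : α × (β × γ) => ν (p.1, p.2.1) + sz p)
      (fun p : α × (β × γ) => (p.1, p.2.1)) :=
    PB.pair (PB.id fun _ => Nat.le_add_left _ _).fst (PB.id fun _ => Nat.le_add_left _ _).snd.fst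
  exact h1.comp hf (PLe.of_le fun _ => Nat.le_add_right _ _)

theorem PB.flatMap {ν : α × β → ℕ} {l : α → List β} {f : α × β → List γ} (hl : PB μ l)
    (hf : PB ν f) (hν : ∃ C : ℕ, ∀ a, ∀ b ∈ l a, ν (a, b) ≤ (μ a + 2) ^ C) :
    PB μ fun a => (l a).flatMap fun b => f (a, b) := by
  obtain ⟨C, hC⟩ := hν
  obtain ⟨D, hD⟩ := hf.size
  have hstep : PB (fun p : α × (β × List γ) => ν (p.1, p.2.1) + sz p)
      (fun p => f (p.1, p.2.1) ++ p.2.2) :=
    PB.append (step_meas hf) (PB.id fun _ => Nat.le_add_left _ _).snd.snd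
  have hB : ∀ a, ∀ b ∈ l a, sz (f (a, b)) ≤ ((μ a + 2) ^ C + 2) ^ D := fun a b hb =>
    (hD (a, b)).trans (Nat.pow_le_pow_left (Nat.add_le_add_right (hC a b hb) 2) D)
  have hP : PLe μ fun a => (μ a + 2) ^ C + (sz a + (sz (l a) +
      (sz (l a) * ((μ a + 2) ^ C + 2) ^ D + 1) + 1) + 1) := by
    have h1 : PLe μ fun a => (μ a + 2) ^ C := ⟨C, fun _ => le_rfl⟩
    exact h1.add ((hl.szle.add ((hl.size.add ((hl.size.mul ((h1.add (PLe.const _ 2)).pow D)).add
      (PLe.const _ 1))).add (PLe.const _ 1))).add (PLe.const _ 1))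
  obtain ⟨E, hE⟩ := hP
  have h := PB.foldl hl.reverse (PB.const hl.1 ([] : List γ)) hstep (by
    refine ⟨E, fun a l1 b l2 h => le_trans ?_ (hE a)⟩
    show ν (a, b) + sz (a, (b, l1.foldl (fun s b => f (a, b) ++ s) [])) ≤ _
    have hm : l a = l2.reverse ++ b :: l1.reverse := by
      rw [← List.reverse_reverse (l a), h]
      simp
    have hb : b ∈ l a := by rw [hm]; simp
    have h1 := hC a b hb
    have h2 := sz_le_of_mem hb
    have h3 : sz (l1.reverse.flatMap fun b => f (a, b)) ≤
        l1.reverse.length * ((μ a + 2) ^ C + 2) ^ D + 1 :=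
      sz_flatMap_le fun c hc => hB a c (by rw [hm]; simp [List.mem_reverse.1 hc])
    have h4 : l1.reverse.length ≤ sz (l a) := by
      have h5 := length_le_sz (l a)
      have h6 : l1.reverse.length ≤ (l a).length := by rw [hm]; simp; omega
      omega
    have h5 := Nat.mul_le_mul_right (((μ a + 2) ^ C + 2) ^ D) h4
    rw [sz_pair, sz_pair, foldl_flat (fun b => f (a, b)), List.append_nil]
    beta_reduce
    omega)
  refine h.congr fun a => ?_
  show (l a).reverse.foldl (fun s b => f (a, b) ++ s) [] = _
  rw [foldl_flat (fun b => f (a, b)), List.append_nil, List.reverse_reverse]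

theorem PB.map {ν : α × β → ℕ} {l : α → List β} {f : α × β → γ} (hl : PB μ l)
    (hf : PB ν f) (hν : ∃ C : ℕ, ∀ a, ∀ b ∈ l a, ν (a, b) ≤ (μ a + 2) ^ C) :
    PB μ fun a => (l a).map fun b => f (a, b) := by
  refine (PB.flatMap hl (PB.cons hf (PB.const hf.1 [])) hν).congr fun a => ?_
  induction l a with
  | nil => rfl
  | cons b l ih => rw [List.flatMap_cons, ih]; rfl

theorem PB.filter {ν : α × β → ℕ} {l : α → List β} {p : α × β → Bool} (hl : PB μ l)
    (hp : PB ν p) (hν : ∃ C : ℕ, ∀ a, ∀ b ∈ l a, ν (a, b) ≤ (μ a + 2) ^ C) :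
    PB μ fun a => (l a).filter fun b => p (a, b) := by
  refine (PB.flatMap hl (PB.cond hp (PB.cons (PB.id hp.1).snd (PB.const hp.1 []))
    (PB.const hp.1 [])) hν).congr fun a => ?_
  induction l a with
  | nil => rfl
  | cons b l ih =>
    rw [List.flatMap_cons, ih, List.filter_cons]
    cases p (a, b) <;> simp

omit [Dat β] in
private theorem foldl_or (q : β → Bool) (l : List β) (s : Bool) :
    l.foldl (fun s b => if s then true else q b) s = (s || l.any q) := by
  induction l generalizing s with
  | nil => simp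
  | cons b l ih =>
    rw [List.foldl_cons, ih, List.any_cons]
    cases s <;> simp

theorem PB.any {ν : α × β → ℕ} {l : α → List β} {p : α × β → Bool} (hl : PB μ l)
    (hp : PB ν p) (hν : ∃ C : ℕ, ∀ a, ∀ b ∈ l a, ν (a, b) ≤ (μ a + 2) ^ C) :
    PB μ fun a => (l a).any fun b => p (a, b) := by
  obtain ⟨C, hC⟩ := hν
  have hstep : PB (fun p : α × (β × Bool) => ν (p.1, p.2.1) + sz p)
      (fun q => if q.2.2 then true else p (q.1, q.2.1)) :=
    PB.cond (PB.id fun _ => Nat.le_add_left _ _).snd.snd
      (PB.const (fun _ => Nat.le_add_left _ _) true) (step_meas hp)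
  have hP : PLe μ fun a => (μ a + 2) ^ C + (sz a + (sz (l a) + 3 + 1) + 1) := by
    have h1 : PLe μ fun a => (μ a + 2) ^ C := ⟨C, fun _ => le_rfl⟩
    exact h1.add ((hl.szle.add ((hl.size.add (PLe.const _ 3)).add (PLe.const _ 1))).add
      (PLe.const _ 1))
  obtain ⟨E, hE⟩ := hP
  have h := PB.foldl hl (PB.const hl.1 false) hstep (by
    refine ⟨E, fun a l1 b l2 h => le_trans ?_ (hE a)⟩
    have hb : b ∈ l a := by rw [h]; simp
    have h1 := hC a b hb
    have h2 := sz_le_of_mem hb
    have h3 := sz_bool (l1.foldl (fun s b => if s then true else p (a, b)) false)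
    show ν (a, b) + sz (a, (b, l1.foldl (fun s b => if s then true else p (a, b)) false)) ≤ _
    rw [sz_pair, sz_pair]
    beta_reduce
    omega)
  refine h.congr fun a => ?_
  show (l a).foldl (fun s b => if s then true else p (a, b)) false = _
  rw [foldl_or (fun b => p (a, b)), Bool.false_or]

private theorem PB.notAux {p : α → Bool} (hp : PB μ p) : PB μ fun a => !p a :=
  (PB.cond hp (PB.const hp.1 false) (PB.const hp.1 true)).congr fun a => by
    cases p a <;> rfl

theorem PB.all {ν : α × β → ℕ} {l : α → List β} {p : α × β → Bool} (hl : PB μ l)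
    (hp : PB ν p) (hν : ∃ C : ℕ, ∀ a, ∀ b ∈ l a, ν (a, b) ≤ (μ a + 2) ^ C) :
    PB μ fun a => (l a).all fun b => p (a, b) := by
  refine (PB.notAux (PB.any hl (PB.notAux hp) hν)).congr fun a => ?_
  induction l a with
  | nil => rfl
  | cons b l ih =>
    rw [List.any_cons, List.all_cons, ← ih]
    cases p (a, b) <;> simp

private theorem meas' {l : α → List β} (hl : PB μ l) :
    ∃ C : ℕ, ∀ a, ∀ b ∈ l a, sz (a, b) ≤ (μ a + 2) ^ C := by
  obtain ⟨E, hE⟩ := (hl.szle.add hl.size).add (PLe.const _ 1)
  refine ⟨E, fun a b hb => le_trans ?_ (hE a)⟩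
  have h2 := sz_le_of_mem hb
  rw [sz_pair]
  beta_reduce
  omega

theorem PB.flatMap' {l : α → List β} {f : α × β → List γ} (hl : PB μ l) (hf : PB sz f) :
    PB μ fun a => (l a).flatMap fun b => f (a, b) := PB.flatMap hl hf (meas' hl)

theorem PB.map' {l : α → List β} {f : α × β → γ} (hl : PB μ l) (hf : PB sz f) :
    PB μ fun a => (l a).map fun b => f (a, b) := PB.map hl hf (meas' hl)

theorem PB.filter' {l : α → List β} {p : α × β → Bool} (hl : PB μ l) (hp : PB sz p) :
    PB μ fun a => (l a).filter fun b => p (a, b) := PB.filter hl hp (meas' hl)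

theorem PB.any' {l : α → List β} {p : α × β → Bool} (hl : PB μ l) (hp : PB sz p) :
    PB μ fun a => (l a).any fun b => p (a, b) := PB.any hl hp (meas' hl)

theorem PB.all' {l : α → List β} {p : α × β → Bool} (hl : PB μ l) (hp : PB sz p) :
    PB μ fun a => (l a).all fun b => p (a, b) := PB.all hl hp (meas' hl)

omit [Dat β] in
private theorem foldl_len (l : List β) (s : ℕ) :
    l.foldl (fun s _ => s + 1) s = s + l.length := by
  induction l generalizing s with
  | nil => rfl
  | cons b l ih => rw [List.foldl_cons, ih, List.length_cons]; omega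

theorem PB.length {l : α → List β} (hl : PB μ l) : PB μ fun a => (l a).length := by
  have hstep : PB sz (fun p : α × (β × ℕ) => p.2.2 + 1) :=
    (PB.pair (PB.const (fun _ => le_rfl) ()) (PB.id fun _ => le_rfl).snd.snd).retype
      fun _ => rfl
  have h := PB.foldl' hl (PB.const hl.1 0) hstep (by
    obtain ⟨C, hC⟩ := hl.size
    refine ⟨C, fun a l1 l2 h => le_trans ?_ (hC a)⟩
    show sz (l1.foldl (fun s _ => s + 1) 0) ≤ _
    rw [foldl_len, sz_nat]
    have h1 := length_le_sz (l a)
    have h2 : l1.length ≤ (l a).length := by rw [h]; simp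
    beta_reduce
    omega)
  refine h.congr fun a => ?_
  show (l a).foldl (fun s _ => s + 1) 0 = _
  rw [foldl_len, Nat.zero_add]

theorem PB.not {p : α → Bool} (hp : PB μ p) : PB μ fun a => !p a := PB.notAux hp

theorem PB.and {p q : α → Bool} (hp : PB μ p) (hq : PB μ q) : PB μ fun a => p a && q a :=
  (PB.cond hp hq (PB.const hp.1 false)).congr fun a => by cases p a <;> rfl

omit [Dat γ] in
private theorem foldl_rep (g : γ → γ) (n : ℕ) (s : γ) :
    (List.replicate n ()).foldl (fun s _ => g s) s = g^[n] s := by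
  induction n generalizing s with
  | zero => rfl
  | succ n ih => rw [List.replicate_succ, List.foldl_cons, ih, Function.iterate_succ_apply]

private theorem tr_rep (n : ℕ) : tr (List.replicate n ()) = tr n := by
  induction n with
  | zero => rfl
  | succ n ih => rw [List.replicate_succ, tr_cons, ih, tr_succ]; rfl

/-- Iteration. -/
theorem PB.iter {ν : α × γ → ℕ} {n : α → ℕ} {s0 : α → γ} {step : α × γ → γ} (hn : PB μ n)
    (hs : PB μ s0) (hstep : PB ν step)
    (hν : ∃ C : ℕ, ∀ a, ∀ j < n a, ν (a, (fun s => step (a, s))^[j] (s0 a)) ≤ (μ a + 2) ^ C) :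
    PB μ fun a => (fun s => step (a, s))^[n a] (s0 a) := by
  obtain ⟨C, hC⟩ := hν
  have hl : PB μ (fun a => List.replicate (n a) ()) := hn.retype fun a => tr_rep _
  have hstep' : PB (fun p : α × (Unit × γ) => ν (p.1, p.2.2) + sz p)
      (fun p => step (p.1, p.2.2)) := by
    have h1 : PB (fun p : α × (Unit × γ) => ν (p.1, p.2.2) + sz p)
        (fun p : α × (Unit × γ) => (p.1, p.2.2)) :=
      PB.pair (PB.id fun _ => Nat.le_add_left _ _).fst
        (PB.id fun _ => Nat.le_add_left _ _).snd.snd
    exact h1.comp hstep (PLe.of_le fun _ => Nat.le_add_right _ _)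
  have hP : PLe μ fun a => (μ a + 2) ^ C + ((μ a + 2) ^ C + 2) := by
    have h1 : PLe μ fun a => (μ a + 2) ^ C := ⟨C, fun _ => le_rfl⟩
    exact h1.add (h1.add (PLe.const _ 2))
  obtain ⟨E, hE⟩ := hP
  have h := PB.foldl hl hs hstep' (by
    refine ⟨E, fun a l1 b l2 h => le_trans ?_ (hE a)⟩
    have hl1 : l1 = List.replicate l1.length () :=
      List.eq_replicate_iff.2 ⟨rfl, fun _ _ => rfl⟩
    have hj : l1.length < n a := by
      have h1 := congrArg List.length h
      rw [List.length_replicate, List.length_append, List.length_cons] at h1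
      omega
    have h1 := hC a l1.length hj
    have h2 := hstep.1 (a, (fun s => step (a, s))^[l1.length] (s0 a))
    show ν (a, l1.foldl (fun s _ => step (a, s)) (s0 a)) +
      sz (a, (b, l1.foldl (fun s _ => step (a, s)) (s0 a))) ≤ _
    have h3 : l1.foldl (fun s _ => step (a, s)) (s0 a) =
        (fun s => step (a, s))^[l1.length] (s0 a) := by
      conv_lhs => rw [hl1]
      exact foldl_rep (fun s => step (a, s)) _ _
    rw [h3, sz_pair, sz_pair, sz_unit]
    rw [sz_pair] at h2
    beta_reduce
    omega)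
  refine h.congr fun a => ?_
  exact foldl_rep (fun s => step (a, s)) _ _

/-- Iteration of a polynomial time function. -/
theorem PB.iter' {n : α → ℕ} {s0 : α → γ} {step : α × γ → γ} (hn : PB μ n)
    (hs : PB μ s0) (hstep : PB sz step)
    (hν : ∃ C : ℕ, ∀ a, ∀ j < n a, sz ((fun s => step (a, s))^[j] (s0 a)) ≤ (μ a + 2) ^ C) :
    PB μ fun a => (fun s => step (a, s))^[n a] (s0 a) := by
  obtain ⟨C, hC⟩ := hν
  refine PB.iter hn hs hstep ?_
  have h1 : PLe μ fun a => (μ a + 2) ^ C := ⟨C, fun _ => le_rfl⟩
  obtain ⟨E, hE⟩ := (hn.szle.add h1).add (PLe.const _ 1)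
  refine ⟨E, fun a j hj => le_trans ?_ (hE a)⟩
  rw [sz_pair]
  have := hC a j hj
  beta_reduce
  omega

end EWC
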