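import Pool.Agent.EWC.PBm
import Pool.Agent.EWC.Rdef

/-!
# Project EWC, PBn: unary arithmetic

Numbers are coded in unary, `sz n = 2 n + 1` (`sz_nat`).

* `PB.succ`: `tr (n + 1) = .cons .nil (tr n)`: `PB.cons` with the value `()` and `PB.retype`.
* `PB.natAdd`: `a + b` is the length of the concatenation of `List.replicate a ()` and
  `List.replicate b ()` (same codes), or iterate the successor (`PB.iter'`).
* `PB.natMul`: iterate the addition of `g a`, `f a` times, starting from `0`.
* `PB.natSub`: iterate the predecessor; the predecessor is `PB.lcase` on `List.replicate n ()`.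
* `PB.natIsZero`, `PB.natLe` (`f a - g a = 0`), `PB.natMin` (`PB.cond`).
* `PB.natDiv`: with the state `(rest, quotient)` iterate `f a` times: if `g a ≤ rest` and `0 < g a`
  then `(rest - g a, quotient + 1)` else the same.  After `f a` steps the quotient is `f a / g a`
  (`Nat.div_eq_of_lt`, `Nat.div_eq_sub_div`; for `g a = 0` it is `0`).
* `PB.log`: `Nat.log 2 n`: with the state `(p, c)` starting from `(1, 0)` iterate `n` times: if
  `2 p ≤ n` then `(2 p, c + 1)` else the same.  Invariant: `p = 2 ^ c`, and after `j` steps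
  `c = min j (Nat.log 2 n)`; the sizes are at most `2 n + 1` each (for `n = 0`: `p ≤ 1`).
* `PB.twoPow`: iterate doubling `f a` times; all the intermediate values are at most `2 ^ f a`.
* `PB.rng`: iterate `(j, L) ↦ (j + 1, j :: L)`, `f a` times from `(0, [])`.
-/

set_option autoImplicit false

namespace EWC

variable {α β γ δ : Type} [Dat α] [Dat β] [Dat γ] [Dat δ]

variable {μ : α → ℕ} {f g : α → ℕ}

/-- The value of a number is bounded by its size. -/
theorem PB.val (hf : PB μ f) : PLe μ f := by
  refine hf.size.mono fun a => ?_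
  have := sz_nat (f a)
  omega

theorem PB.succ (hf : PB μ f) : PB μ fun a => f a + 1 :=
  ((PB.const hf.1 ()).pair hf).retype fun _ => rfl

private theorem id_sz : PB (sz : α → ℕ) fun a => a := PB.id fun _ => le_rfl

omit [Dat α] in
private theorem step_bd {n B : α → ℕ} {γ : Type} [Dat γ] {s : α → ℕ → γ} (h : PLe μ B)
    (hs : ∀ a, ∀ j < n a, sz (s a j) ≤ B a) :
    ∃ C : ℕ, ∀ a, ∀ j < n a, sz (s a j) ≤ (μ a + 2) ^ C := by
  obtain ⟨C, hC⟩ := h
  exact ⟨C, fun a j hj => (hs a j hj).trans (hC a)⟩

private theorem it_succ (n x : ℕ) : (fun s : ℕ => s + 1)^[n] x = x + n := by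
  induction n generalizing x with
  | zero => rfl
  | succ n ih => rw [Function.iterate_succ_apply, ih]; omega

theorem PB.natAdd (hf : PB μ f) (hg : PB μ g) : PB μ fun a => f a + g a := by
  refine (PB.iter' (step := fun p : α × ℕ => p.2 + 1) hg hf (PB.succ (PB.snd id_sz)) ?_).congr
    fun a => it_succ _ _
  refine step_bd (s := fun a j => (fun s : ℕ => s + 1)^[j] (f a)) (hf.size.add hg.size) ?_
  intro a j hj
  rw [it_succ, sz_nat, sz_nat, sz_nat]
  omega

private theorem it_mul (n x y : ℕ) :
    (fun s : ℕ × ℕ => (s.1, s.2 + s.1))^[n] (x, y) = (x, y + n * x) := by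
  induction n generalizing y with
  | zero => simp
  | succ n ih =>
    rw [Function.iterate_succ_apply, ih]
    congr 1
    ring

theorem PB.natMul (hf : PB μ f) (hg : PB μ g) : PB μ fun a => f a * g a := by
  have h1 : PB sz fun p : α × (ℕ × ℕ) => (p.2.1, p.2.2 + p.2.1) :=
    (PB.fst (PB.snd id_sz)).pair ((PB.snd (PB.snd id_sz)).natAdd (PB.fst (PB.snd id_sz)))
  refine (PB.snd (PB.iter' (step := fun p : α × (ℕ × ℕ) => (p.2.1, p.2.2 + p.2.1)) hf
    (s0 := fun a => (g a, 0)) (hg.pair (PB.const hg.1 0)) h1 ?_)).congr fun a => ?_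
  · refine step_bd (s := fun a j => (fun s : ℕ × ℕ => (s.1, s.2 + s.1))^[j] (g a, 0))
      (B := fun a => 2 * g a + 2 * (f a * g a) + 3) ?_ ?_
    · exact (((PLe.const _ 2).mul hg.val).add ((PLe.const _ 2).mul (hf.val.mul hg.val))).add
        (PLe.const _ 3)
    · intro a j hj
      rw [it_mul, sz_pair, sz_nat, sz_nat]
      have : j * g a ≤ f a * g a := Nat.mul_le_mul_right _ hj.le
      omega
  · rw [it_mul]
    simp

private theorem tr_rep (n : ℕ) : tr (List.replicate n ()) = tr n := by
  induction n with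
  | zero => rfl
  | succ n ih =>
    rw [List.replicate_succ, tr_cons, ih]
    rfl

private theorem units (hf : PB μ f) : PB μ fun a => List.replicate (f a) () :=
  hf.retype fun _ => tr_rep _

private theorem natPred (hf : PB μ f) : PB μ fun a => f a - 1 := by
  have h := PB.lcase (units hf) (PB.const hf.1 ([] : List Unit))
    (h := fun p : α × (Unit × List Unit) => p.2.2) (PB.snd (PB.snd id_sz)) ?_
  · refine h.retype fun a => ?_
    rcases h2 : f a with _ | n
    · rfl
    · rw [List.replicate_succ]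
      exact (tr_rep n).symm
  · obtain ⟨C, hC⟩ := (hf.szle.add ((units hf).size)).add (PLe.const _ 1)
    refine ⟨C, fun a b t h => le_trans ?_ (hC a)⟩
    show _ ≤ sz a + sz (List.replicate (f a) ()) + 1
    rw [sz_pair, h, sz_cons, sz_pair]

private theorem it_pred (n x : ℕ) : (fun s : ℕ => s - 1)^[n] x = x - n := by
  induction n generalizing x with
  | zero => rfl
  | succ n ih => rw [Function.iterate_succ_apply, ih]; omega

theorem PB.natSub (hf : PB μ f) (hg : PB μ g) : PB μ fun a => f a - g a := by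
  refine (PB.iter' (step := fun p : α × ℕ => p.2 - 1) hg hf (natPred (PB.snd id_sz)) ?_).congr
    fun a => it_pred _ _
  refine step_bd (s := fun a j => (fun s : ℕ => s - 1)^[j] (f a)) hf.size ?_
  intro a j hj
  rw [it_pred, sz_nat, sz_nat]
  omega

theorem PB.natIsZero (hf : PB μ f) : PB μ fun a => decide (f a = 0) := by
  have h := PB.lcase (units hf) (PB.const hf.1 true)
    (h := fun _ : α × (Unit × List Unit) => false) (PB.const (fun _ => le_rfl) false) ?_
  · refine h.congr fun a => ?_
    rcases h2 : f a with _ | n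
    · rfl
    · rw [List.replicate_succ]
      simp
  · obtain ⟨C, hC⟩ := (hf.szle.add ((units hf).size)).add (PLe.const _ 1)
    refine ⟨C, fun a b t h => le_trans ?_ (hC a)⟩
    show _ ≤ sz a + sz (List.replicate (f a) ()) + 1
    rw [sz_pair, h, sz_cons, sz_pair]

theorem PB.natLe (hf : PB μ f) (hg : PB μ g) : PB μ fun a => decide (f a ≤ g a) :=
  (hf.natSub hg).natIsZero.congr fun a => by
    simp [Nat.sub_eq_zero_iff_le]

theorem PB.natMin (hf : PB μ f) (hg : PB μ g) : PB μ fun a => min (f a) (g a) :=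
  ((hf.natLe hg).cond hf hg).congr fun a => by
    by_cases h : f a ≤ g a
    · simp [h]
    · simp [h, le_of_not_ge h]

private def dstep (s : ℕ × (ℕ × ℕ)) : ℕ × (ℕ × ℕ) :=
  if decide (1 ≤ s.1) && decide (s.1 ≤ s.2.1) then (s.1, (s.2.1 - s.1, s.2.2 + 1)) else s

private theorem it_div (x r j : ℕ) :
    dstep^[j] (x, (r, 0)) = (x, (r - x * min j (r / x), min j (r / x))) := by
  induction j with
  | zero => simp
  | succ j ih =>
    rw [Function.iterate_succ_apply', ih]
    unfold dstep
    simp only
    rcases Nat.eq_zero_or_pos x with hx | hx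
    · subst hx
      simp
    · rcases Nat.lt_or_ge j (r / x) with h | h
      · have h1 : min j (r / x) = j := min_eq_left h.le
        have h2 : min (j + 1) (r / x) = j + 1 := min_eq_left h
        have h3 : x * (j + 1) ≤ r := by
          have := Nat.mul_le_of_le_div x (j + 1) r h
          rwa [mul_comm] at this
        have h4 : x * (j + 1) = x * j + x := by ring
        rw [h1, h2, if_pos (by simp; omega), h4]
        congr 2
        omega
      · have h1 : min j (r / x) = r / x := min_eq_right h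
        have h2 : min (j + 1) (r / x) = r / x := min_eq_right (by omega)
        have h3 : r - x * (r / x) < x := by
          have h5 := Nat.mod_lt r hx
          have h6 := Nat.div_add_mod r x
          omega
        rw [h1, h2, if_neg (by simp; omega)]

private theorem pb_dstep : PB sz fun p : α × (ℕ × (ℕ × ℕ)) => dstep p.2 := by
  have h0 : PB sz fun p : α × (ℕ × (ℕ × ℕ)) => p.2 := PB.snd id_sz
  have h1 : PB sz fun p : α × (ℕ × (ℕ × ℕ)) => p.2.1 := PB.fst h0
  have h2 : PB sz fun p : α × (ℕ × (ℕ × ℕ)) => p.2.2.1 := PB.fst (PB.snd h0)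
  have h3 : PB sz fun p : α × (ℕ × (ℕ × ℕ)) => p.2.2.2 := PB.snd (PB.snd h0)
  exact (((PB.const (fun _ => le_rfl) 1).natLe h1).and (h1.natLe h2)).cond
    (h1.pair ((h2.natSub h1).pair h3.succ)) h0

theorem PB.natDiv (hf : PB μ f) (hg : PB μ g) : PB μ fun a => f a / g a := by
  refine (PB.snd (PB.snd (PB.iter' (step := fun p : α × (ℕ × (ℕ × ℕ)) => dstep p.2) hf
    (s0 := fun a => (g a, (f a, 0))) (hg.pair (hf.pair (PB.const hg.1 0))) pb_dstep ?_))).congr
    fun a => ?_
  · refine step_bd (s := fun a j => dstep^[j] (g a, (f a, 0)))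
      (B := fun a => 2 * g a + 4 * f a + 5) ?_ ?_
    · exact (((PLe.const _ 2).mul hg.val).add ((PLe.const _ 4).mul hf.val)).add (PLe.const _ 5)
    · intro a j hj
      rw [it_div, sz_pair, sz_pair, sz_nat, sz_nat, sz_nat]
      have h1 : min j (f a / g a) ≤ f a := (min_le_left _ _).trans hj.le
      omega
  · have h1 : (fun s => dstep (a, s).2) = dstep := rfl
    rw [h1, it_div]
    exact min_eq_right (Nat.div_le_self _ _)

private def lstep (s : ℕ × (ℕ × ℕ)) : ℕ × (ℕ × ℕ) :=
  if decide (s.2.1 + s.2.1 ≤ s.1) then (s.1, (s.2.1 + s.2.1, s.2.2 + 1)) else s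

private theorem it_log (N j : ℕ) :
    lstep^[j] (N, (1, 0)) = (N, (2 ^ min j (Nat.log 2 N), min j (Nat.log 2 N))) := by
  induction j with
  | zero => simp
  | succ j ih =>
    rw [Function.iterate_succ_apply', ih]
    unfold lstep
    simp only
    rcases Nat.lt_or_ge j (Nat.log 2 N) with h | h
    · have h1 : min j (Nat.log 2 N) = j := min_eq_left h.le
      have h2 : min (j + 1) (Nat.log 2 N) = j + 1 := min_eq_left h
      have hN : N ≠ 0 := by
        rintro rfl
        simp at h
      have h3 : 2 ^ (j + 1) ≤ N := Nat.pow_le_of_le_log hN h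
      have h4 : 2 ^ (j + 1) = 2 ^ j + 2 ^ j := by ring
      rw [h1, h2, if_pos (by simp; omega), h4]
    · have h1 : min j (Nat.log 2 N) = Nat.log 2 N := min_eq_right h
      have h2 : min (j + 1) (Nat.log 2 N) = Nat.log 2 N := min_eq_right (by omega)
      have h3 : N < 2 ^ (Nat.log 2 N + 1) := Nat.lt_pow_succ_log_self (by norm_num) N
      have h4 : 2 ^ (Nat.log 2 N + 1) = 2 ^ Nat.log 2 N + 2 ^ Nat.log 2 N := by ring
      rw [h1, h2, if_neg (by simp; omega)]

private theorem pb_lstep : PB sz fun p : α × (ℕ × (ℕ × ℕ)) => lstep p.2 := by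
  have h0 : PB sz fun p : α × (ℕ × (ℕ × ℕ)) => p.2 := PB.snd id_sz
  have h1 : PB sz fun p : α × (ℕ × (ℕ × ℕ)) => p.2.1 := PB.fst h0
  have h2 : PB sz fun p : α × (ℕ × (ℕ × ℕ)) => p.2.2.1 := PB.fst (PB.snd h0)
  have h3 : PB sz fun p : α × (ℕ × (ℕ × ℕ)) => p.2.2.2 := PB.snd (PB.snd h0)
  exact ((h2.natAdd h2).natLe h1).cond (h1.pair ((h2.natAdd h2).pair h3.succ)) h0

theorem PB.log (hf : PB μ f) : PB μ fun a => Nat.log 2 (f a) := by
  refine (PB.snd (PB.snd (PB.iter' (step := fun p : α × (ℕ × (ℕ × ℕ)) => lstep p.2) hf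
    (s0 := fun a => (f a, (1, 0))) (hf.pair (PB.const hf.1 (1, 0))) pb_lstep ?_))).congr
    fun a => ?_
  · refine step_bd (s := fun a j => lstep^[j] (f a, (1, 0)))
      (B := fun a => 6 * f a + 7) ?_ ?_
    · exact ((PLe.const _ 6).mul hf.val).add (PLe.const _ 7)
    · intro a j hj
      rw [it_log, sz_pair, sz_pair, sz_nat, sz_nat, sz_nat]
      have h1 : min j (Nat.log 2 (f a)) ≤ f a := (min_le_left _ _).trans hj.le
      have h2 : 2 ^ min j (Nat.log 2 (f a)) ≤ f a :=
        Nat.pow_le_of_le_log (by omega) (min_le_right _ _)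
      omega
  · have h1 : (fun s => lstep (a, s).2) = lstep := rfl
    rw [h1, it_log]
    exact min_eq_right (Nat.log_le_self 2 _)

private theorem it_dbl (n : ℕ) : (fun s : ℕ => s + s)^[n] 1 = 2 ^ n := by
  induction n with
  | zero => rfl
  | succ n ih => rw [Function.iterate_succ_apply', ih]; ring

theorem PB.twoPow (hf : PB μ f) (h : PLe μ fun a => 2 ^ f a) : PB μ fun a => 2 ^ f a := by
  refine (PB.iter' (step := fun p : α × ℕ => p.2 + p.2) hf (PB.const hf.1 1)
    ((PB.snd id_sz).natAdd (PB.snd id_sz)) ?_).congr fun a => it_dbl _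
  refine step_bd (s := fun a j => (fun s : ℕ => s + s)^[j] 1)
    (((PLe.const _ 2).mul h).add (PLe.const _ 1)) ?_
  intro a j hj
  rw [it_dbl, sz_nat]
  have : 2 ^ j ≤ 2 ^ f a := Nat.pow_le_pow_right (by norm_num) hj.le
  omega

private theorem it_rng (n : ℕ) :
    (fun s : ℕ × List ℕ => (s.1 + 1, s.1 :: s.2))^[n] (0, []) = (n, EWC.rng n) := by
  induction n with
  | zero => rfl
  | succ n ih => rw [Function.iterate_succ_apply', ih]; rfl

private theorem mem_rng' {n x : ℕ} (h : x ∈ EWC.rng n) : x < n := by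
  induction n with
  | zero => simp [EWC.rng] at h
  | succ n ih =>
    rw [EWC.rng, List.mem_cons] at h
    rcases h with rfl | h
    · omega
    · have := ih h
      omega

private theorem length_rng' (n : ℕ) : (EWC.rng n).length = n := by
  induction n with
  | zero => rfl
  | succ n ih => rw [EWC.rng, List.length_cons, ih]

theorem PB.rng (hf : PB μ f) : PB μ fun a => rng (f a) := by
  have h0 : PB sz fun p : α × (ℕ × List ℕ) => p.2 := PB.snd id_sz
  refine (PB.snd (PB.iter' (step := fun p : α × (ℕ × List ℕ) => (p.2.1 + 1, p.2.1 :: p.2.2)) hf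
    (s0 := fun _ => (0, [])) (PB.const hf.1 (0, []))
    ((PB.succ (PB.fst h0)).pair ((PB.fst h0).cons (PB.snd h0))) ?_)).congr fun a => ?_
  · refine step_bd (s := fun a j => (fun s : ℕ × List ℕ => (s.1 + 1, s.1 :: s.2))^[j] (0, []))
      (B := fun a => 2 * f a + 1 + (f a * (2 * f a + 2) + 1) + 1) ?_ ?_
    · exact ((((PLe.const _ 2).mul hf.val).add (PLe.const _ 1)).add
        ((hf.val.mul (((PLe.const _ 2).mul hf.val).add (PLe.const _ 2))).add
          (PLe.const _ 1))).add (PLe.const _ 1)
    · intro a j hj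
      rw [it_rng, sz_pair, sz_nat]
      have h1 : sz (EWC.rng j) ≤ j * (2 * f a + 1 + 1) + 1 := by
        have h2 := sz_list_le (l := EWC.rng j) (B := 2 * f a + 1) fun x hx => by
          rw [sz_nat]
          have := mem_rng' hx
          omega
        rwa [length_rng'] at h2
      have h3 : j * (2 * f a + 1 + 1) ≤ f a * (2 * f a + 1 + 1) := Nat.mul_le_mul_right _ hj.le
      have h4 : 2 * f a + 1 + 1 = 2 * f a + 2 := rfl
      rw [h4] at h1 h3
      omega
  · rw [it_rng]

end EWC
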