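import Pool.Agent.EWC.Rsem
import Pool.Agent.EWC.Cv1

/-!
# Project EWC, Rext: the search tree finds all minimal extensions

PROOFS.
* `exp1_vars`, `extn_vars`: the variables of the members of `exp1 k γ A` are in `A` or occur in `γ`;
  iterate (`Function.iterate_succ_apply'`, `List.mem_flatMap`).
* `extn_complete`: claim for all `n ≥ B.card` (by induction on `B.card`, for all `A`): there is `A'`
  in `(fun L => L.flatMap (exp1 k γ))^[n] [A]`, `A'.Nodup`, `A'.toFinset = A.toFinset ∪ B`.  `B = ∅`:
  `A` hits `γ`, so `exp1 k γ A = [A]` (the filter is empty, or `k ≤ A.length`), and `A` stays in the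
  list.  `B ≠ ∅`: `A` does not hit `γ` (minimality with `B' = ∅`), `A.length < k`; let `D` be the
  first clause not hit, it is hit by `A ∪ B`, so it has a literal `l` with `l.2 ∈ B`, `l.2 ∉ A`;
  `A₁ = l.2 :: A` is in `exp1 k γ A`, `B₁ = B.erase l.2` has the same properties.  Iterating from a
  list containing `A₁` contains the iteration from `[A₁]` (monotonicity of `flatMap` in the sense of
  `⊆`; `(·)^[n+1] [A] = (·)^[n] (exp1 k γ A)`, `List.flatMap_cons`, `List.flatMap_nil`).
  `k ≥ B.card`.
* `hs_complete`: a minimal `B ⊆ S` with `Hf γ B` (`Finset.exists_minimal` or least cardinality),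
  `extn_complete` with `A = []`; `hits_iff`.
* `chn_complete`: induction on `Reach`; the step with the index `γ` and `B` minimal: `B` is disjoint
  from the current set (otherwise `B \ A` is smaller), `A.length + B.card = (A.toFinset ∪ B).card ≤
  S.card ≤ k`; `extn_complete`.  The list grows: `chn k G r ⊆ chn k G (r + 1)`.
* `uns_complete`: induction on `Reach` for the properties `T ⊆ A`: the step with the index `T` and
  `B` minimal gives `A ∪ B = A ∪ T` (`B = T \ A`), `(un A T).toFinset = A.toFinset ∪ T.toFinset`.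
-/

set_option autoImplicit false

namespace EWC

/-- The name occurs in the list of clauses. -/
def Occ (γ : Fm 1) (u : Name) : Prop := ∃ D ∈ γ, ∃ l ∈ D, l.2 = u

private theorem iter42 {α : Type} (f : α → List α) (Pr : α → Prop)
    (hf : ∀ a b, Pr a → b ∈ f a → Pr b) (n : ℕ) :
    ∀ L : List α, (∀ a ∈ L, Pr a) → ∀ a ∈ (fun L : List α => L.flatMap f)^[n] L, Pr a := by
  induction n with
  | zero => intro L hL a ha; exact hL a ha
  | succ n ih =>
    intro L hL a ha
    rw [Function.iterate_succ_apply] at ha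
    refine ih _ (fun b hb => ?_) a ha
    obtain ⟨c, hc, hb'⟩ := List.mem_flatMap.1 hb
    exact hf c b (hL c hc) hb'

private theorem iter42' {α : Type} (f : α → List α) (Pr : α → Prop)
    (hf : ∀ a b, Pr a → b ∈ f a → Pr b) (n : ℕ) :
    ∀ L : List α, (∀ a ∈ L, Pr a) → ∀ a ∈ (fun L : List α => L ++ L.flatMap f)^[n] L, Pr a := by
  induction n with
  | zero => intro L hL a ha; exact hL a ha
  | succ n ih =>
    intro L hL a ha
    rw [Function.iterate_succ_apply] at ha
    refine ih _ (fun b hb => ?_) a ha
    rcases List.mem_append.1 hb with hb | hb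
    · exact hL b hb
    · obtain ⟨c, hc, hb'⟩ := List.mem_flatMap.1 hb
      exact hf c b (hL c hc) hb'

private theorem iter_mono42 {α : Type} (f : α → List α) (n : ℕ) :
    ∀ L L' : List α, (∀ a ∈ L, a ∈ L') → ∀ a ∈ (fun L : List α => L.flatMap f)^[n] L,
      a ∈ (fun L : List α => L.flatMap f)^[n] L' := by
  induction n with
  | zero => intro L L' h a ha; exact h a ha
  | succ n ih =>
    intro L L' h a ha
    rw [Function.iterate_succ_apply] at ha ⊢
    refine ih _ _ (fun b hb => ?_) a ha
    obtain ⟨c, hc, hb'⟩ := List.mem_flatMap.1 hb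
    exact List.mem_flatMap.2 ⟨c, h c hc, hb'⟩

private theorem iter_grow42 {α : Type} (f : α → List α) (n : ℕ) (L : List α) (a : α) (ha : a ∈ L) :
    a ∈ (fun L : List α => L ++ L.flatMap f)^[n] L := by
  induction n with
  | zero => exact ha
  | succ n ih =>
    rw [Function.iterate_succ_apply']
    exact List.mem_append_left _ ih

theorem exp1_vars {k : ℕ} {γ : Fm 1} {A A' : List Name} (h : A' ∈ exp1 k γ A) (u : Name)
    (hu : u ∈ A') : u ∈ A ∨ Occ γ u := by
  unfold exp1 at h
  split_ifs at h with hk
  · rw [List.mem_singleton] at h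
    subst h
    exact Or.inl hu
  · cases hL : γ.filter (fun D => !hit A D) with
    | nil =>
      rw [hL] at h
      simp only [List.mem_singleton] at h
      subst h
      exact Or.inl hu
    | cons D R =>
      rw [hL] at h
      obtain ⟨l, hl, rfl⟩ := List.mem_map.1 h
      rcases List.mem_cons.1 hu with hu | hu
      · right
        have hD : D ∈ γ.filter (fun D => !hit A D) := by rw [hL]; exact List.mem_cons_self
        exact ⟨D, (List.mem_filter.1 hD).1, l, hl, hu.symm⟩
      · exact Or.inl hu

theorem extn_vars {k : ℕ} {γ : Fm 1} {A A' : List Name} (h : A' ∈ extn k γ A) (u : Name)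
    (hu : u ∈ A') : u ∈ A ∨ Occ γ u := by
  unfold extn at h
  refine iter42 (exp1 k γ) (fun X => ∀ u ∈ X, u ∈ A ∨ Occ γ u) ?_ k [A] ?_ A' h u hu
  · intro X Y hX hY v hv
    rcases exp1_vars hY v hv with h1 | h1
    · exact hX v h1
    · exact Or.inr h1
  · intro X hX v hv
    rw [List.mem_singleton] at hX
    subst hX
    exact Or.inl hv

theorem hs_vars {k : ℕ} {γ : Fm 1} {T : List Name} (h : T ∈ hs k γ) (u : Name)
    (hu : u ∈ T) : Occ γ u := by
  rcases extn_vars (List.mem_filter.1 h).1 u hu with h1 | h1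
  · exact absurd h1 List.not_mem_nil
  · exact h1

theorem hs_hits {k : ℕ} {γ : Fm 1} {T : List Name} (h : T ∈ hs k γ) : hits T γ = true :=
  (List.mem_filter.1 h).2

private theorem hit_iff42 (A : List Name) (D : Fm 0) : hit A D = true ↔ ∃ l ∈ D, l.2 ∈ A := by
  unfold hit
  simp only [List.any_eq_true, decide_eq_true_eq]

private theorem exp1_of_hf42 (k : ℕ) (γ : Fm 1) (A : List Name) (h : Hf γ A.toFinset) :
    exp1 k γ A = [A] := by
  have h1 : γ.filter (fun D => !hit A D) = [] := by
    rw [List.filter_eq_nil_iff]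
    intro D hD
    obtain ⟨l, hl, hA⟩ := h D hD
    have : hit A D = true := (hit_iff42 A D).2 ⟨l, hl, List.mem_toFinset.1 hA⟩
    simp [this]
  unfold exp1
  rw [h1]
  simp

private theorem extn_aux42 (k : ℕ) (γ : Fm 1) (m : ℕ) : ∀ (A : List Name) (B : Finset Name),
    B.card = m → A.Nodup → Hf γ (A.toFinset ∪ B) →
    (∀ B', B' ⊂ B → ¬ Hf γ (A.toFinset ∪ B')) → A.length + B.card ≤ k → ∀ n, m ≤ n →
    ∃ A' ∈ (fun L : List (List Name) => L.flatMap (exp1 k γ))^[n] [A],
      A'.Nodup ∧ A'.toFinset = A.toFinset ∪ B := by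
  induction m with
  | zero =>
    intro A B hB hA hf _ _ n _
    rw [Finset.card_eq_zero] at hB
    subst hB
    rw [Finset.union_empty] at hf
    refine ⟨A, ?_, hA, by rw [Finset.union_empty]⟩
    induction n with
    | zero => exact List.mem_singleton_self A
    | succ n ih =>
      rw [Function.iterate_succ_apply]
      change A ∈ (fun L : List (List Name) => L.flatMap (exp1 k γ))^[n] ([A].flatMap (exp1 k γ))
      rw [List.flatMap_cons, List.flatMap_nil, List.append_nil, exp1_of_hf42 k γ A hf]
      exact ih (Nat.zero_le _)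
  | succ m ih =>
    intro A B hB hA hf hmin hk n hn
    have hne : (∅ : Finset Name) ⊂ B := by
      rw [Finset.empty_ssubset]
      exact Finset.card_pos.1 (by omega)
    have h0 := hmin ∅ hne
    rw [Finset.union_empty] at h0
    obtain ⟨n, rfl⟩ : ∃ n', n = n' + 1 := ⟨n - 1, by omega⟩
    have hnk : ¬ k ≤ A.length := by omega
    cases hL : γ.filter (fun D => !hit A D) with
    | nil =>
      exfalso
      apply h0
      intro D hD
      rw [List.filter_eq_nil_iff] at hL
      have h1 := hL D hD
      have h2 : hit A D = true := by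
        by_contra h3
        rw [Bool.not_eq_true] at h3
        exact h1 (by rw [h3]; rfl)
      obtain ⟨l, hl, h3⟩ := (hit_iff42 A D).1 h2
      exact ⟨l, hl, List.mem_toFinset.2 h3⟩
    | cons D R =>
      have hD : D ∈ γ.filter (fun D => !hit A D) := by rw [hL]; exact List.mem_cons_self
      obtain ⟨hDγ, hDh⟩ := List.mem_filter.1 hD
      have hDn : ¬ ∃ l ∈ D, l.2 ∈ A := by
        intro h1
        rw [(hit_iff42 A D).2 h1] at hDh
        exact Bool.false_ne_true hDh
      obtain ⟨l, hl, hlu⟩ := hf D hDγ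
      have hlA : l.2 ∉ A := fun h1 => hDn ⟨l, hl, h1⟩
      have hlB : l.2 ∈ B := by
        rcases Finset.mem_union.1 hlu with h1 | h1
        · exact absurd (List.mem_toFinset.1 h1) hlA
        · exact h1
      have hA1 : l.2 :: A ∈ exp1 k γ A := by
        unfold exp1
        rw [if_neg hnk, hL]
        exact List.mem_map.2 ⟨l, hl, rfl⟩
      have hun : ∀ B' : Finset Name, (l.2 :: A).toFinset ∪ B' = A.toFinset ∪ insert l.2 B' := by
        intro B'
        rw [List.toFinset_cons, Finset.insert_union, Finset.union_insert]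
      have hB1 : (l.2 :: A).toFinset ∪ B.erase l.2 = A.toFinset ∪ B := by
        rw [hun, Finset.insert_erase hlB]
      have hmin1 : ∀ B', B' ⊂ B.erase l.2 → ¬ Hf γ ((l.2 :: A).toFinset ∪ B') := by
        intro B' hB'
        rw [hun]
        apply hmin
        refine ⟨?_, ?_⟩
        · intro x hx
          rcases Finset.mem_insert.1 hx with h4 | h4
          · rw [h4]; exact hlB
          · exact Finset.mem_of_mem_erase (hB'.1 h4)
        · intro h4
          apply hB'.2
          intro x hx
          have h5 := h4 (Finset.mem_of_mem_erase hx)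
          rcases Finset.mem_insert.1 h5 with h6 | h6
          · exact absurd h6 (Finset.ne_of_mem_erase hx)
          · exact h6
      obtain ⟨A', hA', h1, h2⟩ := ih (l.2 :: A) (B.erase l.2)
        (by rw [Finset.card_erase_of_mem hlB, hB]; rfl)
        (List.nodup_cons.2 ⟨hlA, hA⟩) (by rw [hB1]; exact hf) hmin1
        (by rw [List.length_cons, Finset.card_erase_of_mem hlB]; omega) n (by omega)
      refine ⟨A', ?_, h1, by rw [h2, hB1]⟩
      rw [Function.iterate_succ_apply]
      refine iter_mono42 (exp1 k γ) n [l.2 :: A] _ (fun X hX => ?_) A' hA'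
      rw [List.mem_singleton] at hX
      subst hX
      exact List.mem_flatMap.2 ⟨A, List.mem_singleton_self A, hA1⟩

theorem extn_complete (k : ℕ) (γ : Fm 1) (A : List Name) (B : Finset Name) (hA : A.Nodup)
    (hB : Hf γ (A.toFinset ∪ B)) (hmin : ∀ B', B' ⊂ B → ¬ Hf γ (A.toFinset ∪ B'))
    (hk : A.length + B.card ≤ k) :
    ∃ A' ∈ extn k γ A, A'.Nodup ∧ A'.toFinset = A.toFinset ∪ B := by
  unfold extn
  exact extn_aux42 k γ B.card A B rfl hA hB hmin hk k (by omega)

theorem hs_complete (k : ℕ) (γ : Fm 1) (S : Finset Name) (hS : S.card ≤ k) (h : Hf γ S) :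
    ∃ T ∈ hs k γ, T.toFinset ⊆ S := by
  classical
  obtain ⟨B, hB, hmin⟩ := Finset.exists_min_image
    (S.powerset.filter (fun B => Hf γ B)) Finset.card
    ⟨S, by
      rw [Finset.mem_filter, Finset.mem_powerset]
      exact ⟨Finset.Subset.refl S, h⟩⟩
  rw [Finset.mem_filter, Finset.mem_powerset] at hB
  obtain ⟨A', hA', -, h2⟩ := extn_complete k γ [] B List.nodup_nil
    (by rw [List.toFinset_nil, Finset.empty_union]; exact hB.2)
    (by
      intro B' hB' hf
      rw [List.toFinset_nil, Finset.empty_union] at hf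
      have h1 := hmin B' (by
        rw [Finset.mem_filter, Finset.mem_powerset]
        exact ⟨hB'.1.trans hB.1, hf⟩)
      exact absurd (Finset.card_lt_card hB') (not_lt.2 h1))
    (by
      have := Finset.card_le_card hB.1
      rw [List.length_nil]
      omega)
  rw [List.toFinset_nil, Finset.empty_union] at h2
  refine ⟨A', List.mem_filter.2 ⟨hA', ?_⟩, by rw [h2]; exact hB.1⟩
  rw [hits_iff, h2]
  exact hB.2

theorem chn_vars {k : ℕ} {G : List (Fm 1)} {r : ℕ} {A : List Name} (h : A ∈ chn k G r)
    (u : Name) (hu : u ∈ A) : ∃ γ ∈ G, Occ γ u := by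
  unfold chn at h
  refine iter42' (fun A => G.flatMap fun γ => extn k γ A) (fun X => ∀ u ∈ X, ∃ γ ∈ G, Occ γ u)
    ?_ r [[]] ?_ A h u hu
  · intro X Y hX hY v hv
    obtain ⟨γ, hγ, h1⟩ := List.mem_flatMap.1 hY
    rcases extn_vars h1 v hv with h2 | h2
    · exact hX v h2
    · exact ⟨γ, hγ, h2⟩
  · intro X hX v hv
    rw [List.mem_singleton] at hX
    subst hX
    exact absurd hv List.not_mem_nil

theorem uns_vars {TT : List (List Name)} {r : ℕ} {A : List Name} (h : A ∈ uns TT r)
    (u : Name) (hu : u ∈ A) : ∃ T ∈ TT, u ∈ T := by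
  unfold uns at h
  refine iter42' (fun A => TT.map (un A)) (fun X => ∀ u ∈ X, ∃ T ∈ TT, u ∈ T)
    ?_ r [[]] ?_ A h u hu
  · intro X Y hX hY v hv
    obtain ⟨T, hT, rfl⟩ := List.mem_map.1 hY
    unfold un at hv
    rcases List.mem_append.1 hv with h2 | h2
    · exact hX v h2
    · exact ⟨T, hT, (List.mem_filter.1 h2).1⟩
  · intro X hX v hv
    rw [List.mem_singleton] at hX
    subst hX
    exact absurd hv List.not_mem_nil

theorem chn_complete (k : ℕ) (G : List (Fm 1)) (I : Finset (Fm 1)) (hI : ∀ γ ∈ I, γ ∈ G)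
    (S : Finset Name) (hS : S.card ≤ k) (r : ℕ) (U : Finset Name)
    (h : Reach (fun γ A => Hf γ A) I S r ∅ U) :
    ∃ A ∈ chn k G r, A.Nodup ∧ A.toFinset = U := by
  generalize hE : (∅ : Finset Name) = E at h
  induction h with
  | refl n A =>
    refine ⟨[], ?_, List.nodup_nil, by rw [List.toFinset_nil, hE]⟩
    unfold chn
    exact iter_grow42 _ n _ _ (List.mem_singleton_self _)
  | @step n A A' h γ hγ B hB hH hmin ih =>
    obtain ⟨A0, hA0, hnd, hfin⟩ := ih hE
    have hsub : A' ⊆ S := by
      have h1 := h.subset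
      rwa [← hE, Finset.empty_union] at h1
    have hdisj : Disjoint A' B := by
      rw [disjoint_comm, ← Finset.sdiff_eq_self_iff_disjoint]
      by_contra hne
      refine hmin (B \ A') (Finset.sdiff_subset.ssubset_of_ne hne) ?_
      rw [Finset.union_sdiff_self_eq_union]
      exact hH
    obtain ⟨A1, hA1, h1, h2⟩ := extn_complete k γ A0 B hnd (by rw [hfin]; exact hH)
      (by rw [hfin]; exact hmin) (by
        rw [← List.toFinset_card_of_nodup hnd, hfin, ← Finset.card_union_of_disjoint hdisj]
        exact (Finset.card_le_card (Finset.union_subset hsub hB)).trans hS)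
    refine ⟨A1, ?_, h1, by rw [h2, hfin]⟩
    unfold chn
    rw [Function.iterate_succ_apply']
    refine List.mem_append_right _ (List.mem_flatMap.2 ⟨A0, hA0, ?_⟩)
    exact List.mem_flatMap.2 ⟨γ, hI γ hγ, hA1⟩

theorem uns_complete (TT : List (List Name)) (I : Finset (Finset Name))
    (hI : ∀ T ∈ I, ∃ T' ∈ TT, T'.toFinset = T) (S : Finset Name) (r : ℕ) (U : Finset Name)
    (h : Reach (fun T A => T ⊆ A) I S r ∅ U) :
    ∃ A ∈ uns TT r, A.toFinset = U := by
  generalize hE : (∅ : Finset Name) = E at h
  induction h with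
  | refl n A =>
    refine ⟨[], ?_, by rw [List.toFinset_nil, hE]⟩
    unfold uns
    exact iter_grow42 _ n _ _ (List.mem_singleton_self _)
  | @step n A A' h T hT B hB hH hmin ih =>
    obtain ⟨A0, hA0, hfin⟩ := ih hE
    obtain ⟨T', hT', hTf⟩ := hI T hT
    have hBe : A' ∪ B = A' ∪ T := by
      have h1 : T \ A' ⊆ B := by
        intro x hx
        rw [Finset.mem_sdiff] at hx
        rcases Finset.mem_union.1 (hH hx.1) with h2 | h2
        · exact absurd h2 hx.2
        · exact h2
      have h2 : T \ A' = B := by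
        by_contra hne
        refine hmin (T \ A') (h1.ssubset_of_ne hne) ?_
        rw [Finset.union_sdiff_self_eq_union]
        exact Finset.subset_union_right
      rw [← h2, Finset.union_sdiff_self_eq_union]
    refine ⟨un A0 T', ?_, ?_⟩
    · unfold uns
      rw [Function.iterate_succ_apply']
      refine List.mem_append_right _ (List.mem_flatMap.2 ⟨A0, hA0, ?_⟩)
      exact List.mem_map.2 ⟨T', hT', rfl⟩
    · rw [hBe, ← hfin, ← hTf]
      unfold un
      ext x
      simp only [List.mem_toFinset, List.mem_append, List.mem_filter, Finset.mem_union,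
        Bool.not_eq_true', decide_eq_false_iff_not]
      tauto

end EWC
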