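import Pool.Agent.EWC.Rdef

/-!
# Project EWC, Rsem: semantics of the transformation

`pol sg t`: the kind of the outermost list of a formula of depth `t + 2` whose subformulas of depth
two are disjunctions for `sg = true` and conjunctions for `sg = false`.

PROOF of `ev_tf`.  Induction on `t`.  Step: `ev (t + 1 + 1) g φ' ` and `ev (t + 1 + 2) g φ` unfold to
the same quantifier over the members (`List.mem_map`, `pol sg (t + 1) = !pol sg t`), apply the
induction hypothesis to the members (their literals are among those of `φ`, their leaves among those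
of `φ`: `List.mem_flatMap`).
`t = 0`, `sg = true`, `pol = false`: left side: there is a member `[(true, wv w.1 w.2)]` of the list,
`w ∈ W`, `hits w.2 γ` for some `γ ∈ β`, all of whose literals hold, i.e. `wv w.1 w.2 ∈ S'`.  Right
side: there is `γ ∈ β` with `ev 1 true γ S`: every clause `D ∈ γ` has a literal `l` with `holds S l`;
as `l.1 = true` this is `l.2 ∈ S`, so it is `Hf γ S`.  Use `h`, `leaves 1 β = β.flatMap (leaves 0)`
has the same members as `β`.
`t = 0`, `sg = false`, `pol = true`: left side: for all `w ∈ W` and `γ ∈ β` with `hits w.2 γ`: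
`wv w.1 w.2 ∉ S'`.  Right side: for all `γ ∈ β` there is a clause `D ∈ γ` with all literals holding,
i.e. `l.2 ∉ S` for all `l ∈ D`; that is `¬ Hf γ S`.
-/

set_option autoImplicit false

namespace EWC

/-- The kind of the outermost list. -/
def pol (sg : Bool) : ℕ → Bool
  | 0 => !sg
  | t + 1 => !pol sg t

private theorem pol_even (s : ℕ) (sg : Bool) : pol sg s = if Even s then !sg else sg := by
  induction s with
  | zero => simp [pol]
  | succ s ih =>
    simp only [pol, ih, Nat.even_add_one]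
    split_ifs <;> simp_all

/-- For a formula in `Γ_{s+3}` the kind is `true` if the sign is positive for even `s` and negative
for odd `s`. -/
theorem pol_eq (s : ℕ) : pol (decide (Even (s + 2))) (s + 1) = true := by
  rw [pol_even]
  by_cases hs : Even s
  · have h2 : Even (s + 2) := by simp [Nat.even_add, hs]
    have h1 : ¬ Even (s + 1) := by simp [Nat.even_add_one, hs]
    rw [if_neg h1, decide_eq_true h2]
  · have h2 : ¬ Even (s + 2) := by simp [Nat.even_add, hs]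
    have h1 : Even (s + 1) := by simp [Nat.even_add_one, hs]
    rw [if_pos h1, decide_eq_false h2]
    rfl

theorem holds_true (S : Finset Name) (u : Name) : holds S (true, u) ↔ u ∈ S := by
  simp [holds]

theorem holds_false (S : Finset Name) (u : Name) : holds S (false, u) ↔ u ∉ S := by
  simp [holds]

theorem hits_iff (A : List Name) (γ : Fm 1) : hits A γ = true ↔ Hf γ A.toFinset := by
  unfold hits hit Hf
  simp only [List.all_eq_true, List.any_eq_true, decide_eq_true_eq, List.mem_toFinset]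

theorem Hf.mono {γ : Fm 1} {S S' : Finset Name} (h : Hf γ S) (hS : S ⊆ S') : Hf γ S' := by
  intro D hD
  obtain ⟨l, hl, h1⟩ := h D hD
  exact ⟨l, hl, hS h1⟩

theorem mem_rng (b n : ℕ) : b ∈ rng n ↔ b < n := by
  induction n with
  | zero => simp [rng]
  | succ n ih =>
    simp only [rng, List.mem_cons, ih]
    omega

theorem mem_recs (N : ℕ) (AA : List (List Name)) (w : ℕ × List Name) :
    w ∈ recs N AA ↔ w.1 < N ∧ w.2 ∈ AA := by
  unfold recs
  simp only [List.mem_flatMap, List.mem_map, mem_rng]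
  constructor
  · rintro ⟨b, hb, A, hA, rfl⟩
    exact ⟨hb, hA⟩
  · rintro ⟨h1, h2⟩
    exact ⟨w.1, h1, w.2, h2, rfl⟩

/-- The variables of a leaf are variables of the formula. -/
theorem mem_names_of_leaf (t : ℕ) (φ : Fm (t + 1)) (γ : Fm 1) (hγ : γ ∈ leaves t φ) (D : Fm 0)
    (hD : D ∈ γ) (l : Lit) (hl : l ∈ D) : l ∈ lits (t + 1) φ := by
  induction t with
  | zero =>
    have h1 : γ = φ := by simpa [leaves] using hγ
    subst h1
    exact List.mem_flatMap.2 ⟨D, hD, hl⟩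
  | succ t ih =>
    have h1 : ∃ ψ ∈ φ, γ ∈ leaves t ψ := by simpa [leaves] using hγ
    obtain ⟨ψ, hψ, h2⟩ := h1
    exact List.mem_flatMap.2 ⟨ψ, hψ, ih ψ h2⟩

private theorem ev_tf_pos (W : List (ℕ × List Name)) (S S' : Finset Name) (φ : Fm 2)
    (hs : ∀ l ∈ lits 2 φ, l.1 = true)
    (h : ∀ γ ∈ leaves 1 φ, (∃ w ∈ W, hits w.2 γ = true ∧ wv w.1 w.2 ∈ S') ↔ Hf γ S) :
    ev 1 false (tf true W 0 φ) S' ↔ ev 2 false φ S := by
  have hsub : ∀ γ ∈ φ, γ ∈ leaves 1 φ := fun γ hγ =>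
    List.mem_flatMap.2 ⟨γ, hγ, by simp [leaves]⟩
  have hlit : ∀ γ ∈ φ, ∀ D ∈ γ, ∀ l ∈ D, l.1 = true := fun γ hγ D hD l hl =>
    hs l (List.mem_flatMap.2 ⟨γ, hγ, List.mem_flatMap.2 ⟨D, hD, hl⟩⟩)
  have e1 : ev 1 false (tf true W 0 φ) S' ↔
      ∃ γ ∈ φ, ∃ w ∈ W, hits w.2 γ = true ∧ wv w.1 w.2 ∈ S' := by
    constructor
    · rintro ⟨ψ, hψ, h1⟩
      obtain ⟨w, hw, rfl⟩ := List.mem_map.1 hψ
      obtain ⟨hw1, hw2⟩ := List.mem_filter.1 hw
      obtain ⟨γ, hγ, hh⟩ := List.any_eq_true.1 hw2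
      refine ⟨γ, hγ, w, hw1, hh, ?_⟩
      have h2 := h1 (true, wv w.1 w.2) (by simp)
      exact (holds_true _ _).1 h2
    · rintro ⟨γ, hγ, w, hw, hh, h1⟩
      refine ⟨[(true, wv w.1 w.2)], List.mem_map.2 ⟨w, List.mem_filter.2
        ⟨hw, List.any_eq_true.2 ⟨γ, hγ, hh⟩⟩, rfl⟩, ?_⟩
      intro l hl
      have : l = (true, wv w.1 w.2) := by simpa using hl
      subst this
      exact (holds_true _ _).2 h1
  have e2 : ev 2 false φ S ↔ ∃ γ ∈ φ, Hf γ S := by
    constructor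
    · rintro ⟨γ, hγ, h1⟩
      refine ⟨γ, hγ, fun D hD => ?_⟩
      obtain ⟨l, hl, h2⟩ := h1 D hD
      refine ⟨l, hl, ?_⟩
      have h3 := hlit γ hγ D hD l hl
      exact h2.2 h3
    · rintro ⟨γ, hγ, h1⟩
      refine ⟨γ, hγ, fun D hD => ?_⟩
      obtain ⟨l, hl, h2⟩ := h1 D hD
      refine ⟨l, hl, ?_⟩
      have h3 := hlit γ hγ D hD l hl
      exact ⟨fun _ => h3, fun _ => h2⟩
  rw [e1, e2]
  constructor
  · rintro ⟨γ, hγ, h1⟩
    exact ⟨γ, hγ, (h γ (hsub γ hγ)).1 h1⟩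
  · rintro ⟨γ, hγ, h1⟩
    exact ⟨γ, hγ, (h γ (hsub γ hγ)).2 h1⟩

private theorem ev_tf_neg (W : List (ℕ × List Name)) (S S' : Finset Name) (φ : Fm 2)
    (hs : ∀ l ∈ lits 2 φ, l.1 = false)
    (h : ∀ γ ∈ leaves 1 φ, (∃ w ∈ W, hits w.2 γ = true ∧ wv w.1 w.2 ∈ S') ↔ Hf γ S) :
    ev 1 true (tf false W 0 φ) S' ↔ ev 2 true φ S := by
  have hsub : ∀ γ ∈ φ, γ ∈ leaves 1 φ := fun γ hγ =>
    List.mem_flatMap.2 ⟨γ, hγ, by simp [leaves]⟩
  have hlit : ∀ γ ∈ φ, ∀ D ∈ γ, ∀ l ∈ D, l.1 = false := fun γ hγ D hD l hl =>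
    hs l (List.mem_flatMap.2 ⟨γ, hγ, List.mem_flatMap.2 ⟨D, hD, hl⟩⟩)
  have e1 : ev 1 true (tf false W 0 φ) S' ↔
      ∀ γ ∈ φ, ¬ ∃ w ∈ W, hits w.2 γ = true ∧ wv w.1 w.2 ∈ S' := by
    constructor
    · rintro h0 γ hγ ⟨w, hw, hh, h1⟩
      obtain ⟨l, hl, h2⟩ := h0 [(false, wv w.1 w.2)] (List.mem_map.2 ⟨w, List.mem_filter.2
        ⟨hw, List.any_eq_true.2 ⟨γ, hγ, hh⟩⟩, rfl⟩)
      have : l = (false, wv w.1 w.2) := by simpa using hl
      subst this
      exact (holds_false _ _).1 h2 h1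
    · intro h0 ψ hψ
      obtain ⟨w, hw, rfl⟩ := List.mem_map.1 hψ
      obtain ⟨hw1, hw2⟩ := List.mem_filter.1 hw
      obtain ⟨γ, hγ, hh⟩ := List.any_eq_true.1 hw2
      refine ⟨(false, wv w.1 w.2), by simp, (holds_false _ _).2 fun h1 => ?_⟩
      exact h0 γ hγ ⟨w, hw1, hh, h1⟩
  have e2 : ev 2 true φ S ↔ ∀ γ ∈ φ, ¬ Hf γ S := by
    constructor
    · intro h0 γ hγ h1
      obtain ⟨D, hD, h2⟩ := h0 γ hγ
      obtain ⟨l, hl, h3⟩ := h1 D hD
      have h4 := hlit γ hγ D hD l hl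
      have h5 := (h2 l hl).1 h3
      rw [h4] at h5
      exact Bool.false_ne_true h5
    · intro h0 γ hγ
      have h1 := h0 γ hγ
      unfold Hf at h1
      push Not at h1
      obtain ⟨D, hD, h2⟩ := h1
      refine ⟨D, hD, fun l hl => ?_⟩
      have h4 := hlit γ hγ D hD l hl
      refine ⟨fun h5 => absurd h5 (h2 l hl), fun h5 => ?_⟩
      rw [h4] at h5
      exact absurd h5 Bool.false_ne_true
  rw [e1, e2]
  constructor
  · intro h0 γ hγ h1
    exact h0 γ hγ ((h γ (hsub γ hγ)).2 h1)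
  · intro h0 γ hγ h1
    exact h0 γ hγ ((h γ (hsub γ hγ)).1 h1)

theorem ev_tf (sg : Bool) (W : List (ℕ × List Name)) (S S' : Finset Name) : ∀ (t : ℕ)
    (φ : Fm (t + 2)), (∀ l ∈ lits (t + 2) φ, l.1 = sg) →
    (∀ γ ∈ leaves (t + 1) φ, (∃ w ∈ W, hits w.2 γ = true ∧ wv w.1 w.2 ∈ S') ↔ Hf γ S) →
    (ev (t + 1) (pol sg t) (tf sg W t φ) S' ↔ ev (t + 2) (pol sg t) φ S) := by
  intro t
  induction t with
  | zero =>
    intro φ hs h
    cases sg with
    | true => exact ev_tf_pos W S S' φ hs h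
    | false => exact ev_tf_neg W S S' φ hs h
  | succ t ih =>
    intro φ hs h
    have ih' : ∀ ψ ∈ φ, (ev (t + 1) (pol sg t) (tf sg W t ψ) S' ↔ ev (t + 2) (pol sg t) ψ S) := by
      intro ψ hψ
      refine ih ψ (fun l hl => hs l (List.mem_flatMap.2 ⟨ψ, hψ, hl⟩)) fun γ hγ => ?_
      exact h γ (List.mem_flatMap.2 ⟨ψ, hψ, hγ⟩)
    rw [pol]
    cases hp : pol sg t with
    | true =>
      rw [hp] at ih'
      constructor
      · rintro ⟨χ, hχ, h1⟩
        obtain ⟨ψ, hψ, rfl⟩ := List.mem_map.1 hχ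
        exact ⟨ψ, hψ, (ih' ψ hψ).1 h1⟩
      · rintro ⟨ψ, hψ, h1⟩
        exact ⟨tf sg W t ψ, List.mem_map.2 ⟨ψ, hψ, rfl⟩, (ih' ψ hψ).2 h1⟩
    | false =>
      rw [hp] at ih'
      constructor
      · intro h0 ψ hψ
        exact (ih' ψ hψ).1 (h0 (tf sg W t ψ) (List.mem_map.2 ⟨ψ, hψ, rfl⟩))
      · intro h0 χ hχ
        obtain ⟨ψ, hψ, rfl⟩ := List.mem_map.1 hχ
        exact (ih' ψ hψ).2 (h0 ψ hψ)

/-- A literal as a formula. -/
theorem ev_up (g : Bool) (S : Finset Name) (s : ℕ) (l : Lit) : ev s g (up s l) S ↔ holds S l := by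
  induction s generalizing g with
  | zero =>
    cases g with
    | true => simp [ev, up]
    | false => simp [ev, up]
  | succ s ih =>
    cases g with
    | true => simp [ev, up, ih]
    | false => simp [ev, up, ih]

/-- A clause as a disjunction of depth `s + 1`. -/
theorem ev_clause (S : Finset Name) (s : ℕ) (c : List Lit) :
    ev (s + 1) false (c.map (up s) : List (Fm s)) S ↔ ∃ l ∈ c, holds S l := by
  constructor
  · rintro ⟨ψ, hψ, h1⟩
    obtain ⟨l, hl, rfl⟩ := List.mem_map.1 hψ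
    exact ⟨l, hl, (ev_up _ _ _ _).1 h1⟩
  · rintro ⟨l, hl, h1⟩
    exact ⟨up s l, List.mem_map.2 ⟨l, hl, rfl⟩, (ev_up _ _ _ _).2 h1⟩

theorem lits_up (s : ℕ) (l : Lit) : lits s (up s l) = [l] := by
  induction s with
  | zero => rfl
  | succ s ih => simp [lits, up, ih]

theorem wid_up (s : ℕ) (l : Lit) : wid 1 s (up s l) := by
  induction s with
  | zero => simp [wid, up]
  | succ s ih =>
    intro ψ hψ
    have : ψ = up s l := by simpa [up] using hψ
    rw [this]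
    exact ih

/-- The variables of the transformed formula. -/
theorem mem_lits_tf (sg : Bool) (W : List (ℕ × List Name)) (t : ℕ) (φ : Fm (t + 2)) (l : Lit)
    (hl : l ∈ lits (t + 1) (tf sg W t φ)) : ∃ w ∈ W, l = (sg, wv w.1 w.2) := by
  induction t with
  | zero =>
    obtain ⟨ψ, hψ, h1⟩ := List.mem_flatMap.1 hl
    obtain ⟨w, hw, rfl⟩ := List.mem_map.1 hψ
    obtain ⟨hw1, hw2⟩ := List.mem_filter.1 hw
    exact ⟨w, hw1, by simpa [lits] using h1⟩
  | succ t ih =>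
    obtain ⟨χ, hχ, h1⟩ := List.mem_flatMap.1 hl
    obtain ⟨ψ, hψ, rfl⟩ := List.mem_map.1 hχ
    exact ih ψ h1

theorem wid_tf (sg : Bool) (W : List (ℕ × List Name)) (t : ℕ) (φ : Fm (t + 2)) :
    wid 1 (t + 1) (tf sg W t φ) := by
  induction t with
  | zero =>
    intro ψ hψ
    obtain ⟨w, hw, rfl⟩ := List.mem_map.1 hψ
    simp [wid]
  | succ t ih =>
    intro χ hχ
    obtain ⟨ψ, hψ, rfl⟩ := List.mem_map.1 hχ
    exact ih ψ

end EWC
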