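import Pool.Agent.EWC.Tree
import Pool.Agent.Helper64.MEE.Cmd

/-!
# Project EWC: programs on five stacks

The stack `M` holds the data (words of trees, one after the other, first symbol on top), `A` and
`B` are used for moving words, `C` for counting, `F` for the flags of the `while` loops.
The language `Cmd` and its semantics `Runs` (exact cost) are in `Pool/Agent/Helper64/MEE/Cmd.lean`
(`Pool.Agent.Helper64.Stk`).
`Ru p S S' n`: the program `p` takes the stacks `S` to `S'` in at most `n` steps.
-/

set_option autoImplicit false

namespace EWC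

open Pool.Agent.Helper64.Stk

/-- Names of the stacks. -/
inductive Key : Type
  | M | A | B | C | F
  deriving DecidableEq

instance : Fintype Key where
  elems := {.M, .A, .B, .C, .F}
  complete a := by cases a <;> decide

/-- Programs. -/
abbrev Prog := Cmd Key Bool

/-- The contents of the stacks, top first. -/
def st (m a b c f : List Bool) : Key → List Bool
  | .M => m
  | .A => a
  | .B => b
  | .C => c
  | .F => f

theorem st_M (m a b c f l : List Bool) : Function.update (st m a b c f) .M l = st l a b c f := by
  funext j; cases j <;> rfl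
theorem st_A (m a b c f l : List Bool) : Function.update (st m a b c f) .A l = st m l b c f := by
  funext j; cases j <;> rfl
theorem st_B (m a b c f l : List Bool) : Function.update (st m a b c f) .B l = st m a l c f := by
  funext j; cases j <;> rfl
theorem st_C (m a b c f l : List Bool) : Function.update (st m a b c f) .C l = st m a b l f := by
  funext j; cases j <;> rfl
theorem st_F (m a b c f l : List Bool) : Function.update (st m a b c f) .F l = st m a b c l := by
  funext j; cases j <;> rfl

/-- The program takes the stacks `S` to `S'` in at most `n` steps. -/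
def Ru (p : Prog) (S S' : Key → List Bool) (n : ℕ) : Prop := ∃ t, t ≤ n ∧ Runs p S S' t

theorem Ru.mono {p : Prog} {S S' : Key → List Bool} {n n' : ℕ} (h : Ru p S S' n) (hn : n ≤ n') :
    Ru p S S' n' := by
  obtain ⟨t, ht, h⟩ := h
  exact ⟨t, ht.trans hn, h⟩

theorem Ru.seq {p q : Prog} {S S' S'' : Key → List Bool} {n n' : ℕ} (h : Ru p S S' n)
    (h' : Ru q S' S'' n') : Ru (.seq p q) S S'' (n + n') := by
  obtain ⟨t, ht, h⟩ := h
  obtain ⟨t', ht', h'⟩ := h'
  exact ⟨t + t', by omega, .seq h h'⟩

theorem Ru.skip (S : Key → List Bool) : Ru .skip S S 1 := ⟨1, le_rfl, .skip S⟩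

theorem Ru.push (k : Key) (a : Bool) (S : Key → List Bool) :
    Ru (.push k a) S (Function.update S k (a :: S k)) 1 := ⟨1, le_rfl, .push k a S⟩

theorem Ru.loop_nil {k : Key} {stop : Bool → Bool} {body : Bool → Prog} {S : Key → List Bool}
    (h : S k = []) : Ru (.loop k stop body) S S 1 := ⟨1, le_rfl, .loop_nil h⟩

theorem Ru.loop_stop {k : Key} {stop : Bool → Bool} {body : Bool → Prog} {S : Key → List Bool}
    {a : Bool} {l : List Bool} (h : S k = a :: l) (ha : stop a = true) :
    Ru (.loop k stop body) S (Function.update S k l) 1 := ⟨1, le_rfl, .loop_stop h ha⟩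

theorem Ru.loop_step {k : Key} {stop : Bool → Bool} {body : Bool → Prog}
    {S S' S'' : Key → List Bool} {a : Bool} {l : List Bool} {n n' : ℕ} (h : S k = a :: l)
    (ha : stop a = false) (h1 : Ru (body a) (Function.update S k l) S' n)
    (h2 : Ru (.loop k stop body) S' S'' n') : Ru (.loop k stop body) S S'' (1 + n + n') := by
  obtain ⟨t, ht, h1⟩ := h1
  obtain ⟨t', ht', h2⟩ := h2
  exact ⟨1 + t + t', by omega, .loop_step h ha h1 h2⟩

theorem Ru.cas_cons {k : Key} {e : Prog} {body : Bool → Prog} {S S' : Key → List Bool} {a : Bool}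
    {l : List Bool} {n : ℕ} (h : S k = a :: l) (h1 : Ru (body a) (Function.update S k l) S' n) :
    Ru (.cas k e body) S S' (1 + n) := by
  obtain ⟨t, ht, h1⟩ := h1
  exact ⟨1 + t, by omega, .cas_cons h h1⟩

theorem Ru.cas_nil {k : Key} {e : Prog} {body : Bool → Prog} {S S' : Key → List Bool} {n : ℕ}
    (h : S k = []) (h1 : Ru e S S' n) : Ru (.cas k e body) S S' (1 + n) := by
  obtain ⟨t, ht, h1⟩ := h1
  exact ⟨1 + t, by omega, .cas_nil h h1⟩

theorem Ru.length_le {p : Prog} {S S' : Key → List Bool} {n : ℕ} (h : Ru p S S' n) (j : Key) :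
    (S' j).length ≤ (S j).length + n := by
  obtain ⟨t, ht, h⟩ := h
  have := h.length_le j
  omega

/-! ### Elementary programs -/

/-- Move the whole stack `X` to `Y` (reversing it). -/
def mvP (X Y : Key) : Prog := .loop X (fun _ => false) fun a => .push Y a

/-- Clear the stack `X`. -/
def clP (X : Key) : Prog := .loop X (fun _ => false) fun _ => .skip

/-- Move the word of a tree from the top of `M` to `X` (reversing it); `C` counts the trees still
to be read. -/
def scP (X : Key) : Prog :=
  .seq (.push .C true) (.loop .C (fun _ => false) fun _ => .cas .M .skip fun a =>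
    .seq (.push X a) (if a then .seq (.push .C true) (.push .C true) else .skip))

theorem Ru.conv {p : Prog} {S S' S'' : Key → List Bool} {n n' : ℕ} (h : Ru p S S' n)
    (hS : S' = S'') (hn : n ≤ n') : Ru p S S'' n' := by
  subst hS
  exact h.mono hn

theorem ru_mvAM (m a b c f : List Bool) :
    Ru (mvP .A .M) (st m a b c f) (st (a.reverse ++ m) [] b c f) (2 * a.length + 1) := by
  induction a generalizing m with
  | nil => exact Ru.loop_nil rfl
  | cons x a ih =>
    refine (Ru.loop_step (a := x) (l := a) rfl rfl (S' := st (x :: m) a b c f) (n := 1) ?_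
      (ih (x :: m))).conv (by simp) (by simp; omega)
    rw [st_A]
    exact (Ru.push .M x _).conv (by rw [st_M]; rfl) le_rfl

theorem ru_mvBM (m a b c f : List Bool) :
    Ru (mvP .B .M) (st m a b c f) (st (b.reverse ++ m) a [] c f) (2 * b.length + 1) := by
  induction b generalizing m with
  | nil => exact Ru.loop_nil rfl
  | cons x b ih =>
    refine (Ru.loop_step (a := x) (l := b) rfl rfl (S' := st (x :: m) a b c f) (n := 1) ?_
      (ih (x :: m))).conv (by simp) (by simp; omega)
    rw [st_B]
    exact (Ru.push .M x _).conv (by rw [st_M]; rfl) le_rfl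

theorem ru_mvBA (m a b c f : List Bool) :
    Ru (mvP .B .A) (st m a b c f) (st m (b.reverse ++ a) [] c f) (2 * b.length + 1) := by
  induction b generalizing a with
  | nil => exact Ru.loop_nil rfl
  | cons x b ih =>
    refine (Ru.loop_step (a := x) (l := b) rfl rfl (S' := st m (x :: a) b c f) (n := 1) ?_
      (ih (x :: a))).conv (by simp) (by simp; omega)
    rw [st_B]
    exact (Ru.push .A x _).conv (by rw [st_A]; rfl) le_rfl

theorem ru_clA (m a b c f : List Bool) :
    Ru (clP .A) (st m a b c f) (st m [] b c f) (2 * a.length + 1) := by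
  induction a with
  | nil => exact Ru.loop_nil rfl
  | cons x a ih =>
    refine (Ru.loop_step (a := x) (l := a) rfl rfl (S' := st m a b c f) (n := 1) ?_
      ih).conv rfl (by simp; omega)
    rw [st_A]
    exact Ru.skip _

theorem ru_clB (m a b c f : List Bool) :
    Ru (clP .B) (st m a b c f) (st m a [] c f) (2 * b.length + 1) := by
  induction b with
  | nil => exact Ru.loop_nil rfl
  | cons x b ih =>
    refine (Ru.loop_step (a := x) (l := b) rfl rfl (S' := st m a b c f) (n := 1) ?_
      ih).conv rfl (by simp; omega)
    rw [st_B]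
    exact Ru.skip _

/-- Words of several trees. -/
def encs (l : List Tr) : List Bool := l.flatMap Tr.enc

/-- The loop of `scP A` with one counter symbol for each tree. -/
theorem ru_scA_loop (n : ℕ) : ∀ (l : List Tr) (m a b f : List Bool), (encs l).length = n →
    Ru (.loop .C (fun _ => false) fun _ => .cas .M .skip fun s =>
      .seq (.push .A s) (if s then .seq (.push .C true) (.push .C true) else .skip))
      (st (encs l ++ m) a b (List.replicate l.length true) f)
      (st m ((encs l).reverse ++ a) b [] f) (6 * n + 1) := by
  induction n using Nat.strong_induction_on with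
  | _ n ih =>
    intro l m a b f hn
    match l with
    | [] =>
      subst hn
      exact Ru.loop_nil rfl
    | .nil :: l =>
      have hn' : n = 1 + (encs l).length := by
        rw [← hn]; simp [encs, Tr.enc]; omega
      refine (Ru.loop_step (a := true) (l := List.replicate l.length true) rfl rfl
        (S' := st (encs l ++ m) (false :: a) b (List.replicate l.length true) f) (n := 3) ?_
        (ih (encs l).length (by omega) l m (false :: a) b f rfl)).conv ?_ (by omega)
      · rw [st_C]
        refine (Ru.cas_cons (a := false) (l := encs l ++ m) rfl (n := 2) ?_)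
        rw [st_M]
        refine (Ru.seq (Ru.push .A false _) (Ru.skip _)).conv ?_ le_rfl
        rw [st_A]; rfl
      · simp [encs, Tr.enc]
    | .cons x y :: l =>
      have e1 : encs (.cons x y :: l) = true :: encs (x :: y :: l) := by
        simp [encs, Tr.enc]
      have hn' : n = 1 + (encs (x :: y :: l)).length := by
        rw [← hn, e1, List.length_cons]; omega
      rw [e1]
      refine (Ru.loop_step (a := true) (l := List.replicate l.length true) rfl rfl
        (S' := st (encs (x :: y :: l) ++ m) (true :: a) b
          (List.replicate (x :: y :: l).length true) f) (n := 4) ?_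
        (ih (encs (x :: y :: l)).length (by omega) (x :: y :: l) m (true :: a) b f rfl)).conv
          (by simp) (by omega)
      rw [st_C]
      refine (Ru.cas_cons (a := true) (l := encs (x :: y :: l) ++ m) rfl (n := 3) ?_)
      rw [st_M]
      refine (Ru.seq (Ru.push .A true _) (Ru.seq (Ru.push .C true _) (Ru.push .C true _))).conv
        ?_ le_rfl
      rw [st_A, st_C, st_C]; rfl

theorem ru_scA (x : Tr) (m a b f : List Bool) :
    Ru (scP .A) (st (x.enc ++ m) a b [] f) (st m (x.enc.reverse ++ a) b [] f)
      (6 * x.enc.length + 2) := by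
  have h := ru_scA_loop _ [x] m a b f rfl
  simp only [encs, List.flatMap_cons, List.flatMap_nil, List.append_nil, List.length_cons,
    List.length_nil, Nat.zero_add] at h
  refine (Ru.seq (Ru.push .C true _) ?_).conv rfl (?_ : 1 + (6 * x.enc.length + 1) ≤ _)
  · rw [st_C]; exact h
  · omega

/-- The loop of `scP B` with one counter symbol for each tree. -/
theorem ru_scB_loop (n : ℕ) : ∀ (l : List Tr) (m a b f : List Bool), (encs l).length = n →
    Ru (.loop .C (fun _ => false) fun _ => .cas .M .skip fun s =>
      .seq (.push .B s) (if s then .seq (.push .C true) (.push .C true) else .skip))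
      (st (encs l ++ m) a b (List.replicate l.length true) f)
      (st m a ((encs l).reverse ++ b) [] f) (6 * n + 1) := by
  induction n using Nat.strong_induction_on with
  | _ n ih =>
    intro l m a b f hn
    match l with
    | [] =>
      subst hn
      exact Ru.loop_nil rfl
    | .nil :: l =>
      have hn' : n = 1 + (encs l).length := by
        rw [← hn]; simp [encs, Tr.enc]; omega
      refine (Ru.loop_step (a := true) (l := List.replicate l.length true) rfl rfl
        (S' := st (encs l ++ m) a (false :: b) (List.replicate l.length true) f) (n := 3) ?_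
        (ih (encs l).length (by omega) l m a (false :: b) f rfl)).conv ?_ (by omega)
      · rw [st_C]
        refine (Ru.cas_cons (a := false) (l := encs l ++ m) rfl (n := 2) ?_)
        rw [st_M]
        refine (Ru.seq (Ru.push .B false _) (Ru.skip _)).conv ?_ le_rfl
        rw [st_B]; rfl
      · simp [encs, Tr.enc]
    | .cons x y :: l =>
      have e1 : encs (.cons x y :: l) = true :: encs (x :: y :: l) := by
        simp [encs, Tr.enc]
      have hn' : n = 1 + (encs (x :: y :: l)).length := by
        rw [← hn, e1, List.length_cons]; omega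
      rw [e1]
      refine (Ru.loop_step (a := true) (l := List.replicate l.length true) rfl rfl
        (S' := st (encs (x :: y :: l) ++ m) a (true :: b)
          (List.replicate (x :: y :: l).length true) f) (n := 4) ?_
        (ih (encs (x :: y :: l)).length (by omega) (x :: y :: l) m a (true :: b) f rfl)).conv
          (by simp) (by omega)
      rw [st_C]
      refine (Ru.cas_cons (a := true) (l := encs (x :: y :: l) ++ m) rfl (n := 3) ?_)
      rw [st_M]
      refine (Ru.seq (Ru.push .B true _) (Ru.seq (Ru.push .C true _) (Ru.push .C true _))).conv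
        ?_ le_rfl
      rw [st_B, st_C, st_C]; rfl

theorem ru_scB (x : Tr) (m a b f : List Bool) :
    Ru (scP .B) (st (x.enc ++ m) a b [] f) (st m a (x.enc.reverse ++ b) [] f)
      (6 * x.enc.length + 2) := by
  have h := ru_scB_loop _ [x] m a b f rfl
  simp only [encs, List.flatMap_cons, List.flatMap_nil, List.append_nil, List.length_cons,
    List.length_nil, Nat.zero_add] at h
  refine (Ru.seq (Ru.push .C true _) ?_).conv rfl (?_ : 1 + (6 * x.enc.length + 1) ≤ _)
  · rw [st_C]; exact h
  · omega

/-! ### Programs on the top words of `M` -/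

/-- Delete the top word. -/
def dropP : Prog := .seq (scP .A) (clP .A)

theorem ru_drop (x : Tr) (m f : List Bool) :
    Ru dropP (st (x.enc ++ m) [] [] [] f) (st m [] [] [] f) (8 * x.enc.length + 3) := by
  refine (Ru.seq (ru_scA x m [] [] f) (ru_clA m _ [] [] f)).conv rfl ?_
  simp; omega

/-- Push a given word. -/
def pushP : List Bool → Prog
  | [] => .skip
  | s :: w => .seq (pushP w) (.push .M s)

theorem ru_push (w m a b c f : List Bool) :
    Ru (pushP w) (st m a b c f) (st (w ++ m) a b c f) (w.length + 1) := by
  induction w with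
  | nil => exact Ru.skip _
  | cons s w ih =>
    refine (ih.seq (Ru.push .M s _)).conv ?_ (by simp)
    rw [st_M]; rfl

/-- Move `A` to `M` and to `B`. -/
def mv2P : Prog := .loop .A (fun _ => false) fun s => .seq (.push .M s) (.push .B s)

theorem ru_mv2 (m a b c f : List Bool) :
    Ru mv2P (st m a b c f) (st (a.reverse ++ m) [] (a.reverse ++ b) c f) (3 * a.length + 1) := by
  induction a generalizing m b with
  | nil => exact Ru.loop_nil rfl
  | cons x a ih =>
    refine (Ru.loop_step (a := x) (l := a) rfl rfl (S' := st (x :: m) a (x :: b) c f) (n := 2) ?_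
      (ih (x :: m) (x :: b))).conv (by simp) (by simp; omega)
    rw [st_A]
    refine (Ru.seq (Ru.push .M x _) (Ru.push .B x _)).conv ?_ le_rfl
    rw [st_M, st_B]; rfl

/-- Duplicate the top word. -/
def dupP : Prog := .seq (scP .A) (.seq mv2P (.seq (mvP .B .A) (mvP .A .M)))

theorem ru_dup (x : Tr) (m f : List Bool) :
    Ru dupP (st (x.enc ++ m) [] [] [] f) (st (x.enc ++ (x.enc ++ m)) [] [] [] f)
      (20 * x.enc.length + 20) := by
  have h1 := ru_scA x m [] [] f
  have h2 := ru_mv2 m (x.enc.reverse ++ []) [] [] f
  have h3 := ru_mvBA (x.enc ++ m) [] x.enc [] f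
  have h4 := ru_mvAM (x.enc ++ m) (x.enc.reverse ++ []) [] [] f
  simp only [List.append_nil, List.reverse_reverse, List.length_reverse] at h1 h2 h3 h4
  exact (h1.seq (h2.seq (h3.seq h4))).conv rfl (by omega)

/-- Exchange the two top words. -/
def swapP : Prog := .seq (scP .A) (.seq (scP .B) (.seq (mvP .A .M) (mvP .B .M)))

theorem ru_swap (x y : Tr) (m f : List Bool) :
    Ru swapP (st (x.enc ++ (y.enc ++ m)) [] [] [] f) (st (y.enc ++ (x.enc ++ m)) [] [] [] f)
      (20 * (x.enc.length + y.enc.length) + 20) := by
  have h1 := ru_scA x (y.enc ++ m) [] [] f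
  have h2 := ru_scB y m x.enc.reverse [] f
  have h3 := ru_mvAM m x.enc.reverse y.enc.reverse [] f
  have h4 := ru_mvBM (x.enc ++ m) [] y.enc.reverse [] f
  simp only [List.append_nil, List.reverse_reverse, List.length_reverse] at h1 h2 h3 h4
  exact (h1.seq (h2.seq (h3.seq h4))).conv rfl (by omega)

/-- First component. -/
def fstP : Prog := .cas .M .skip fun _ =>
  .seq (scP .A) (.seq (scP .B) (.seq (clP .B) (mvP .A .M)))

theorem ru_fst (x y : Tr) (m f : List Bool) :
    Ru fstP (st ((Tr.cons x y).enc ++ m) [] [] [] f) (st (x.enc ++ m) [] [] [] f)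
      (20 * (x.enc.length + y.enc.length) + 20) := by
  have h1 := ru_scA x (y.enc ++ m) [] [] f
  have h2 := ru_scB y m x.enc.reverse [] f
  have h3 := ru_clB m x.enc.reverse y.enc.reverse [] f
  have h4 := ru_mvAM m x.enc.reverse [] [] f
  simp only [List.append_nil, List.reverse_reverse, List.length_reverse] at h1 h2 h3 h4
  refine (Ru.cas_cons (a := true) (l := x.enc ++ (y.enc ++ m)) ?_ ?_
    (n := (6 * x.enc.length + 2) + ((6 * y.enc.length + 2) + ((2 * y.enc.length + 1) +
      (2 * x.enc.length + 1))))).conv rfl (by omega)
  · simp [st, Tr.enc]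
  · rw [st_M]; exact h1.seq (h2.seq (h3.seq h4))

/-- Second component. -/
def sndP : Prog := .cas .M .skip fun _ => dropP

theorem ru_snd (x y : Tr) (m f : List Bool) :
    Ru sndP (st ((Tr.cons x y).enc ++ m) [] [] [] f) (st (y.enc ++ m) [] [] [] f)
      (20 * (x.enc.length + y.enc.length) + 20) := by
  refine (Ru.cas_cons (a := true) (l := x.enc ++ (y.enc ++ m)) ?_ ?_
    (n := 8 * x.enc.length + 3)).conv rfl (by omega)
  · simp [st, Tr.enc]
  · rw [st_M]; exact ru_drop x (y.enc ++ m) f

/-- Run `p` if the top word is `code true` and `q` if it is `code false`; the word is deleted. -/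
def ifP (p q : Prog) : Prog := .cas .M .skip fun s =>
  if s then .cas .M .skip fun _ => .cas .M .skip fun _ => p else q

theorem ru_if_true {p q : Prog} {m f : List Bool} {S : Key → List Bool} {n : ℕ}
    (h : Ru p (st m [] [] [] f) S n) :
    Ru (ifP p q) (st (code true ++ m) [] [] [] f) S (n + 3) := by
  refine (Ru.cas_cons (a := true) (l := false :: false :: m) (by simp [st, code_true])
    (n := n + 2) ?_).conv rfl (by omega)
  rw [st_M]
  refine (Ru.cas_cons (a := false) (l := false :: m) rfl (n := n + 1) ?_).conv rfl (by omega)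
  rw [st_M]
  refine (Ru.cas_cons (a := false) (l := m) rfl (n := n) ?_).conv rfl (by omega)
  rw [st_M]
  exact h

theorem ru_if_false {p q : Prog} {m f : List Bool} {S : Key → List Bool} {n : ℕ}
    (h : Ru q (st m [] [] [] f) S n) :
    Ru (ifP p q) (st (code false ++ m) [] [] [] f) S (n + 3) := by
  refine (Ru.cas_cons (a := false) (l := m) (by simp [st, code_false])
    (n := n) ?_).conv rfl (by omega)
  rw [st_M]
  exact h

/-- If the top word is a leaf delete it and run `q`; if it is the word of `cons x y` replace it by
the words of `x` and `y` and run `p`. -/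
def caseP (q p : Prog) : Prog := .cas .M .skip fun s => if s then p else q

theorem ru_case_nil {p q : Prog} {m f : List Bool} {S : Key → List Bool} {n : ℕ}
    (h : Ru q (st m [] [] [] f) S n) :
    Ru (caseP q p) (st (Tr.nil.enc ++ m) [] [] [] f) S (n + 1) := by
  refine (Ru.cas_cons (a := false) (l := m) (by simp [st, Tr.enc])
    (n := n) ?_).conv rfl (by omega)
  rw [st_M]
  exact h

theorem ru_case_cons {p q : Prog} {x y : Tr} {m f : List Bool} {S : Key → List Bool} {n : ℕ}
    (h : Ru p (st (x.enc ++ (y.enc ++ m)) [] [] [] f) S n) :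
    Ru (caseP q p) (st ((Tr.cons x y).enc ++ m) [] [] [] f) S (n + 1) := by
  refine (Ru.cas_cons (a := true) (l := x.enc ++ (y.enc ++ m)) (by simp [st, Tr.enc])
    (n := n) ?_).conv rfl (by omega)
  rw [st_M]
  exact h

/-- While the test `t` is true of the top word run `p`. -/
def whileP (t p : Prog) : Prog :=
  .seq (.push .F false) (.seq (.push .F true) (.loop .F (fun s => !s) fun _ =>
    .seq dupP (.seq t (ifP (.seq p (.push .F true)) .skip))))

theorem ru_while (t p : Prog) (n T : ℕ) (x : ℕ → Tr)
    (ht : ∀ j ≤ n, ∀ m f, Ru t (st ((x j).enc ++ m) [] [] [] f)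
      (st (code (decide (j < n)) ++ m) [] [] [] f) T)
    (hp : ∀ j < n, ∀ m f, Ru p (st ((x j).enc ++ m) [] [] [] f)
      (st ((x (j + 1)).enc ++ m) [] [] [] f) T)
    (hx : ∀ j ≤ n, (x j).enc.length ≤ T) (m f : List Bool) :
    Ru (whileP t p) (st ((x 0).enc ++ m) [] [] [] f) (st ((x n).enc ++ m) [] [] [] f)
      ((n + 1) * (40 * T + 40)) := by
  have key : ∀ i j, j + i = n → Ru (.loop .F (fun s => !s) fun _ =>
      .seq dupP (.seq t (ifP (.seq p (.push .F true)) .skip)))
      (st ((x j).enc ++ m) [] [] [] (true :: false :: f)) (st ((x n).enc ++ m) [] [] [] f)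
      ((i + 1) * (40 * T + 30)) := by
    intro i
    induction i with
    | zero =>
      intro j hj
      have hj' : j = n := by omega
      subst hj'
      have h1 := ru_dup (x j) m (false :: f)
      have h2 := ht j le_rfl ((x j).enc ++ m) (false :: f)
      rw [decide_eq_false (lt_irrefl j)] at h2
      have h3 := ru_if_false (p := .seq p (.push .F true)) (q := .skip) (Ru.skip
        (st ((x j).enc ++ m) [] [] [] (false :: f)))
      have h4 := hx j le_rfl
      refine (Ru.loop_step (a := true) (l := false :: f) rfl rfl ?_
        ((Ru.loop_stop (a := false) (l := f) rfl rfl :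
          Ru _ (st ((x j).enc ++ m) [] [] [] (false :: f)) _ 1))
        (n := 20 * T + 20 + (T + 4))).conv ?_ (by omega)
      · rw [st_F]
        exact (h1.seq (h2.seq h3)).mono (by omega)
      · rw [st_F]
    | succ i ih =>
      intro j hj
      have h1 := ru_dup (x j) m (false :: f)
      have h2 := ht j (by omega) ((x j).enc ++ m) (false :: f)
      rw [decide_eq_true (by omega : j < n)] at h2
      have h3 := ru_if_true (q := .skip) ((hp j (by omega) m (false :: f)).seq
        (Ru.push .F true _))
      have h4 := hx j (by omega)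
      rw [st_F] at h3
      refine (Ru.loop_step (a := true) (l := false :: f) rfl rfl ?_ (ih (j + 1) (by omega))
        (n := 20 * T + 20 + (T + (T + 1 + 3)))).conv rfl ?_
      · rw [st_F]
        exact (h1.seq (h2.seq h3)).mono (by omega)
      · have : (i + 1 + 1) * (40 * T + 30) = (i + 1) * (40 * T + 30) + (40 * T + 30) := by ring
        omega
  have h := key n 0 (by omega)
  refine (Ru.seq (Ru.push .F false _) (Ru.seq (Ru.push .F true _) ?_)).conv rfl
    (?_ : 1 + (1 + (n + 1) * (40 * T + 30)) ≤ _)
  · rw [st_F, st_F]
    exact h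
  · have : (n + 1) * (40 * T + 40) = (n + 1) * (40 * T + 30) + (n + 1) * 10 := by ring
    omega

end EWC
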