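import Mathlib

/-!
# Project EWC (MP_27e0e0_lc): binary trees as data and their codes

All data are coded by binary trees, and a tree by its word over `{true, false}` in prefix notation
(`true` = inner node, `false` = leaf).  `code a` is the word of `a`.
-/

set_option autoImplicit false

namespace EWC

/-- Binary trees. -/
inductive Tr : Type
  | nil : Tr
  | cons (a b : Tr) : Tr
  deriving DecidableEq

/-- The word of a tree: prefix notation. -/
def Tr.enc : Tr → List Bool
  | .nil => [false]
  | .cons a b => true :: (a.enc ++ b.enc)

/-- Types whose elements are coded by trees. -/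
class Dat (α : Type) where
  tr : α → Tr
  tr_inj : Function.Injective tr

export Dat (tr)

instance : Dat Unit where
  tr _ := .nil
  tr_inj := fun _ _ _ => rfl

/-- `false` is a leaf, `true` is the tree with one inner node. -/
instance : Dat Bool where
  tr b := match b with
    | false => .nil
    | true => .cons .nil .nil
  tr_inj := by
    intro a b h
    cases a <;> cases b <;> simp_all

/-- The tree of a number: the list of `n` leaves (unary notation). -/
def natTr : ℕ → Tr
  | 0 => .nil
  | n + 1 => .cons .nil (natTr n)

theorem natTr_inj : Function.Injective natTr := by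
  intro a
  induction a with
  | zero =>
    intro b h
    cases b with
    | zero => rfl
    | succ b => simp [natTr] at h
  | succ a ih =>
    intro b h
    cases b with
    | zero => simp [natTr] at h
    | succ b =>
      simp only [natTr, Tr.cons.injEq, true_and] at h
      rw [ih h]

instance : Dat ℕ where
  tr := natTr
  tr_inj := natTr_inj

instance {α β : Type} [Dat α] [Dat β] : Dat (α × β) where
  tr p := .cons (tr p.1) (tr p.2)
  tr_inj := by
    rintro ⟨a, b⟩ ⟨a', b'⟩ h
    simp only [Tr.cons.injEq] at h
    rw [Dat.tr_inj h.1, Dat.tr_inj h.2]

/-- The tree of a list. -/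
def listTr {α : Type} [Dat α] : List α → Tr
  | [] => .nil
  | a :: l => .cons (tr a) (listTr l)

theorem listTr_inj {α : Type} [Dat α] : Function.Injective (listTr (α := α)) := by
  intro l
  induction l with
  | nil =>
    intro l' h
    cases l' with
    | nil => rfl
    | cons b l' => simp [listTr] at h
  | cons a l ih =>
    intro l' h
    cases l' with
    | nil => simp [listTr] at h
    | cons b l' =>
      simp only [listTr, Tr.cons.injEq] at h
      rw [Dat.tr_inj h.1, ih h.2]

instance {α : Type} [Dat α] : Dat (List α) where
  tr := listTr
  tr_inj := listTr_inj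

section

variable {α β : Type} [Dat α] [Dat β]

theorem tr_unit (x : Unit) : tr x = .nil := rfl
theorem tr_false : tr false = .nil := rfl
theorem tr_true : tr true = .cons .nil .nil := rfl
theorem tr_zero : tr (0 : ℕ) = .nil := rfl
theorem tr_succ (n : ℕ) : tr (n + 1) = .cons .nil (tr n) := rfl
theorem tr_pair (a : α) (b : β) : tr (a, b) = .cons (tr a) (tr b) := rfl
theorem tr_nil : tr ([] : List α) = .nil := rfl
theorem tr_cons (a : α) (l : List α) : tr (a :: l) = .cons (tr a) (tr l) := rfl

/-- The word which codes `a`. -/
def code (a : α) : List Bool := (tr a).enc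

/-- The size of `a`: the length of its word. -/
def sz (a : α) : ℕ := (code a).length

theorem code_false : code false = [false] := rfl
theorem code_true : code true = [true, false, false] := rfl
theorem code_unit (x : Unit) : code x = [false] := rfl
theorem code_zero : code (0 : ℕ) = [false] := rfl
theorem code_succ (n : ℕ) : code (n + 1) = true :: false :: code n := rfl
theorem code_pair (a : α) (b : β) : code (a, b) = true :: (code a ++ code b) := rfl
theorem code_nil : code ([] : List α) = [false] := rfl
theorem code_cons (a : α) (l : List α) : code (a :: l) = true :: (code a ++ code l) := rfl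

theorem sz_false : sz false = 1 := rfl
theorem sz_true : sz true = 3 := rfl
theorem sz_unit (x : Unit) : sz x = 1 := rfl

theorem sz_bool (b : Bool) : sz b ≤ 3 := by cases b <;> decide

theorem sz_nat (n : ℕ) : sz n = 2 * n + 1 := by
  induction n with
  | zero => rfl
  | succ n ih =>
    have : sz (n + 1) = sz n + 2 := by
      simp only [sz, code_succ, List.length_cons]
    omega

theorem sz_pair (a : α) (b : β) : sz (a, b) = sz a + sz b + 1 := by
  simp [sz, code_pair]

theorem sz_nil : sz ([] : List α) = 1 := rfl

theorem sz_cons (a : α) (l : List α) : sz (a :: l) = sz a + sz l + 1 := by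
  simp [sz, code_cons]

theorem Tr.enc_length_pos (x : Tr) : 1 ≤ x.enc.length := by
  cases x <;> simp [Tr.enc]

theorem sz_pos (a : α) : 1 ≤ sz a := Tr.enc_length_pos _

theorem sz_append (l l' : List α) : sz (l ++ l') + 1 = sz l + sz l' := by
  induction l with
  | nil => simp [sz_nil]; omega
  | cons a l ih => rw [List.cons_append, sz_cons, sz_cons]; omega

/-- The size of a list is the sum of the sizes of its elements plus the length plus one. -/
theorem sz_list (l : List α) : sz l = (l.map fun a => sz a + 1).sum + 1 := by
  induction l with
  | nil => rfl
  | cons a l ih => rw [sz_cons, List.map_cons, List.sum_cons, ih]; omega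

theorem length_le_sz (l : List α) : 2 * l.length + 1 ≤ sz l := by
  induction l with
  | nil => simp [sz_nil]
  | cons a l ih =>
    rw [sz_cons, List.length_cons]
    have := sz_pos a
    omega

theorem sz_le_of_mem {l : List α} {a : α} (h : a ∈ l) : sz a + 2 ≤ sz l := by
  induction l with
  | nil => simp at h
  | cons b l ih =>
    rw [sz_cons]
    have h1 := sz_pos b
    have h2 := sz_pos l
    rcases List.mem_cons.mp h with rfl | h
    · omega
    · have := ih h
      omega

/-- A list with elements of size at most `B`. -/
theorem sz_list_le {l : List α} {B : ℕ} (h : ∀ a ∈ l, sz a ≤ B) :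
    sz l ≤ l.length * (B + 1) + 1 := by
  induction l with
  | nil => simp [sz_nil]
  | cons b l ih =>
    rw [sz_cons, List.length_cons]
    have h1 := h b (by simp)
    have h2 := ih fun a ha => h a (by simp [ha])
    have : (l.length + 1) * (B + 1) = l.length * (B + 1) + (B + 1) := by ring
    omega

theorem sz_le_of_sublist {l l' : List α} (h : l.Sublist l') : sz l ≤ sz l' := by
  induction h with
  | slnil => exact le_rfl
  | cons a _ ih => rw [sz_cons]; omega
  | cons_cons a _ ih => rw [sz_cons, sz_cons]; omega

end

/-- Words of trees form a prefix code. -/
theorem Tr.enc_append_inj (x : Tr) : ∀ (y : Tr) (l l' : List Bool),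
    x.enc ++ l = y.enc ++ l' → x = y ∧ l = l' := by
  induction x with
  | nil =>
    intro y l l' h
    cases y with
    | nil => simpa [Tr.enc] using h
    | cons a b => simp [Tr.enc] at h
  | cons a b iha ihb =>
    intro y l l' h
    cases y with
    | nil => simp [Tr.enc] at h
    | cons a' b' =>
      simp only [Tr.enc, List.cons_append, List.cons.injEq, true_and, List.append_assoc] at h
      obtain ⟨h1, h2⟩ := iha a' _ _ h
      obtain ⟨h3, h4⟩ := ihb b' _ _ h2
      exact ⟨by rw [h1, h3], h4⟩

theorem Tr.enc_inj : Function.Injective Tr.enc := by
  intro x y h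
  exact (Tr.enc_append_inj x y [] [] (by rw [h])).1

theorem code_inj {α : Type} [Dat α] : Function.Injective (code (α := α)) :=
  Tr.enc_inj.comp Dat.tr_inj

end EWC
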